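import Pool.Agent.Lib.MP_4269b5_al.AgL2

/-! Projective modules over group rings of dimension one. -/

set_option linter.unusedSectionVars false
set_option linter.unusedVariables false

namespace Pool.Agent.Lib.MP_4269b5_al.Ag

noncomputable section

variable {G : Type} [Group G] {W : Type} [AddCommMonoid W] [Module ℝ W]

/-- group elements in the real group ring -/
def rg : G →* RG G := MonoidAlgebra.of ℝ G

/-- linear extension -/
def lin (f : G → W) : RG G →ₗ[ℝ] W :=
  Finsupp.linearCombination ℝ f ∘ₗ (MonoidAlgebra.coeffLinearEquiv ℝ).toLinearMap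

theorem lin_rg (f : G → W) (g : G) : lin f (rg g) = f g := by
  have : lin f (rg g) = Finsupp.linearCombination ℝ f (Finsupp.single g 1) := rfl
  rw [this, Finsupp.linearCombination_single, one_smul]

theorem RG.ind {p : RG G → Prop} (h0 : p 0) (ha : ∀ x y, p x → p y → p (x + y))
    (hs : ∀ (r : ℝ) (g : G), p (r • rg g)) (x : RG G) : p x :=
  MonoidAlgebra.induction_linear x h0 ha fun g r => by
    rw [← MonoidAlgebra.smul_of]; exact hs r g

theorem lin_ext {f g : RG G →ₗ[ℝ] W} (h : ∀ a, f (rg a) = g (rg a)) : f = g :=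
  LinearMap.ext (RG.ind (by simp) (fun x y a b => by rw [map_add, map_add, a, b])
    fun r a => by rw [map_smul, map_smul, h])

/-- augmentation -/
def aug : RG G →ₐ[ℝ] ℝ := MonoidAlgebra.lift ℝ ℝ G 1

theorem aug_rg (g : G) : aug (rg g) = 1 := MonoidAlgebra.lift_of _ _

theorem exists_cocycle (hc : ∀ g : G, g ≠ 1 → ∃ c : G → ℝ, c g = 1 ∧
    ∀ x y, Commute x g → Commute y g → c (x * y) = c x + c y) :
    ∃ ω : G → G → ℝ, (∀ b b' x, ω (b * b') x = ω b x + ω b' (b⁻¹ * x * b)) ∧ ω 1 1 = 0 ∧
      ∀ x, x ≠ 1 → ω x x = 1 := by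
  have hc' : ∀ g : G, ∃ c : G → ℝ, (g ≠ 1 → c g = 1) ∧
      ∀ x y, Commute x g → Commute y g → c (x * y) = c x + c y := fun g => by
    by_cases e : g = 1
    · exact ⟨0, fun z => absurd e z, by simp⟩
    · exact (hc g e).imp fun c h => ⟨fun _ => h.1, h.2⟩
  choose c c1 c2 using hc'
  set r : G → G := fun x => (ConjClasses.mk x).out
  have r1 : ∀ b x, r (b⁻¹ * x * b) = r x := fun b x => congrArg Quotient.out
    (ConjClasses.mk_eq_mk_iff_isConj.2 (isConj_iff.2 ⟨b, by group⟩))
  choose k hk using fun x : G => isConj_iff.1 (ConjClasses.mk_eq_mk_iff_isConj.1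
    (Quotient.out_eq (ConjClasses.mk x)).symm)
  have cm : ∀ b x, Commute (k x * b * (k (b⁻¹ * x * b))⁻¹) (r x) := fun b x => by
    have e1 : k x * x * (k x)⁻¹ = r x := hk x
    have e2 : k (b⁻¹ * x * b) * (b⁻¹ * x * b) * (k (b⁻¹ * x * b))⁻¹ = r x := (hk _).trans (r1 b x)
    rw [Commute, SemiconjBy]
    nth_rw 1 [← e2]
    rw [← e1]
    group
  have ad : ∀ b b' x, c (r x) (k x * (b * b') * (k ((b * b')⁻¹ * x * (b * b')))⁻¹) =
      c (r x) (k x * b * (k (b⁻¹ * x * b))⁻¹) + c (r (b⁻¹ * x * b)) (k (b⁻¹ * x * b) * b' *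
        (k (b'⁻¹ * (b⁻¹ * x * b) * b'))⁻¹) := fun b b' x => by
    rw [r1, ← c2 _ _ _ (cm b x) (r1 b x ▸ cm b' _)]
    congr 1
    group
  refine ⟨fun b x => c (r x) (k x * b * (k (b⁻¹ * x * b))⁻¹), ad, ?_, fun x hx => ?_⟩
  · have := ad 1 1 1
    simp only [mul_one, inv_one] at this ⊢
    linarith
  · have e1 : k x * x * (k x)⁻¹ = r x := hk x
    simp only [inv_mul_cancel, one_mul, e1]
    exact c1 _ fun z => hx (by simpa [z] using e1)

variable {ι : Type} [Fintype ι] [DecidableEq ι]

theorem bass (hc : ∀ g : G, g ≠ 1 → ∃ c : G → ℝ, c g = 1 ∧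
    ∀ x y, Commute x g → Commute y g → c (x * y) = c x + c y) {e : Matrix ι ι (RG G)}
    (he : e * e = e) : ∃ n : ℕ, e.trace.coeff 1 = n := by
  classical
  obtain ⟨ω, w1, w2, w3⟩ := exists_cocycle hc
  set φ : RG G →ₗ[ℝ] RG G →ₗ[ℝ] ℝ := lin fun a => lin fun b => ω a (a * b)
  have p0 : ∀ a b, φ (rg a) (rg b) = ω a (a * b) := fun a b => by rw [lin_rg, lin_rg]
  have p1 : ∀ x y z, φ (x * y) z = φ x (y * z) + φ y (z * x) := fun x y z => by
    induction x using RG.ind with
    | h0 => simp
    | ha a b ha hb => simp only [add_mul, mul_add, map_add, LinearMap.add_apply, ha, hb]; ring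
    | hs r a =>
      induction y using RG.ind with
      | h0 => simp
      | ha a b ha hb => simp only [add_mul, mul_add, map_add, LinearMap.add_apply, ha, hb]; ring
      | hs s b =>
        induction z using RG.ind with
        | h0 => simp
        | ha a b ha hb => simp only [add_mul, mul_add, map_add, ha, hb]; ring
        | hs u c =>
          simp only [smul_mul_smul_comm, ← map_mul, map_smul, LinearMap.smul_apply, p0, w1,
            smul_eq_mul, mul_assoc, inv_mul_cancel_left]
          ring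
  have p2 : ∀ x y, φ x y + φ y x = aug (x * y) - (x * y).coeff 1 := fun x y => by
    induction x using RG.ind with
    | h0 => simp
    | ha a b ha hb =>
      simp only [add_mul, map_add, LinearMap.add_apply, MonoidAlgebra.coeff_add,
        Finsupp.add_apply]
      linarith
    | hs r a =>
      induction y using RG.ind with
      | h0 => simp
      | ha a b ha hb =>
        simp only [mul_add, map_add, LinearMap.add_apply, MonoidAlgebra.coeff_add,
          Finsupp.add_apply]
        linarith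
      | hs s b =>
        have e1 := w1 a b (a * b)
        rw [inv_mul_cancel_left] at e1
        have e2 : ω (a * b) (a * b) = 1 - (rg (a * b)).coeff 1 := by
          change _ = 1 - Finsupp.single (a * b) (1 : ℝ) 1
          by_cases z : a * b = 1
          · simp [z, w2]
          · simp [w3 _ z, z]
        simp only [smul_mul_smul_comm, ← map_mul, map_smul, LinearMap.smul_apply, p0, aug_rg,
          smul_eq_mul, MonoidAlgebra.coeff_smul, Finsupp.smul_apply]
        linear_combination (r * s) * (e2 - e1)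
  have me : ∀ i j, ∑ k, e i k * e k j = e i j := fun i j => congrFun (congrFun he i) j
  have q1 : ∑ i, ∑ j, φ (e i j) (e j i) = 0 := by
    have a : ∑ i, ∑ j, φ (e i j) (e j i) = ∑ i, ∑ j, ∑ k, φ (e i k * e k j) (e j i) := by
      simp only [← LinearMap.sum_apply, ← map_sum, me]
    have b : ∑ i, ∑ j, ∑ k, φ (e i k) (e k j * e j i) = ∑ i, ∑ j, φ (e i j) (e j i) := by
      refine Finset.sum_congr rfl fun i _ => ?_
      rw [Finset.sum_comm]
      simp only [← map_sum, me]
    have c : ∑ i, ∑ j, ∑ k, φ (e k j) (e j i * e i k) = ∑ i, ∑ j, φ (e i j) (e j i) := by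
      rw [Finset.sum_comm, Finset.sum_comm (f := fun i j => φ (e i j) (e j i))]
      refine Finset.sum_congr rfl fun j _ => ?_
      rw [Finset.sum_comm]
      simp only [← map_sum, me]
    simp only [p1, Finset.sum_add_distrib, b, c] at a
    linarith
  have q2 : e.trace.coeff 1 = aug e.trace := by
    have a : ∑ i, ∑ j, (φ (e i j) (e j i) + φ (e j i) (e i j)) = 0 := by
      simp only [Finset.sum_add_distrib]
      rw [Finset.sum_comm (f := fun i j => φ (e j i) (e i j)), q1, add_zero]
    have b : ∀ x : ι → RG G, ∑ i, (x i).coeff 1 = (∑ i, x i).coeff 1 := fun x =>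
      (map_sum (AddMonoidHom.mk' (fun z : RG G => z.coeff 1) fun _ _ => rfl) _ _).symm
    simp only [p2, Finset.sum_sub_distrib, ← map_sum, b, me] at a
    exact (sub_eq_zero.1 a).symm
  have q3 : IsIdempotentElem (Matrix.toLin' (e.map aug)) := by
    rw [IsIdempotentElem, Module.End.mul_eq_comp, ← Matrix.toLin'_mul, ← Matrix.map_mul, he]
  refine ⟨Module.finrank ℝ (LinearMap.range (Matrix.toLin' (e.map aug))), ?_⟩
  rw [q2, ← (LinearMap.IsIdempotentElem.isProj_range _ q3).trace, Matrix.trace_toLin'_eq]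
  exact map_sum aug _ _

variable {I : Type}

/-- linear extension on a free module -/
def lin2 (c : I → G → W) : (I →₀ RG G) →ₗ[ℝ] W := Finsupp.lsum ℝ fun k => lin (c k)

theorem lin2_rg (c : I → G → W) (k : I) (g : G) : lin2 c (Finsupp.single k (rg g)) = c k g := by
  rw [lin2, Finsupp.lsum_single, lin_rg]

theorem lin2_ext {f g : (I →₀ RG G) →ₗ[ℝ] W}
    (h : ∀ k a, f (Finsupp.single k (rg a)) = g (Finsupp.single k (rg a))) : f = g :=
  Finsupp.lhom_ext' fun k => lin_ext (h k)

/-- an equivariant map is linear over the group ring -/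
def mkR (f : (I →₀ RG G) →ₗ[ℝ] (I →₀ RG G)) (h : ∀ (a : G) y, f (rg a • y) = rg a • f y) :
    (I →₀ RG G) →ₗ[RG G] (I →₀ RG G) where
  toFun := f
  map_add' := f.map_add
  map_smul' r y := by
    induction r using RG.ind with
    | h0 => simp
    | ha a b ha hb => simp only [add_smul, map_add, ha, hb, RingHom.id_apply]
    | hs r a => simp only [smul_assoc, map_smul, h, RingHom.id_apply]

/-- the augmentation ideal is a retract of a free module -/
structure Cd1 (t : G → I →₀ RG G) (bd : (I →₀ RG G) →ₗ[RG G] RG G) : Prop where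
  der : ∀ a b, t (a * b) = rg a • t b + t a
  sec : ∀ a, bd (t a) = rg a - 1
  aug : ∀ y, aug (bd y) = 0

variable {t : G → I →₀ RG G} {bd : (I →₀ RG G) →ₗ[RG G] RG G}

theorem exists_conj (I : Type) : ∃ Θ : RG G →ₐ[ℝ] Module.End ℝ ((I →₀ RG G) →ₗ[ℝ] (I →₀ RG G)),
    ∀ a f y, Θ (rg a) f y = rg a • f (rg a⁻¹ • y) := by
  set ρ : Representation ℝ G (I →₀ RG G) := (DistribMulAction.toModuleEnd ℝ (I →₀ RG G)).comp rg
  exact ⟨(ρ.linHom ρ).asAlgebraHom, fun a f y => by
    rw [show (ρ.linHom ρ).asAlgebraHom (rg a) = _ from Representation.asAlgebraHom_of _ a]; rfl⟩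

theorem exists_lin2 (c : I → G → W) :
    ∃ f : (I →₀ RG G) →ₗ[ℝ] W, ∀ k g, f (Finsupp.single k (rg g)) = c k g := ⟨_, lin2_rg c⟩

theorem ind2 {p : (I →₀ RG G) → Prop} (h0 : p 0) (ha : ∀ x y, p x → p y → p (x + y))
    (hs : ∀ (r : ℝ) k (g : G), p (r • Finsupp.single k (rg g))) (x : I →₀ RG G) : p x :=
  Finsupp.induction_linear x h0 ha fun k z => by
    induction z using RG.ind with
    | h0 => rwa [Finsupp.single_zero]
    | ha a b h1 h2 => rw [Finsupp.single_add]; exact ha _ _ h1 h2
    | hs r g => rw [← Finsupp.smul_single]; exact hs r k g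

theorem her (C : Cd1 t bd) (q : (I →₀ RG G) →ₗ[RG G] (I →₀ RG G)) :
    ∃ w : (I →₀ RG G) →ₗ[RG G] (I →₀ RG G), (∀ y, q (w y) = q y) ∧ ∀ y, q y = 0 → w y = 0 := by
  obtain ⟨θ, θ1⟩ := exists_conj (G := G) I
  have cn : ∀ (a : G) (y : I →₀ RG G), rg a • rg a⁻¹ • y = y := fun a y => by
    rw [smul_smul, ← map_mul, mul_inv_cancel, map_one, one_smul]
  obtain ⟨q', hq⟩ : ∃ q' : (I →₀ RG G) →ₗ[ℝ] (I →₀ RG G), ∀ y, q' y = q y :=
    ⟨q.restrictScalars ℝ, fun _ => rfl⟩
  have : Module.Free ℝ q'.range := Module.Free.of_divisionRing ℝ q'.range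
  have : Module.Projective ℝ q'.range := Module.Projective.of_free
  obtain ⟨s0, hs0⟩ := q'.rangeRestrict.exists_rightInverse_of_surjective q'.range_rangeRestrict
  obtain ⟨t0, ht0⟩ := s0.exists_extend
  have t1 : ∀ y, q (t0 (q y)) = q y := fun y => by
    have a : t0 (q' y) = s0 ⟨q' y, y, rfl⟩ := DFunLike.congr_fun ht0 ⟨q' y, y, rfl⟩
    rw [← hq, ← hq, a]
    exact congrArg Subtype.val (DFunLike.congr_fun hs0 ⟨q' y, y, rfl⟩)
  have A2 : ∀ x y, q (θ x t0 (q y)) = aug x • q y := fun x y => by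
    induction x using RG.ind with
    | h0 => simp
    | ha a b ha hb => simp only [map_add, LinearMap.add_apply, ha, hb, add_smul]
    | hs r a =>
      rw [map_smul, LinearMap.smul_apply, LinearMap.smul_apply, θ1, q.map_smul_of_tower,
        map_smul q, ← map_smul q _ y, t1, map_smul q, cn, map_smul, aug_rg, smul_eq_mul, mul_one]
  obtain ⟨Λ, hΛ⟩ := exists_lin2 fun k g => θ (rg g) (θ (bd (Finsupp.single k 1)) t0 ∘ₗ q' ∘ₗ t0)
  have sg : ∀ (a : G) (k : I) (g : G), rg a • Finsupp.single k (rg g) =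
      Finsupp.single k (rg (a * g)) := fun a k g => by
    rw [Finsupp.smul_single, smul_eq_mul, map_mul]
  have L1 : ∀ a y, Λ (rg a • y) = θ (rg a) (Λ y) := fun a y => by
    induction y using ind2 with
    | h0 => simp
    | ha a b ha hb => simp only [smul_add, map_add, ha, hb]
    | hs r k g => rw [smul_comm, sg, map_smul, map_smul, map_smul, hΛ, hΛ, map_mul, map_mul]; rfl
  have L2 : ∀ y x, Λ x (q y) = θ (bd x) t0 (q y) := fun y x => by
    induction x using ind2 with
    | h0 => simp
    | ha a b ha hb => simp only [map_add, LinearMap.add_apply, ha, hb]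
    | hs r k g =>
      have : Finsupp.single k (rg g) = rg g • Finsupp.single k (1 : RG G) := by simp
      rw [map_smul, bd.map_smul_of_tower, map_smul, LinearMap.smul_apply, LinearMap.smul_apply,
        LinearMap.smul_apply, hΛ, this, map_smul, smul_eq_mul, map_mul, Module.End.mul_apply, θ1,
        θ1, ← map_smul q, LinearMap.comp_apply, LinearMap.comp_apply, hq, t1]
  have L3 : ∀ y x, q (Λ x y) = 0 := fun y x => by
    induction x using ind2 with
    | h0 => simp
    | ha a b ha hb => simp only [map_add, LinearMap.add_apply, ha, hb, add_zero]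
    | hs r k g =>
      rw [map_smul, LinearMap.smul_apply, q.map_smul_of_tower, hΛ, θ1, map_smul,
        LinearMap.comp_apply, LinearMap.comp_apply, hq, A2, C.aug, zero_smul, smul_zero, smul_zero]
  obtain ⟨ψ, hψ⟩ := exists_lin2 fun k g => -Λ (t g) (Finsupp.single k (rg g))
  have P1 : ∀ a, θ (rg a) ψ = ψ + Λ (t a) := fun a => lin2_ext fun k g => by
    have := C.der a (a⁻¹ * g)
    rw [mul_inv_cancel_left] at this
    rw [θ1, sg, LinearMap.add_apply, hψ, hψ, this, map_add, L1, LinearMap.add_apply, θ1,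
      sg, smul_neg]
    abel
  have P2 : ∀ y, q (ψ y) = 0 := fun y => by
    induction y using ind2 with
    | h0 => simp
    | ha a b ha hb => simp only [map_add, ha, hb, add_zero]
    | hs r k g => rw [map_smul, q.map_smul_of_tower, hψ, map_neg, L3, neg_zero, smul_zero]
  refine ⟨mkR ((t0 - ψ) ∘ₗ q') fun a y => ?_, fun y => ?_, fun y hy => ?_⟩
  · have e1 := DFunLike.congr_fun (P1 a) (q (rg a • y))
    have e0 : θ (rg a) = θ (rg a - 1) + 1 := by rw [← map_one θ, ← map_add, sub_add_cancel]
    have e2 := θ1 a t0 (q (rg a • y))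
    have e3 : rg a⁻¹ • q (rg a • y) = q y := by
      rw [← map_smul q, smul_smul, ← map_mul, inv_mul_cancel, map_one, one_smul]
    rw [e0, LinearMap.add_apply, LinearMap.add_apply, Module.End.one_apply, e3] at e2
    rw [LinearMap.add_apply, L2, C.sec, θ1, e3] at e1
    rw [LinearMap.comp_apply, LinearMap.comp_apply, hq, hq, LinearMap.sub_apply,
      LinearMap.sub_apply, smul_sub, e1, ← e2]
    abel
  · change q ((t0 - ψ) (q' y)) = _
    rw [hq, LinearMap.sub_apply, map_sub, t1, P2, sub_zero]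
  · change (t0 - ψ) (q' y) = 0
    rw [hq, hy, map_zero]

/-- matrix of a map on finitely many coordinates -/
def mt (B : Finset I) (E : (I →₀ RG G) →ₗ[RG G] (I →₀ RG G)) : Matrix B B (RG G) :=
  fun j k => E (Finsupp.single j 1) k

theorem mt_mul {B : Finset I} (E : (I →₀ RG G) →ₗ[RG G] (I →₀ RG G))
    {E' : (I →₀ RG G) →ₗ[RG G] (I →₀ RG G)} (h : ∀ y, (E' y).support ⊆ B) :
    mt B (E ∘ₗ E') = mt B E' * mt B E := by
  ext1 j k
  have : E' (Finsupp.single j 1) = ∑ l : B, mt B E' j l • Finsupp.single l.1 (1 : RG G) := by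
    conv_lhs => rw [← Finsupp.sum_single (E' _), Finsupp.sum_of_support_subset _ (h _) _ (by simp),
      ← Finset.sum_coe_sort]
    simp [mt]
  rw [mt, LinearMap.comp_apply, this, map_sum, Finsupp.finsetSum_apply, Matrix.mul_apply]
  simp only [map_smul, Finsupp.smul_apply, smul_eq_mul]
  rfl

theorem grow (C : Cd1 t bd) (hc : ∀ g : G, g ≠ 1 → ∃ c : G → ℝ, c g = 1 ∧
    ∀ x y, Commute x g → Commute y g → c (x * y) = c x + c y)
    (inf : ∀ B : Finset I, ∃ a, ¬(t a).support ⊆ B) (N : ℕ) :
    ∃ (B : Finset I) (e : Matrix B B (RG G)) (r : B → RG G), e * e = e ∧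
      (N : ℝ) ≤ e.trace.coeff 1 ∧ ∀ j k, lin t (r j) k.1 = e j k := by
  classical
  have t0 : t 1 = 0 := by simpa using C.der 1 1
  have l1 : ∀ a x, lin t (rg a * x) = rg a • lin t x + aug x • t a := fun a x => by
    induction x using RG.ind with
    | h0 => simp
    | ha x y hx hy => simp only [mul_add, map_add, hx, hy, smul_add, add_smul]; abel
    | hs r b =>
      rw [mul_smul_comm, ← map_mul, map_smul, map_smul, map_smul, lin_rg, lin_rg, aug_rg, C.der,
        smul_add, smul_comm r, smul_eq_mul, mul_one]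
  set π := mkR (lin t ∘ₗ bd.restrictScalars ℝ) fun a y => by
    change lin t (bd _) = rg a • lin t (bd y)
    rw [map_smul, smul_eq_mul, l1, C.aug, zero_smul, add_zero]
  have π1 : ∀ a, π (t a) = t a := fun a => by
    change lin t (bd _) = _
    rw [C.sec, map_sub, ← map_one rg, lin_rg, lin_rg, t0, sub_zero]
  have ex : ∀ B : Finset I, ∃ E : (I →₀ RG G) →ₗ[RG G] (I →₀ RG G), (∀ y, π (E y) = E y) ∧
      (∀ y, (E y).support ⊆ B) ∧ ∀ y, y.support ⊆ B → π y = y → E y = y := fun B => by
    set c : (I →₀ RG G) →ₗ[RG G] (I →₀ RG G) :=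
      { Finsupp.filterAddHom (· ∈ B) with map_smul' := fun _ _ => Finsupp.filter_smul }
    have c1 : ∀ y, (c y).support ⊆ B := fun y k hk => (Finset.mem_filter.1 hk).2
    have c2 : ∀ y, y.support ⊆ B → c y = y := fun y hy =>
      (Finsupp.filter_eq_self_iff _ _).2 fun k hk => hy (Finsupp.mem_support_iff.2 hk)
    obtain ⟨w, w1, w2⟩ := her C ((1 - π) ∘ₗ c)
    refine ⟨c ∘ₗ (1 - w ∘ₗ 1), fun y => ?_, fun y => c1 _, fun y h1 h2 => ?_⟩
    · have := w1 y
      simp only [LinearMap.comp_apply, LinearMap.sub_apply, Module.End.one_apply, map_sub] at this ⊢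
      rw [sub_eq_sub_iff_sub_eq_sub] at this ⊢
      rw [sub_eq_sub_iff_sub_eq_sub, ← neg_inj, neg_sub, neg_sub, this]
    · have := w2 y (by simp [c2 y h1, h2])
      simp [this, c2 y h1]
  choose E E1 E2 E3 using ex
  have EE : ∀ B B', B ⊆ B' → E B' ∘ₗ E B = E B := fun B B' h => LinearMap.ext fun y =>
    E3 B' _ ((E2 B y).trans h) (E1 B y)
  suffices h : ∃ B, (N : ℝ) ≤ (mt B (E B)).trace.coeff 1 by
    obtain ⟨B, hB⟩ := h
    exact ⟨B, _, fun j => bd (E B (Finsupp.single j 1)), by rw [← mt_mul _ (E2 B), EE B B le_rfl],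
      hB, fun j k => congrArg (· k.1) (E1 B _)⟩
  induction N with
  | zero => exact ⟨∅, by simp⟩
  | succ n ih =>
    obtain ⟨B, hB⟩ := ih
    obtain ⟨a, ha⟩ := inf B
    set B' := B ∪ (t a).support
    have le : B ⊆ B' := Finset.subset_union_left
    have s1 : ∀ y, (E B y).support ⊆ B' := fun y => (E2 B y).trans le
    have m1 : mt B' (E B') * mt B' (E B') = mt B' (E B') := by
      rw [← mt_mul _ (E2 B'), EE B' B' le_rfl]
    have m2 : mt B' (E B) * mt B' (E B') = mt B' (E B) := by rw [← mt_mul _ s1, EE B B' le]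
    have m3 : mt B' (E B) * mt B' (E B) = mt B' (E B) := by rw [← mt_mul _ s1, EE B B le_rfl]
    have m4 : (mt B' (E B)).trace = (mt B (E B)).trace := by
      simp only [Matrix.trace, Matrix.diag, mt]
      rw [Finset.sum_coe_sort B' fun k => E B (Finsupp.single k 1) k,
        Finset.sum_coe_sort B fun k => E B (Finsupp.single k 1) k]
      exact (Finset.sum_subset le fun k _ hk =>
        Finsupp.notMem_support_iff.1 fun z => hk (E2 B _ z)).symm
    set f := mt B' (E B') - mt B' (E B') * mt B' (E B) with hf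
    have f1 : f * f = f := by
      simp only [hf, mul_sub, sub_mul, mul_assoc, m1, m2, m3, ← mul_assoc (mt B' (E B')) (mt B' (E B')),
        ← mul_assoc (mt B' (E B)) (mt B' (E B'))]
      abel
    have f2 : f ≠ 0 := fun z => ha (by
      have e1 : mt B' (E B') = mt B' (E B ∘ₗ E B') := by
        rw [mt_mul _ (E2 B')]; exact sub_eq_zero.1 z
      have e2 : ∀ j : B', E B' (Finsupp.single j 1) = E B (E B' (Finsupp.single j 1)) :=
        fun j => Finsupp.ext fun k => by
          by_cases hk : k ∈ B'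
          · exact congrFun (congrFun e1 j) ⟨k, hk⟩
          · rw [Finsupp.notMem_support_iff.1 fun z => hk (E2 B' _ z),
              Finsupp.notMem_support_iff.1 fun z => hk (s1 _ z)]
      have e3 : E B' (t a) = E B (E B' (t a)) := by
        rw [← Finsupp.sum_single (t a), Finsupp.sum, map_sum, map_sum]
        refine Finset.sum_congr rfl fun k hk => ?_
        rw [← mul_one (t a k), ← smul_eq_mul, ← Finsupp.smul_single, map_smul, map_smul,
          ← e2 ⟨k, Finset.mem_union_right _ hk⟩]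
      rw [E3 B' _ Finset.subset_union_right (π1 a)] at e3
      rw [e3]
      exact E2 B _)
    obtain ⟨k, hk⟩ := bass hc f1
    have k1 := kap f1 f2
    have k2 : f.trace.coeff 1 = (mt B' (E B')).trace.coeff 1 - (mt B (E B)).trace.coeff 1 := by
      rw [← m4, ← tr_TT, ← tr_TT, ← tr_TT, ← tr_sub]
      have a1 : TT f = TT (mt B' (E B')) - TT (mt B' (E B)) ∘L TT (mt B' (E B')) := by
        ext1 v
        rw [hf, TT_sub, TT_mul]
        rfl
      have a2 : TT (mt B' (E B)) = TT (mt B' (E B')) ∘L TT (mt B' (E B)) := by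
        ext1 v
        rw [ContinuousLinearMap.comp_apply, ← TT_mul, m2]
      rw [a1, tr_sub, tr_sub, tr_comm (TT_eq _) (TT_eq _), ← a2]
    rw [hk, Nat.cast_pos] at k1
    refine ⟨B', ?_⟩
    have : (1 : ℝ) ≤ k := by exact_mod_cast k1
    push_cast
    linarith

end

end Pool.Agent.Lib.MP_4269b5_al.Ag
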