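import Pool.Agent.Lib.MP_4269b5_al.AgFin
import Pool.Agent.Lib.MP_4269b5_al.AgBass

/-! Subgroups of cohomological dimension one. -/

set_option linter.unusedSectionVars false
set_option linter.unusedVariables false

namespace Pool.Agent.Lib.MP_4269b5_al.Ag

open Matrix

noncomputable section

variable {G : Type} [Group G] {μ : Subgroup G} {d : ℕ} {s : Fin d → G}

/-- an equivariant system of paths -/
structure Spl (s : Fin d → G) (μ : Subgroup G) (σ : G → Fin d → ZG G) : Prop where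
  der : ∀ a, ∀ b ∈ μ, σ (a * b) = rt b (σ a) + σ b
  bd : ∀ a, (D1 s)ᴴ *ᵥ σ a = fun _ => og a - og 1

theorem rp_one (D : Type) [Ring D] (Z : Subgroup G) : Rp Z ((Z : Set G).indicator (1 : G → D)) :=
  Rp.sub (A := ⊤) ⟨rfl, by simp, by simp, by simp⟩ le_top

variable {σ : G → Fin d → ZG G}

theorem Spl.ne (S : Spl s μ σ) {g : G} (ne : g ≠ 1) :
    vs (σ g) ((Subgroup.zpowers g : Set G).indicator (1 : G → ℤ)) ≠ 0 := fun z => by
  set Z := Subgroup.zpowers g
  obtain ⟨m, -, m1, m2⟩ := exists_m Z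
  choose k hk using fun x => Subgroup.mem_zpowers_iff.1 (m1 x)
  set n : G → ZMod (orderOf g) := fun x => k x with hn
  have n1 : ∀ (j : ℤ) x, n (x * g ^ j) = n x + j := fun j x => by
    rw [hn, ← Int.cast_add, ZMod.intCast_eq_intCast_iff, ← zpow_eq_zpow_iff_modEq, hk,
      _root_.zpow_add, hk, m2 _ (Subgroup.zpow_mem_zpowers g j)]
  have R := rp_one (ZMod (orderOf g)) Z
  have e1 := bp_vs R (σ g) (u := act (D1 s) fun _ => n) (by
    rintro _ ⟨j, rfl⟩ i x
    rw [act_D1, act_D1, ← mul_assoc, n1, n1, θl,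
      Set.indicator_of_mem (Z.inv_mem (Subgroup.zpow_mem_zpowers g j))]
    simp)
  have e2 : vs (σ g) ((Z : Set G).indicator (1 : G → ZMod (orderOf g))) = 0 := by
    funext i x
    refine (sm_nat (Int.castAddHom _) _ ((Z : Set G).indicator 1) _ x x fun y => ?_).trans ?_
    · by_cases c : y * x ∈ Z <;> simp [Set.indicator, c]
    · exact congrArg (Int.castAddHom _) (congrFun (congrFun z i) x) |>.trans (map_zero _)
  have e3 := n1 1 1
  rw [e2, pair_d1 _ (S.bd g), bp] at e1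
  rw [one_mul, zpow_one] at e3
  simp only [Pi.zero_apply, zero_mul, Finset.sum_const_zero, ts_zero, e3, add_sub_cancel_left,
    Int.cast_one] at e1
  exact ne (orderOf_eq_one_iff.1 (ZMod.subsingleton_iff.1 (subsingleton_of_zero_eq_one e1)))

theorem Spl.hom (S : Spl s μ σ) {g : G} (hg : g ∈ μ) (ne : g ≠ 1) : ∃ c : G → ℤ, c g ≠ 0 ∧
    ∀ x, ∀ y ∈ μ, Commute y g → c (x * y) = c x + c y := by
  set Z := Subgroup.zpowers g
  have R := rp_one ℤ Z
  set J := (Z : Set G).indicator (1 : G → ℤ) with hJ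
  set κ := vs (σ g) J with hκ
  have j1 : ∀ a ∈ Z, J a = 1 := fun a ha => Set.indicator_of_mem ha _
  have k1 : ∀ y ∈ μ, Commute y g → ∀ i x, κ i (x * y) = κ i x := fun y hy c i x => by
    have e := congrArg (vs · J) ((S.der g _ (μ.inv_mem hy)).symm.trans
      (c.inv_left.eq ▸ S.der y⁻¹ g hg))
    simp only [vs_add] at e
    rw [R.rt (Subgroup.mem_zpowers g), j1 _ (Z.inv_mem (Subgroup.mem_zpowers g)), one_smul,
      add_comm, add_right_inj, vs_rt] at e
    rw [hκ]
    conv_rhs => rw [← e]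
    refine sm_nat (AddMonoidHom.id ℤ) (σ g i) (fun g => J (y⁻¹⁻¹ * g)) J x (x * y) fun u => ?_
    have : u * (x * y) ∈ Z ↔ y⁻¹⁻¹ * (u * x) ∈ Z := by
      have cj : ∀ y, Commute y g → ∀ z ∈ Z, y * z * y⁻¹ ∈ Z := by
        rintro y c _ ⟨j, rfl⟩
        rw [(c.zpow_right j).eq, mul_inv_cancel_right]
        exact ⟨j, rfl⟩
      exact ⟨fun e => by simpa [mul_assoc] using cj y c _ e,
        fun e => by simpa [mul_assoc] using cj _ c.inv_left _ e⟩
    simp only [hJ, Set.indicator, SetLike.mem_coe, this, AddMonoidHom.id_apply, Pi.one_apply]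
  refine ⟨fun x => pair (σ x) κ, fun z => S.ne ne ?_, fun x y hy c => ?_⟩
  · have k2 : ∀ a ∈ Z, ∀ i x, κ i (x * a) = κ i x := by
      rintro _ ⟨j, rfl⟩
      exact k1 _ (μ.zpow_mem hg j) ((Commute.refl g).zpow_left j)
    have e : Eqv Z (θl J) κ := fun a ha i x => by
      rw [k2 a ha, θl, j1 _ (Z.inv_mem ha)]
      simp
    beta_reduce at z
    rw [← bp_vs R _ e, bp, ts] at z
    have p := fun x : G => Finset.sum_nonneg fun i (_ : i ∈ Finset.univ) =>
      mul_self_nonneg (κ i x)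
    funext i x
    have := single_le_finsum (x : G ⧸ Z) (ts_fin (supp2 (R.ind (σ g)).2 κ)) fun q => p _
    rw [z, ts_out (φ := fun x => ∑ i, vs (σ g) J i x * κ i x) (fun a ha x => by
      simp only [← hκ, k2 a ha])] at this
    exact mul_self_eq_zero.1 ((Finset.sum_eq_zero_iff_of_nonneg fun i _ =>
      mul_self_nonneg (κ i x)).1 (le_antisymm this (p x)) i (Finset.mem_univ _))
  · beta_reduce
    rw [S.der x y hy, pair_add, pair_rt (AddMonoidHom.id ℤ) y _ κ κ (k1 y hy c)]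
    rfl

theorem Spl.inj (S : Spl s μ σ) {g : G} (hg : g ∈ μ) (ne : g ≠ 1) :
    Function.Injective fun n : ℕ => g ^ n := by
  obtain ⟨c, c1, c2⟩ := S.hom hg ne
  have : ∀ n : ℕ, c (g ^ n) = c 1 + n * c g := fun n => by
    induction n with
    | zero => simp
    | succ n ih => rw [pow_succ, c2 _ g hg (Commute.refl g), ih]; push_cast; ring
  intro a b e
  have e : g ^ a = g ^ b := e
  have := (this a).symm.trans (e ▸ this b)
  simpa [c1] using this

theorem Spl.hc (S : Spl s μ σ) (g : μ) (ne : g ≠ 1) : ∃ c : μ → ℝ, c g = 1 ∧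
    ∀ x y, Commute x g → Commute y g → c (x * y) = c x + c y := by
  obtain ⟨c, c1, c2⟩ := S.hom g.2 fun z => ne (Subtype.ext z)
  refine ⟨fun x => c x / c g, div_self (by exact_mod_cast c1), fun x y _ e => ?_⟩
  beta_reduce
  rw [Subgroup.coe_mul, c2 _ _ y.2 (e.map μ.subtype), Int.cast_add, add_div]

/-- square summable functions as a bimodule -/
def VV (G : Type) : Type := H2 G

instance : AddCommGroup (VV G) := inferInstanceAs (AddCommGroup (H2 G))

instance : Module (RG G) (VV G) := Module.compHom (H2 G) (aug (G := G)).toRingHom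

instance : Module (RG G)ᵐᵒᵖ (VV G) where
  smul x v := rr x.unop v
  one_smul v := DFunLike.congr_fun rr_one v
  mul_smul x y v := DFunLike.congr_fun (rr_mul y.unop x.unop) v
  smul_zero x := (rr x.unop).map_zero
  smul_add x := (rr x.unop).map_add
  add_smul x y v := DFunLike.congr_fun (rr_add x.unop y.unop) v
  zero_smul v := DFunLike.congr_fun rr_zero v

instance : SMulCommClass (RG G) (RG G)ᵐᵒᵖ (VV G) :=
  ⟨fun x y v => ((rr y.unop).map_smul (aug x) v).symm⟩

/-- the coefficient ring -/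
abbrev DD (G : Type) [Group G] : Type := TrivSqZeroExt (RG G) (VV G)

open TrivSqZeroExt

theorem snd_inr (w : H2 G) (x : DD G) : ((inr w : DD G) * x).snd = rr x.fst w :=
  (congrArg (· + rr x.fst w) (zero_smul (RG G) x.snd)).trans (zero_add _)

theorem fr_dd (inj : ∀ a ∈ μ, a ≠ 1 → Function.Injective fun n : ℕ => a ^ n) :
    Fr μ fun g => (inl (rg g) : DD G) := fun a ha ne ε v e => by
  have e0 : ((ε : ℤ) • inl (rg a) : DD G) = inl (MonoidAlgebra.single a ((ε : ℤ) : ℝ)) := by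
    rw [← inl_smul]
    exact congrArg inl (by simp [rg])
  have ab : |((ε : ℤ) : ℝ)| = 1 := by rw [← Int.cast_abs, Int.isUnit_iff_abs_eq.1 ε.isUnit]; simp
  rw [e0] at e
  have e1 : v.fst * MonoidAlgebra.single a ((ε : ℤ) : ℝ) = v.fst := congrArg fst e
  have e2 : (v * inl (MonoidAlgebra.single a ((ε : ℤ) : ℝ))).snd = v.snd := congrArg snd e
  rw [snd_mul, snd_inl, smul_zero, zero_add, fst_inl] at e2
  refine TrivSqZeroExt.ext ?_ (H2.free (inj a ha ne) ab v.snd e2)
  have := H2.free (inj a ha ne) ab (rr v.fst dl) (by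
    rw [← ContinuousLinearMap.comp_apply, ← rr_mul, e1])
  ext y
  rw [← rr_dl, this]
  rfl

variable {F : Subgroup G} {h : G → ℤ} {τ : G}

theorem rel (hs : Subgroup.closure (Set.range s) = ⊤) (Γ : Geo s F μ h τ) {P : Res s}
    (T : Dual P) (t1 : TL P h) (t2 : TL P fun g => -h g) (inf : ¬Sm μ (F : Set G)) {a0 : G}
    (ha0 : a0 ∈ μ) (ne : a0 ≠ 1) : ∃ σ, Spl s μ σ ∧ ∀ (L : Type) [Fintype L] (a : L → μ),
      ∃ z : L → Option (Fin d) → RG G, ∀ w : L → H2 G, (∀ k, ∑ l, rr (z l k) (w l) = 0) →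
        ∀ i x, ∑ l, rr (vs (σ (a l)) ((μ : Set G).indicator rg) i x) (w l) = 0 := by
  obtain ⟨r, r1, r2, r3⟩ := proj1 hs Γ T t1 t2 inf
  choose p hp _ using fun a => (conn_univ hs 1 a).path
  have S : Spl s μ fun a => pair (p a) r := ⟨fun a b hb => by
    obtain ⟨y, hy⟩ := P.ex1 (p (a * b) - rt b (p a) - p b) (by
      simp only [mulVec_sub, mulVec_rt, hp, rt_const, one_mul]
      funext
      simp)
    have := r3 y
    rw [hy, pair_sub, pair_sub, pair_rt (rt b) b _ r r (r1 b hb), sub_sub, sub_eq_zero] at this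
    exact this, fun a => (r2 _).trans (hp a)⟩
  refine ⟨_, S, fun L _ a => ?_⟩
  have R0 : Rp ⊤ fun g => (inl (rg g) : DD G) := ⟨by simp, fun a _ g => by
    rw [map_mul, inl_mul], fun a _ g => by rw [map_mul, inl_mul], by simp⟩
  have R := R0.sub (le_top (a := F))
  have R' := R.sub Γ.le
  obtain ⟨z, hz⟩ := mu_rel hs Γ T t1 t2 R (fun a ha ne ε v e => fr_dd (fun _ => S.inj) a ha ne ε v
    (by rwa [Set.indicator_of_mem (Γ.le ha)] at e)) ha0 (S.inj ha0 ne) (fun l => a l)
    (fun l => (a l).2) (fun l => p (a l)) fun l => hp _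
  refine ⟨fun l k => (z l k).fst, fun w hw i x => ?_⟩
  obtain ⟨y, y1, y2⟩ := hz (fun l => inr (w l)) fun k => TrivSqZeroExt.ext (by simp [fst_sum])
    (by simp only [snd_sum, snd_inr]; exact hw k)
  have e := xt_comb R' r1 (fun l => (inr (w l) : DD G)) fun l => p (a l)
  rw [y2, xt_kill R' r1 _ r3 y1] at e
  have := congrArg snd (congrFun (congrFun e i) x)
  rw [comb_apply, snd_sum] at this
  refine Eq.trans (Finset.sum_congr rfl fun l _ => ?_) this.symm
  rw [snd_inr]
  refine congrArg (rr · (w l)) (sm_nat (AddMonoidHom.mk' fst fst_add) _ _ _ x x fun u => ?_)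
  by_cases c : u * x ∈ μ
  · rw [Set.indicator_of_mem c, Set.indicator_of_mem c, Set.indicator_of_mem (Γ.le c)]; rfl
  · rw [Set.indicator_of_notMem c, Set.indicator_of_notMem c]; rfl

theorem Spl.cd (S : Spl s μ σ) (nf : ¬μ.FG) : ∃ (t : μ → (G ⧸ μ) × Fin d →₀ RG μ)
    (bd : ((G ⧸ μ) × Fin d →₀ RG μ) →ₗ[RG μ] RG μ), Cd1 t bd ∧
    (∀ B : Finset ((G ⧸ μ) × Fin d), ∃ a, ¬(t a).support ⊆ B) ∧
    ∀ a k, MonoidAlgebra.mapDomainAlgHom ℝ ℝ μ.subtype (t a k) =
      vs (σ (a⁻¹ : μ)) ((μ : Set G).indicator rg) k.2 k.1.out := by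
  classical
  obtain ⟨J, R, j1, j2⟩ := exists_rp μ.subtype Subtype.val_injective
    (MonoidAlgebra.mapRingHom μ (Int.castRingHom ℝ))
  rw [μ.range_subtype] at R
  have j3 : ∀ a : μ, J a = rg a := fun a => (j1 a).trans (by simp [og, rg])
  have fn : ∀ x : Fin d → ZG G,
      (Function.support fun k : (G ⧸ μ) × Fin d => vs x J k.2 k.1.out).Finite := fun x =>
    (Set.Finite.prod (ts_fin (φ := fun g i => vs x J i g) ((R.ind x).2.mono fun g hg =>
      Function.ne_iff.1 hg)) Set.finite_univ).subset fun k hk =>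
        ⟨Function.ne_iff.2 ⟨k.2, hk⟩, trivial⟩
  obtain ⟨m, m0, m1, m2⟩ := exists_m μ
  set U : Fin 1 → G → RG μ := fun _ g => J (m g)⁻¹ with hU
  have U1 : Eqv μ (θl J) U := fun a ha i g => by
    simp only [hU, m2 a ha, _root_.mul_inv_rev, R.mul' _ (μ.inv_mem ha)]
    rfl
  refine ⟨fun a => Finsupp.ofSupportFinite _ (fn (σ (a⁻¹ : μ))), Finsupp.linearCombination _
    fun k => act (D1 s) U k.2 k.1.out, ⟨fun a b => Finsupp.ext fun k => ?_, fun a => ?_,
      fun y => ?_⟩, fun B => ?_, fun a k => ?_⟩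
  · change vs _ J k.2 k.1.out = rg a * vs _ J k.2 k.1.out + vs _ J k.2 k.1.out
    rw [_root_.mul_inv_rev, Subgroup.coe_mul, S.der _ _ (a⁻¹).2, vs_add, R.rt (a⁻¹).2, ← j3]
    simp
  · have := bp_vs R (σ (a⁻¹ : μ)) (U1.act (D1 s))
    rw [pair_d1 _ (S.bd _), bp, ts] at this
    have f1 : (Function.support fun k : (G ⧸ μ) × Fin d => vs (σ (a⁻¹ : μ)) J k.2 k.1.out *
        act (D1 s) U k.2 k.1.out) ⊆ _ := fun k hk => (fn (σ (a⁻¹ : μ))).mem_toFinset.2
      (left_ne_zero_of_mul hk)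
    refine (finsum_eq_sum_of_support_subset _ f1).symm.trans ?_
    rw [finsum_curry _ ((Finset.finite_toSet _).subset f1)]
    simp only [finsum_eq_sum_of_fintype]
    refine this.trans ?_
    have := m2 _ (a⁻¹).2 1
    rw [one_mul, m0, one_mul, Subgroup.coe_inv] at this
    simp only [hU, this, m0, inv_one, R.one, Subgroup.coe_inv, inv_inv, j3]
  · rw [Finsupp.linearCombination_apply, Finsupp.sum, map_sum]
    refine Finset.sum_eq_zero fun k _ => ?_
    have : ∀ g, aug (U 0 g) = 1 := fun g =>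
      (congrArg aug (j3 ⟨_, μ.inv_mem (m1 g)⟩)).trans (aug_rg _)
    rw [smul_eq_mul, map_mul, act_D1, map_sub, this, this, sub_self, mul_zero]
  · by_contra z
    push Not at z
    refine nf (fg_of (s := s) (B.image fun k => k.1.out) fun a ha => ⟨σ a, S.bd a, ?_⟩)
    rintro g ⟨i, hi⟩
    obtain ⟨y, y1, y2⟩ := j2 _ g hi
    obtain ⟨b, hb⟩ := QuotientGroup.mk_out_eq_mul μ g
    refine ⟨_, Finset.mem_image_of_mem _ (z ⟨a, ha⟩⁻¹ ((Finsupp.mem_support_iff
      (a := ((g : G ⧸ μ), i))).2 fun e => y1 ?_)), by simp [hb]⟩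
    have e : vs (σ (⟨a, ha⟩⁻¹⁻¹ : μ)) J i (g : G ⧸ μ).out = 0 := e
    have := (R.ind (σ a)).1 _ (μ.inv_mem b.2) i (g : G ⧸ μ).out
    rw [inv_inv] at e
    rw [e, map_zero, hb, mul_inv_cancel_right, vs, y2] at this
    ext k
    simpa using congrArg (·.coeff k) this
  · refine (sm_nat (MonoidAlgebra.mapDomainAlgHom ℝ ℝ μ.subtype).toAddMonoidHom _ J _ _ _
      fun u => ?_).symm
    by_cases c : u * k.1.out ∈ μ
    · rw [Set.indicator_of_mem c, j3 ⟨_, c⟩]
      simp [rg]
    · rw [Set.indicator_of_notMem c, by_contra fun z => c (R.sp _ z), map_zero]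

theorem rank {B κ : Type} [Fintype B] [DecidableEq B] [Fintype κ] [DecidableEq κ]
    {e : Matrix B B (RG G)} (e1 : e * e = e) (lt : (Fintype.card κ : ℝ) < e.trace.coeff 1)
    {L : Type} [Fintype L] (r : B → L → ℝ) (x : L → B → RG G) (e3 : ∀ j k, e j k = ∑ l, r j l • x l k)
    (z : L → κ → RG G) : ∃ w : L → H2 G, (∀ k, ∑ l, rr (z l k) (w l) = 0) ∧
      ∃ k, ∑ l, rr (x l k) (w l) ≠ 0 := by
  have sw : ∀ (x : L → RG G) (v : EE G B), ∑ l, rr (x l) (∑ j, r j l • v j) =
      ∑ j, rr (∑ l : L, r j l • x l) (v j) := fun x v => by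
    simp only [map_sum, map_smul, rr_sum, rr_smul, _root_.sum_apply, _root_.smul_apply]
    exact Finset.sum_comm
  obtain ⟨v, v1, v2, v3⟩ := exists_ker e1 (Matrix.of fun j k => ∑ l : L, r j l • z l k) lt
  refine ⟨fun l => ∑ j, r j l • v j, fun k => ?_, by_contra fun c => v1 (PiLp.ext fun k => ?_)⟩
  · have := TT_apply (Matrix.of fun j k => ∑ l : L, r j l • z l k) v k
    rw [v3] at this
    rw [sw]
    exact this.symm
  · have := TT_apply e v k
    rw [v2] at this
    simp only [e3, ← sw] at this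
    exact by_contra fun z => c ⟨k, fun y => z (this.trans y)⟩

theorem main2 (hs : Subgroup.closure (Set.range s) = ⊤) (P : Res s) (Γ : Geo s F μ h τ)
    (wall : Wall F h) (fp : FPh P F h) : μ.FG := by
  classical
  obtain ⟨T⟩ := exists_dual hs P
  rcases μ.bot_or_exists_ne_one with rfl | ⟨a0, ha0, ne⟩
  · exact ⟨∅, by simp⟩
  by_cases inf : Sm μ (F : Set G)
  · exact fg_sm Γ inf
  by_contra nf
  obtain ⟨σ, S, hr⟩ := rel hs Γ T (tl_up Γ P fp wall) (tl_down Γ P fp wall) inf ha0 ne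
  obtain ⟨t, bd, C, c1, c2⟩ := S.cd nf
  obtain ⟨B, e, r, e1, e2, e3⟩ := grow C S.hc c1 (d + 2)
  generalize hf : MonoidAlgebra.mapDomainAlgHom ℝ ℝ μ.subtype = f at c2
  set L := Finset.univ.biUnion fun j => (r j).coeff.support
  obtain ⟨z, hz⟩ := hr L fun l => l.1⁻¹
  have lr : ∀ (c : μ → RG G) j, lin c (r j) = ∑ l : L, (r j).coeff l • c l := fun c j => by
    rw [Finset.sum_coe_sort L fun l => (r j).coeff l • c l]
    exact Finsupp.sum_of_support_subset _ (Finset.subset_biUnion_of_mem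
      (fun j => (r j).coeff.support) (Finset.mem_univ j)) _ fun _ _ => zero_smul _ _
  obtain ⟨w, w1, k, w2⟩ := rank (e := e.map f) (by rw [← Matrix.map_mul, e1]) (by
      have : (e.map f).trace.coeff 1 = e.trace.coeff 1 := by
        rw [show (e.map f).trace = f e.trace from (map_sum f _ _).symm, ← hf]
        exact Finsupp.mapDomain_apply (f := μ.subtype) Subtype.val_injective _ 1
      rw [this]
      refine lt_of_lt_of_le ?_ e2
      simp) (fun j (l : L) => (r j).coeff l) (fun l k => f (t l k)) (fun j k => by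
    rw [← lr fun l => f (t l k), Matrix.map_apply, ← e3]
    exact DFunLike.congr_fun (lin_ext (f := f.toLinearMap ∘ₗ
      Finsupp.lapply k.1 ∘ₗ lin t) fun a => by simp [lin_rg]) (r j)) z
  simp only [c2] at w2
  exact w2 (hz w w1 _ _)

end

end Pool.Agent.Lib.MP_4269b5_al.Ag
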