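import Pool.Agent.Lib.MP_4269b5_al.AgGeo

/-! Primitives, ends and controlled fillings. -/

set_option linter.unusedSectionVars false
set_option linter.unusedVariables false

namespace Pool.Agent.Lib.MP_4269b5_al.Ag

open Matrix

noncomputable section

variable {G : Type} [Group G] {d : ℕ} {s : Fin d → G} {V : Type} [AddCommGroup V]

theorem pair_d1 (U : Fin 1 → G → V) {p : Fin d → ZG G} {g g' : G}
    (h : (D1 s)ᴴ *ᵥ p = fun _ => og g' - og g) : pair p (act (D1 s) U) = U 0 g' - U 0 g := by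
  rw [pair_act, h, pair, Fin.sum_univ_one, map_sub, dext_og, dext_og]

theorem prim (hs : Subgroup.closure (Set.range s) = ⊤) (P : Res s) (c : Fin d → G → V)
    (h : act P.D2 c = 0) : ∃ U, act (D1 s) U = c := by
  choose p hp _ using fun g => (conn_univ hs 1 g).path
  refine ⟨fun _ g => pair (p g) c, funext fun i => funext fun g => ?_⟩
  obtain ⟨x, hx⟩ := P.ex1 (p ((s i)⁻¹ * g) - p g - Pi.single i (og g)) (by
    rw [mulVec_sub, mulVec_sub, hp, hp, d1_single]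
    ext1
    simp)
  have := pair_act P.D2 x c
  rw [h, hx, pair_sub, pair_sub, pair_single, pair_zero' _ _ fun _ _ ⟨_, e⟩ => e rfl] at this
  rw [act_D1]
  exact sub_eq_zero.1 this.symm

theorem Conn.cst {Y : Set G} {g g' : G} (c : Conn s Y g g') (U : Fin 1 → G → V)
    (h : ∀ x ∈ Y, x ∉ spt (act (D1 s) U)) : U 0 g = U 0 g' :=
  c.const (U 0) fun i x hx _ => sub_eq_zero.1 ((act_D1 U i x).symm.trans (spt_zero (h x hx) i))

/-- small on every level -/
def LF (h : G → ℤ) (A : Subgroup G) (Y : Set G) : Prop := ∀ k : ℕ, Sm A (Y ∩ strip h (-k) k)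

/-- Lipschitz height function -/
def Lip (h : G → ℤ) : Prop := ∀ k, ∃ C : ℕ, ∀ g, |h (k * g) - h g| ≤ C

variable {h : G → ℤ} {A : Subgroup G} {Y Y' : Set G}

theorem LF.mono (a : LF h A Y) (e : Y' ⊆ Y) : LF h A Y' :=
  fun k => (a k).mono (Set.inter_subset_inter_left _ e)

theorem LF.union (a : LF h A Y) (b : LF h A Y') : LF h A (Y ∪ Y') := fun k => by
  rw [Set.union_inter_distrib_right]; exact (a k).union (b k)

theorem Sm.lf (a : Sm A Y) : LF h A Y := fun _ => a.mono Set.inter_subset_left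

theorem Lip.nb (l : Lip h) (B : Finset G) :
    ∃ C : ℕ, ∀ Y g, g ∈ nb B Y → ∃ x ∈ Y, h x ≤ h g + C ∧ h g ≤ h x + C := by
  obtain ⟨C, hC⟩ := lip_fin l (B.finite_toSet.image fun b => b⁻¹)
  exact ⟨C, fun Y g ⟨b, hb, e⟩ => ⟨_, e, hC _ ⟨b, hb, rfl⟩ g⟩⟩

theorem LF.nb (a : LF h A Y) (l : Lip h) (B : Finset G) : LF h A (nb B Y) := fun k => by
  obtain ⟨C, hC⟩ := lip_fin l (B.finite_toSet.image fun b => b⁻¹)
  refine ((a (k + C)).nb B).mono ?_
  rintro g ⟨⟨b, hb, e⟩, hg⟩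
  have := hC _ ⟨b, hb, rfl⟩ g
  refine ⟨b, hb, e, ?_⟩
  simp only [mem_strip] at *
  push_cast
  omega

theorem LF.sm (a : LF h A Y) {k l : ℤ} (e : Y ⊆ strip h k l) : Sm A Y :=
  (a (k.natAbs + l.natAbs)).mono fun g hg => ⟨hg, by
    have := e hg
    simp only [mem_strip] at *
    omega⟩

/-- indicator of a set -/
def ind (Q : Set G) : Fin 1 → G → ℤ := fun _ => Q.indicator 1

/-- one end on every level -/
def OE (s : Fin d → G) (h : G → ℤ) : Prop :=
  ∀ Q : Set G, LF h ⊥ (spt (act (D1 s) (ind Q))) → LF h ⊥ Q ∨ LF h ⊥ Qᶜ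

theorem ind_cst {Q Z : Set G} {u : Fin 1 → ZG G}
    (e : ∀ g ∈ Z, ∀ g' ∈ Z, (ind Q - co u) 0 g = (ind Q - co u) 0 g') :
    (Q ∩ Z).Finite ∨ (Qᶜ ∩ Z).Finite := by
  by_contra c
  rw [not_or] at c
  obtain ⟨g, ⟨g1, g2⟩, g3⟩ := Set.Infinite.exists_notMem_finite c.1 (spt_co_fin u)
  obtain ⟨g', ⟨g1', g2'⟩, g3'⟩ := Set.Infinite.exists_notMem_finite c.2 (spt_co_fin u)
  have := e g g2 g' g2'
  simp only [Pi.sub_apply, spt_zero g3, spt_zero g3', ind, Set.indicator_of_mem g1,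
    Set.indicator_of_notMem g1'] at this
  simp at this

theorem d2d1 (P : Res s) (u : Fin 1 → G → V) : act P.D2 (act (D1 s) u) = 0 := by
  rw [← act_mul, P.d21, act_zero]

theorem oe_zero (hs : Subgroup.closure (Set.range s) = ⊤) (P : Res s) : OE s fun _ => 0 :=
  fun Q hQ => by
    obtain ⟨x, hx⟩ := exists_co _ (sm_bot.1 (hQ.sm (k := 0) (l := 0) fun _ _ => ⟨le_rfl, le_rfl⟩))
    obtain ⟨u, hu⟩ := P.co1 x (co_inj (by rw [← act_co, hx, d2d1, co_zero]))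
    refine (ind_cst (Q := Q) (Z := Set.univ) (u := u) fun g _ g' _ =>
      (conn_univ hs g g').cst _ fun y _ => ?_).imp (fun e => ?_) fun e => ?_
    · rw [act_sub', act_co, hu, hx, sub_self]
      exact fun ⟨_, e⟩ => e rfl
    · exact (sm_bot.2 (by simpa using e)).lf
    · exact (sm_bot.2 (by simpa using e)).lf

theorem stp_spt (u : Fin 1 → G → V) (l : Fin d × Bool) (x : G) (e : u 0 (stp s l x) ≠ u 0 x) :
    x ∈ spt (act (D1 s) u) ∨ s l.1 * x ∈ spt (act (D1 s) u) := by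
  obtain ⟨i, _ | _⟩ := l
  · exact Or.inr ⟨i, by rw [act_D1, inv_mul_cancel_left]; exact sub_ne_zero.2 e.symm⟩
  · exact Or.inl ⟨i, by rw [act_D1]; exact sub_ne_zero.2 e⟩

theorem nb_stp (u : Fin 1 → G → V) : ∃ B : Finset G, ∀ l x, u 0 (stp s l x) ≠ u 0 x →
    x ∈ nb B (spt (act (D1 s) u)) := by
  classical
  refine ⟨insert 1 (Finset.univ.image fun i => (s i)⁻¹), fun l x e => ?_⟩
  rcases stp_spt u l x e with e | e
  · exact ⟨1, by simp, by simpa using e⟩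
  · exact ⟨(s l.1)⁻¹, by simp, by simpa using e⟩

theorem comp {θ : G → V →+ V} (hA : ∀ a ∈ A, ∀ g, h (g * a) = h g) (lip : Lip h) (oe : OE s h)
    (conn : ∀ k : ℕ, ∃ k' : ℕ, ∀ g ∈ strip h (-k) k, ∀ g' ∈ strip h (-k) k,
      Conn s (strip h (-k') k') g g') (inf : (strip h 0 0).Infinite)
    {a0 : G} (ha0 : a0 ∈ A) (ne : a0 ≠ 1) (free : ∀ a ∈ A, a ≠ 1 → ∀ v, θ a v = v → v = 0)
    (u : Fin 1 → G → V) (hu : Eqv A θ u) (lf : LF h A (spt (act (D1 s) u))) :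
    LF h A (spt u) := by
  classical
  set Q : G → Set G := fun g => {x | u 0 x = u 0 g} with hQ
  have q1 : ∀ g, u 0 g ≠ 0 → ∀ x ∈ Q g, ∀ a ∈ A, x * a ∈ Q g → a = 1 := fun g hg x hx a ha e => by
    by_contra c
    have e1 : u 0 x = u 0 g := hx
    have e2 : u 0 (x * a) = u 0 g := e
    rw [hu a ha, e1] at e2
    exact hg (free a ha c _ e2)
  have q2 : ∀ g, u 0 g ≠ 0 → ∀ Y, Sm A Y → (Y ∩ Q g).Finite := fun g hg Y ⟨B, hB⟩ => by
    refine (B.finite_toSet.biUnion (t := fun b => {x | x ∈ Q g ∧ b⁻¹ * x ∈ A}) fun b _ =>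
      Set.Subsingleton.finite fun x hx y hy => ?_).subset fun x hx => ?_
    · have := q1 g hg x hx.1 _ (A.mul_mem (A.inv_mem hx.2) hy.2) (by simpa using hy.1)
      simpa using eq_of_inv_mul_eq_one this
    · obtain ⟨b, hb, e⟩ := hB x hx.1
      exact Set.mem_biUnion hb ⟨hx.2, e⟩
  have q3 : ∀ g, u 0 g ≠ 0 → LF h ⊥ (Q g) := fun g hg => by
    refine (oe (Q g) fun k => sm_bot.2 ?_).elim id fun e k => sm_bot.2 ?_
    · refine ((q2 g hg _ (lf k)).union (Set.finite_univ.biUnion fun i _ =>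
        (q2 g hg _ ((lf k).left (s i))).image fun x => s i * x)).subset ?_
      rintro x ⟨⟨i, hi⟩, hx⟩
      rw [act_D1] at hi
      have e : x ∈ spt (act (D1 s) u) := ⟨i, by
        rw [act_D1, sub_ne_zero]
        intro e
        refine hi ?_
        simp only [ind, Set.indicator, hQ, Set.mem_ofPred_eq, e, Pi.one_apply, sub_self]⟩
      by_cases c : x ∈ Q g
      · exact Or.inl ⟨⟨e, hx⟩, c⟩
      · refine Or.inr (Set.mem_biUnion (Set.mem_univ i) ⟨(s i)⁻¹ * x, ⟨by simpa using ⟨e, hx⟩, ?_⟩,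
          by simp⟩)
        by_contra c'
        exact hi (by simp only [ind, Set.indicator_of_notMem c, Set.indicator_of_notMem c',
          sub_self])
    · refine ((sm_bot.1 (e k)).image fun x => x * a0⁻¹).subset fun x hx => ⟨x * a0, ⟨fun c =>
        ne (q1 g hg x hx.1 a0 ha0 c), ?_⟩, by simp⟩
      rw [mem_strip, hA a0 ha0]
      exact hx.2
  intro k
  obtain ⟨k', hk⟩ := conn k
  obtain ⟨B0, hB0⟩ := nb_stp (s := s) u
  obtain ⟨B, hB⟩ := lf.nb lip B0 k'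
  refine (sm_fin ((B.finite_toSet.inter_of_left {b | u 0 b ≠ 0}).biUnion fun b hb =>
    sm_bot.1 (q3 b hb.2 k))).mono ?_
  rintro g ⟨⟨i, hi⟩, hg⟩
  rw [Subsingleton.elim i 0] at hi
  obtain ⟨g', g1, g2⟩ := inf.exists_notMem_finite (sm_bot.1 (q3 g hi 0))
  obtain ⟨x, l, x1, -, x2, x3, -⟩ := (hk g hg g' (by
    simp only [mem_strip] at *; omega)).exit (Q := Q g) rfl fun c => g2 ⟨c, by simpa using g1⟩
  obtain ⟨b, hb, e⟩ := hB x ⟨hB0 l x fun c => x3 (c.trans x2), x1⟩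
  have e1 : u 0 g = θ (b⁻¹ * x) (u 0 b) := by
    rw [← hu _ e, mul_inv_cancel_left]; exact x2.symm
  refine ⟨g * (b⁻¹ * x)⁻¹, Set.mem_biUnion (x := b) ⟨hb, fun c => hi (by rw [e1, c, map_zero])⟩
    ⟨?_, ?_⟩, by simpa using e⟩
  · change u 0 _ = _
    rw [hu _ (A.inv_mem e), ← x2, ← hu _ (A.inv_mem e)]
    simp
  · rw [mem_strip, hA _ (A.inv_mem e)]
    exact hg

end

end Pool.Agent.Lib.MP_4269b5_al.Ag
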