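import Pool.Agent.Lib.MP_4269b5_al.AgCd

/-! Finitely many relations in a subgroup give controlled fillings. -/

set_option linter.unusedSectionVars false
set_option linter.unusedVariables false

namespace Pool.Agent.Lib.MP_4269b5_al.Ag

open Matrix CategoryTheory

noncomputable section

variable {G : Type} [Group G] {d : ℕ} {s : Fin d → G}

theorem cmp0 {Q0 Q1 : Type} [AddCommGroup Q0] [AddCommGroup Q1] [Module (ZG G) Q0]
    [Module (ZG G) Q1] [Module.Projective (ZG G) Q0] (d0 : Q1 →ₗ[ZG G] Q0) (π : Q0 →+ ℤ)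
    (π1 : ∀ (g : G) x, π (og g • x) = π x) (π2 : ∃ x, π x = 1) (π3 : ∀ y, π (d0 y) = 0)
    (ex0 : ∀ x, π x = 0 → ∃ y, d0 y = x) (I : Submodule (ZG G) (Fin 1 → ZG G))
    (hI : ∀ x, x ∈ I ↔ εw 1 (x 0) = 0) : Cmp I.subtype (LinearMap.range d0).subtype := by
  obtain ⟨x0, π2⟩ := π2
  have S0 : SES I.subtype I.mkQ := ⟨Subtype.val_injective, I.mkQ_surjective, fun x =>
    (Submodule.Quotient.mk_eq_zero I).trans ⟨fun h => ⟨⟨x, h⟩, rfl⟩, by
      rintro ⟨k, rfl⟩; exact k.2⟩⟩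
  have mk : ∀ x : Fin 1 → ZG G, I.mkQ x = I.mkQ fun _ => ((εw 1 (x 0) : ℤ) : ZG G) := fun x =>
    (Submodule.Quotient.eq I).2 ((hI _).2 (by simp))
  have πs : ∀ (a : ZG G) x, π (a • x) = εw 1 a * π x := fun a x => by
    induction a using ind' with
    | h0 => simp
    | ha a b ha hb => rw [add_smul, map_add, ha, hb, map_add, add_mul]
    | hn a ha => rw [neg_smul, map_neg, ha, map_neg, neg_mul]
    | hs g => rw [π1, ε_og, one_mul]
  set p0 : Q0 →ₗ[ZG G] (Fin 1 → ZG G) ⧸ I :=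
    { toFun := fun x => I.mkQ fun _ => ((π x : ℤ) : ZG G)
      map_add' := fun x y => by
        rw [← map_add]; congr 1; ext1; simp
      map_smul' := fun a x => by
        rw [RingHom.id_apply, ← map_smul, mk (a • _), πs]
        congr 1
        ext1
        simp } with hp0
  have S0' : SES (LinearMap.range d0).subtype p0 := ⟨Subtype.val_injective, fun y => by
    obtain ⟨x, rfl⟩ := I.mkQ_surjective y
    refine ⟨εw 1 (x 0) • x0, ?_⟩
    rw [mk x]
    change I.mkQ _ = _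
    rw [map_zsmul, π2, smul_eq_mul, mul_one], fun x => ⟨fun h =>
      ⟨⟨x, ex0 x (by simpa using (hI _).1 ((Submodule.Quotient.mk_eq_zero I).1 h))⟩, rfl⟩, by
      rintro ⟨⟨_, y, rfl⟩, rfl⟩
      change I.mkQ (fun _ => ((π (d0 y) : ℤ) : ZG G)) = 0
      rw [π3, Int.cast_zero]
      exact map_zero _⟩⟩
  exact step S0 S0' ⟨LinearMap.id, LinearMap.id, ⟨ZG G, _, _, inferInstance, 0, 0, by simp⟩,
    ⟨ZG G, _, _, inferInstance, 0, 0, by simp⟩⟩

theorem fg_of_fin (I : Submodule (ZG G) (Fin 1 → ZG G)) (hI : ∀ x, x ∈ I ↔ εw 1 (x 0) = 0)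
    (fin : Module.Finite (ZG G) I) : Group.FG G := by
  classical
  obtain ⟨T, hT⟩ : I.FG := Module.Finite.iff_fg.1 fin
  refine ⟨⟨T.biUnion fun x => (x 0).coeff.support, eq_top_iff.2 fun a _ => ?_⟩⟩
  generalize hB : Subgroup.closure (G := G) _ = B
  set c := (B : Set G).indicator (1 : G → ℤ) with hc
  have e1 : ∀ (y : ZG G) (n : ℤ), dext (fun _ => n) y = εw 1 y * n := fun y n => by
    induction y using ind' with
    | h0 => simp
    | ha a b ha hb => rw [map_add, ha, hb, map_add, add_mul]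
    | hn a ha => rw [map_neg, ha, map_neg, neg_mul]
    | hs g => rw [dext_og, ε_og, one_mul]
  have e2 : ∀ (f : G → ℤ) (a : G) (y : ZG G), dext f (og a * y) = dext (fun k => f (a * k)) y :=
    fun f a y => by
    induction y using ind' with
    | h0 => simp
    | ha a b ha hb => rw [mul_add, map_add, ha, hb, map_add]
    | hn a ha => rw [mul_neg, map_neg, ha, map_neg]
    | hs g => rw [← map_mul, dext_og, dext_og]
  have key : ∀ x ∈ Submodule.span (ZG G) (T : Set (Fin 1 → ZG G)), ∀ g,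
      dext (fun k => c (g * k)) (x 0) = 0 := fun x hx => by
    induction hx using Submodule.span_induction with
    | mem x hx =>
      intro g
      rw [← zero_mul (c g), ← (hI x).1 (hT ▸ Submodule.subset_span hx), ← e1]
      refine Finset.sum_congr rfl fun k hk => ?_
      have : k ∈ B := hB ▸ Subgroup.subset_closure (Finset.mem_biUnion.2 ⟨x, hx, hk⟩)
      simp only [hc, Set.indicator, SetLike.mem_coe, B.mul_mem_cancel_right this, Pi.one_apply]
    | zero => simp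
    | add x y _ _ a b => intro g; rw [Pi.add_apply, map_add, a, b, add_zero]
    | smul r x _ ih =>
      intro g
      rw [Pi.smul_apply, smul_eq_mul]
      induction r using ind' with
      | h0 => simp
      | ha a b ha hb => rw [add_mul, map_add, ha, hb, add_zero]
      | hn a ha => rw [neg_mul, map_neg, ha, neg_zero]
      | hs a => simpa only [e2, mul_assoc] using ih (g * a)
  have := key (fun _ => og a - og 1) (hT ▸ (hI _).2 (by rw [map_sub, ε_og, ε_og, sub_self])) 1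
  rw [map_sub, dext_og, dext_og] at this
  by_contra z
  simp [hc, z] at this

theorem rels (P : ProjectiveResolution (Rep.trivial ℤ G ℤ))
    (f1 : Module.Finite (ZG G) (Md (P.complex.X 1)))
    (f2 : Module.Finite (ZG G) (Md (P.complex.X 2))) :
    ∃ (d n : ℕ) (s : Fin d → G) (X : Matrix (Fin n) (Fin d) (ZG G)),
      Subgroup.closure (Set.range s) = ⊤ ∧ X * D1 s = 0 ∧
      ∀ z, (D1 s)ᴴ *ᵥ z = 0 → ∃ x, Xᴴ *ᵥ x = z := by
  have proj : ∀ i, Module.Projective (ZG G) (Md (P.complex.X i)) := fun i =>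
    (IsProjective.iff_projective _).2
      ((Rep.equivalenceModuleMonoidAlgebra.map_projective_iff (P.complex.X i)).2 inferInstance)
  have C := cmp0 (toL (P.complex.d 1 0)) (toL (P.π.f 0)).toAddMonoidHom (fun g x => by
      rw [og_smul]
      exact Rep.hom_comm_apply (P.π.f 0) g x)
    ((ModuleCat.epi_iff_surjective (Rep.toModuleMonoidAlgebra.map (P.π.f 0))).1
      inferInstance (1 : ℤ)) (fun y => congrArg (fun f => toL f y) P.complex_d_comp_π_f_zero)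
    fun x hx => exact_apply _ P.exact₀ x hx
  obtain ⟨U, hU⟩ := Group.fg_def.1 (fg_of_fin (Submodule.comap (LinearMap.proj (R := ZG G) 0)
    (RingHom.ker (εw (1 : G →* ℤˣ)))) (fun _ => Iff.rfl) (C _ fun _ => Iff.rfl).fin)
  set s : Fin U.card → G := fun i => U.equivFin.symm i
  have hs : Subgroup.closure (Set.range s) = ⊤ := by
    rw [← hU]
    congr 1
    ext x
    exact ⟨by rintro ⟨i, rfl⟩; exact (U.equivFin.symm i).2, fun hx =>
      ⟨U.equivFin ⟨x, hx⟩, by simp [s]⟩⟩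
  set δ1 : (Fin U.card → ZG G) →ₗ[ZG G] (Fin 1 → ZG G) := Matrix.toLinearMapRight' (D1 s) with hδ
  have δ1e : ∀ y, δ1 y = y ᵥ* D1 s := fun y => Matrix.toLinearMapRight'_apply _ _
  have md : mat δ1 = D1 s := LinearMap.toMatrixRight'.apply_symm_apply _
  have := (step (ses_ker δ1.rangeRestrict δ1.surjective_rangeRestrict)
    (ses_range (toL (P.complex.d 1 0)) (toL (P.complex.d 2 1))
      (fun y => congrArg (fun f => toL f y) (P.complex.d_comp_d 2 1 0))
      fun x hx => exact_apply _ (P.exact_succ 0) x hx) (C _ fun x => ⟨by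
        rintro ⟨y, rfl⟩
        rw [δ1e, ε_row], fun e => (row_ex0 hs x).imp fun y hy => by
        rw [δ1e, hy, e]
        ext1
        simp⟩).se).fin
  obtain ⟨m, δ2, h2⟩ := Module.Finite.exists_fin' (ZG G) (LinearMap.ker δ1.rangeRestrict)
  have ct : ∀ {a b : ℕ} (f : (Fin a → ZG G) →ₗ[ZG G] (Fin b → ZG G)) (y : Fin a → ZG G),
      (mat f)ᴴ *ᵥ y = star (f (star y)) := fun f y => by
    rw [← vecMul_mat, star_vecMul, star_star]
  refine ⟨_, m, s, mat ((LinearMap.ker δ1.rangeRestrict).subtype ∘ₗ δ2), hs, ?_, fun y hy => ?_⟩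
  · rw [← md, mat_mul, ← mat_zero]
    congr 1
    exact LinearMap.ext fun y => congrArg Subtype.val (δ2 y).2
  · rw [← md, ct, star_eq_zero] at hy
    obtain ⟨x, hx⟩ := h2 ⟨star y, Subtype.ext hy⟩
    refine ⟨star x, ?_⟩
    rw [ct, star_star, LinearMap.comp_apply, hx]
    exact star_star y

theorem spt_pair' {ι κ : Type} [Fintype ι] [Fintype κ] (y : ι → ZG G) (r : ι → G → κ → ZG G)
    {x : G} (h : x ∈ spt (co (pair y r))) : ∃ g ∈ spt (co y), ∃ i, x ∈ spt (co (r i g)) := by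
  obtain ⟨j, hj⟩ := h
  by_contra e
  refine hj ?_
  have := pair_map (AddMonoidHom.mk' (fun z : κ → ZG G => co z j x) fun _ _ => rfl) y r
  exact this.symm.trans (pair_zero' _ _ fun g hg ⟨i, hi⟩ => e ⟨g, hg, i, j, hi⟩)

variable {A F μ : Subgroup G} {h : G → ℤ} {τ : G}

theorem fp2_of (hs : Subgroup.closure (Set.range s) = ⊤) (P : Res s) {d' n : ℕ} {u : Fin d' → A}
    (hu : Subgroup.closure (Set.range u) = ⊤) (X : Matrix (Fin n) (Fin d') (ZG A))
    (X1 : X * D1 u = 0) (X2 : ∀ z, (D1 u)ᴴ *ᵥ z = 0 → ∃ x, Xᴴ *ᵥ x = z) :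
    FP2 P A ∧ ∃ B, ∀ a ∈ A, ∃ p, (D1 s)ᴴ *ᵥ p = (fun _ => og a - og 1) ∧ spt (co p) ⊆ nb B A := by
  set φ : ZG A →+* ZG G := MonoidAlgebra.mapDomainRingHom ℤ A.subtype
  have f1 : ∀ a : A, φ (og a) = og (a : G) := fun a => MonoidAlgebra.mapDomain_single
  have f2 : ∀ {k : ℕ} (x : Fin k → ZG A), spt (co (φ ∘ x)) ⊆ A := fun x g ⟨i, hi⟩ =>
    by_contra fun c => hi (Finsupp.mapDomain_of_notMem_range _ _ fun ⟨a, ha⟩ => c (ha ▸ a.2))
  have f3 : ∀ {k l : ℕ} (M : Matrix (Fin k) (Fin l) (ZG A)) y, M.map φ *ᵥ (φ ∘ y) = φ ∘ (M *ᵥ y) :=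
    fun M y => funext fun i => (RingHom.map_mulVec φ M y i).symm
  have f4 : (D1 u)ᴴ.map φ = (D1 fun i => (u i : G))ᴴ := by
    ext1 i j
    simp only [Matrix.map_apply, conjTranspose_apply, D1, star_sub, star_one, star_og, map_sub,
      map_one, f1, Subgroup.coe_inv]
  obtain ⟨Ψ, hΨ⟩ := exists_fac (D1 s)ᴴ ((D1 u)ᴴ.map φ) fun x => col_ex0 hs _ (by rw [f4, ε_col])
  obtain ⟨W, hW⟩ := exists_fac P.D2ᴴ (Ψ * Xᴴ.map φ) fun x => P.ex1 _ (by
    rw [mulVec_mulVec, ← Matrix.mul_assoc, hΨ, ← Matrix.map_mul, ← conjTranspose_mul, X1,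
      conjTranspose_zero, Matrix.map_zero _ (map_zero _), zero_mulVec])
  have sp : ∀ {k l : ℕ} (M : Matrix (Fin k) (Fin l) (ZG G)) y,
      spt (co (M *ᵥ (φ ∘ y))) ⊆ nb (ms M) A := fun M y => by
    rw [← act_co]
    exact (spt_act _ _).trans (nb_mono _ (f2 y))
  have pa : ∀ a ∈ A, ∀ b ∈ A, ∃ y, (D1 s)ᴴ *ᵥ Ψ *ᵥ (φ ∘ y) = fun _ => og b - og a :=
    fun a ha b hb => (conn_univ hu ⟨a, ha⟩ ⟨b, hb⟩).path.imp fun y e => by
      rw [mulVec_mulVec, hΨ, f3, e.1]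
      funext
      simp only [Function.comp_apply, map_sub, f1]
  refine ⟨?_, ms Ψ, fun a ha => (pa 1 A.one_mem a ha).elim fun y e => ⟨_, e, sp Ψ y⟩⟩
  obtain ⟨m, -, m1, m2⟩ := exists_m A
  set K := ((mvH Ψ).comp (φ.toAddMonoidHom.compLeft (Fin d'))).range
  obtain ⟨Φ, Φ1, Φ2⟩ := eqv_choose (A := A) (fun (i : Fin d) g v => (D1 s)ᴴ *ᵥ v =
      (fun _ => og (m ((s i)⁻¹ * g)) - og (m g)) ∧ v ∈ K)
    (fun a ha i g v ⟨e1, y, e2⟩ => ⟨by
      rw [mulVec_rt, e1, rt_const, ← mul_assoc, m2 a ha, m2 a ha], rt ⟨a, ha⟩ y, by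
      rw [← e2]
      refine Eq.trans ?_ (mulVec_rt Ψ a _)
      refine congrArg (Ψ *ᵥ ·) (funext fun j => ?_)
      exact (map_mul φ _ _).trans (congrArg _ (f1 _))⟩) fun i g =>
      (pa _ (m1 g) _ (m1 _)).elim fun y e => ⟨_, e, y, rfl⟩
  obtain ⟨H, H1, H2⟩ := eqv_choose (A := A) (fun (_ : Fin 1) g v => (D1 s)ᴴ *ᵥ v =
      fun _ => og g - og (m g))
    (fun a ha i g v e => by rw [mulVec_rt, e, rt_const, m2 a ha]) fun i g =>
      (conn_univ hs _ _).path.imp fun _ e => e.1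
  set Θ := bas - act (D1 s) H - Φ with hΘ
  have Θ1 : Eqv A θt Θ := (eqv_single.sub (H1.act _)).sub Φ1
  obtain ⟨Y, Y1, Y2⟩ := eqv_choose (A := A) (fun i g v => P.D2ᴴ *ᵥ v = Θ i g)
    (fun a ha i g v e => by rw [mulVec_rt, e, Θ1 a ha]; rfl) fun i g => P.ex1 _ (by
      simp only [hΘ, Pi.sub_apply, act_D1, mulVec_sub, H2, (Φ2 i g).1, bas, d1_single]
      funext
      simp only [Pi.sub_apply, Pi.zero_apply]
      abel)
  rintro Z ⟨B, hB⟩
  refine ⟨_, (sm_fin (B.finite_toSet.biUnion fun b _ => Set.finite_iUnion fun i =>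
    spt_co_fin (Y i b))).union (Sm.nb (Y := A) ⟨{1}, fun g hg => ⟨1, by simp, by simpa using hg⟩⟩
      (ms W)), fun z hz hZ => ?_⟩
  have e1 : P.D2ᴴ *ᵥ pair z Y = z - pair z Φ := by
    rw [mv_pair]
    simp only [Y2]
    change pair _ Θ = _
    rw [hΘ, pair_sub', pair_sub', pair_id, pair_act, hz, pair_zero, sub_zero]
  obtain ⟨y, hy⟩ : pair z Φ ∈ K := K.sum_mem fun i _ => K.sum_mem fun g _ =>
    K.zsmul_mem (Φ2 i g).2 _
  have hy : Ψ *ᵥ (φ ∘ y) = pair z Φ := hy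
  obtain ⟨x, rfl⟩ := X2 y (funext fun j => MonoidAlgebra.mapDomain_injective
    (f := A.subtype) Subtype.val_injective (by
      have := congrArg ((D1 s)ᴴ *ᵥ ·) e1
      beta_reduce at this
      rw [mulVec_sub, d1d2, hz, ← hy, mulVec_mulVec, hΨ, f3, zero_sub, zero_eq_neg] at this
      exact (congrFun this j).trans (map_zero φ).symm))
  refine ⟨pair z Y + W *ᵥ (φ ∘ x), ?_, (spt_add _ _).trans (Set.union_subset_union
    (fun g hg => ?_) (sp W x))⟩
  · rw [mulVec_add, e1, mulVec_mulVec, hW, ← mulVec_mulVec, f3, hy, sub_add_cancel]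
  · obtain ⟨k, k1, i, k2⟩ := spt_pair' _ _ hg
    obtain ⟨b, b1, b2⟩ := hB k (hZ k1)
    have := Y1 _ b2 i b
    rw [mul_inv_cancel_left] at this
    rw [this] at k2
    exact ⟨_, Set.mem_biUnion b1 (Set.mem_iUnion.2 ⟨i, spt_rt.1 k2⟩), by simpa using b2⟩

theorem ht_bdd (Γ : Geo s F μ h τ) (wall : Wall F h) (c : G → ℤ) (c1 : ∀ a b, c (a * b) = c a + c b)
    (c2 : ∀ k : ℤ, c (τ ^ k) = k) (c3 : ∀ a ∈ A, c a = 0) (le : F ≤ A) (B : Finset G)
    (pa : ∀ a ∈ A, ∃ p, (D1 s)ᴴ *ᵥ p = (fun _ => og a - og 1) ∧ spt (co p) ⊆ nb B A) :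
    ∃ C : ℕ, ∀ a ∈ A, -C ≤ h a ∧ h a ≤ C := by
  obtain ⟨B', hB⟩ := Sm.biUnion (Set.finite_univ (α := Fin d)) fun i _ => wall (s i)⁻¹
  obtain ⟨C, hC⟩ := ((B.finite_toSet.union B'.finite_toSet).image fun g => (c g).natAbs).bddAbove
  have c4 : ∀ b g, b⁻¹ * g ∈ A → c g = c b := fun b g e => by
    rw [← mul_inv_cancel_left b g, c1, c3 _ e, add_zero]
  refine ⟨2 * C + 2, fun a ha => ?_⟩
  obtain ⟨p, p1, p2⟩ := pa a ha
  have key : ∀ k, ¬(k ≤ h a ↔ k ≤ h 1) → k.natAbs ≤ 2 * C + 1 := fun k hk => by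
    by_contra z
    have := pair_d1 (ind {g | k ≤ h g}) p1
    rw [pair_zero'] at this
    · by_cases e : k ≤ h a <;> by_cases e' : k ≤ h 1 <;> simp [ind, Set.indicator, e, e'] at this hk
    rintro g hg ⟨i, hi⟩
    obtain ⟨b, b1, b2⟩ := p2 hg
    obtain ⟨b', b3, b4⟩ := hB (g * τ ^ (1 - k)) (Set.mem_biUnion (Set.mem_univ i) (by
      rw [act_D1] at hi
      rw [Set.mem_ofPred_eq, ← mul_assoc, Γ.hz, Γ.hz]
      by_cases e : k ≤ h g <;> by_cases e' : k ≤ h ((s i)⁻¹ * g) <;>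
        simp [ind, Set.indicator, e, e'] at hi <;> omega))
    have e1 := c4 _ _ b2
    have e2 := c4 _ _ (le b4)
    have e3 : (c b).natAbs ≤ C := hC ⟨b, Or.inl b1, rfl⟩
    have e4 : (c b').natAbs ≤ C := hC ⟨b', Or.inr b3, rfl⟩
    rw [c1, c2] at e2
    omega
  have := key (h a)
  have := key (h a + 1)
  have := Γ.hF 1 F.one_mem
  omega

open HNNExtension in
theorem hnn_fp {H : Type} [Group H] {F F' : Subgroup H} (φ : F ≃* F')
    (hG : ModData (HNNExtension H F F' φ)) (hH : Group.FG H) (hF : F.FG)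
    (A : Subgroup (HNNExtension H F F' φ)) (le : F.map of ≤ A)
    (le' : A ≤ Subgroup.normalClosure (Set.range (of (φ := φ))))
    (Q : ProjectiveResolution (Rep.trivial ℤ A ℤ)) (f1 : Module.Finite (ZG A) (Md (Q.complex.X 1)))
    (f2 : Module.Finite (ZG A) (Md (Q.complex.X 2))) :
    (⨅ k : ℤ, (F.map (of (φ := φ))).map (MulAut.conj (t ^ k)).toMonoidHom).FG := by
  obtain ⟨d, s, hs, hF⟩ := exists_gen φ hH hF
  obtain ⟨P⟩ := exists_res hs hG
  obtain ⟨h, Γ, wall⟩ := exists_geo s hs hF _ (mem_core φ)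
  obtain ⟨d', n, u, X, hu, X1, X2⟩ := rels Q f1 f2
  obtain ⟨fp, B, pa⟩ := fp2_of hs P hu X X1 X2
  set χ : HNNExtension H F F' φ →* Multiplicative ℤ := lift 1 (Multiplicative.ofAdd 1) (by simp)
  obtain ⟨C, hC⟩ := ht_bdd Γ wall (fun g => (χ g).toAdd) (by simp) (by simp [χ]) (fun a ha =>
    congrArg Multiplicative.toAdd (Subgroup.normalClosure_le_normal (N := χ.ker) (by
      rintro _ ⟨x, rfl⟩
      simp [χ]) (le' ha))) le B pa
  refine main2 hs P Γ wall fun Y ⟨K, hK⟩ => ?_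
  obtain ⟨Y', ⟨K', hK'⟩, fill⟩ := fp Y ⟨K, fun g hg => (hK g hg).imp fun b e => ⟨e.1, le e.2⟩⟩
  obtain ⟨C', hC'⟩ := lip_fin Γ.lip K'.finite_toSet
  refine ⟨Y', C + C', fun g hg => ?_, fill⟩
  obtain ⟨b, b1, b2⟩ := hK' g hg
  have := hC _ b2
  have := hC' b b1 (b⁻¹ * g)
  rw [mul_inv_cancel_left] at this
  omega

end

end Pool.Agent.Lib.MP_4269b5_al.Ag
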