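import Pool.Agent.Lib.MP_4269b5_al.AgPF

/-! Controlled fillings near the edge group. -/

set_option linter.unusedSectionVars false
set_option linter.unusedVariables false

namespace Pool.Agent.Lib.MP_4269b5_al.Ag

open Matrix

noncomputable section

variable {G : Type} [Group G] {V : Type} [AddCommGroup V] {F : Subgroup G}
  {D : Type} [Ring D] {J : G → D} {d : ℕ} {s : Fin d → G}

theorem sm_of_fin {Y : Set G} (h : Y.Finite) : Sm F Y :=
  (sm_fin h).mono fun g hg => ⟨g, hg, by simp⟩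

theorem act_const (c : V) : act (D1 s) (fun _ _ => c) = 0 :=
  funext fun i => funext fun g => by rw [act_D1, sub_self]; rfl

theorem Dual.d2 {P : Res s} (T : Dual P) :
    P.D2ᴴ * (1 - T.κ2 * T.ρ2.map (αw P.w) - T.H1 * P.D2ᴴ) = 0 := by
  have e := congrArg (· * P.D2ᴴ) T.i5
  have i2 := congrArg (·.map (αw P.w)) T.i2
  simp only [Matrix.map_mul, map_map] at i2
  simp only [Matrix.add_mul, Matrix.mul_assoc, P.d12, Matrix.mul_zero, add_zero, Matrix.one_mul,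
    i2] at e
  rw [← Matrix.mul_assoc, T.i4, Matrix.mul_assoc] at e
  rw [Matrix.mul_sub, Matrix.mul_sub, Matrix.mul_one, sub_sub, ← e, sub_self]

theorem Dual.d2' {P : Res s} (T : Dual P) : P.D2ᴴ * (T.κ2 * (D1 s).map (αw P.w)) = 0 := by
  rw [← Matrix.mul_assoc, ← T.i4, Matrix.mul_assoc, ← Matrix.map_mul, P.d21,
    Matrix.map_zero _ (map_zero _), Matrix.mul_zero]

theorem fp2 [StrongRankCondition D] (hs : Subgroup.closure (Set.range s) = ⊤) {P : Res s}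
    (T : Dual P) (R : Rp F J) (reg : Reg J) (gen : ∀ f ∈ F, Conn s F 1 f)
    (inf : ¬Sm F Set.univ) {a0 : G} (ha0 : a0 ∈ F) (ne : a0 ≠ 1) : FP2 P F := by
  obtain ⟨r, r1, r2, r3⟩ := proj2 hs T inf
  rintro Y ⟨B, hB⟩
  refine ⟨_, pf R reg (fun y : {y // spt (co (P.D2ᴴ *ᵥ y)) ⊆ Y} => pair y.1 r)
    (Fintype.card ((Fin d × B) ⊕ Fin d) + 1) fun f => ?_, fun z hz hY => ?_⟩
  swap
  · obtain ⟨y, rfl⟩ := P.ex1 z hz
    exact ⟨pair y r, r2 y, Set.subset_iUnion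
      (fun y : {y // spt (co (P.D2ᴴ *ᵥ y)) ⊆ Y} => spt (co (pair y.1 r))) ⟨y, hY⟩⟩
  obtain ⟨c, c0, hc⟩ := exists_dep ((Fin d × B) ⊕ Fin d) fun l => Sum.elim
    (fun q => vs (P.D2ᴴ *ᵥ (f l).1) J q.1 q.2) fun i => op P.w T.ρ2 (vs (f l).1 J) i 1
  refine ⟨c, c0, ?_⟩
  rw [← xt_comb R r1]
  set y := ∑ l, c l • vs (f l).1 J with hy
  have y1 : Ind F J y := Ind.sum _ fun l => (R.ind _).smul _
  have y2 : act P.D2ᴴ y = 0 := by
    have e : act P.D2ᴴ y = ∑ l, c l • vs (P.D2ᴴ *ᵥ (f l).1) J := by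
      simp only [hy, act_comb, act_vs]
    funext i g
    by_contra z
    have : g ∈ spt (act P.D2ᴴ y) := ⟨i, z⟩
    rw [e] at this
    obtain ⟨l, -, hl⟩ := Set.mem_iUnion₂.1 (spt_sum _ _ this)
    obtain ⟨k, k1, k2⟩ := R.spt _ (spt_smul _ _ hl)
    obtain ⟨b, b1, b2⟩ := hB k ((f l).2 k1)
    have := (y1.act P.D2ᴴ).1 _ (F.mul_mem b2 k2) i b
    rw [e, comb_apply c _ i b, show ∑ l, c l * vs (P.D2ᴴ *ᵥ (f l).1) J i b = 0 from
      hc (Sum.inl (i, ⟨b, b1⟩)), map_zero, ← e] at this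
    exact z (by simpa using this)
  obtain ⟨U0, hU0⟩ := prim hs P (op P.w T.ρ2 y) (by rw [← T.r1, y2, op_zero'])
  set U := U0 - fun _ _ => U0 0 1
  have hU : act (D1 s) U = op P.w T.ρ2 y := by rw [act_sub', act_const, sub_zero, hU0]
  have U1 : U 0 1 = 0 := sub_self _
  have y3 := y1.op P.w T.ρ2
  have U2 : Eqv F (θr (tJ P.w J)) U := fun a ha i g => by
    have := defect hs U (by rw [hU]; exact y3.1) ha g
    rw [← (gen a ha).cst U fun x hx ⟨i, hi⟩ => hi (by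
      have := y3.1 x hx i 1
      rw [one_mul] at this
      rw [hU, this, hy, op_comb, comb_apply, show ∑ l, c l * op P.w T.ρ2 (vs (f l).1 J) i 1 = 0
        from hc (Sum.inr i), map_zero]), U1, map_zero, sub_zero, sub_eq_zero] at this
    rwa [Subsingleton.elim i 0]
  have U3 : Sm F (spt U) := (comp (h := fun _ => 0) (fun _ _ _ => rfl) (fun _ => ⟨0, by simp⟩)
    (oe_zero hs P) (fun k => ⟨0, fun g _ g' _ => (conn_univ hs g g').mono fun x _ => by
      simp [mem_strip]⟩) (fun z => inf (sm_of_fin (z.subset fun x _ => by simp [mem_strip])))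
    ha0 ne ((R.fr reg).tJ P.w).free U U2 (by rw [hU]; exact y3.2.lf)).sm (k := 0) (l := 0)
      fun x _ => by simp [mem_strip]
  have U4 : Ind F J (tw P.w U) := by simpa only [tJ_tJ] using Ind.tw ⟨U2, U3⟩ P.w
  have e : y = act (1 - T.κ2 * T.ρ2.map (αw P.w) - T.H1 * P.D2ᴴ) y +
      act (T.κ2 * (D1 s).map (αw P.w)) (tw P.w U) := by
    have e1 : act (T.κ2 * (D1 s).map (αw P.w)) (tw P.w U) = act (T.κ2 * T.ρ2.map (αw P.w)) y := by
      rw [← op_op _ _ T.ρ2, ← hU, op_act, op]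
    have e2 : act (T.H1 * P.D2ᴴ) y = 0 := by rw [act_mul, y2, act_zero']
    rw [e1, ← add_zero (act _ y), ← e2, ← act_add, ← act_add, sub_add_cancel, sub_add_cancel,
      act_one]
  rw [e, xt_add (y1.act _).2 (U4.act _).2, xt_kill R r1 _ (fun x => r3 _ (by
    rw [mulVec_mulVec, T.d2, zero_mulVec])) y1, xt_kill R r1 _ (fun x => r3 _ (by
    rw [mulVec_mulVec, T.d2', zero_mulVec])) U4, add_zero]

end

end Pool.Agent.Lib.MP_4269b5_al.Ag
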