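import Pool.Agent.Lib.MP_4269b5_al.AgGeo

/-! Half spaces of an HNN extension. -/

set_option linter.unusedSectionVars false
set_option linter.unusedVariables false

namespace Pool.Agent.Lib.MP_4269b5_al.Ag

open HNNExtension

noncomputable section

variable {H : Type} [Group H] {A B : Subgroup H} (φ : A ≃* B)

/-- reduced words with given last and first exponent -/
inductive Wd (u : ℤˣ) : ℤˣ → HNNExtension H A B φ → Prop
  | base (a : H) : a ∈ toSubgroup A B u → Wd u u (t ^ (u : ℤ) * of a)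
  | step (v v' : ℤˣ) (x : H) (g : HNNExtension H A B φ) : Wd u v g →
      (x ∈ toSubgroup A B v' → v' = v) → Wd u v' (t ^ (v' : ℤ) * of x * g)

/-- half space -/
def HS (u : ℤˣ) : Set (HNNExtension H A B φ) := {g | ∃ x v g', Wd φ u v g' ∧ g = of x * g'}

variable {φ} {u v : ℤˣ} {g : HNNExtension H A B φ}

theorem Wd.list (h : Wd φ u v g) : ∃ (x : H) (L : List (ℤˣ × H)),
    ((v, x) :: L).IsChain (fun a b => a.2 ∈ toSubgroup A B a.1 → a.1 = b.1) ∧
    g = (((v, x) :: L).map fun x => t ^ (x.1 : ℤ) * of x.2).prod := by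
  induction h with
  | base a ha => exact ⟨a, [], List.isChain_singleton _, by simp⟩
  | step v v' x g _ e ih =>
    obtain ⟨y, L, h1, h2⟩ := ih
    exact ⟨x, (v, y) :: L, List.isChain_cons_cons.2 ⟨e, h1⟩, by rw [h2]; rfl⟩

theorem of_not (x : H) : (of x : HNNExtension H A B φ) ∉ HS φ u := by
  rintro ⟨y, v, g, h, e⟩
  obtain ⟨z, L, h1, rfl⟩ := h.list
  exact List.cons_ne_nil _ _
    (ReducedWord.toList_eq_nil_of_mem_of_range φ ⟨y, _, h1⟩ ⟨x, e⟩)

theorem HS.left (h : g ∈ HS φ u) (x : H) : of x * g ∈ HS φ u := by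
  obtain ⟨y, v, g, h, rfl⟩ := h
  exact ⟨x * y, v, g, h, by rw [map_mul, mul_assoc]⟩

theorem Wd.hs (h : Wd φ u v g) : g ∈ HS φ u := ⟨1, v, g, h, by simp⟩

theorem t_of (v : ℤˣ) (x : H) (hx : x ∈ toSubgroup A B v) : ∃ y ∈ toSubgroup A B (-v),
    (t : HNNExtension H A B φ) ^ (v : ℤ) * of x = of y * t ^ (v : ℤ) := by
  rcases Int.units_eq_one_or v with rfl | rfl
  · exact ⟨φ ⟨x, hx⟩, (φ ⟨x, hx⟩).2, by simpa using t_mul_of (φ := φ) ⟨x, hx⟩⟩
  · exact ⟨φ.symm ⟨x, hx⟩, (φ.symm ⟨x, hx⟩).2, by simpa using inv_t_mul_of (φ := φ) ⟨x, hx⟩⟩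

theorem t_neg (v : ℤˣ) (g : HNNExtension H A B φ) : t ^ ((-v : ℤˣ) : ℤ) * (t ^ (v : ℤ) * g) = g := by
  simp

theorem HS.cross (h : g ∈ HS φ u) (v : ℤˣ) :
    t ^ (v : ℤ) * g ∈ HS φ u ∨ ∃ a ∈ toSubgroup A B u, t ^ (v : ℤ) * g = of a := by
  obtain ⟨x, v', g, h, rfl⟩ := h
  by_cases c : x ∈ toSubgroup A B v → v = v'
  · exact Or.inl (by rw [← mul_assoc]; exact (Wd.step v' v x g h c).hs)
  push Not at c
  obtain ⟨y, hy, e⟩ := t_of (φ := φ) v x c.1
  have ev : v = -v' := by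
    rcases Int.units_eq_one_or v with rfl | rfl <;> rcases Int.units_eq_one_or v' with rfl | rfl <;>
      simp_all
  subst ev
  rw [← mul_assoc, e, mul_assoc]
  cases h with
  | base a ha =>
    rw [t_neg, ← map_mul]
    exact Or.inr ⟨_, Subgroup.mul_mem _ (by simpa using hy) ha, rfl⟩
  | step w _ z g h' _ =>
    rw [mul_assoc, t_neg]
    exact Or.inl (HS.left (HS.left h'.hs z) y)

theorem HS.right (h : g ∈ HS φ u) {a : H} (ha : a ∈ toSubgroup A B u) : g * of a ∈ HS φ u := by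
  obtain ⟨x, v, g, h, rfl⟩ := h
  refine ⟨x, v, g * of a, ?_, mul_assoc _ _ _⟩
  induction h with
  | base b hb =>
    rw [mul_assoc, ← map_mul]
    exact Wd.base _ (Subgroup.mul_mem _ hb ha)
  | step v v' y g _ e ih =>
    rw [mul_assoc]
    exact Wd.step v v' y _ ih e

theorem of_t (x : H) (u : ℤˣ) : (of x * t ^ (u : ℤ) : HNNExtension H A B φ) ∈ HS φ u :=
  ⟨x, u, _, Wd.base 1 (Subgroup.one_mem _), by simp⟩

theorem HS.app (h : g ∈ HS φ u) : g * t ^ (u : ℤ) ∈ HS φ u := by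
  obtain ⟨x, v, g, h, rfl⟩ := h
  refine ⟨x, v, g * t ^ (u : ℤ), ?_, mul_assoc _ _ _⟩
  induction h with
  | base b hb =>
    simpa using Wd.step u u b _ (Wd.base (φ := φ) (u := u) 1 (Subgroup.one_mem _)) fun _ => rfl
  | step v v' y g _ e ih =>
    rw [mul_assoc]
    exact Wd.step v v' y _ ih e

theorem left_ind {p : HNNExtension H A B φ → Prop} (h1 : p 1) (h2 : ∀ x g, p g → p (of x * g))
    (h3 : ∀ (v : ℤˣ) g, p g → p (t ^ (v : ℤ) * g)) (g : HNNExtension H A B φ) : p g := by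
  suffices h : ∀ k, (p k → p (g * k)) ∧ (p k → p (g⁻¹ * k)) by simpa using (h 1).1 h1
  induction g using HNNExtension.induction_on with
  | of x => exact fun k => ⟨h2 x k, by rw [← map_inv]; exact h2 _ k⟩
  | t => exact fun k => ⟨by simpa using h3 1 k, by simpa using h3 (-1) k⟩
  | mul x y a b =>
    intro k
    rw [mul_assoc, _root_.mul_inv_rev, mul_assoc]
    exact ⟨fun h => (a _).1 ((b _).1 h), fun h => (b _).2 ((a _).2 h)⟩
  | inv x a => exact fun k => ⟨(a k).2, by simpa using (a k).1⟩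

theorem hs_or (u : ℤˣ) (g : HNNExtension H A B φ) :
    g * t ^ (u : ℤ) ∈ HS φ u ∨ g ∈ HS φ (-u) := by
  induction g using left_ind with
  | h1 => exact Or.inl (by simpa using of_t (φ := φ) 1 u)
  | h2 x g h => exact h.imp (fun h => by rw [mul_assoc]; exact HS.left h x) fun h => HS.left h x
  | h3 v g h =>
    rcases h with h | h
    · rcases HS.cross h v with c | ⟨a, -, c⟩
      · exact Or.inl (by rwa [mul_assoc])
      · refine Or.inr ?_
        have := of_t (φ := φ) a (-u)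
        rw [← c] at this
        simpa [mul_assoc] using this
    · rcases HS.cross h v with c | ⟨a, -, c⟩
      · exact Or.inr c
      · exact Or.inl (c ▸ of_t a u)

theorem HS.disj (h : g ∈ HS φ u) {b : H} (hb : b ∉ toSubgroup A B u) : g * of b ∉ HS φ u := by
  obtain ⟨x, v, g, h, rfl⟩ := h
  suffices e : g * of b ∉ HS φ u from fun z => e (by
    simpa [← mul_assoc, ← map_mul] using HS.left z x⁻¹)
  induction h with
  | base a ha =>
    intro z
    have := HS.cross z (-u)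
    rw [mul_assoc, t_neg, ← map_mul] at this
    rcases this with c | ⟨c, hc, e⟩
    · exact of_not _ c
    · rw [← of_injective φ e] at hc
      exact hb ((Subgroup.mul_mem_cancel_left _ ha).1 hc)
  | step v v' y g h _ ih =>
    intro z
    have := HS.cross z (-v')
    rw [mul_assoc, mul_assoc, t_neg] at this
    rcases this with c | ⟨c, hc, e⟩
    · exact ih (by simpa [← mul_assoc, ← map_mul] using HS.left c y⁻¹)
    · have : g = of (y⁻¹ * c * b⁻¹) := by simp [← e, mul_assoc]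
      exact of_not _ (this ▸ h.hs)

variable (φ) in
/-- the half spaces along the axis -/
def XS (k : ℤ) (g : HNNExtension H A B φ) : Prop := g * t ^ (1 - k) ∈ HS φ 1

theorem XS.pred {k : ℤ} (h : XS φ (k + 1) g) : XS φ k g := by
  have := HS.app h
  rw [mul_assoc, ← zpow_add] at this
  have e : 1 - (k + 1) + ((1 : ℤˣ) : ℤ) = 1 - k := by rw [Units.val_one]; ring
  rwa [e] at this

theorem XS.anti {k l : ℤ} (h : XS φ l g) (e : k ≤ l) : XS φ k g := by
  induction l, e using Int.leInduction with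
  | base => exact h
  | succ n _ ih => exact ih h.pred

theorem XS.of {k : ℤ} (h : XS φ k g) (x : H) : XS φ k (of x * g) := by
  rw [XS, mul_assoc]; exact HS.left h x

theorem XS.t {k : ℤ} (h : XS φ (k + 1) g) (v : ℤˣ) : XS φ k (t ^ (v : ℤ) * g) := by
  rcases HS.cross h v with c | ⟨a, -, c⟩
  · exact XS.pred (by rwa [XS, mul_assoc])
  · have := of_t (φ := φ) a 1
    rw [← c, mul_assoc, mul_assoc, ← zpow_add] at this
    have e : 1 - (k + 1) + ((1 : ℤˣ) : ℤ) = 1 - k := by rw [Units.val_one]; ring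
    rwa [e, ← mul_assoc] at this

theorem xs_of (x : H) : XS φ 0 (of x) ∧ ¬XS φ 1 (of x) :=
  ⟨by simpa [XS] using of_t (φ := φ) x 1, by simpa [XS] using of_not (φ := φ) (u := 1) x⟩

theorem exists_h : ∃ h : HNNExtension H A B φ → ℤ, ∀ g k, k ≤ h g ↔ XS φ k g := by
  have : ∀ g : HNNExtension H A B φ, (∃ k, XS φ k g) ∧ ∃ k, ¬XS φ k g := fun g => by
    induction g using left_ind with
    | h1 => exact ⟨⟨0, by simpa using (xs_of (φ := φ) 1).1⟩, 1, by simpa using (xs_of (φ := φ) 1).2⟩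
    | h2 x g h =>
      exact ⟨h.1.imp fun _ h => h.of x, h.2.imp fun _ h z => h (by
        simpa [← mul_assoc, ← map_mul] using z.of x⁻¹)⟩
    | h3 v g h =>
      obtain ⟨⟨k, hk⟩, l, hl⟩ := h
      exact ⟨⟨k - 1, XS.t (by simpa using hk) v⟩, l + 1, fun z => hl (t_neg v g ▸ z.t (-v))⟩
  have : ∀ g : HNNExtension H A B φ, ∃ n, ∀ k, k ≤ n ↔ XS φ k g := fun g => by
    obtain ⟨a, l, hl⟩ := this g
    obtain ⟨n, h1, h2⟩ := Int.exists_greatest_of_bdd (P := fun k => XS φ k g)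
      ⟨l, fun z hz => by_contra fun c => hl (hz.anti (by omega))⟩ a
    exact ⟨n, fun k => ⟨h1.anti, h2 k⟩⟩
  choose h hh using this
  exact ⟨h, hh⟩

theorem exists_geo {d : ℕ} (s : Fin d → HNNExtension H A B φ)
    (hs : Subgroup.closure (Set.range s) = ⊤)
    (hF : A.map of ≤ Subgroup.closure (Set.range s ∩ (A.map (of (φ := φ)))))
    (μ : Subgroup (HNNExtension H A B φ))
    (hμ : ∀ m, m ∈ μ ↔ ∀ k : ℤ, t ^ k * m * (t ^ k)⁻¹ ∈ A.map (of (φ := φ))) :
    ∃ h, Geo s (A.map of) μ h t ∧ Wall (A.map of) h := by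
  obtain ⟨h, hh⟩ := exists_h (φ := φ)
  have ext : ∀ g g' c, (∀ k, XS φ (k + c) g ↔ XS φ k g') → h g = h g' + c := fun g g' c e => by
    have a := (hh g (h g' + c)).2 ((e _).2 ((hh _ _).1 le_rfl))
    have b := (hh g' (h g - c)).2 ((e _).1 (by simpa using (hh _ _).1 le_rfl))
    omega
  have hτ : ∀ g, h (g * t) = h g + 1 := fun g => ext _ _ 1 fun k => by
    rw [XS, XS, mul_assoc, ← zpow_one_add]
    have : 1 + (1 - (k + 1)) = 1 - k := by ring
    rw [this]
  have h0 : ∀ x : H, h (of x) = 0 := fun x => by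
    have a := (hh _ _).2 (xs_of (φ := φ) x).1
    have b := (hh _ _).not.2 (xs_of (φ := φ) x).2
    omega
  have hF0 : ∀ f ∈ A.map (of (φ := φ)), h f = 0 := by rintro _ ⟨x, -, rfl⟩; exact h0 x
  have ho : ∀ (x : H) g, h (of x * g) = h g := fun x g => by
    simpa using ext (of x * g) g 0 fun k => by
      rw [add_zero]
      exact ⟨fun z => by simpa [← mul_assoc, ← map_mul] using z.of x⁻¹, fun z => z.of x⟩
  have ht : ∀ (v : ℤˣ) g, h g - 1 ≤ h (t ^ (v : ℤ) * g) := fun v g =>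
    (hh _ _).2 (XS.t (by simpa using (hh _ _).1 le_rfl) v)
  have lip : ∀ k, ∃ C : ℕ, ∀ g, |h (k * g) - h g| ≤ C := fun k => by
    induction k using left_ind with
    | h1 => exact ⟨0, by simp⟩
    | h2 x k e => exact e.imp fun C e g => by rw [mul_assoc, ho]; exact e g
    | h3 v k e =>
      obtain ⟨C, e⟩ := e
      refine ⟨C + 1, fun g => ?_⟩
      have a := ht v (k * g)
      have b := ht (-v) (t ^ (v : ℤ) * (k * g))
      have c := abs_le.1 (e g)
      rw [t_neg] at b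
      rw [mul_assoc, abs_le]
      push_cast
      omega
  have h1 : ∀ g, 1 ≤ h g ↔ g ∈ HS φ 1 := fun g => by rw [hh, XS]; simp
  have wall : Wall (A.map of) h := fun k => by
    induction k using left_ind with
    | h1 => exact sm_empty.mono fun g hg => by simp only [one_mul, Set.mem_ofPred_eq] at hg; omega
    | h2 x k e => simpa only [mul_assoc, ho] using e
    | h3 v k e =>
      have s1 : Sm (A.map (of (φ := φ))) (A.map (of (φ := φ))) :=
        ⟨{1}, fun g hg => ⟨1, by simp, by simpa using hg⟩⟩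
      refine (e.union ((s1.left k).union (s1.left (t ^ (v : ℤ) * k)))).mono fun g hg => ?_
      simp only [mul_assoc, Set.mem_ofPred_eq, Set.mem_union] at hg ⊢
      by_cases c : 1 ≤ h (k * g)
      · rcases HS.cross ((h1 _).1 c) v with z | ⟨a, ha, z⟩
        · have := (h1 _).2 z
          omega
        · exact Or.inr (Or.inr ⟨a, ha, z.symm⟩)
      · by_cases c' : 1 ≤ h (t ^ (v : ℤ) * (k * g))
        · rcases HS.cross ((h1 _).1 c') (-v) with z | ⟨a, ha, z⟩ <;> rw [t_neg] at z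
          · exact absurd ((h1 _).2 z) c
          · exact Or.inr (Or.inl ⟨a, ha, z.symm⟩)
        · omega
  have inv : ∀ f ∈ A.map (of (φ := φ)), ∀ g, 1 ≤ h g → 1 ≤ h (g * f) := by
    rintro _ ⟨a, ha, rfl⟩ g e
    exact (h1 _).2 (HS.right ((h1 _).1 e) ha)
  have hm : ∀ m ∈ μ, ∀ g k, XS φ k g → XS φ k (g * m) := fun m hm g k e => by
    obtain ⟨a, ha, z⟩ := (hμ m).1 hm (k - 1)
    have := HS.right e (u := 1) ha
    rw [z] at this
    have q : g * t ^ (1 - k) * (t ^ (k - 1) * m * (t ^ (k - 1))⁻¹) = g * m * t ^ (1 - k) := by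
      group
    rwa [q] at this
  refine ⟨h, ⟨hτ, hF0, fun m a g => ?_, lip, fun f hf g e => ?_, fun f hf g e => ?_,
    fun f hf e => ?_, fun m a => (hμ m).1 a, conn_sub _ hF,
    conn_of hs hτ hF0 lip (conn_sub _ hF) wall⟩, wall⟩
  · simpa using ext (g * m) g 0 fun k => by
      rw [add_zero]
      exact ⟨fun z => by simpa using hm m⁻¹ (μ.inv_mem a) _ _ z, hm m a g k⟩
  · have := inv f hf g e
    omega
  · have := inv f⁻¹ (inv_mem hf) (g * f)
    rw [mul_inv_cancel_right] at this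
    omega
  classical
  have key : ∀ u : ℤˣ, (∃ n : ℕ, t ^ ((u : ℤ) * n) * f * (t ^ ((u : ℤ) * n))⁻¹ ∉
      A.map (of (φ := φ))) → ∃ (n : ℕ) (a : H), a ∈ A ∧
      t ^ ((u : ℤ) * n) * f * (t ^ ((u : ℤ) * n))⁻¹ = of a ∧
      t ^ (u : ℤ) * of a * (t ^ (u : ℤ))⁻¹ ∉ A.map (of (φ := φ)) := fun u z => by
    have z1 := Nat.find_spec z
    obtain ⟨n, hn⟩ := Nat.exists_eq_succ_of_ne_zero (n := Nat.find z) fun c => by
      rw [c] at z1
      exact z1 (by simpa using hf)
    obtain ⟨a, ha, c⟩ := not_not.1 (Nat.find_min z (m := n) (by omega))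
    refine ⟨n, a, ha, c.symm, ?_⟩
    rw [hn, Nat.cast_succ, mul_add, mul_one, add_comm, zpow_add] at z1
    rw [c]
    simpa [mul_assoc] using z1
  rw [hμ, not_forall] at e
  obtain ⟨k, hk⟩ := e
  rcases le_total 0 k with c | c
  · obtain ⟨n, a, ha, e1, e2⟩ := key 1 ⟨k.toNat, by simpa [c] using hk⟩
    refine Or.inl ⟨n + 2, fun g z => by_contra fun z' => ?_⟩
    have y := (hh _ _).1 z
    have y' := (hh _ _).1 (not_lt.1 z')
    have e3 : (t : HNNExtension H A B φ) * of a * t⁻¹ = of (φ ⟨a, ha⟩ : H) :=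
      (equiv_eq_conj ⟨a, ha⟩).symm
    refine HS.disj y (b := φ ⟨a, ha⟩) (fun c => e2 ⟨_, c, by simpa using e3.symm⟩) ?_
    rw [← e3, ← e1]
    have q : g * t ^ (1 - ((n : ℤ) + 2)) * (t * (t ^ (((1 : ℤˣ) : ℤ) * n) * f *
        (t ^ (((1 : ℤˣ) : ℤ) * n))⁻¹) * t⁻¹) = g * f * t ^ (1 - ((n : ℤ) + 2)) := by
      simp only [Units.val_one, one_mul]
      group
    rwa [q]
  · obtain ⟨n, a, ha, e1, e2⟩ := key (-1) ⟨(-k).toNat, by simpa [c] using hk⟩
    refine Or.inr ⟨-n - 1, fun g z => by_contra fun z' => ?_⟩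
    have w : ∀ g, h g ≤ -n - 1 → g * t ^ (n : ℤ) ∈ HS φ (-1) := fun g z =>
      (hs_or 1 _).resolve_left fun c => by
        have := (hh g (-n)).2 (by
          rw [mul_assoc, ← zpow_add] at c
          simpa [XS, add_comm] using c)
        omega
    refine HS.disj (w g z) (b := a) (fun c => e2 ⟨φ.symm ⟨a, c⟩, (φ.symm ⟨a, c⟩).2, ?_⟩) ?_
    · simpa using equiv_symm_eq_conj (φ := φ) ⟨a, c⟩
    · have := w _ (not_lt.1 z')
      rw [← e1]
      simpa [mul_assoc] using this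

end

end Pool.Agent.Lib.MP_4269b5_al.Ag
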