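import Pool.Agent.Lib.MP_4269b5_al.AgMu
import Pool.Agent.Lib.MP_4269b5_al.AgTree

/-! The axis stabiliser of an HNN extension. -/

set_option linter.unusedSectionVars false
set_option linter.unusedVariables false

namespace Pool.Agent.Lib.MP_4269b5_al.Ag

noncomputable section

theorem exists_rp {G K D : Type} [Group G] [Group K] [Ring D] (j : K →* G)
    (hj : Function.Injective j) (ι : ZG K →+* D) : ∃ J : G → D, Rp j.range J ∧
      (∀ a, J (j a) = ι (og a)) ∧ ∀ (x : ZG G) g, x.coeff g ≠ 0 → ∃ y ≠ 0, sm x J g = ι y := by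
  classical
  set J0 : G → ZG K := Function.extend j og 0
  have e1 : ∀ a, J0 (j a) = og a := fun a => hj.extend_apply _ _ a
  have e2 : ∀ g, g ∉ j.range → J0 g = 0 := fun g hg => Function.extend_apply' _ _ _ hg
  refine ⟨fun g => ι (J0 g), ⟨?_, ?_, ?_, fun g hg => ?_⟩, fun a => congrArg ι (e1 a),
    fun x g hx => ?_⟩
  · rw [← map_one j, e1, map_one, map_one]
  · rintro _ ⟨a, rfl⟩ g
    by_cases c : g ∈ j.range
    · obtain ⟨b, rfl⟩ := c
      rw [← map_mul, e1, e1, e1, map_mul, map_mul]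
    · rw [e2 g c, e2 _ fun z => c ((j.range.mul_mem_cancel_right ⟨a, rfl⟩).1 z), map_zero, zero_mul]
  · rintro _ ⟨a, rfl⟩ g
    by_cases c : g ∈ j.range
    · obtain ⟨b, rfl⟩ := c
      rw [← map_mul, e1, e1, e1, map_mul, map_mul]
    · rw [e2 g c, e2 _ fun z => c ((j.range.mul_mem_cancel_left ⟨a, rfl⟩).1 z), map_zero, mul_zero]
  · by_contra c
    exact hg (by rw [e2 g c, map_zero])
  · refine ⟨_, fun z => hx ?_, sm_nat ι.toAddMonoidHom x J0 (fun g => ι (J0 g)) g g fun _ => rfl⟩
    have := sm_nat (AddMonoidHom.mk' (fun z : ZG K => z.coeff 1) fun _ _ => rfl) x J0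
      (og (1 : G)).coeff g g fun k => by
        change _ = (J0 _).coeff 1
        by_cases c : k * g ∈ j.range
        · obtain ⟨b, hb⟩ := c
          rw [← hb, e1, coeff_og, coeff_og, ← map_one j]
          simp only [hj.eq_iff, eq_comm]
        · rw [e2 _ c, coeff_og, if_neg fun z : 1 = k * g => c (z ▸ j.range.one_mem)]
          rfl
    rw [z, map_zero] at this
    exact (congrFun (congrFun (co_eq fun _ : Unit => x) ()) g).trans this

open HNNExtension in
theorem exists_gen {H : Type} [Group H] {A B : Subgroup H} (φ : A ≃* B) (hH : Group.FG H)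
    (hA : A.FG) : ∃ (d : ℕ) (s : Fin d → HNNExtension H A B φ),
      Subgroup.closure (Set.range s) = ⊤ ∧
      A.map of ≤ Subgroup.closure (Set.range s ∩ (A.map (of (φ := φ)))) := by
  classical
  obtain ⟨S, hS⟩ := Group.fg_def.1 hH
  obtain ⟨T, hT⟩ := hA
  set U : Finset (HNNExtension H A B φ) := insert t ((S ∪ T).image of)
  have r : Set.range (fun i => (U.equivFin.symm i : HNNExtension H A B φ)) = U := by
    ext x
    exact ⟨by rintro ⟨i, rfl⟩; exact (U.equivFin.symm i).2, fun hx =>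
      ⟨U.equivFin ⟨x, hx⟩, by simp⟩⟩
  refine ⟨_, fun i => (U.equivFin.symm i : HNNExtension H A B φ), ?_, ?_⟩
  · rw [r, eq_top_iff]
    intro g _
    induction g using HNNExtension.induction_on with
    | of x =>
      have : Subgroup.map of (Subgroup.closure (S : Set H)) ≤
          Subgroup.closure (U : Set (HNNExtension H A B φ)) := by
        rw [MonoidHom.map_closure]
        refine Subgroup.closure_mono ?_
        rintro _ ⟨y, hy, rfl⟩
        exact Finset.mem_insert_of_mem (Finset.mem_image_of_mem _ (Finset.mem_union_left _ hy))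
      exact this ⟨x, hS ▸ Subgroup.mem_top x, rfl⟩
    | t => exact Subgroup.subset_closure (Finset.mem_insert_self _ _)
    | mul x y a b => exact mul_mem (a trivial) (b trivial)
    | inv x a => exact inv_mem (a trivial)
  · rw [r]
    refine (Subgroup.map_mono hT.ge).trans ?_
    rw [MonoidHom.map_closure]
    refine Subgroup.closure_mono ?_
    rintro _ ⟨y, hy, rfl⟩
    exact ⟨Finset.mem_insert_of_mem (Finset.mem_image_of_mem _ (Finset.mem_union_right _ hy)),
      y, hT ▸ Subgroup.subset_closure hy, rfl⟩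

open HNNExtension in
theorem mem_core {H : Type} [Group H] {A B : Subgroup H} (φ : A ≃* B) (m : HNNExtension H A B φ) :
    m ∈ ⨅ k : ℤ, (A.map of).map (MulAut.conj (t ^ k)).toMonoidHom ↔
      ∀ k : ℤ, t ^ k * m * (t ^ k)⁻¹ ∈ A.map (of (φ := φ)) := by
  rw [Subgroup.mem_iInf]
  refine ⟨fun h k => ?_, fun h k => ⟨_, h (-k), ?_⟩⟩
  · obtain ⟨x, hx, rfl⟩ := h (-k)
    change t ^ k * (t ^ (-k) * x * (t ^ (-k))⁻¹) * (t ^ k)⁻¹ ∈ _
    simpa [mul_assoc] using hx
  · change t ^ k * (t ^ (-k) * m * (t ^ (-k))⁻¹) * (t ^ k)⁻¹ = m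
    group

open HNNExtension in
theorem hnn_fg {H : Type} [Group H] {A B : Subgroup H} (φ : A ≃* B)
    (hG : ModData (HNNExtension H A B φ)) (hH : Group.FG H) (hA : A.FG) {D : Type} [Ring D]
    [StrongRankCondition D] (ι : ZG A →+* D) (reg : ∀ x, x ≠ 0 → ∀ c, c * ι x = 0 → c = 0) :
    (⨅ k : ℤ, (A.map (of (φ := φ))).map (MulAut.conj (t ^ k)).toMonoidHom).FG := by
  obtain ⟨d, s, hs, hF⟩ := exists_gen φ hH hA
  obtain ⟨P⟩ := exists_res hs hG
  obtain ⟨h, Γ, wall⟩ := exists_geo s hs hF _ (mem_core φ)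
  obtain ⟨J, R, -, rg⟩ := exists_rp ((of (φ := φ)).comp A.subtype)
    ((of_injective φ).comp Subtype.val_injective) ι
  rw [MonoidHom.range_comp, A.range_subtype] at R
  refine main hs P Γ wall R fun x g hx => ?_
  obtain ⟨y, y1, y2⟩ := rg x g hx
  exact y2 ▸ reg y y1

end

end Pool.Agent.Lib.MP_4269b5_al.Ag
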