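import Pool.Agent.Lib.MP_4269b5_al.Conv

/-! Group ring matrices acting on functions on the group. -/

set_option linter.unusedSectionVars false
set_option linter.unusedVariables false

namespace Pool.Agent.Lib.MP_4269b5_al.Ag

open Matrix

noncomputable section

variable {G : Type} [Group G] {V : Type} [AddCommGroup V]

theorem ind' {p : ZG G → Prop} (h0 : p 0) (ha : ∀ x y, p x → p y → p (x + y))
    (hn : ∀ x, p x → p (-x)) (hs : ∀ g : G, p (og g)) (x : ZG G) : p x :=
  ZG.ind h0 ha (fun r g => by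
    induction r using Int.induction_on with
    | zero => simpa using h0
    | succ n ih => rw [add_smul, one_smul]; exact ha _ _ ih (hs g)
    | pred n ih => rw [sub_smul, one_smul, sub_eq_add_neg]; exact ha _ _ ih (hn _ (hs g))) x

theorem hom_ext' {M : Type} [AddCommGroup M] {φ ψ : ZG G →+ M} (h : ∀ g, φ (og g) = ψ (og g)) :
    φ = ψ := AddMonoidHom.ext fun x =>
  ind' (p := fun x => φ x = ψ x) (by simp) (fun a b ha hb => by rw [map_add, map_add, ha, hb])
    (fun a ha => by rw [map_neg, map_neg, ha]) h x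

/-- action of the group ring on functions by left translation -/
def sm (a : ZG G) (v : G → V) : G → V := fun g => dext (fun s => v (s⁻¹ * g)) a

theorem sm_og (k : G) (v : G → V) (g : G) : sm (og k) v g = v (k⁻¹ * g) := dext_og _ _

theorem sm_add (a b : ZG G) (v : G → V) : sm (a + b) v = sm a v + sm b v :=
  funext fun _ => map_add _ _ _

theorem sm_zero (v : G → V) : sm (0 : ZG G) v = 0 := funext fun _ => map_zero _

theorem sm_neg (a : ZG G) (v : G → V) : sm (-a) v = -sm a v := funext fun _ => map_neg _ _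

theorem sm_sub (a b : ZG G) (v : G → V) : sm (a - b) v = sm a v - sm b v :=
  funext fun _ => map_sub _ _ _

theorem sm_one (v : G → V) : sm (1 : ZG G) v = v := funext fun g => by
  rw [← map_one og, sm_og]; simp

theorem sm_sum {ι : Type} (s : Finset ι) (a : ι → ZG G) (v : G → V) :
    sm (∑ i ∈ s, a i) v = ∑ i ∈ s, sm (a i) v := funext fun g => by
  rw [Finset.sum_apply]; exact map_sum _ _ _

theorem sm_eq (a : ZG G) (v : G → V) (g : G) :
    sm a v g = ∑ s ∈ a.coeff.support, a.coeff s • v (s⁻¹ * g) := rfl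

/-- naturality in the coefficients, with a translation -/
theorem sm_nat {W : Type} [AddCommGroup W] (φ : V →+ W) (a : ZG G) (v : G → V) (v' : G → W)
    (g g' : G) (h : ∀ s : G, v' (s * g') = φ (v (s * g))) : sm a v' g' = φ (sm a v g) := by
  rw [sm_eq, sm_eq, map_sum]
  exact Finset.sum_congr rfl fun s _ => by rw [map_zsmul, h]

theorem sm_add' (a : ZG G) (v v' : G → V) : sm a (v + v') = sm a v + sm a v' := funext fun g => by
  simp only [sm_eq, Pi.add_apply, smul_add, Finset.sum_add_distrib]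

theorem sm_zero' (a : ZG G) : sm a (0 : G → V) = 0 := funext fun g => by simp [sm_eq]

theorem sm_mul (a b : ZG G) (v : G → V) : sm (a * b) v = sm a (sm b v) := by
  induction a using ind' with
  | h0 => simp [sm_zero]
  | ha x y hx hy => rw [add_mul, sm_add, sm_add, hx, hy]
  | hn x hx => rw [neg_mul, sm_neg, sm_neg, hx]
  | hs k =>
    induction b using ind' with
    | h0 => simp [sm_zero, sm_zero']
    | ha x y hx hy => rw [mul_add, sm_add, sm_add, hx, hy, sm_add']
    | hn x hx =>
      rw [mul_neg, sm_neg, sm_neg, hx]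
      funext g
      simp [sm_og]
    | hs l =>
      funext g
      rw [← map_mul, sm_og, sm_og, sm_og, _root_.mul_inv_rev, mul_assoc]

variable {ι κ ν : Type} [Fintype ι] [Fintype κ] [Fintype ν]

/-- action of a matrix on a vector of functions -/
def act (X : Matrix ι κ (ZG G)) (v : κ → G → V) : ι → G → V := fun i => ∑ j, sm (X i j) (v j)

theorem act_apply (X : Matrix ι κ (ZG G)) (v : κ → G → V) (i : ι) (g : G) :
    act X v i g = ∑ j, sm (X i j) (v j) g := Finset.sum_apply _ _ _

/-- the action as an additive map -/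
def actH (X : Matrix ι κ (ZG G)) : (κ → G → V) →+ (ι → G → V) :=
  AddMonoidHom.mk' (act X) fun v v' => funext fun i => by
    simp only [act, Pi.add_apply, sm_add', Finset.sum_add_distrib]

theorem act_add' (X : Matrix ι κ (ZG G)) (v v' : κ → G → V) :
    act X (v + v') = act X v + act X v' := (actH X).map_add v v'

theorem act_sub' (X : Matrix ι κ (ZG G)) (v v' : κ → G → V) :
    act X (v - v') = act X v - act X v' := (actH X).map_sub v v'

theorem act_neg' (X : Matrix ι κ (ZG G)) (v : κ → G → V) : act X (-v) = -act X v :=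
  (actH X).map_neg v

theorem act_zero' (X : Matrix ι κ (ZG G)) : act X (0 : κ → G → V) = 0 := (actH X).map_zero

theorem act_sum' {σ : Type} (X : Matrix ι κ (ZG G)) (s : Finset σ) (v : σ → κ → G → V) :
    act X (∑ l ∈ s, v l) = ∑ l ∈ s, act X (v l) := map_sum (actH X) _ _

theorem act_add (X Y : Matrix ι κ (ZG G)) (v : κ → G → V) : act (X + Y) v = act X v + act Y v :=
  funext fun i => by simp only [act, Matrix.add_apply, sm_add, Finset.sum_add_distrib, Pi.add_apply]

theorem act_zero (v : κ → G → V) : act (0 : Matrix ι κ (ZG G)) v = 0 :=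
  funext fun i => by simp [act, sm_zero]

theorem act_one [DecidableEq ι] (v : ι → G → V) : act (1 : Matrix ι ι (ZG G)) v = v :=
  funext fun i => by
    rw [act, Finset.sum_eq_single i]
    · rw [Matrix.one_apply_eq, sm_one]
    · intro j _ h; rw [Matrix.one_apply_ne h.symm, sm_zero]
    · simp

theorem sm_sum' {σ : Type} (a : ZG G) (s : Finset σ) (u : σ → G → V) :
    sm a (∑ l ∈ s, u l) = ∑ l ∈ s, sm a (u l) := by
  classical
  induction s using Finset.induction_on with
  | empty => simp [sm_zero']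
  | insert x s hx ih => rw [Finset.sum_insert hx, Finset.sum_insert hx, sm_add', ih]

theorem act_mul (X : Matrix ι κ (ZG G)) (Y : Matrix κ ν (ZG G)) (v : ν → G → V) :
    act (X * Y) v = act X (act Y v) := by
  funext i
  have l : act (X * Y) v i = ∑ l, ∑ j, sm (X i j) (sm (Y j l) (v l)) := by
    unfold act
    refine Finset.sum_congr rfl fun l _ => ?_
    rw [Matrix.mul_apply, sm_sum]
    exact Finset.sum_congr rfl fun j _ => sm_mul _ _ _
  rw [l, Finset.sum_comm]
  unfold act
  refine Finset.sum_congr rfl fun j _ => ?_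
  rw [sm_sum']

theorem act_nat {W : Type} [AddCommGroup W] (φ : V →+ W) (X : Matrix ι κ (ZG G)) (v : κ → G → V)
    (v' : κ → G → W) (g g' : G) (h : ∀ j (s : G), v' j (s * g') = φ (v j (s * g))) (i : ι) :
    act X v' i g' = φ (act X v i g) := by
  rw [act_apply, act_apply, map_sum]
  exact Finset.sum_congr rfl fun j _ => sm_nat φ _ _ _ _ _ (h j)

/-- a vector over the group ring applied to one function -/
def vs (x : ι → ZG G) (v : G → V) : ι → G → V := fun i => sm (x i) v

theorem act_vs (X : Matrix ι κ (ZG G)) (x : κ → ZG G) (v : G → V) :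
    act X (vs x v) = vs (X *ᵥ x) v := funext fun i => by
  simp only [act, vs, mulVec, dotProduct, sm_sum, sm_mul]

theorem vs_add (x y : ι → ZG G) (v : G → V) : vs (x + y) v = vs x v + vs y v :=
  funext fun _ => sm_add _ _ _

theorem vs_sub (x y : ι → ZG G) (v : G → V) : vs (x - y) v = vs x v - vs y v :=
  funext fun _ => sm_sub _ _ _

theorem vs_zero (v : G → V) : vs (0 : ι → ZG G) v = 0 := funext fun _ => sm_zero _

/-- coefficients -/
def co (x : ι → ZG G) : ι → G → ℤ := fun i g => (x i).coeff g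

theorem coeff_og (k g : G) [Decidable (k = g)] : (og k).coeff g = if k = g then 1 else 0 := by
  have : (og k).coeff = Finsupp.single k 1 := rfl
  rw [this, Finsupp.single_apply]

theorem co_eq (x : ι → ZG G) : co x = vs x (og (1 : G)).coeff := by
  classical
  funext i g
  change _ = sm (x i) _ g
  rw [sm_eq, co, Finset.sum_eq_single g]
  · simp
  · intro s _ h
    rw [coeff_og, if_neg, smul_zero]
    intro e
    exact h (eq_of_inv_mul_eq_one e.symm)
  · intro h; rw [Finsupp.notMem_support_iff.1 h, zero_smul]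

theorem act_co (X : Matrix ι κ (ZG G)) (x : κ → ZG G) : act X (co x) = co (X *ᵥ x) := by
  rw [co_eq, co_eq, act_vs]

theorem co_inj {x y : ι → ZG G} (h : co x = co y) : x = y := funext fun i =>
  MonoidAlgebra.coeff_injective (Finsupp.ext fun g => congrFun (congrFun h i) g)

theorem co_add (x y : ι → ZG G) : co (x + y) = co x + co y := rfl
theorem co_sub (x y : ι → ZG G) : co (x - y) = co x - co y := rfl
theorem co_zero : co (0 : ι → ZG G) = 0 := rfl

/-- positions where a vector of functions is not zero -/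
def spt (v : ι → G → V) : Set G := {g | ∃ i, v i g ≠ 0}

theorem spt_zero {v : ι → G → V} {g : G} (h : g ∉ spt v) (i : ι) : v i g = 0 := by
  by_contra e; exact h ⟨i, e⟩

theorem spt_add (v v' : ι → G → V) : spt (v + v') ⊆ spt v ∪ spt v' := by
  rintro g ⟨i, hi⟩
  by_contra h
  rw [Set.mem_union, not_or] at h
  exact hi (by rw [Pi.add_apply, Pi.add_apply, spt_zero h.1, spt_zero h.2, add_zero])

theorem spt_neg (v : ι → G → V) : spt (-v) = spt v := by
  ext g; simp [spt]

theorem spt_sub (v v' : ι → G → V) : spt (v - v') ⊆ spt v ∪ spt v' := by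
  rw [sub_eq_add_neg, ← spt_neg v']; exact spt_add _ _

theorem spt_co_fin (x : ι → ZG G) : (spt (co x)).Finite :=
  (Set.finite_iUnion fun i => (x i).coeff.support.finite_toSet).subset fun g ⟨i, hi⟩ =>
    Set.mem_iUnion.2 ⟨i, Finsupp.mem_support_iff.2 hi⟩

theorem exists_co (v : ι → G → ℤ) (h : (spt v).Finite) : ∃ x : ι → ZG G, co x = v :=
  ⟨fun i => MonoidAlgebra.ofCoeff (Finsupp.ofSupportFinite (v i) (h.subset fun _ hg => ⟨i, hg⟩)),
    rfl⟩

/-- neighbourhood -/
def nb (B : Finset G) (Y : Set G) : Set G := {g | ∃ b ∈ B, b⁻¹ * g ∈ Y}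

theorem nb_mono (B : Finset G) {Y Y' : Set G} (h : Y ⊆ Y') : nb B Y ⊆ nb B Y' :=
  fun _ ⟨b, hb, e⟩ => ⟨b, hb, h e⟩

/-- the group elements that occur in a matrix -/
def ms (X : Matrix ι κ (ZG G)) : Finset G :=
  open Classical in Finset.univ.biUnion fun p : ι × κ => (X p.1 p.2).coeff.support

theorem act_loc (X : Matrix ι κ (ZG G)) (v v' : κ → G → V) (g : G)
    (h : ∀ b ∈ ms X, ∀ j, v j (b⁻¹ * g) = v' j (b⁻¹ * g)) (i : ι) : act X v i g = act X v' i g := by
  classical
  rw [act_apply, act_apply]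
  refine Finset.sum_congr rfl fun j _ => ?_
  rw [sm_eq, sm_eq]
  refine Finset.sum_congr rfl fun s hs => ?_
  rw [h s (Finset.mem_biUnion.2 ⟨(i, j), Finset.mem_univ _, hs⟩)]

theorem spt_act (X : Matrix ι κ (ZG G)) (v : κ → G → V) : spt (act X v) ⊆ nb (ms X) (spt v) := by
  rintro g ⟨i, hi⟩
  by_contra h
  refine hi ?_
  rw [act_loc X v 0 g fun b hb j => spt_zero (fun e => h ⟨b, hb, e⟩) j, act_zero']
  rfl

theorem spt_vs (x : ι → ZG G) (v : G → V) {g : G} (h : g ∈ spt (vs x v)) :
    ∃ k ∈ spt (co x), v (k⁻¹ * g) ≠ 0 := by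
  obtain ⟨i, hi⟩ := h
  rw [vs, sm_eq] at hi
  obtain ⟨s, hs, e⟩ := Finset.exists_ne_zero_of_sum_ne_zero hi
  exact ⟨s, ⟨i, Finsupp.mem_support_iff.1 hs⟩, fun z => e (by rw [z, smul_zero])⟩

/-- pairing of a finite chain with a vector of functions -/
def pair (y : ι → ZG G) (c : ι → G → V) : V := ∑ i, dext (c i) (y i)

theorem dext_star (c : G → V) (a : ZG G) : dext c a = sm (star a) c 1 := by
  induction a using ind' with
  | h0 => simp [sm_zero]
  | ha x y hx hy => rw [map_add, star_add, sm_add, hx, hy]; rfl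
  | hn x hx => rw [map_neg, star_neg, sm_neg, hx]; rfl
  | hs k => rw [dext_og, star_og, sm_og]; simp

theorem pair_eq (y : ι → ZG G) (c : ι → G → V) :
    pair y c = act (Matrix.of fun (_ : Unit) i => star (y i)) c () 1 := by
  rw [act_apply]; exact Finset.sum_congr rfl fun i _ => dext_star _ _

theorem pair_act (X : Matrix ι κ (ZG G)) (y : ι → ZG G) (c : κ → G → V) :
    pair y (act X c) = pair (Xᴴ *ᵥ y) c := by
  rw [pair_eq, pair_eq, ← act_mul]
  congr 1
  ext1 _ j
  simp [Matrix.mul_apply, mulVec, dotProduct, star_sum]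

/-- the pairing as an additive map -/
def pairH (c : ι → G → V) : (ι → ZG G) →+ V :=
  AddMonoidHom.mk' (fun y => pair y c) fun y y' => by
    simp only [pair, Pi.add_apply, map_add, Finset.sum_add_distrib]

theorem pair_add (y y' : ι → ZG G) (c : ι → G → V) : pair (y + y') c = pair y c + pair y' c :=
  (pairH c).map_add y y'

theorem pair_sub (y y' : ι → ZG G) (c : ι → G → V) : pair (y - y') c = pair y c - pair y' c :=
  (pairH c).map_sub y y'

theorem pair_zero (c : ι → G → V) : pair (0 : ι → ZG G) c = 0 := (pairH c).map_zero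

theorem pair_add' (y : ι → ZG G) (c c' : ι → G → V) : pair y (c + c') = pair y c + pair y c' := by
  rw [pair_eq, pair_eq, pair_eq, act_add']; rfl

theorem pair_zero' (y : ι → ZG G) (c : ι → G → V) (h : ∀ g ∈ spt (co y), g ∉ spt c) :
    pair y c = 0 :=
  Finset.sum_eq_zero fun i _ => Finset.sum_eq_zero fun s hs => by
    change (y i).coeff s • c i s = 0
    rw [spt_zero (h s ⟨i, Finsupp.mem_support_iff.1 hs⟩), smul_zero]

theorem pair_single [DecidableEq ι] (i : ι) (g : G) (c : ι → G → V) :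
    pair (Pi.single i (og g)) c = c i g := by
  rw [pair, Finset.sum_eq_single i]
  · rw [Pi.single_eq_same, dext_og]
  · intro j _ h; rw [Pi.single_eq_of_ne h, map_zero]
  · simp

theorem vec_ext [DecidableEq ι] {M : Type} [AddCommGroup M] {φ ψ : (ι → ZG G) →+ M}
    (h : ∀ i g, φ (Pi.single i (og g)) = ψ (Pi.single i (og g))) (y : ι → ZG G) : φ y = ψ y := by
  rw [← Finset.univ_sum_single y, map_sum, map_sum]
  refine Finset.sum_congr rfl fun i _ => ?_
  exact DFunLike.congr_fun (hom_ext' (φ := φ.comp (AddMonoidHom.single (fun _ => ZG G) i))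
    (ψ := ψ.comp (AddMonoidHom.single (fun _ => ZG G) i)) (h i)) (y i)

/-- right translation of chains -/
def rt (a : G) : (ι → ZG G) →+ (ι → ZG G) :=
  AddMonoidHom.mk' (fun x i => x i * og a) fun x y => funext fun i => add_mul _ _ _

theorem rt_apply (a : G) (x : ι → ZG G) (i : ι) : rt a x i = x i * og a := rfl

theorem rt_rt (a b : G) (x : ι → ZG G) : rt b (rt a x) = rt (a * b) x := funext fun i => by
  simp only [rt_apply, map_mul, mul_assoc]

theorem rt_one (x : ι → ZG G) : rt 1 x = x := funext fun i => by simp [rt_apply]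

theorem mulVec_rt (X : Matrix ι κ (ZG G)) (a : G) (x : κ → ZG G) :
    X *ᵥ rt a x = rt a (X *ᵥ x) := funext fun i => by
  simp only [rt_apply, mulVec, dotProduct, Finset.sum_mul, mul_assoc]

theorem rt_single [DecidableEq ι] (a : G) (i : ι) (g : G) :
    rt a (Pi.single i (og g) : ι → ZG G) = Pi.single i (og (g * a)) := funext fun j => by
  rw [rt_apply]
  by_cases h : j = i
  · subst h; simp
  · simp [Pi.single_eq_of_ne h]

theorem co_rt (a : G) (x : ι → ZG G) (i : ι) (g : G) : co (rt a x) i g = co x i (g * a⁻¹) := by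
  have := MonoidAlgebra.coeff_mul_single_apply (x i) 1 a g
  rw [mul_one] at this
  exact this

theorem spt_rt {a : G} {x : ι → ZG G} {g : G} : g ∈ spt (co (rt a x)) ↔ g * a⁻¹ ∈ spt (co x) :=
  exists_congr fun i => by rw [co_rt]

theorem pair_rt {W : Type} [AddCommGroup W] (φ : V →+ W) (a : G) (y : ι → ZG G) (c : ι → G → V)
    (c' : ι → G → W) (h : ∀ i g, c' i (g * a) = φ (c i g)) : pair (rt a y) c' = φ (pair y c) := by
  classical
  exact vec_ext (φ := (pairH c').comp (rt a)) (ψ := φ.comp (pairH c)) (fun i g => by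
    change pair (rt a _) c' = φ (pair _ c)
    rw [rt_single, pair_single, pair_single, h]) y

theorem vs_rt (a : G) (x : ι → ZG G) (v : G → V) :
    vs (rt a x) v = vs x fun g => v (a⁻¹ * g) := funext fun i => by
  rw [vs, rt_apply, sm_mul]
  congr 1
  exact funext fun g => sm_og _ _ _

section Tw

variable (w : G →* ℤˣ)

/-- the automorphism of the group ring given by a character -/
def αw : ZG G →+* ZG G :=
  (MonoidAlgebra.lift ℤ (ZG G) G
    { toFun := fun g => (w g : ℤ) • og g
      map_one' := by simp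
      map_mul' := fun g k => by
        rw [map_mul, map_mul, Units.val_mul, smul_mul_smul_comm] }).toRingHom

theorem αw_og (g : G) : αw w (og g) = (w g : ℤ) • og g := MonoidAlgebra.lift_of _ _

theorem w_sq (g : G) : (w g : ℤ) * w g = 1 := by
  rw [← Units.val_mul, Int.units_mul_self, Units.val_one]

theorem w_inv (g : G) : w g⁻¹ = w g := by rw [map_inv, Int.units_inv_eq_self]

theorem αw_αw (x : ZG G) : αw w (αw w x) = x :=
  DFunLike.congr_fun (hom_ext' (φ := ((αw w).comp (αw w)).toAddMonoidHom) (ψ := AddMonoidHom.id _)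
    fun g => by
      change αw w (αw w _) = og g
      rw [αw_og, map_zsmul, αw_og, smul_smul, w_sq, one_smul]) x

/-- multiplication by the character -/
def tw (v : ι → G → V) : ι → G → V := fun i g => (w g : ℤ) • v i g

theorem tw_tw (v : ι → G → V) : tw w (tw w v) = v := funext fun i => funext fun g => by
  rw [tw, tw, smul_smul, w_sq, one_smul]

theorem tw_add (v v' : ι → G → V) : tw w (v + v') = tw w v + tw w v' :=
  funext fun _ => funext fun _ => smul_add _ _ _

theorem tw_zero : tw w (0 : ι → G → V) = 0 := funext fun _ => funext fun _ => smul_zero _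

theorem spt_tw (v : ι → G → V) : spt (tw w v) = spt v := by
  have : ∀ v : ι → G → V, spt (tw w v) ⊆ spt v := fun v g ⟨i, hi⟩ =>
    ⟨i, fun e => hi (by rw [tw, e, smul_zero])⟩
  exact (this v).antisymm (by simpa [tw_tw] using this (tw w v))

theorem sm_tw (a : ZG G) (v : G → V) (g : G) :
    sm (αw w a) (fun g => (w g : ℤ) • v g) g = (w g : ℤ) • sm a v g := by
  induction a using ind' with
  | h0 => simp [sm_zero]
  | ha x y hx hy => rw [map_add, sm_add, sm_add, Pi.add_apply, Pi.add_apply, hx, hy, smul_add]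
  | hn x hx => rw [map_neg, sm_neg, sm_neg, Pi.neg_apply, Pi.neg_apply, hx, smul_neg]
  | hs k =>
    rw [αw_og, sm, map_zsmul, dext_og, sm_og, smul_smul, map_mul, w_inv, Units.val_mul,
      ← mul_assoc, w_sq, one_mul]

theorem tw_act (X : Matrix ι κ (ZG G)) (v : κ → G → V) :
    tw w (act X v) = act (X.map (αw w)) (tw w v) := funext fun i => funext fun g => by
  rw [tw, act_apply, act_apply, Finset.smul_sum]
  exact Finset.sum_congr rfl fun j _ => (sm_tw w _ _ _).symm

/-- twisted action -/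
def op (X : Matrix ι κ (ZG G)) (v : κ → G → V) : ι → G → V := act X (tw w v)

theorem op_act (X : Matrix ι κ (ZG G)) (Y : Matrix κ ν (ZG G)) (v : ν → G → V) :
    op w X (act Y v) = op w (X * Y.map (αw w)) v := by rw [op, op, tw_act, act_mul]

theorem act_op (X : Matrix ι κ (ZG G)) (Y : Matrix κ ν (ZG G)) (v : ν → G → V) :
    act X (op w Y v) = op w (X * Y) v := by rw [op, op, act_mul]

theorem op_op (X : Matrix ι κ (ZG G)) (Y : Matrix κ ν (ZG G)) (v : ν → G → V) :
    op w X (op w Y v) = act (X * Y.map (αw w)) v := by rw [op, op, tw_act, tw_tw, act_mul]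

theorem spt_op (X : Matrix ι κ (ZG G)) (v : κ → G → V) :
    spt (op w X v) ⊆ nb (ms X) (spt v) := by
  rw [← spt_tw w v]; exact spt_act _ _

/-- the twisted action as an additive map -/
def opH (X : Matrix ι κ (ZG G)) : (κ → G → V) →+ (ι → G → V) :=
  AddMonoidHom.mk' (op w X) fun v v' => by rw [op, tw_add, act_add']; rfl

theorem op_sub' (X : Matrix ι κ (ZG G)) (v v' : κ → G → V) :
    op w X (v - v') = op w X v - op w X v' := (opH w X).map_sub v v'

theorem op_zero' (X : Matrix ι κ (ZG G)) : op w X (0 : κ → G → V) = 0 := (opH w X).map_zero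

theorem op_loc (X : Matrix ι κ (ZG G)) (v v' : κ → G → V) (g : G)
    (h : ∀ b ∈ ms X, ∀ j, v j (b⁻¹ * g) = v' j (b⁻¹ * g)) (i : ι) :
    op w X v i g = op w X v' i g :=
  act_loc X _ _ g (fun b hb j => by rw [tw, tw, h b hb]) i

end Tw

/-- equivariance under right translation -/
def Eqv (A : Subgroup G) (θ : G → V →+ V) (v : ι → G → V) : Prop :=
  ∀ a ∈ A, ∀ i g, v i (g * a) = θ a (v i g)

/-- twisted action on the coefficients -/
def tθ (w : G →* ℤˣ) (θ : G → V →+ V) : G → V →+ V := fun a => (w a : ℤ) • θ a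

variable {A : Subgroup G} {θ : G → V →+ V}

theorem tθ_tθ (w : G →* ℤˣ) (θ : G → V →+ V) : tθ w (tθ w θ) = θ := funext fun a => by
  rw [tθ, tθ, smul_smul, w_sq, one_smul]

theorem Eqv.act {v : κ → G → V} (h : Eqv A θ v) (X : Matrix ι κ (ZG G)) : Eqv A θ (act X v) :=
  fun a ha i g => act_nat (θ a) X v v g (g * a) (fun j s => by rw [← mul_assoc, h a ha]) i

theorem Eqv.tw {v : κ → G → V} (h : Eqv A θ v) (w : G →* ℤˣ) : Eqv A (tθ w θ) (tw w v) :=
  fun a ha i g => by
    rw [Ag.tw, Ag.tw, h a ha, tθ, map_zsmul, AddMonoidHom.smul_apply, smul_smul, map_mul,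
      Units.val_mul]

theorem Eqv.op {v : κ → G → V} (h : Eqv A θ v) (w : G →* ℤˣ) (X : Matrix ι κ (ZG G)) :
    Eqv A (tθ w θ) (op w X v) := (h.tw w).act X

theorem Eqv.add {v v' : ι → G → V} (h : Eqv A θ v) (h' : Eqv A θ v') : Eqv A θ (v + v') :=
  fun a ha i g => by simp only [Pi.add_apply, h a ha, h' a ha, map_add]

theorem Eqv.sub {v v' : ι → G → V} (h : Eqv A θ v) (h' : Eqv A θ v') : Eqv A θ (v - v') :=
  fun a ha i g => by simp only [Pi.sub_apply, h a ha, h' a ha, map_sub]

/-- restriction to a set of positions -/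
def cut (Y : Set G) (v : ι → G → V) : ι → G → V := fun i => Y.indicator (v i)

theorem cut_mem {Y : Set G} (v : ι → G → V) (i : ι) {g : G} (h : g ∈ Y) : cut Y v i g = v i g :=
  Set.indicator_of_mem h _

theorem cut_not {Y : Set G} (v : ι → G → V) (i : ι) {g : G} (h : g ∉ Y) : cut Y v i g = 0 :=
  Set.indicator_of_notMem h _

theorem spt_cut (Y : Set G) (v : ι → G → V) : spt (cut Y v) ⊆ Y ∩ spt v := by
  rintro g ⟨i, hi⟩
  by_cases h : g ∈ Y
  · exact ⟨h, i, by rwa [cut_mem v i h] at hi⟩
  · exact absurd (cut_not v i h) hi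

theorem cut_add_cut (Y : Set G) (v : ι → G → V) : cut Y v + cut Yᶜ v = v := funext fun i =>
  Set.indicator_self_add_compl Y (v i)

theorem Eqv.cut {v : ι → G → V} (h : Eqv A θ v) {Y : Set G}
    (hY : ∀ a ∈ A, ∀ g, g * a ∈ Y ↔ g ∈ Y) : Eqv A θ (cut Y v) := fun a ha i g => by
  by_cases e : g ∈ Y
  · rw [cut_mem v i e, cut_mem v i ((hY a ha g).2 e), h a ha]
  · rw [cut_not v i e, cut_not v i (fun z => e ((hY a ha g).1 z)), map_zero]

/-- finite modulo a subgroup -/
def Sm (A : Subgroup G) (Y : Set G) : Prop := ∃ B : Finset G, ∀ g ∈ Y, ∃ b ∈ B, b⁻¹ * g ∈ A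

theorem Sm.mono {Y Y' : Set G} (h : Sm A Y) (e : Y' ⊆ Y) : Sm A Y' :=
  h.imp fun _ hB g hg => hB g (e hg)

theorem Sm.union {Y Y' : Set G} (h : Sm A Y) (h' : Sm A Y') : Sm A (Y ∪ Y') := by
  classical
  obtain ⟨B, hB⟩ := h
  obtain ⟨B', hB'⟩ := h'
  refine ⟨B ∪ B', fun g hg => ?_⟩
  rcases hg with hg | hg
  · obtain ⟨b, hb, e⟩ := hB g hg
    exact ⟨b, Finset.mem_union_left _ hb, e⟩
  · obtain ⟨b, hb, e⟩ := hB' g hg
    exact ⟨b, Finset.mem_union_right _ hb, e⟩

theorem sm_empty : Sm A (∅ : Set G) := ⟨∅, fun _ h => h.elim⟩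

theorem Sm.biUnion {σ : Type} {s : Set σ} (hs : s.Finite) {Y : σ → Set G}
    (h : ∀ i ∈ s, Sm A (Y i)) : Sm A (⋃ i ∈ s, Y i) := by
  induction s, hs using Set.Finite.induction_on with
  | empty => simpa using sm_empty
  | insert _ _ ih =>
    rw [Set.biUnion_insert]
    exact (h _ (Set.mem_insert _ _)).union (ih fun i hi => h i (Set.mem_insert_of_mem _ hi))

theorem Sm.left {Y : Set G} (h : Sm A Y) (k : G) : Sm A {g | k * g ∈ Y} := by
  classical
  obtain ⟨B, hB⟩ := h
  refine ⟨B.image fun b => k⁻¹ * b, fun g hg => ?_⟩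
  obtain ⟨b, hb, e⟩ := hB _ hg
  exact ⟨_, Finset.mem_image_of_mem _ hb, by simpa [mul_assoc] using e⟩

theorem Sm.nb {Y : Set G} (h : Sm A Y) (B : Finset G) : Sm A (nb B Y) :=
  (Sm.biUnion B.finite_toSet fun b _ => h.left b⁻¹).mono fun _ ⟨b, hb, e⟩ =>
    Set.mem_biUnion (Finset.mem_coe.2 hb) e

theorem sm_fin {Y : Set G} (h : Y.Finite) : Sm A {g | ∃ k ∈ Y, k⁻¹ * g ∈ A} :=
  ⟨h.toFinset, fun _ ⟨k, hk, e⟩ => ⟨k, h.mem_toFinset.2 hk, e⟩⟩

theorem sm_bot {Y : Set G} : Sm ⊥ Y ↔ Y.Finite :=
  ⟨fun ⟨B, hB⟩ => B.finite_toSet.subset fun g hg => by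
    obtain ⟨b, hb, e⟩ := hB g hg
    rwa [← eq_of_inv_mul_eq_one (Subgroup.mem_bot.1 e)],
   fun h => (sm_fin h).mono fun g hg => ⟨g, hg, by simp⟩⟩

end

end Pool.Agent.Lib.MP_4269b5_al.Ag
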