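import Pool.Agent.Lib.MP_4269b5_al.AgGr

/-! Height function along the axis. -/

set_option linter.unusedSectionVars false
set_option linter.unusedVariables false

namespace Pool.Agent.Lib.MP_4269b5_al.Ag

noncomputable section

variable {G : Type} [Group G] {d : ℕ}

/-- strip between two heights -/
def strip (h : G → ℤ) (a b : ℤ) : Set G := {g | a ≤ h g ∧ h g ≤ b}

theorem mem_strip {h : G → ℤ} {a b : ℤ} {g : G} : g ∈ strip h a b ↔ a ≤ h g ∧ h g ≤ b := Iff.rfl

/-- properties of the height function -/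
structure Geo (s : Fin d → G) (F μ : Subgroup G) (h : G → ℤ) (τ : G) : Prop where
  hτ : ∀ g, h (g * τ) = h g + 1
  hF : ∀ f ∈ F, h f = 0
  hμ : ∀ m ∈ μ, ∀ g, h (g * m) = h g
  lip : ∀ k, ∃ C : ℕ, ∀ g, |h (k * g) - h g| ≤ C
  inv1 : ∀ f ∈ F, ∀ g, 1 ≤ h g → 0 ≤ h (g * f)
  inv2 : ∀ f ∈ F, ∀ g, h g ≤ -1 → h (g * f) ≤ 0
  div : ∀ f ∈ F, f ∉ μ → (∃ k, ∀ g, k ≤ h g → h (g * f) < k) ∨ ∃ k, ∀ g, h g ≤ k → k < h (g * f)
  conj : ∀ m ∈ μ, ∀ k : ℤ, τ ^ k * m * (τ ^ k)⁻¹ ∈ F
  gen : ∀ f ∈ F, Conn s F 1 f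
  conn : ∃ C : ℕ, ∀ a b, ∀ g ∈ strip h a b, ∀ g' ∈ strip h a b,
    Conn s (strip h (a - C) (b + C)) g g'

/-- edges through the wall -/
def Wall (F : Subgroup G) (h : G → ℤ) : Prop :=
  ∀ k, Sm F {g | (h g < 1 ∧ 1 ≤ h (k * g)) ∨ (h (k * g) < 1 ∧ 1 ≤ h g)}

variable {s : Fin d → G} {F μ : Subgroup G} {h : G → ℤ} {τ : G}

theorem h_zpow (hτ : ∀ g, h (g * τ) = h g + 1) (g : G) (k : ℤ) : h (g * τ ^ k) = h g + k := by
  induction k using Int.induction_on with
  | zero => simp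
  | succ n ih => rw [zpow_add_one, ← mul_assoc, hτ, ih, add_assoc]
  | pred n ih =>
    have := hτ (g * τ ^ (-(n : ℤ) - 1))
    rw [mul_assoc, ← zpow_add_one, sub_add_cancel, ih] at this
    omega

theorem lip_fin (lip : ∀ k, ∃ C : ℕ, ∀ g, |h (k * g) - h g| ≤ C) {K : Set G} (hK : K.Finite) :
    ∃ C : ℕ, ∀ k ∈ K, ∀ g, h (k * g) ≤ h g + C ∧ h g ≤ h (k * g) + C := by
  choose C hC using lip
  obtain ⟨N, hN⟩ := (hK.image C).bddAbove
  refine ⟨N, fun k hk g => ?_⟩
  have := hN ⟨k, hk, rfl⟩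
  have := abs_le.1 (hC k g)
  omega

theorem Conn.fin {Y : Set G} {g g' : G} (c : Conn s Y g g') :
    ∃ K : Set G, K.Finite ∧ Conn s K g g' := by
  induction c with
  | refl => exact ⟨∅, Set.finite_empty, Conn.refl _⟩
  | tail _ e ih =>
    obtain ⟨K, hK, c⟩ := ih
    obtain ⟨-, -, l, rfl⟩ := e
    rename_i z _
    exact ⟨insert z (insert (stp s l z) K), (hK.insert _).insert _,
      (c.mono fun x hx => Or.inr (Or.inr hx)).trans
        (Conn.one (Y := insert z (insert (stp s l z) K)) (by simp) l (by simp))⟩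

theorem conn_univ (hs : Subgroup.closure (Set.range s) = ⊤) (g g' : G) :
    Conn s Set.univ g g' := by
  have := fun g => conn_sub (s := s) ⊤ (by simp [hs]) g (Subgroup.mem_top g)
  exact (this g).symm.trans (this g')

theorem conn_of (hs : Subgroup.closure (Set.range s) = ⊤) (hτ : ∀ g, h (g * τ) = h g + 1)
    (hF : ∀ f ∈ F, h f = 0) (lip : ∀ k, ∃ C : ℕ, ∀ g, |h (k * g) - h g| ≤ C)
    (gen : ∀ f ∈ F, Conn s F 1 f) (wall : Wall F h) :
    ∃ C : ℕ, ∀ a b, ∀ g ∈ strip h a b, ∀ g' ∈ strip h a b,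
      Conn s (strip h (a - C) (b + C)) g g' := by
  obtain ⟨B, hB⟩ := Sm.biUnion (Set.finite_univ (α := Fin d × Bool)) fun l _ => wall (stp s l 1)
  choose K K1 K2 using fun b => (conn_univ hs b 1).fin
  obtain ⟨C, hC⟩ := lip_fin lip ((B.finite_toSet.insert τ).biUnion fun b _ => K1 b)
  have h1 := hF 1 F.one_mem
  have w1 : ∀ b ∈ insert τ (B : Set G), ∀ f ∈ F, ∀ j : ℤ,
      Conn s (strip h (j - C) (j + C)) (b * f * τ ^ j) (τ ^ j) := fun b hb f hf j => by
    have a1 : Conn s (strip h (-C) C) (b * f) (1 * f) := (K2 b).map f fun x hx => by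
      have := hC x (Set.mem_biUnion hb hx) f
      have := hF f hf
      constructor <;> omega
    have a2 : Conn s (strip h (-C) C) f 1 := (gen f hf).symm.mono fun x hx => by
      have := hF x hx
      constructor <;> omega
    rw [one_mul] at a1
    have := (a1.trans a2).map (Y' := strip h (j - C) (j + C)) (τ ^ j) fun x hx => by
      have := h_zpow hτ x j
      have := hx.1
      have := hx.2
      constructor <;> omega
    rwa [one_mul] at this
  have w2 : ∀ (j : ℤ) x l, (h x < j + 1 ∧ j + 1 ≤ h (stp s l x)) ∨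
      (h (stp s l x) < j + 1 ∧ j + 1 ≤ h x) → Conn s (strip h (j - C) (j + C)) x (τ ^ j) :=
    fun j x l e => by
      obtain ⟨b, hb, hf⟩ := hB (x * τ ^ (-j)) (Set.mem_biUnion (Set.mem_univ l) (by
        have e1 := h_zpow hτ x (-j)
        have e2 := h_zpow hτ (stp s l x) (-j)
        rw [Set.mem_ofPred_eq, ← stp_mul, one_mul, stp_mul]
        omega))
      simpa [mul_assoc] using w1 b (Or.inr hb) _ hf j
  have w3 : ∀ (a : ℤ) (n : ℕ), Conn s (strip h (a - C) (a + n + C)) (τ ^ (a + n)) (τ ^ a) :=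
    fun a n => by
      induction n with
      | zero => simpa using Conn.refl _
      | succ n ih =>
        have := w1 τ (Or.inl rfl) 1 F.one_mem (a + n)
        rw [mul_one, ← zpow_one_add, add_comm 1] at this
        rw [Nat.cast_succ, ← add_assoc]
        refine (this.mono fun x hx => ?_).trans (ih.mono fun x hx => ?_) <;>
          have := hx.1 <;> have := hx.2 <;> constructor <;> push_cast <;> omega
  have w4 : ∀ a b, ∀ g ∈ strip h a b,
      Conn s (strip h (a - (C + 1 : ℕ)) (b + (C + 1 : ℕ))) g (τ ^ (a - 1)) := fun a b g hg => by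
    obtain ⟨x, l, -, -, x1, x2, c⟩ := (conn_univ hs g (τ ^ (a - 1))).exit hg (by
      have := h_zpow hτ 1 (a - 1)
      rw [one_mul] at this
      intro z
      have := z.1
      omega)
    have := x1.1
    have := x1.2
    refine (c.mono fun y hy => ?_).trans ?_
    · have := hy.2.1
      have := hy.2.2
      constructor <;> push_cast <;> omega
    by_cases e : h (stp s l x) < a
    · refine (w2 (a - 1) x l (by omega)).mono fun y hy => ?_
      have := hy.1
      have := hy.2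
      constructor <;> push_cast <;> omega
    · have e' : b < h (stp s l x) := by
        by_contra z
        exact x2 ⟨by omega, by omega⟩
      obtain ⟨n, hn⟩ := Int.le.dest (show a - 1 ≤ b by omega)
      have := w3 (a - 1) n
      rw [hn] at this
      refine ((w2 b x l (by omega)).mono fun y hy => ?_).trans (this.mono fun y hy => ?_) <;>
        have := hy.1 <;> have := hy.2 <;> constructor <;> push_cast <;> omega
  exact ⟨C + 1, fun a b g hg g' hg' => (w4 a b g hg).trans (w4 a b g' hg').symm⟩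

theorem Geo.neg (Γ : Geo s F μ h τ) : Geo s F μ (fun g => -h g) τ⁻¹ where
  hτ g := by
    have := Γ.hτ (g * τ⁻¹)
    rw [inv_mul_cancel_right] at this
    omega
  hF f hf := by rw [Γ.hF f hf, neg_zero]
  hμ m hm g := by rw [Γ.hμ m hm]
  lip k := (Γ.lip k).imp fun C hC g => by
    have := abs_le.1 (hC g)
    rw [abs_le]
    omega
  inv1 f hf g e := by have := Γ.inv2 f hf g; omega
  inv2 f hf g e := by have := Γ.inv1 f hf g; omega
  div f hf e := by
    rcases Γ.div f hf e with ⟨k, hk⟩ | ⟨k, hk⟩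
    · exact Or.inr ⟨-k, fun g e => by have := hk g; omega⟩
    · exact Or.inl ⟨-k, fun g e => by have := hk g; omega⟩
  conj m hm k := by rw [inv_zpow']; exact Γ.conj m hm _
  gen := Γ.gen
  conn := Γ.conn.imp fun C hC a b g hg g' hg' => by
    refine (hC (-b) (-a) g ?_ g' ?_).mono fun x hx => ?_ <;> simp only [mem_strip] at * <;> omega

theorem Geo.le (Γ : Geo s F μ h τ) : μ ≤ F := fun m hm => by simpa using Γ.conj m hm 0

theorem Geo.hz (Γ : Geo s F μ h τ) (g : G) (k : ℤ) : h (g * τ ^ k) = h g + k := h_zpow Γ.hτ g k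

theorem Geo.hz1 (Γ : Geo s F μ h τ) (k : ℤ) : h (τ ^ k) = k := by
  have := Γ.hz 1 k
  rwa [one_mul, Γ.hF 1 F.one_mem, zero_add] at this

theorem Geo.nb (Γ : Geo s F μ h τ) (B : Finset G) :
    ∃ C : ℕ, ∀ Y g, g ∈ nb B Y → ∃ x ∈ Y, h x ≤ h g + C ∧ h g ≤ h x + C := by
  obtain ⟨C, hC⟩ := lip_fin Γ.lip (B.finite_toSet.image fun b => b⁻¹)
  exact ⟨C, fun Y g ⟨b, hb, e⟩ => ⟨_, e, hC _ ⟨b, hb, rfl⟩ g⟩⟩

theorem Geo.fin (Γ : Geo s F μ h τ) {K : Set G} (hK : K.Finite) :
    ∃ C : ℕ, ∀ k ∈ K, ∀ f ∈ F, -C ≤ h (k * f) ∧ h (k * f) ≤ C := by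
  obtain ⟨C, hC⟩ := lip_fin Γ.lip hK
  refine ⟨C, fun k hk f hf => ?_⟩
  have := hC k hk f
  have := Γ.hF f hf
  omega

/-- a path at a given height -/
theorem Geo.path (Γ : Geo s F μ h τ) {m : G} (hm : m ∈ μ) (k : ℤ) :
    ∃ p, (D1 s).conjTranspose.mulVec p = (fun _ => og (τ ^ k * m) - og (τ ^ k)) ∧
      ∀ g ∈ spt (co p), h g = k ∧ g * (τ ^ k)⁻¹ ∈ F := by
  have := (Γ.gen _ (Γ.conj m hm k)).map (Y' := {g | h g = k ∧ g * (τ ^ k)⁻¹ ∈ F}) (τ ^ k)
    fun x hx => ⟨by rw [Γ.hz, Γ.hF x hx, zero_add], by simpa using hx⟩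
  rw [one_mul, inv_mul_cancel_right] at this
  exact this.path

end

end Pool.Agent.Lib.MP_4269b5_al.Ag
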