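import Pool.Agent.Lib.MP_4269b5_al.AgPD3

/-! Connectivity in the Cayley graph and locally finite chains. -/

set_option linter.unusedSectionVars false
set_option linter.unusedVariables false

namespace Pool.Agent.Lib.MP_4269b5_al.Ag

open Matrix

noncomputable section

variable {G : Type} [Group G] {d : ℕ} {s : Fin d → G} {V : Type} [AddCommGroup V]

/-- a step in the Cayley graph -/
def stp (s : Fin d → G) (l : Fin d × Bool) (g : G) : G :=
  (if l.2 then (s l.1)⁻¹ else s l.1) * g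

theorem stp_mul (l : Fin d × Bool) (g a : G) : stp s l (g * a) = stp s l g * a :=
  (mul_assoc _ _ _).symm

theorem stp_stp (l : Fin d × Bool) (g : G) : stp s (l.1, !l.2) (stp s l g) = g := by
  obtain ⟨i, _ | _⟩ := l <;> simp [stp]

theorem stp_stp' (l : Fin d × Bool) (g : G) : stp s l (stp s (l.1, !l.2) g) = g := by
  obtain ⟨i, _ | _⟩ := l <;> simp [stp]

/-- connected inside a set -/
def Conn (s : Fin d → G) (Y : Set G) : G → G → Prop :=
  Relation.ReflTransGen fun g g' => g ∈ Y ∧ g' ∈ Y ∧ ∃ l, g' = stp s l g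

variable {Y Y' : Set G} {g g' g'' : G}

theorem Conn.refl (g : G) : Conn s Y g g := Relation.ReflTransGen.refl

theorem Conn.trans (h : Conn s Y g g') (h' : Conn s Y g' g'') : Conn s Y g g'' :=
  Relation.ReflTransGen.trans h h'

theorem Conn.one (h : g ∈ Y) (l : Fin d × Bool) (h' : stp s l g ∈ Y) : Conn s Y g (stp s l g) :=
  Relation.ReflTransGen.single ⟨h, h', l, rfl⟩

theorem Conn.symm (h : Conn s Y g g') : Conn s Y g' g := by
  induction h with
  | refl => exact Conn.refl _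
  | tail _ e ih =>
    obtain ⟨a, b, l, rfl⟩ := e
    exact Relation.ReflTransGen.head ⟨b, a, _, (stp_stp l _).symm⟩ ih

theorem Conn.map (h : Conn s Y g g') (a : G) (e : ∀ x ∈ Y, x * a ∈ Y') :
    Conn s Y' (g * a) (g' * a) := by
  induction h with
  | refl => exact Conn.refl _
  | tail _ e' ih =>
    obtain ⟨x, y, l, rfl⟩ := e'
    exact ih.tail ⟨e _ x, e _ y, l, (stp_mul _ _ _).symm⟩

theorem Conn.mono (h : Conn s Y g g') (e : Y ⊆ Y') : Conn s Y' g g' := by
  simpa using h.map (Y' := Y') 1 (fun x hx => by simpa using e hx)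

theorem Conn.mem (h : Conn s Y g g') (e : g ∈ Y) : g' ∈ Y := by
  induction h with
  | refl => exact e
  | tail _ e' _ => exact e'.2.1

theorem Conn.exit (h : Conn s Y g g') {Q : Set G} (a : g ∈ Q) (b : g' ∉ Q) :
    ∃ x l, x ∈ Y ∧ stp s l x ∈ Y ∧ x ∈ Q ∧ stp s l x ∉ Q ∧
      Conn s (Y ∩ Q) g x := by
  induction h using Relation.ReflTransGen.head_induction_on with
  | refl => exact absurd a b
  | head e _ ih =>
    obtain ⟨x, y, l, rfl⟩ := e
    rename_i z _
    by_cases c : stp s l z ∈ Q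
    · obtain ⟨x', l', a1, a2, a3, a4, a5⟩ := ih c
      exact ⟨x', l', a1, a2, a3, a4, (Conn.one (Y := Y ∩ Q) ⟨x, a⟩ l ⟨y, c⟩).trans a5⟩
    · exact ⟨z, l, x, y, a, c, Conn.refl _⟩

theorem Conn.const {W : Type} (h : Conn s Y g g') (U : G → W)
    (e : ∀ i x, x ∈ Y → (s i)⁻¹ * x ∈ Y → U ((s i)⁻¹ * x) = U x) : U g = U g' := by
  induction h with
  | refl => rfl
  | tail _ e' ih =>
    obtain ⟨x, y, ⟨i, _ | _⟩, rfl⟩ := e'
    · rw [ih]
      simpa [stp] using e i _ y (by simpa [stp] using x)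
    · rw [ih]
      exact (e i _ x y).symm

theorem spt_single {ι : Type} [Fintype ι] [DecidableEq ι] (i : ι) (g : G) :
    spt (co (Pi.single i (og g) : ι → ZG G)) ⊆ {g} := by
  classical
  rintro x ⟨j, hj⟩
  by_cases h : j = i
  · subst h
    rw [co, Pi.single_eq_same, coeff_og] at hj
    by_contra e
    exact hj (if_neg fun z => e z.symm)
  · rw [co, Pi.single_eq_of_ne h] at hj
    exact absurd rfl hj

theorem Conn.path (h : Conn s Y g g') :
    ∃ p, (D1 s)ᴴ *ᵥ p = (fun _ => og g' - og g) ∧ spt (co p) ⊆ Y := by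
  induction h with
  | refl => exact ⟨0, by ext1; simp, by rintro x ⟨i, hi⟩; exact absurd rfl hi⟩
  | tail _ e' ih =>
    obtain ⟨p, hp, hs⟩ := ih
    obtain ⟨x, y, ⟨i, _ | _⟩, rfl⟩ := e'
    · rename_i z _
      refine ⟨p - Pi.single i (og (s i * z)), ?_, ?_⟩
      · rw [mulVec_sub, hp, d1_single]
        ext1
        simp [stp]
      · rw [co_sub]
        refine (spt_sub _ _).trans (Set.union_subset hs ((spt_single _ _).trans ?_))
        simpa [stp] using y
    · rename_i z _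
      refine ⟨p + Pi.single i (og z), ?_, ?_⟩
      · rw [mulVec_add, hp, d1_single]
        ext1
        simp [stp]
      · rw [co_add]
        exact (spt_add _ _).trans (Set.union_subset hs ((spt_single _ _).trans (by simpa using x)))

theorem conn_sub (F : Subgroup G) (h : F ≤ Subgroup.closure (Set.range s ∩ F)) (f : G)
    (hf : f ∈ F) : Conn s F 1 f := by
  have le : Subgroup.closure (Set.range s ∩ F) ≤ F :=
    (Subgroup.closure_le _).2 Set.inter_subset_right
  have := h hf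
  clear hf
  induction this using Subgroup.closure_induction_left with
  | one => exact Conn.refl _
  | mul_left x hx y hy ih =>
    obtain ⟨⟨i, rfl⟩, hx⟩ := hx
    exact ih.trans (Conn.one (le hy) (i, false) (F.mul_mem hx (le hy)))
  | inv_mul_cancel x hx y hy ih =>
    obtain ⟨⟨i, rfl⟩, hx⟩ := hx
    exact ih.trans (Conn.one (le hy) (i, true) (F.mul_mem (F.inv_mem hx) (le hy)))

section LemS

variable {A : Subgroup G}

theorem exists_rank (hY : ∀ a ∈ A, ∀ g ∈ Y, g * a ∈ Y) {g0 : G} (h0 : g0 ∈ Y)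
    (conn : ∀ g ∈ Y, Conn s Y g0 g) :
    ∃ r : G → ℕ, (∀ a ∈ A, ∀ g, r (g * a) = r g) ∧ (∀ g ∈ Y, r g = 0 → g0⁻¹ * g ∈ A) ∧
      ∀ g ∈ Y, r g ≠ 0 → ∃ l, stp s l g ∈ Y ∧ r (stp s l g) < r g := by
  classical
  let B : ℕ → Set G := fun n => Nat.rec {g | g0⁻¹ * g ∈ A} (fun _ S => {g | ∃ l, stp s l g ∈ Y ∧
    stp s l g ∈ S}) n
  have Bi : ∀ n, ∀ a ∈ A, ∀ g ∈ B n, g * a ∈ B n := fun n => by
    induction n with
    | zero => intro a ha g hg; exact (by rw [← mul_assoc]; exact A.mul_mem hg ha : g0⁻¹ * _ ∈ A)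
    | succ n ih =>
      rintro a ha g ⟨l, h1, h2⟩
      exact ⟨l, by rw [stp_mul]; exact hY a ha _ h1, by rw [stp_mul]; exact ih a ha _ h2⟩
  have Be : ∀ g ∈ Y, ∃ n, g ∈ B n := fun g hg => by
    have := conn g hg
    clear hg
    induction this with
    | refl => exact ⟨0, by simp [B]⟩
    | tail _ e ih =>
      obtain ⟨n, hn⟩ := ih
      obtain ⟨x, y, l, rfl⟩ := e
      exact ⟨n + 1, (l.1, !l.2), by rwa [stp_stp], by rwa [stp_stp]⟩
  refine ⟨fun g => sInf {n | g ∈ B n}, fun a ha g => ?_, fun g hg h => ?_, fun g hg h => ?_⟩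
  · beta_reduce
    congr 1
    ext n
    exact ⟨fun h => by simpa using Bi n a⁻¹ (A.inv_mem ha) _ h, Bi n a ha g⟩
  · have := Nat.sInf_mem (s := {n | g ∈ B n}) (Be g hg)
    beta_reduce at h
    rw [h] at this
    exact this
  · have := Nat.sInf_mem (s := {n | g ∈ B n}) (Be g hg)
    beta_reduce at h ⊢
    obtain ⟨n, hn⟩ := Nat.exists_eq_succ_of_ne_zero h
    rw [hn] at this ⊢
    obtain ⟨l, h1, h2⟩ := this
    exact ⟨l, h1, Nat.lt_succ_of_le (Nat.sInf_le h2)⟩

theorem exists_flow (hY : ∀ a ∈ A, ∀ g ∈ Y, g * a ∈ Y)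
    (conn : ∀ g ∈ Y, ∀ g' ∈ Y, Conn s Y g g') (inf : ¬Sm A Y) :
    ∃ lb : G → Fin d × Bool, (∀ a ∈ A, ∀ g, lb (g * a) = lb g) ∧ (∀ g ∈ Y, stp s (lb g) g ∈ Y) ∧
      WellFounded fun c g => c ∈ Y ∧ stp s (lb c) c = g := by
  classical
  obtain ⟨g0, h0⟩ : Y.Nonempty := by
    by_contra h
    rw [Set.not_nonempty_iff_eq_empty] at h
    exact inf (h ▸ sm_empty)
  obtain ⟨r, r1, r2, r3⟩ := exists_rank hY h0 (conn g0 h0)
  have hY' : ∀ a ∈ A, ∀ g, g * a ∈ Y ↔ g ∈ Y := fun a ha g =>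
    ⟨fun h => by simpa using hY a⁻¹ (A.inv_mem ha) _ h, hY a ha g⟩
  have : Nonempty (Fin d × Bool) := by
    by_contra h
    refine inf ⟨{g0}, fun g hg => ⟨g0, by simp, r2 g hg ?_⟩⟩
    by_contra e
    obtain ⟨l, -⟩ := r3 g hg e
    exact h ⟨l⟩
  set lab : G → Fin d × Bool := fun g =>
    Classical.epsilon fun l => stp s l g ∈ Y ∧ r (stp s l g) < r g with hlab
  have l1 : ∀ a ∈ A, ∀ g, lab (g * a) = lab g := fun a ha g => by
    simp only [hlab, stp_mul, hY' a ha, r1 a ha]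
  have l2 : ∀ g ∈ Y, r g ≠ 0 → stp s (lab g) g ∈ Y ∧ r (stp s (lab g) g) < r g := fun g hg h =>
    Classical.epsilon_spec (r3 g hg h)
  set Ch : G → G → Prop := fun g c => c ∈ Y ∧ r c ≠ 0 ∧ stp s (lab c) c = g with hCh
  have c1 : ∀ a ∈ A, ∀ g c, Ch (g * a) (c * a) ↔ Ch g c := fun a ha g c => by
    simp only [hCh, stp_mul, hY' a ha, r1 a ha, l1 a ha, mul_left_inj]
  have c2 : ∀ g c, Ch g c → r g < r c := fun g c h => h.2.2 ▸ (l2 c h.1 h.2.1).2
  set De : G → Set G := fun g => {x | Relation.ReflTransGen Ch g x} with hDe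
  have d0 : ∀ a ∈ A, ∀ g x, x ∈ De g → x * a ∈ De (g * a) := fun a ha g x h => by
    induction h with
    | refl => exact Relation.ReflTransGen.refl
    | tail _ e ih => exact Relation.ReflTransGen.tail ih ((c1 a ha _ _).2 e)
  have d1 : ∀ a ∈ A, ∀ g, (De g).Infinite → (De (g * a)).Infinite := fun a ha g h =>
    (h.image (mul_left_injective a).injOn).mono (by rintro _ ⟨x, hx, rfl⟩; exact d0 a ha g x hx)
  have d1' : ∀ a ∈ A, ∀ g, (De (g * a)).Infinite ↔ (De g).Infinite := fun a ha g =>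
    ⟨fun h => by simpa using d1 a⁻¹ (A.inv_mem ha) _ h, d1 a ha g⟩
  have d2 : ∀ g x, x ∈ De g → r g ≤ r x := fun g x h => by
    induction h with
    | refl => exact le_rfl
    | tail _ e ih => exact ih.trans (c2 _ _ e).le
  have d3 : ∀ n, ∀ g ∈ Y, r g = n → ∃ a ∈ A, g ∈ De (g0 * a) := fun n => by
    induction n using Nat.strong_induction_on with
    | _ n ih =>
      intro g hg e
      by_cases z : r g = 0
      · exact ⟨_, r2 g hg z, by rw [mul_inv_cancel_left]; exact Relation.ReflTransGen.refl⟩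
      · obtain ⟨a, ha, h⟩ := ih _ (e ▸ (l2 g hg z).2) _ (l2 g hg z).1 rfl
        exact ⟨a, ha, Relation.ReflTransGen.tail h ⟨hg, z, rfl⟩⟩
  have d4 : (De g0).Infinite := fun h => inf ⟨h.toFinset, fun g hg => by
    obtain ⟨a, ha, e⟩ := d3 _ g hg rfl
    exact ⟨g * a⁻¹, h.mem_toFinset.2 (by simpa using d0 a⁻¹ (A.inv_mem ha) _ _ e), by simpa⟩⟩
  have d5 : ∀ g ∈ Y, (De g).Finite → r g ≠ 0 := fun g hg h z => by
    have := d1 _ (r2 g hg z) _ d4
    rw [mul_inv_cancel_left] at this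
    exact this h
  have d6 : ∀ g, (De g).Infinite → ∃ l, Ch g (stp s l g) ∧ (De (stp s l g)).Infinite := fun g h => by
    by_contra c
    push Not at c
    refine h (((Set.toFinite {l | Ch g (stp s l g)}).biUnion (t := fun l => De (stp s l g))
      fun l hl => c l hl).insert g |>.subset fun x hx => ?_)
    rcases Relation.ReflTransGen.cases_head hx with e | ⟨c, h1, h2⟩
    · exact Or.inl e.symm
    · have e : stp s ((lab c).1, !(lab c).2) g = c := by rw [← h1.2.2, stp_stp]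
      exact Or.inr (Set.mem_biUnion (x := ((lab c).1, !(lab c).2))
        (by rw [Set.mem_setOf_eq, e]; exact h1) (by rw [e]; exact h2))
  set lb : G → Fin d × Bool := fun g => if (De g).Infinite then
    Classical.epsilon fun l => Ch g (stp s l g) ∧ (De (stp s l g)).Infinite else lab g with hlb
  have b1 : ∀ g, (De g).Infinite → Ch g (stp s (lb g) g) ∧ (De (stp s (lb g) g)).Infinite :=
    fun g h => by
      simp only [hlb, if_pos h]
      exact Classical.epsilon_spec (d6 g h)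
  have b2 : ∀ g, ¬(De g).Infinite → lb g = lab g := fun g h => if_neg h
  refine ⟨lb, fun a ha g => ?_, fun g hg => ?_, ?_⟩
  · simp only [hlb, stp_mul, c1 a ha, d1' a ha, l1 a ha]
  · by_cases h : (De g).Infinite
    · exact (b1 g h).1.1
    · rw [b2 g h]; exact (l2 g hg (d5 g hg (not_not.1 h))).1
  · refine Subrelation.wf (r := InvImage (Prod.Lex (· < ·) (· < ·)) fun g =>
      if (De g).Infinite then ((1 : ℕ), r g) else (0, (De g).ncard)) ?_
      (InvImage.wf _ (WellFounded.prod_lex wellFounded_lt wellFounded_lt))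
    rintro c g ⟨hc, rfl⟩
    by_cases h : (De c).Infinite
    · simp only [InvImage, if_pos h, if_pos (b1 c h).2]
      exact Prod.Lex.right _ (c2 _ _ (b1 c h).1)
    · rw [b2 c h]
      simp only [InvImage, if_neg h]
      have ch : Ch (stp s (lab c) c) c := ⟨hc, d5 c hc (not_not.1 h), rfl⟩
      split_ifs with e
      · exact Prod.Lex.left _ _ Nat.zero_lt_one
      · refine Prod.Lex.right _ (Set.ncard_lt_ncard ⟨fun x hx => ?_, fun z => ?_⟩ (not_not.1 e))
        · exact Relation.ReflTransGen.head ch hx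
        · exact absurd (d2 _ _ (z Relation.ReflTransGen.refl)) (not_le.2 (c2 _ _ ch))

theorem lemS0 {θ : G → V →+ V} (hY : ∀ a ∈ A, ∀ g ∈ Y, g * a ∈ Y)
    (conn : ∀ g ∈ Y, ∀ g' ∈ Y, Conn s Y g g') (inf : ¬Sm A Y) (u : Fin 1 → G → V)
    (hu : Eqv A θ u) (su : spt u ⊆ Y) :
    ∃ y, Eqv A θ y ∧ spt y ⊆ Y ∧ act (D1 s)ᴴ y = u := by
  classical
  obtain ⟨lb, l1, l2, wf⟩ := exists_flow hY conn inf
  have hY' : ∀ a ∈ A, ∀ g, g * a ∈ Y ↔ g ∈ Y := fun a ha g =>
    ⟨fun h => by simpa using hY a⁻¹ (A.inv_mem ha) _ h, hY a ha g⟩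
  set m : G → V := wf.fix fun g f => u 0 g + ∑ l : Fin d × Bool,
    if h : stp s (l.1, !l.2) g ∈ Y ∧ lb (stp s (l.1, !l.2) g) = l then
      f (stp s (l.1, !l.2) g) ⟨h.1, by rw [h.2, stp_stp']⟩ else 0 with hm
  set F : Fin d × Bool → G → V := fun l g => if g ∈ Y ∧ lb g = l then m g else 0 with hF
  have m1 : ∀ g, m g = u 0 g + ∑ l : Fin d × Bool, F l (stp s (l.1, !l.2) g) := fun g => by
    rw [hm, WellFounded.fix_eq]
    simp only [hF, dite_eq_ite, hm]
  have m2 : ∀ a ∈ A, ∀ g, m (g * a) = θ a (m g) := fun a ha g => by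
    induction g using wf.induction with
    | _ g ih =>
      rw [m1, m1 g, map_add, map_sum, hu a ha]
      congr 1
      refine Finset.sum_congr rfl fun l _ => ?_
      simp only [hF, stp_mul, hY' a ha, l1 a ha]
      split_ifs with h
      · exact ih _ ⟨h.1, by rw [h.2, stp_stp']⟩
      · rw [map_zero]
  have F1 : ∀ a ∈ A, ∀ l g, F l (g * a) = θ a (F l g) := fun a ha l g => by
    simp only [hF, hY' a ha, l1 a ha, m2 a ha]
    split_ifs <;> simp
  have F2 : ∀ l g, F l g ≠ 0 → g ∈ Y ∧ stp s l g ∈ Y := fun l g h => by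
    by_cases e : g ∈ Y ∧ lb g = l
    · exact ⟨e.1, e.2 ▸ l2 g e.1⟩
    · exact absurd (if_neg e) h
  refine ⟨fun i g => F (i, false) ((s i)⁻¹ * g) - F (i, true) g, fun a ha i g => ?_, ?_, ?_⟩
  · simp only [← mul_assoc, F1 a ha, map_sub]
  · rintro g ⟨i, hi⟩
    by_contra h
    refine hi ?_
    have a : F (i, true) g = 0 := by_contra fun e => h (F2 _ _ e).1
    have b : F (i, false) ((s i)⁻¹ * g) = 0 := by_contra fun e => h (by
      simpa [stp] using (F2 _ _ e).2)
    simp only [a, b, sub_self]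
  · funext j g
    rw [act_d1, Subsingleton.elim j 0]
    have e : ∑ i, (F (i, false) ((s i)⁻¹ * (s i * g)) - F (i, true) (s i * g) -
        (F (i, false) ((s i)⁻¹ * g) - F (i, true) g)) =
        ∑ l, F l g - ∑ l : Fin d × Bool, F l (stp s (l.1, !l.2) g) := by
      rw [← Finset.sum_sub_distrib, Fintype.sum_prod_type]
      refine Finset.sum_congr rfl fun i _ => ?_
      simp only [Fintype.sum_bool, stp, inv_mul_cancel_left, Bool.not_true, Bool.not_false,
        Bool.false_eq_true, if_true, if_false]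
      abel
    rw [e]
    by_cases h : g ∈ Y
    · have : ∑ l, F l g = m g := by simp [hF, h]
      rw [this, m1, add_sub_cancel_right]
    · rw [spt_zero fun z => h (su z), Finset.sum_eq_zero, Finset.sum_eq_zero, sub_self]
      · exact fun l _ => by_contra fun z => h (by simpa [stp_stp'] using (F2 _ _ z).2)
      · exact fun l _ => by_contra fun z => h (F2 _ _ z).1

theorem lemS {θ : G → V →+ V} (hY : ∀ a ∈ A, ∀ g ∈ Y, g * a ∈ Y)
    (hY' : ∀ a ∈ A, ∀ g ∈ Y', g * a ∈ Y') (sub : Y ⊆ Y')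
    (conn : ∀ g ∈ Y, ∀ g' ∈ Y, Conn s Y' g g') (inf : ¬Sm A Y) (u : Fin 1 → G → V)
    (hu : Eqv A θ u) (su : spt u ⊆ Y) :
    ∃ y, Eqv A θ y ∧ spt y ⊆ Y' ∧ act (D1 s)ᴴ y = u := by
  set Z : Set G := {x | ∃ g ∈ Y, Conn s Y' g x}
  have YZ : Y ⊆ Z := fun g hg => ⟨g, hg, Conn.refl _⟩
  have up : ∀ g ∈ Z, ∀ x, Conn s Y' g x → Conn s Z g x := fun g hg x h => by
    induction h with
    | refl => exact Conn.refl _
    | tail h' e ih =>
      obtain ⟨y, hy, c⟩ := hg
      exact ih.tail ⟨⟨y, hy, c.trans h'⟩, ⟨y, hy, c.trans (h'.tail e)⟩, e.2.2⟩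
  obtain ⟨y, h1, h2, h3⟩ := lemS0 (s := s) (Y := Z) (θ := θ)
    (fun a ha x ⟨g, hg, c⟩ => ⟨g * a, hY a ha g hg, c.map a (hY' a ha)⟩)
    (fun x hx x' hx' => up x hx x' (by
      obtain ⟨g, hg, c⟩ := hx
      obtain ⟨g', hg', c'⟩ := hx'
      exact c.symm.trans ((conn g hg g' hg').trans c'))) (fun h => inf (h.mono YZ)) u hu
    (su.trans YZ)
  exact ⟨y, h1, h2.trans fun x ⟨g, hg, c⟩ => c.mem (sub hg), h3⟩

end LemS

end

end Pool.Agent.Lib.MP_4269b5_al.Ag
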