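import Pool.Agent.Lib.MP_4269b5_al.AgTL

/-! Induced modules with coefficients in a ring of fractions. -/

set_option linter.unusedSectionVars false
set_option linter.unusedVariables false

namespace Pool.Agent.Lib.MP_4269b5_al.Ag

open Matrix

noncomputable section

variable {G : Type} [Group G] {V : Type} [AddCommGroup V] {A : Subgroup G}

/-- sum over the cosets -/
def ts (A : Subgroup G) (φ : G → V) : V := ∑ᶠ q : G ⧸ A, φ q.out

theorem ts_fin {φ : G → V} (h : Sm A (Function.support φ)) :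
    Function.HasFiniteSupport fun q : G ⧸ A => φ q.out := by
  obtain ⟨B, hB⟩ := h
  refine (B.finite_toSet.image fun b : G => (b : G ⧸ A)).subset fun q hq => ?_
  obtain ⟨b, hb, e⟩ := hB _ hq
  exact ⟨b, hb, (QuotientGroup.eq.2 e).trans q.out_eq'⟩

theorem ts_sum {σ : Type} (t : Finset σ) (φ : σ → G → V)
    (h : ∀ l ∈ t, Sm A (Function.support (φ l))) :
    ts A (fun g => ∑ l ∈ t, φ l g) = ∑ l ∈ t, ts A (φ l) :=
  finsum_sum_comm t (fun (q : G ⧸ A) l => φ l q.out) fun l hl => ts_fin (h l hl)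

theorem ts_add {φ ψ : G → V} (h : Sm A (Function.support φ)) (h' : Sm A (Function.support ψ)) :
    ts A (fun g => φ g + ψ g) = ts A φ + ts A ψ := finsum_add_distrib (ts_fin h) (ts_fin h')

theorem ts_sub {φ ψ : G → V} (h : Sm A (Function.support φ)) (h' : Sm A (Function.support ψ)) :
    ts A (fun g => φ g - ψ g) = ts A φ - ts A ψ := finsum_sub_distrib (ts_fin h) (ts_fin h')

theorem ts_map {W : Type} [AddCommGroup W] (f : V →+ W) {φ : G → V}
    (h : Sm A (Function.support φ)) : ts A (fun g => f (φ g)) = f (ts A φ) :=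
  (f.map_finsum (ts_fin h)).symm

theorem ts_out {φ : G → V} (h : ∀ a ∈ A, ∀ g, φ (g * a) = φ g) (g : G) :
    φ (g : G ⧸ A).out = φ g := by
  obtain ⟨a, ha⟩ := QuotientGroup.mk_out_eq_mul A g
  rw [ha, h _ a.2]

theorem ts_left {φ : G → V} (h : ∀ a ∈ A, ∀ g, φ (g * a) = φ g) (k : G) :
    ts A (fun g => φ (k * g)) = ts A φ := by
  rw [ts, ts, ← finsum_comp_equiv (MulAction.toPerm k) (f := fun q : G ⧸ A => φ q.out)]
  refine finsum_congr fun q => ?_
  rw [← ts_out h, MulAction.toPerm_apply, ← MulAction.Quotient.mk_smul_out]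
  rfl

theorem ts_one {φ : G → V} (h : ∀ a ∈ A, ∀ g, φ (g * a) = φ g) (e : ∀ g, φ g ≠ 0 → g ∈ A) :
    ts A φ = φ 1 := by
  rw [ts, finsum_eq_single _ ((1 : G) : G ⧸ A), ts_out h]
  intro q hq
  by_contra c
  exact hq (q.out_eq'.symm.trans (QuotientGroup.eq.2 (by simpa using e _ c)))

theorem ts_zero : ts A (fun _ => (0 : V)) = 0 := finsum_zero

theorem sm_star (a : ZG G) (u : G → V) (g : G) :
    sm (star a) u g = ∑ k ∈ a.coeff.support, a.coeff k • u (k * g) := by
  have := sm_nat (AddMonoidHom.id V) (star a) (fun x => u (x * g)) u 1 g fun x => by simp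
  rw [this, ← dext_star]
  rfl

variable {D : Type} [Ring D] {J : G → D} {ι κ : Type} [Fintype ι] [Fintype κ]

/-- right multiplication -/
def θr (J : G → D) : G → D →+ D := fun a => AddMonoidHom.mulRight (J a)

/-- left multiplication -/
def θl (J : G → D) : G → D →+ D := fun a => AddMonoidHom.mulLeft (J a⁻¹)

/-- twisted embedding -/
def tJ (w : G →* ℤˣ) (J : G → D) : G → D := fun g => (w g : ℤ) • J g

theorem tθ_r (w : G →* ℤˣ) (J : G → D) : tθ w (θr J) = θr (tJ w J) :=
  funext fun a => AddMonoidHom.ext fun v => (mul_smul_comm (w a : ℤ) v (J a)).symm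

theorem tJ_tJ (w : G →* ℤˣ) (J : G → D) : tJ w (tJ w J) = J := funext fun a => by
  rw [tJ, tJ, smul_smul, w_sq, one_smul]

/-- regular embedding of the group ring of a subgroup -/
structure Rp (A : Subgroup G) (J : G → D) : Prop where
  one : J 1 = 1
  mul : ∀ a ∈ A, ∀ g, J (g * a) = J g * J a
  mul' : ∀ a ∈ A, ∀ g, J (a * g) = J a * J g
  sp : ∀ g, J g ≠ 0 → g ∈ A

/-- regularity -/
def Reg (J : G → D) : Prop := ∀ (x : ZG G) g, x.coeff g ≠ 0 → ∀ c, c * sm x J g = 0 → c = 0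

/-- no fixed vectors -/
def Fr (A : Subgroup G) (J : G → D) : Prop :=
  ∀ a ∈ A, a ≠ 1 → ∀ (ε : ℤˣ) (v : D), v * ((ε : ℤ) • J a) = v → v = 0

theorem Rp.inv (R : Rp A J) {a : G} (ha : a ∈ A) : J a * J a⁻¹ = 1 := by
  rw [← R.mul' a ha, mul_inv_cancel, R.one]

theorem Rp.tJ (R : Rp A J) (w : G →* ℤˣ) : Rp A (tJ w J) where
  one := by simp [Ag.tJ, R.one]
  mul a ha g := by rw [Ag.tJ, Ag.tJ, Ag.tJ, R.mul a ha, map_mul, Units.val_mul, smul_mul_smul_comm]
  mul' a ha g := by
    rw [Ag.tJ, Ag.tJ, Ag.tJ, R.mul' a ha, map_mul, Units.val_mul, smul_mul_smul_comm]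
  sp g hg := R.sp g fun e => hg (by rw [Ag.tJ, e, smul_zero])

theorem Rp.fr (R : Rp A J) (reg : Reg J) : Fr A J := fun a ha ne ε v e => by
  classical
  refine reg (og 1 - (ε : ℤ) • og a⁻¹) 1 ?_ v ?_
  · change (og 1).coeff 1 - (ε : ℤ) • (og a⁻¹).coeff 1 ≠ 0
    rw [coeff_og, coeff_og, if_pos rfl, if_neg (by simpa using ne)]
    simp
  · rw [sm_sub, Pi.sub_apply, sm_og, sm, map_zsmul, dext_og, mul_sub, inv_inv, inv_one, mul_one,
      mul_one, R.one, mul_one, e, sub_self]

theorem Fr.tJ (h : Fr A J) (w : G →* ℤˣ) : Fr A (tJ w J) := fun a ha ne ε v e =>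
  h a ha ne (ε * w a) v (by rwa [Units.val_mul, mul_smul])

theorem Fr.free (h : Fr A J) (a : G) (ha : a ∈ A) (ne : a ≠ 1) (v : D) (e : θr J a v = v) :
    v = 0 := h a ha ne 1 v (by rwa [Units.val_one, one_smul])

theorem Fr.sub (h : Fr A J) : Fr A ((A : Set G).indicator J) := fun a ha ne ε v e =>
  h a ha ne ε v (by rwa [Set.indicator_of_mem ha] at e)

theorem Fr.mono (h : Fr A J) {M : Subgroup G} (le : M ≤ A) : Fr M J := fun a ha => h a (le ha)

theorem Rp.sub (R : Rp A J) {M : Subgroup G} (le : M ≤ A) : Rp M ((M : Set G).indicator J) where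
  one := by rw [Set.indicator_of_mem M.one_mem, R.one]
  mul a ha g := by
    by_cases e : g ∈ M
    · rw [Set.indicator_of_mem (M.mul_mem e ha), Set.indicator_of_mem e, Set.indicator_of_mem ha,
        R.mul a (le ha)]
    · rw [Set.indicator_of_notMem e, Set.indicator_of_notMem
        fun z => e ((M.mul_mem_cancel_right ha).1 z), zero_mul]
  mul' a ha g := by
    by_cases e : g ∈ M
    · rw [Set.indicator_of_mem (M.mul_mem ha e), Set.indicator_of_mem e, Set.indicator_of_mem ha,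
        R.mul' a (le ha)]
    · rw [Set.indicator_of_notMem e, Set.indicator_of_notMem
        fun z => e ((M.mul_mem_cancel_left ha).1 z), mul_zero]
  sp g hg := Set.mem_of_indicator_ne_zero hg

theorem Reg.sub (reg : Reg J) (M : Subgroup G) : Reg ((M : Set G).indicator J) :=
  fun x g hx c hc => by
    classical
    refine reg (MonoidAlgebra.ofCoeff (x.coeff.filter fun k => k⁻¹ * g ∈ M)) g ?_ c ?_
    · simpa using hx
    · rw [← hc, sm_eq, sm_eq]
      congr 1
      change ∑ k ∈ (x.coeff.filter fun k => k⁻¹ * g ∈ M).support,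
        (x.coeff.filter fun k => k⁻¹ * g ∈ M) k • _ = _
      rw [Finsupp.support_filter, Finset.sum_filter]
      refine Finset.sum_congr rfl fun k _ => ?_
      by_cases e : k⁻¹ * g ∈ M
      · rw [if_pos e, Finsupp.filter_apply, if_pos e, Set.indicator_of_mem e]
      · rw [if_neg e, Set.indicator_of_notMem e, smul_zero]

/-- the induced module -/
def Ind (A : Subgroup G) (J : G → D) (v : ι → G → D) : Prop := Eqv A (θr J) v ∧ Sm A (spt v)

theorem Ind.act {v : κ → G → D} (h : Ind A J v) (X : Matrix ι κ (ZG G)) : Ind A J (act X v) :=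
  ⟨h.1.act X, (h.2.nb _).mono (spt_act _ _)⟩

theorem Ind.tw {v : κ → G → D} (h : Ind A J v) (w : G →* ℤˣ) : Ind A (tJ w J) (tw w v) :=
  ⟨tθ_r w J ▸ h.1.tw w, by rw [spt_tw]; exact h.2⟩

theorem Ind.op {v : κ → G → D} (h : Ind A J v) (w : G →* ℤˣ) (X : Matrix ι κ (ZG G)) :
    Ind A (tJ w J) (op w X v) := (h.tw w).act X

theorem Ind.add {v v' : ι → G → D} (h : Ind A J v) (h' : Ind A J v') : Ind A J (v + v') :=
  ⟨h.1.add h'.1, (h.2.union h'.2).mono (spt_add _ _)⟩

theorem spt_smul (c : D) (v : ι → G → D) : spt (c • v) ⊆ spt v := fun g ⟨i, hi⟩ =>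
  ⟨i, fun e => hi (by simp [e])⟩

theorem Eqv.smul {v : ι → G → D} (h : Eqv A (θr J) v) (c : D) : Eqv A (θr J) (c • v) :=
  fun a ha i g => by simp [h a ha, θr, mul_assoc]

theorem Ind.smul {v : ι → G → D} (h : Ind A J v) (c : D) : Ind A J (c • v) :=
  ⟨h.1.smul c, h.2.mono (spt_smul c v)⟩

theorem spt_sum {σ : Type} (t : Finset σ) (v : σ → ι → G → V) :
    spt (∑ l ∈ t, v l) ⊆ ⋃ l ∈ (t : Set σ), spt (v l) := by
  rintro g ⟨i, hi⟩
  rw [Finset.sum_apply, Finset.sum_apply] at hi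
  obtain ⟨l, hl, e⟩ := Finset.exists_ne_zero_of_sum_ne_zero hi
  exact Set.mem_biUnion hl ⟨i, e⟩

theorem Eqv.sum {σ : Type} {θ : G → V →+ V} (t : Finset σ) {v : σ → ι → G → V}
    (h : ∀ l, Eqv A θ (v l)) : Eqv A θ (∑ l ∈ t, v l) := fun a ha i g => by
  simp only [Finset.sum_apply, map_sum, h _ a ha]

theorem Ind.sum {σ : Type} (t : Finset σ) {v : σ → ι → G → D} (h : ∀ l, Ind A J (v l)) :
    Ind A J (∑ l ∈ t, v l) :=
  ⟨Eqv.sum t fun l => (h l).1, (Sm.biUnion t.finite_toSet fun l _ => (h l).2).mono (spt_sum t v)⟩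

theorem vs_act (x : ι → ZG G) (v : G → V) :
    vs x v = act (Matrix.of fun i (_ : Unit) => x i) fun _ => v := funext fun i => by
  simp [vs, act]

theorem Rp.ind0 (R : Rp A J) : Ind A J fun _ : Unit => J :=
  ⟨fun a ha _ g => R.mul a ha g, ⟨{1}, fun g ⟨_, hg⟩ => ⟨1, by simp, by simpa using R.sp g hg⟩⟩⟩

theorem Rp.ind (R : Rp A J) (x : ι → ZG G) : Ind A J (vs x J) := by
  rw [vs_act]; exact R.ind0.act _

theorem Rp.spt (R : Rp A J) (x : ι → ZG G) {g : G} (h : g ∈ spt (vs x J)) :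
    ∃ k ∈ spt (co x), k⁻¹ * g ∈ A := (spt_vs x J h).imp fun _ e => ⟨e.1, R.sp _ e.2⟩

theorem act_smul (X : Matrix ι κ (ZG G)) (c : D) (v : κ → G → D) : act X (c • v) = c • act X v :=
  funext fun i => funext fun g =>
    act_nat (AddMonoidHom.mulLeft c) X v (c • v) g g (fun _ _ => rfl) i

theorem op_smul (w : G →* ℤˣ) (X : Matrix ι κ (ZG G)) (c : D) (v : κ → G → D) :
    op w X (c • v) = c • op w X v := by
  rw [op, op, ← act_smul]
  congr 1
  funext i g
  exact (mul_smul_comm _ _ _).symm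

theorem Rp.rt (R : Rp A J) {a : G} (ha : a ∈ A) (x : ι → ZG G) :
    vs (rt a x) J = J a⁻¹ • vs x J := by
  rw [vs_rt, vs_act, vs_act, ← act_smul]
  congr 1
  funext _ g
  exact R.mul' _ (A.inv_mem ha) g

/-- pairing over the cosets -/
def bp (A : Subgroup G) (v u : ι → G → D) : D := ts A fun g => ∑ i, v i g * u i g

theorem sm_mul_supp {v : ι → G → D} (h : Sm A (spt v)) (i : ι) (k : G) (n : ℤ) (u : G → D) :
    Sm A (Function.support fun g => n • (v i (k * g) * u g)) :=
  (h.left k).mono fun g hg => ⟨i, fun e => hg (by simp [e])⟩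

theorem supp1 {v : ι → G → D} (h : Sm A (spt v)) (i : ι) (u : G → D) :
    Sm A (Function.support fun g => v i g * u g) :=
  h.mono fun g hg => ⟨i, fun e => hg (by simp [e])⟩

theorem bp_act (R : Rp A J) {v : κ → G → D} (hv : Ind A J v) {u : ι → G → D}
    (hu : Eqv A (θl J) u) (X : Matrix ι κ (ZG G)) : bp A (act X v) u = bp A v (act Xᴴ u) := by
  have l : bp A (act X v) u = ∑ i, ∑ j, ∑ k ∈ (X i j).coeff.support,
      ts A fun g => (X i j).coeff k • (v j (k⁻¹ * g) * u i g) := by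
    rw [bp, ts_sum _ _ fun i _ => supp1 (hv.act X).2 i _]
    refine Finset.sum_congr rfl fun i _ => ?_
    simp only [act_apply, Finset.sum_mul]
    rw [ts_sum _ _ fun j _ => supp1 (v := act (Matrix.of fun (_ _ : Unit) => X i j) fun _ => v j)
      _ () _ |>.mono fun g hg => by simpa [act] using hg]
    · refine Finset.sum_congr rfl fun j _ => ?_
      simp only [sm_eq, Finset.sum_mul, smul_mul_assoc]
      rw [ts_sum _ _ fun k _ => sm_mul_supp hv.2 j _ _ _]
    · intro j _
      exact ((hv.2.mono (Y' := spt fun _ : Unit => v j) fun g ⟨_, e⟩ => ⟨j, e⟩).nb _).mono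
        (spt_act _ _)
  have r : bp A v (act Xᴴ u) = ∑ j, ∑ i, ∑ k ∈ (X i j).coeff.support,
      ts A fun g => (X i j).coeff k • (v j g * u i (k * g)) := by
    rw [bp, ts_sum _ _ fun j _ => supp1 hv.2 j _]
    refine Finset.sum_congr rfl fun j _ => ?_
    simp only [act_apply, Finset.mul_sum]
    rw [ts_sum _ _ fun i _ => supp1 hv.2 j _]
    refine Finset.sum_congr rfl fun i _ => ?_
    simp only [conjTranspose_apply, sm_star, Finset.mul_sum, mul_smul_comm]
    rw [ts_sum _ _ fun k _ => by simpa using sm_mul_supp hv.2 j 1 _ _]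
  rw [l, r, Finset.sum_comm]
  refine Finset.sum_congr rfl fun j _ => Finset.sum_congr rfl fun i _ =>
    Finset.sum_congr rfl fun k _ => ?_
  rw [← ts_left (fun a ha g => ?_) k]
  · simp
  · rw [← mul_assoc, hv.1 a ha, hu a ha]
    change _ • (_ * J a * (J a⁻¹ * _)) = _
    rw [mul_assoc, ← mul_assoc (J a), R.inv ha, one_mul]

theorem bp_vs (R : Rp A J) (x : ι → ZG G) {u : ι → G → D} (hu : Eqv A (θl J) u) :
    bp A (vs x J) u = pair x u := by
  rw [vs_act, bp_act R R.ind0 hu, bp, ts_one, pair_eq]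
  · simp only [Finset.univ_unique, Finset.sum_singleton, R.one, one_mul]
    rfl
  · intro a ha g
    simp only [Finset.univ_unique, Finset.sum_singleton]
    rw [(hu.act _) a ha, R.mul a ha]
    change _ * J a * (J a⁻¹ * _) = _
    rw [mul_assoc, ← mul_assoc (J a), R.inv ha, one_mul]
  · intro g hg
    exact R.sp g fun e => hg (by simp [e])

theorem supp2 {v : ι → G → D} (h : Sm A (spt v)) (u : ι → G → D) :
    Sm A (Function.support fun g => ∑ i, v i g * u i g) :=
  h.mono fun g hg => by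
    obtain ⟨i, -, e⟩ := Finset.exists_ne_zero_of_sum_ne_zero hg
    exact ⟨i, left_ne_zero_of_mul e⟩

theorem bp_add {v v' : ι → G → D} (h : Sm A (spt v)) (h' : Sm A (spt v')) (u : ι → G → D) :
    bp A (v + v') u = bp A v u + bp A v' u := by
  rw [bp, bp, bp, ← ts_add (supp2 h u) (supp2 h' u)]
  simp only [Pi.add_apply, add_mul, Finset.sum_add_distrib]

theorem bp_comb {σ : Type} [Fintype σ] (c : σ → D) {v : σ → ι → G → D}
    (h : ∀ l, Sm A (spt (v l))) (u : ι → G → D) :
    bp A (∑ l, c l • v l) u = ∑ l, c l * bp A (v l) u := by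
  have : ∀ l, c l * bp A (v l) u = ts A fun g => ∑ i, (c l • v l) i g * u i g := fun l => by
    refine (ts_map (AddMonoidHom.mulLeft (c l)) (supp2 (h l) u)).symm.trans ?_
    simp [mul_assoc]
  simp only [this]
  rw [← ts_sum _ _ fun l _ => supp2 ((h l).mono (spt_smul _ _)) u, bp]
  congr 1
  funext g
  rw [Finset.sum_comm]
  simp only [Finset.sum_apply, Finset.sum_mul]

end

end Pool.Agent.Lib.MP_4269b5_al.Ag
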