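import Mathlib

/-! Square summable functions on a group and a dimension count. -/

set_option linter.unusedSectionVars false
set_option linter.unusedVariables false

namespace Pool.Agent.Lib.MP_4269b5_al.Ag

open scoped InnerProductSpace
open ContinuousLinearMap Filter Topology

noncomputable section

/-- square summable functions -/
abbrev H2 (G : Type) : Type := lp (fun _ : G => ℝ) 2

/-- real group ring -/
abbrev RG (G : Type) [Group G] : Type := MonoidAlgebra ℝ G

variable {G : Type} [Group G]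

/-- composition with a permutation -/
def pm (e : G ≃ G) : H2 G →L[ℝ] H2 G :=
  LinearMap.mkContinuous
    { toFun := fun v => ⟨fun g => v (e g), memℓp_gen
        ((e.summable_iff (f := fun g => ‖v g‖ ^ (2 : ENNReal).toReal)).2
          ((lp.memℓp v).summable (by norm_num)))⟩
      map_add' := fun _ _ => rfl
      map_smul' := fun _ _ => rfl } 1 fun v => by
    rw [one_mul, lp.norm_eq_tsum_rpow (by norm_num), lp.norm_eq_tsum_rpow (by norm_num) v,
      ← e.tsum_eq fun g => ‖v g‖ ^ (2 : ENNReal).toReal]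
    exact le_of_eq rfl

theorem pm_apply (e : G ≃ G) (v : H2 G) (g : G) : pm e v g = v (e g) := rfl

theorem H2.inner (v w : H2 G) : ⟪v, w⟫_ℝ = ∑' g, v g * w g :=
  (lp.inner_eq_tsum v w).trans (tsum_congr fun g => by simp [mul_comm])

theorem pm_inner (e : G ≃ G) (v w : H2 G) : ⟪pm e v, pm e w⟫_ℝ = ⟪v, w⟫_ℝ := by
  rw [H2.inner, H2.inner, ← e.tsum_eq fun g => v g * w g]
  rfl

/-- the right action of the group ring -/
def rra : RG G →ₐ[ℝ] (H2 G →L[ℝ] H2 G)ᵐᵒᵖ :=
  MonoidAlgebra.lift ℝ _ G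
    { toFun := fun g => MulOpposite.op (pm (Equiv.mulRight g⁻¹))
      map_one' := MulOpposite.unop_injective (ContinuousLinearMap.ext fun v => lp.ext
        (funext fun y => by simp [pm_apply]))
      map_mul' := fun g k => MulOpposite.unop_injective (ContinuousLinearMap.ext fun v => lp.ext
        (funext fun y => by simp [pm_apply, mul_assoc])) }

/-- right multiplication operators -/
def rr (x : RG G) : H2 G →L[ℝ] H2 G := (rra x).unop

theorem rr_mul (x y : RG G) : rr (x * y) = rr y ∘L rr x := by rw [rr, map_mul]; rfl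
theorem rr_one : rr (1 : RG G) = 1 := by rw [rr, map_one]; rfl
theorem rr_add (x y : RG G) : rr (x + y) = rr x + rr y := by rw [rr, map_add]; rfl
theorem rr_zero : rr (0 : RG G) = 0 := by rw [rr, map_zero]; rfl
theorem rr_smul (c : ℝ) (x : RG G) : rr (c • x) = c • rr x := by rw [rr, map_smul]; rfl

theorem rr_sum {σ : Type} (t : Finset σ) (x : σ → RG G) : rr (∑ l ∈ t, x l) = ∑ l ∈ t, rr (x l) := by
  rw [rr, map_sum, Finset.unop_sum]; rfl

theorem rr_single (g : G) (c : ℝ) (v : H2 G) (y : G) :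
    rr (MonoidAlgebra.single g c) v y = c * v (y * g⁻¹) := by
  rw [rr, rra, MonoidAlgebra.lift_single]
  rfl

/-- left translation -/
def lam (g : G) : H2 G →L[ℝ] H2 G := pm (Equiv.mulLeft g⁻¹)

theorem rr_lam (x : RG G) (g : G) (v : H2 G) : rr x (lam g v) = lam g (rr x v) := by
  induction x using MonoidAlgebra.induction_linear with
  | zero => simp [rr_zero]
  | add a b ha hb => simp [rr_add, ha, hb]
  | single k c =>
    refine lp.ext (funext fun y => ?_)
    rw [rr_single]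
    change _ = rr _ v _
    rw [rr_single]
    simp [lam, pm_apply, mul_assoc]

open Classical in
/-- the point mass at the identity -/
def dl : H2 G := lp.single 2 1 1

theorem rr_dl (x : RG G) (y : G) : rr x dl y = x.coeff y := by
  classical
  induction x using MonoidAlgebra.induction_linear with
  | zero => simp [rr_zero]
  | add a b ha hb => simp [rr_add, ha, hb]
  | single k c =>
    rw [rr_single, dl, lp.single_apply, MonoidAlgebra.coeff_single, Finsupp.single_apply,
      Pi.single_apply]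
    simp [mul_inv_eq_one, eq_comm]

theorem zero_of_abs {f : G → ℝ} (h : Tendsto f cofinite (𝓝 0)) {a : G}
    (inj : Function.Injective fun n : ℕ => a ^ n) (e : ∀ y, |f (y * a)| = |f y|) (y : G) :
    f y = 0 := by
  have e1 : ∀ n : ℕ, |f (y * a ^ n)| = |f y| := fun n => by
    induction n with
    | zero => simp
    | succ n ih => rw [pow_succ, ← mul_assoc, e, ih]
  have := (h.comp ((mul_right_injective y).comp inj).tendsto_cofinite).abs
  rw [Nat.cofinite_eq_atTop] at this
  simp only [Function.comp_def, e1, abs_zero, tendsto_const_nhds_iff] at this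
  exact abs_eq_zero.1 this

theorem H2.free {a : G} (inj : Function.Injective fun n : ℕ => a ^ n) {c : ℝ} (hc : |c| = 1)
    (v : H2 G) (e : rr (MonoidAlgebra.single a c) v = v) : v = 0 := by
  refine lp.ext (funext (zero_of_abs ?_ inj fun y => ?_))
  · have := ((lp.memℓp v).summable (by norm_num)).tendsto_cofinite_zero.sqrt
    rw [tendsto_zero_iff_abs_tendsto_zero]
    simpa [Real.sqrt_sq_eq_abs, Function.comp_def] using this
  · conv_lhs => rw [← e, rr_single]
    simp [abs_mul, hc]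

variable {ι κ ν : Type} [Fintype ι] [Fintype κ] [Fintype ν] [DecidableEq ι] [DecidableEq κ]
  [DecidableEq ν]

/-- finite sums of copies -/
abbrev EE (G ι : Type) : Type := PiLp 2 fun _ : ι => H2 G

/-- operator from its components -/
def mkE (f : κ → EE G ι →L[ℝ] H2 G) : EE G ι →L[ℝ] EE G κ :=
  (PiLp.continuousLinearEquiv 2 ℝ fun _ : κ => H2 G).symm.toContinuousLinearMap ∘L
    ContinuousLinearMap.pi f

theorem mkE_apply (f : κ → EE G ι →L[ℝ] H2 G) (v : EE G ι) (k : κ) : mkE f v k = f k v := rfl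

/-- diagonal left translation -/
def LL (g : G) : EE G ι →L[ℝ] EE G ι := mkE fun i => lam g ∘L PiLp.proj 2 _ i

theorem LL_apply (g : G) (v : EE G ι) (i : ι) (y : G) : LL g v i y = v i (g⁻¹ * y) := rfl

theorem LL_LL (g k : G) (v : EE G ι) : LL g (LL k v) = LL (g * k) v :=
  PiLp.ext fun i => lp.ext (funext fun y => by simp only [LL_apply, mul_inv_rev, mul_assoc])

theorem LL_one (v : EE G ι) : LL 1 v = v :=
  PiLp.ext fun i => lp.ext (funext fun y => by simp only [LL_apply, inv_one, one_mul])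

theorem LL_inner (g : G) (v w : EE G ι) : ⟪LL g v, w⟫_ℝ = ⟪v, LL g⁻¹ w⟫_ℝ := by
  conv_lhs => rw [← LL_one w, ← mul_inv_cancel g, ← LL_LL]
  exact Finset.sum_congr rfl fun i _ => pm_inner _ _ _

/-- a row vector times a matrix -/
def TT (X : Matrix ι κ (RG G)) : EE G ι →L[ℝ] EE G κ :=
  mkE fun k => ∑ i, rr (X i k) ∘L PiLp.proj 2 _ i

theorem TT_apply (X : Matrix ι κ (RG G)) (v : EE G ι) (k : κ) :
    TT X v k = ∑ i, rr (X i k) (v i) := by
  rw [TT, mkE_apply, _root_.sum_apply]; rfl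

theorem TT_mul (X : Matrix ι κ (RG G)) (Y : Matrix κ ν (RG G)) (v : EE G ι) :
    TT (X * Y) v = TT Y (TT X v) := PiLp.ext fun k => by
  simp only [TT_apply, Matrix.mul_apply, rr_sum, rr_mul, _root_.sum_apply, map_sum,
    comp_apply]
  exact Finset.sum_comm

theorem TT_sub (X Y : Matrix ι κ (RG G)) (v : EE G ι) : TT (X - Y) v = TT X v - TT Y v :=
  PiLp.ext fun k => by
    have : ∀ x y : RG G, rr (x - y) = rr x - rr y := fun x y => by rw [rr, map_sub]; rfl
    simp only [TT_apply, Matrix.sub_apply, this, PiLp.sub_apply, sub_apply, Finset.sum_sub_distrib]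

/-- basis vectors -/
def bv (i : ι) : EE G ι := PiLp.single 2 i dl

theorem coord (v : EE G ι) (i : ι) (g : G) : ⟪LL g (bv i), v⟫_ℝ = v i g := by
  classical
  rw [LL_inner, PiLp.inner_apply, Finset.sum_eq_single i, bv, PiLp.single_eq_same, dl,
    lp.inner_single_left, LL_apply]
  · simp
  · intro j _ h; rw [bv, PiLp.single_eq_of_ne _ h, inner_zero_left]
  · simp

theorem TT_bv (X : Matrix ι κ (RG G)) (i : ι) (k : κ) (y : G) :
    TT X (bv i) k y = (X i k).coeff y := by
  rw [TT_apply, Finset.sum_eq_single i, bv, PiLp.single_eq_same, rr_dl]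
  · intro j _ h; rw [bv, PiLp.single_eq_of_ne _ h, map_zero]
  · simp

/-- equivariant operators -/
def Eq2 (S : EE G ι →L[ℝ] EE G κ) : Prop := ∀ g v, S (LL g v) = LL g (S v)

theorem TT_eq (X : Matrix ι κ (RG G)) : Eq2 (TT X) := fun g v => PiLp.ext fun k => by
  change _ = lam g (TT X v k)
  rw [TT_apply, TT_apply, map_sum]
  exact Finset.sum_congr rfl fun i _ => rr_lam _ _ _

theorem Eq2.comp {S : EE G κ →L[ℝ] EE G ν} {S' : EE G ι →L[ℝ] EE G κ} (h : Eq2 S) (h' : Eq2 S') :
    Eq2 (S ∘L S') := fun g v => by rw [comp_apply, h', h, comp_apply]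

theorem Eq2.adj {S : EE G ι →L[ℝ] EE G κ} (h : Eq2 S) : Eq2 (adjoint S) := fun g v =>
  ext_inner_right ℝ fun w => by
    rw [adjoint_inner_left, LL_inner, LL_inner, adjoint_inner_left, h]

theorem Eq2.pow {S : EE G ι →L[ℝ] EE G ι} (h : Eq2 S) (n : ℕ) : Eq2 (S ^ n) := by
  induction n with
  | zero => exact fun _ _ => rfl
  | succ n ih => rw [pow_succ]; exact ih.comp h

/-- trace -/
def tr (S : EE G ι →L[ℝ] EE G ι) : ℝ := ∑ i, ⟪bv i, S (bv i)⟫_ℝ

theorem tr_TT (X : Matrix ι ι (RG G)) : tr (TT X) = X.trace.coeff 1 := by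
  have : X.trace.coeff 1 = ∑ i, (X i i).coeff 1 :=
    map_sum (AddMonoidHom.mk' (fun z : RG G => z.coeff 1) fun _ _ => rfl) _ _
  rw [this]
  exact Finset.sum_congr rfl fun i _ => by rw [← TT_bv, ← coord, LL_one]

theorem tr_sub (S S' : EE G ι →L[ℝ] EE G ι) : tr (S - S') = tr S - tr S' := by
  simp only [tr, sub_apply, inner_sub_right, Finset.sum_sub_distrib]

theorem tr_one : tr (1 : EE G ι →L[ℝ] EE G ι) = Fintype.card ι := by
  classical
  have e : ∀ i : ι, ⟪(bv i : EE G ι), bv i⟫_ℝ = 1 := fun i => by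
    rw [← LL_one (bv i), coord, LL_one, bv, PiLp.single_eq_same, dl, lp.single_apply_self]
  exact (Finset.sum_congr rfl fun i _ => e i).trans (by simp)

theorem tr_comm {X : EE G κ →L[ℝ] EE G ι} {Y : EE G ι →L[ℝ] EE G κ} (hX : Eq2 X) (hY : Eq2 Y) :
    tr (X ∘L Y) = tr (Y ∘L X) := by
  have key : ∀ {ι κ : Type} [Fintype ι] [Fintype κ] [DecidableEq ι] [DecidableEq κ]
      {X : EE G κ →L[ℝ] EE G ι} (Y : EE G ι →L[ℝ] EE G κ), Eq2 X →
      tr (X ∘L Y) = ∑ i, ∑ j, ∑' g, X (bv j) i g⁻¹ * Y (bv i) j g := by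
    intro ι κ _ _ _ _ X Y hX
    refine Finset.sum_congr rfl fun i _ => ?_
    rw [comp_apply, ← adjoint_inner_left, PiLp.inner_apply]
    refine Finset.sum_congr rfl fun j _ => ?_
    rw [H2.inner]
    refine tsum_congr fun g => ?_
    rw [← coord, adjoint_inner_right, hX, LL_inner, real_inner_comm, coord]
  rw [key Y hX, key X hY, Finset.sum_comm]
  refine Finset.sum_congr rfl fun j _ => Finset.sum_congr rfl fun i _ => ?_
  rw [← (Equiv.inv G).tsum_eq]
  exact tsum_congr fun g => by simp [mul_comm]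

theorem tr_sq (S : EE G ι →L[ℝ] EE G κ) : tr (adjoint S ∘L S) = ∑ i, ‖S (bv i)‖ ^ 2 :=
  Finset.sum_congr rfl fun i _ => by
    rw [comp_apply, adjoint_inner_right, real_inner_self_eq_norm_sq]

theorem exists_pr {e : Matrix ι ι (RG G)} (he : e * e = e) : ∃ p : EE G ι →L[ℝ] EE G ι,
    Eq2 p ∧ adjoint p = p ∧ (∀ v, TT e (p v) = p v) ∧ (∀ v, TT e v = v → p v = v) ∧
      tr p = e.trace.coeff 1 := by
  set W := (TT e).eqLocus (1 : EE G ι →L[ℝ] EE G ι)
  have e1 : Eq2 W.starProjection := fun g v =>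
    Submodule.eq_starProjection_of_mem_of_inner_eq_zero (by
      change TT e _ = _
      rw [TT_eq, show TT e _ = _ from W.starProjection_apply_mem v]; rfl) fun w hw => by
      rw [← map_sub, LL_inner]
      refine Submodule.starProjection_inner_eq_zero _ _ ?_
      change TT e _ = _
      rw [TT_eq, show TT e w = w from hw]; rfl
  have e2 : ∀ v, TT e v = v → W.starProjection v = v := fun v hv =>
    Submodule.starProjection_eq_self_iff.2 hv
  refine ⟨W.starProjection, e1, (isSelfAdjoint_starProjection W).adjoint_eq,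
    fun v => W.starProjection_apply_mem v, e2, ?_⟩
  have a : W.starProjection = TT e ∘L W.starProjection :=
    ContinuousLinearMap.ext fun v => (W.starProjection_apply_mem v).symm
  rw [a, tr_comm (TT_eq e) e1, ← tr_TT]
  congr 1
  exact ContinuousLinearMap.ext fun v => e2 (TT e v) (by rw [← TT_mul, he])

theorem kap {e : Matrix ι ι (RG G)} (he : e * e = e) (ne : e ≠ 0) : 0 < e.trace.coeff 1 := by
  obtain ⟨p, p1, p2, p3, p4, p5⟩ := exists_pr he
  have a : p = adjoint p ∘L p := by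
    rw [p2]; exact ContinuousLinearMap.ext fun v => (p4 _ (p3 v)).symm
  rw [← p5, a, tr_sq]
  refine lt_of_le_of_ne (by positivity) fun z => ne ?_
  have z := (Finset.sum_eq_zero_iff_of_nonneg fun _ _ => by positivity).1 z.symm
  ext i k g
  rw [← TT_bv, ← coord, ← p4 (TT e (bv i)) (by rw [← TT_mul, he]), ← adjoint_inner_left, p2, p1,
    norm_eq_zero.1 (pow_eq_zero_iff two_ne_zero |>.1 (z k (Finset.mem_univ _)))]
  simp

theorem erg {E E' : Type} [NormedAddCommGroup E] [InnerProductSpace ℝ E] [CompleteSpace E]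
    [NormedAddCommGroup E'] [InnerProductSpace ℝ E'] [CompleteSpace E'] (B : E →L[ℝ] E')
    (B1 : ‖B‖ ≤ 1) : ∃ q : E → E, (∀ v, B (q v) = 0) ∧ ∀ v, Tendsto (fun N =>
      birkhoffAverage ℝ ⇑((1 - adjoint B ∘L B : E →L[ℝ] E) ^ 2) _root_.id N v) atTop (𝓝 (q v)) := by
  set A := 1 - adjoint B ∘L B with hA
  have A5 : ∀ v, ‖A v‖ ^ 2 ≤ ‖v‖ ^ 2 - ‖B v‖ ^ 2 := fun v => by
    have e1 : ‖adjoint B (B v)‖ ≤ ‖B v‖ := by
      simpa using (adjoint B).le_of_opNorm_le (c := 1)
        (by rwa [LinearIsometryEquiv.norm_map]) (B v)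
    have e2 := norm_sub_sq_real v (adjoint B (B v))
    rw [adjoint_inner_right, real_inner_self_eq_norm_sq] at e2
    have e3 : ‖A v‖ = ‖v - adjoint B (B v)‖ := rfl
    have := pow_le_pow_left₀ (norm_nonneg _) e1 2
    rw [e3]
    linarith
  have A6 : ∀ v, ‖A v‖ ≤ ‖v‖ := fun v =>
    (abs_le_of_sq_le_sq' ((A5 v).trans (sub_le_self _ (by positivity))) (norm_nonneg _)).2
  have A7 : ‖A ^ 2‖ ≤ 1 := opNorm_le_bound _ zero_le_one fun v => by
    rw [one_mul, sq]; exact (A6 _).trans (A6 v)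
  refine ⟨_, fun v => ?_, tendsto_birkhoffAverage_orthogonalProjection _ A7⟩
  obtain ⟨w, f⟩ := ((A ^ 2).eqLocus (1 : E →L[ℝ] E)).orthogonalProjectionOnto v
  have f : A (A w) = w := by rw [sq] at f; exact f
  have e1 := A5 w
  have e2 := pow_le_pow_left₀ (norm_nonneg _) (A6 (A w)) 2
  rw [f] at e2
  exact norm_eq_zero.1 (pow_eq_zero_iff two_ne_zero |>.1
    (le_antisymm (by linarith) (by positivity)))

theorem tr_pow {p : EE G ι →L[ℝ] EE G ι} {B : EE G ι →L[ℝ] EE G κ} (p1 : Eq2 p) (B2 : Eq2 B)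
    (B3 : ∀ v, B (p v) = B v) (n : ℕ) :
    tr p - Fintype.card κ ≤ tr (p ∘L ((1 - adjoint B ∘L B) ^ (2 * n))) := by
  set A := 1 - adjoint B ∘L B with hA
  set A' := 1 - B ∘L adjoint B with hA'
  have A1 : Eq2 A := fun g v => by
    simp only [hA, sub_apply, map_sub, B2.adj.comp B2 g v]
    rfl
  have A2 : ∀ n : ℕ, B ∘L (A ^ n) = (A' ^ n) ∘L B := fun n => by
    induction n with
    | zero => rfl
    | succ n ih =>
      rw [pow_succ, pow_succ, mul_def, mul_def, ← comp_assoc, ih, comp_assoc, comp_assoc]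
      congr 1
      ext1 v
      simp [hA, hA']
  have A3 : ∀ n : ℕ, tr (p ∘L (A ^ n)) - tr (A' ^ n) = tr p - Fintype.card κ := fun n => by
    induction n with
    | zero => rw [pow_zero, pow_zero, tr_one]; rfl
    | succ n ih =>
      have e1 : p ∘L (A ^ (n + 1)) = p ∘L (A ^ n) - ((p ∘L (A ^ n)) ∘L adjoint B) ∘L B := by
        ext1 v
        change p ((A ^ n) (v - adjoint B (B v))) = _
        rw [map_sub, map_sub]
        rfl
      have e2 : A' ^ (n + 1) = A' ^ n - B ∘L ((p ∘L (A ^ n)) ∘L adjoint B) := by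
        ext1 v
        have := DFunLike.congr_fun (A2 n) (adjoint B v)
        change (A' ^ n) (v - B (adjoint B v)) = (A' ^ n) v - B (p ((A ^ n) (adjoint B v)))
        rw [map_sub, B3]
        exact congrArg _ this.symm
      rw [e1, e2, tr_sub, tr_sub, tr_comm ((p1.comp (A1.pow n)).comp B2.adj) B2, ← ih]
      ring
  have A4 : 0 ≤ tr (A' ^ (2 * n)) := by
    have : adjoint (A' ^ n) = A' ^ n := by
      refine (IsSelfAdjoint.pow ?_ n).adjoint_eq
      rw [isSelfAdjoint_iff', hA', map_sub, adjoint_comp, adjoint_adjoint, adjoint_one]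
    rw [two_mul, pow_add, mul_def]
    nth_rw 1 [← this]
    rw [tr_sq]
    positivity
  have := A3 (2 * n)
  linarith

theorem tr_lim {p A : EE G ι →L[ℝ] EE G ι} {q : EE G ι → EE G ι} {c : ℝ}
    (q2 : ∀ v, Tendsto (fun N => birkhoffAverage ℝ ⇑(A ^ 2) _root_.id N v) atTop (𝓝 (q v)))
    (A3 : ∀ n, c ≤ tr (p ∘L (A ^ (2 * n)))) : c ≤ ∑ i, ⟪bv i, p (q (bv i))⟫_ℝ := by
  have lim : Tendsto (fun N => ∑ i, ⟪bv i, p (birkhoffAverage ℝ ⇑(A ^ 2) _root_.id N (bv i))⟫_ℝ)
      atTop (𝓝 (∑ i, ⟪bv i, p (q (bv i))⟫_ℝ)) := tendsto_finsetSum _ fun i _ =>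
    tendsto_const_nhds.inner ((p.continuous.tendsto _).comp (q2 _))
  refine ge_of_tendsto lim ((eventually_gt_atTop 0).mono fun N hN => ?_)
  have e1 : ∑ i, ⟪bv i, p (birkhoffAverage ℝ ⇑(A ^ 2) _root_.id N (bv i))⟫_ℝ =
      (N : ℝ)⁻¹ * ∑ n ∈ Finset.range N, tr (p ∘L (A ^ (2 * n))) := by
    simp only [birkhoffAverage, birkhoffSum, map_smul, map_sum, inner_smul_right, inner_sum, tr,
      ← Finset.mul_sum, comp_apply, pow_mul, FunLike.coe_pow_eq_iterate (A ^ 2), _root_.id]
    rw [Finset.sum_comm]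
  rw [e1, le_inv_mul_iff₀ (by positivity)]
  simpa using Finset.card_nsmul_le_sum (Finset.range N) _ c fun n _ => A3 n

theorem exists_ker {e : Matrix ι ι (RG G)} (he : e * e = e) (σ : Matrix ι κ (RG G))
    (lt : (Fintype.card κ : ℝ) < e.trace.coeff 1) :
    ∃ v : EE G ι, v ≠ 0 ∧ TT e v = v ∧ TT σ v = 0 := by
  obtain ⟨p, p1, p2, p3, p4, p5⟩ := exists_pr he
  obtain ⟨c, hc⟩ : ∃ c, c = (‖TT σ ∘L p‖ + 1)⁻¹ := ⟨_, rfl⟩
  have c0 : 0 < c := by rw [hc]; positivity
  obtain ⟨B, hB⟩ : ∃ B, B = c • (TT σ ∘L p) := ⟨_, rfl⟩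
  have B0 : ∀ v, B v = c • TT σ (p v) := fun v => by rw [hB]; rfl
  have B1 : ‖B‖ ≤ 1 := by
    rw [hB, norm_smul, Real.norm_of_nonneg c0.le, hc, inv_mul_le_iff₀ (by positivity)]
    linarith
  have B2 : Eq2 B := fun g v => by rw [B0, B0, map_smul, p1, TT_eq]
  have B3 : ∀ v, B (p v) = B v := fun v => by rw [B0, B0, p4 _ (p3 v)]
  obtain ⟨q, q1, q2⟩ := erg B B1
  have lb := tr_lim q2 (tr_pow p1 B2 B3)
  obtain ⟨i, -, hi⟩ := Finset.exists_ne_zero_of_sum_ne_zero (lt_of_lt_of_le (by linarith) lb).ne'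
  refine ⟨p (q (bv i)), fun z => hi (by rw [z, inner_zero_right]), p3 _, ?_⟩
  exact (smul_eq_zero.1 ((B0 _).symm.trans (q1 (bv i)))).resolve_left c0.ne'

end

end Pool.Agent.Lib.MP_4269b5_al.Ag
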