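import Pool.Agent.Lib.MP_4269b5_al.AgTube

/-! Finite generation of the axis stabiliser. -/

set_option linter.unusedSectionVars false
set_option linter.unusedVariables false

namespace Pool.Agent.Lib.MP_4269b5_al.Ag

open Matrix

noncomputable section

variable {G : Type} [Group G] {V : Type} [AddCommGroup V] {F μ : Subgroup G}
  {D : Type} [Ring D] {J : G → D} {d : ℕ} {s : Fin d → G} {h : G → ℤ} {τ : G}

theorem Rp.nz (R : Rp F J) {f : G} (hf : f ∉ F) : J f⁻¹ = 0 :=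
  by_contra fun z => hf (by simpa using R.sp _ z)

theorem Rp.cancel (R : Rp F J) (le : μ ≤ F) {η : G → D}
    (e : ∀ m ∈ μ, ∀ f, η (f * m) = η f * J m) :
    ∀ m ∈ μ, ∀ f, η (f * m) * J (f * m)⁻¹ = η f * J f⁻¹ := fun m hm f => by
  rw [e m hm, _root_.mul_inv_rev, R.mul' _ (F.inv_mem (le hm)), mul_assoc, ← mul_assoc (J m),
    R.inv (le hm), one_mul]

theorem offdiag (hs : Subgroup.closure (Set.range s) = ⊤) (Γ : Geo s F μ h τ) (R : Rp F J)
    (fr : Fr μ J) (U : Fin 1 → G → D) (eq : Eqv μ (θr J) (act (D1 s) U)) (lf : LF h μ (spt (act (D1 s) U)))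
    (vn : ∀ i, ts μ (fun f => act (D1 s) U i f * J f⁻¹) = 0) {a0 : G} (ha0 : a0 ∈ μ)
    (inj : Function.Injective fun n : ℕ => a0 ^ n) :
    ∃ d0, Eqv μ (θr J) (U - fun _ _ => d0) := by
  classical
  have hU : ∀ m ∈ μ, ∀ g, U 0 (g * m) = U 0 g * J m + (U 0 m - U 0 1 * J m) := fun m hm g =>
    sub_eq_iff_eq_add'.1 (defect hs U eq hm g)
  set φ : G → G → D := fun a f => (U 0 (a * f) - U 0 f) * J f⁻¹ with hφ
  have f1 : ∀ a, ∀ m ∈ μ, ∀ f, φ a (f * m) = φ a f := fun a =>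
    R.cancel Γ.le (η := fun f => U 0 (a * f) - U 0 f) fun m hm f => by
      rw [← mul_assoc, hU m hm, hU m hm f, sub_mul]; abel
  have f2 : ∀ a, Sm μ (Function.support (φ a)) := fun a => (sm_diff hs Γ U lf a).mono fun f hf =>
    ⟨by_contra fun z => hf (by simp only [hφ, R.nz z, mul_zero]),
      sub_ne_zero.1 (left_ne_zero_of_mul hf)⟩
  have tr : ∀ ψ : G → D, (∀ m ∈ μ, ∀ f, ψ (f * m) = ψ f) → Sm μ (Function.support ψ) → ∀ a c,
      Sm μ (Function.support fun f => ψ (a * f) * c) ∧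
        ts μ (fun f => ψ (a * f) * c) = ts μ ψ * c := fun ψ e1 e2 a c =>
    ⟨(e2.left a).mono fun f hf => left_ne_zero_of_mul hf,
      (ts_map (AddMonoidHom.mulRight c) (φ := fun f => ψ (a * f)) (e2.left a)).trans
        (by rw [ts_left e1]; rfl)⟩
  have jj : ∀ a ∈ F, ∀ f, J (a * f)⁻¹ * J a = J f⁻¹ := fun a ha f => by
    rw [← R.mul a ha]; simp
  have f3 : ∀ k, ∀ a ∈ F, ts μ (φ (k * a)) = ts μ (φ k) * J a + ts μ (φ a) := fun k a ha => by
    rw [← (tr _ (f1 k) (f2 k) a _).2, ← ts_add (tr _ (f1 k) (f2 k) a _).1 (f2 a)]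
    congr 1
    funext f
    simp only [hφ, mul_assoc, jj a ha, sub_mul]
    abel
  have f0 : ts μ (φ 1) = 0 := by simp only [hφ, one_mul, sub_self, zero_mul, ts_zero]
  have f4 : ∀ i, ts μ (φ (s i)⁻¹) = 0 := fun i => by simpa only [act_D1] using vn i
  have f5 : ∀ a ∈ F, ts μ (φ a) = 0 := fun a ha => by
    have := Γ.gen a ha
    clear ha
    induction this with
    | refl => exact f0
    | tail _ e ih =>
      obtain ⟨x, y, ⟨i, _ | _⟩, rfl⟩ := e
      · have si : s i ∈ F := (F.mul_mem_cancel_right x).1 y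
        have := f3 (s i)⁻¹ _ si
        rw [inv_mul_cancel, f0, f4, zero_mul, zero_add] at this
        exact (f3 (s i) _ x).trans (by rw [← this, ih, zero_mul, add_zero])
      · exact (f3 (s i)⁻¹ _ x).trans (by rw [f4, ih, zero_mul, add_zero])
  set Up : G → Prop := fun f => ∃ k, ∀ g, k ≤ h g → h (g * f) < k with hUp
  have u1 : ∀ a ∈ μ, ∀ m ∈ μ, ∀ f, Up f → Up (a * f * m) := fun a ha m hm f ⟨k, hk⟩ =>
    ⟨k, fun g e => by
      rw [← mul_assoc, ← mul_assoc, Γ.hμ m hm]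
      exact hk _ (by rwa [Γ.hμ a ha])⟩
  have u2 : ∀ a ∈ μ, ∀ m ∈ μ, ∀ f, f ∈ F ∧ f ∉ μ → a * f * m ∈ F ∧ a * f * m ∉ μ :=
    fun a ha m hm f e => ⟨F.mul_mem (F.mul_mem (Γ.le ha) e.1) (Γ.le hm), fun z =>
      e.2 ((μ.mul_mem_cancel_left ha).1 ((μ.mul_mem_cancel_right hm).1 z))⟩
  obtain ⟨η1, a1, a2, a3, a4⟩ := eta hs Γ R fr U lf _ hU ha0 inj {f | (f ∈ F ∧ f ∉ μ) ∧ Up f}
    (fun f hf => hf.1.1) (fun f hf => hf.2) fun a ha m hm f hf =>
      ⟨u2 a ha m hm f hf.1, u1 a ha m hm f hf.2⟩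
  have u3 : ∀ a ∈ μ, ∀ m ∈ μ, ∀ f, ¬Up f → ¬Up (a * f * m) := fun a ha m hm f e z => e (by
    simpa [mul_assoc] using u1 _ (μ.inv_mem ha) _ (μ.inv_mem hm) _ z)
  obtain ⟨η2, b1, b2, b3, b4⟩ := eta hs Γ.neg R fr U (fun k => (lf k).mono fun g hg => ⟨hg.1, by
      have := hg.2
      simp only [mem_strip] at *
      omega⟩) _ hU ha0 inj {f | (f ∈ F ∧ f ∉ μ) ∧ ¬Up f}
    (fun f hf => hf.1.1) (fun f hf => by
      obtain ⟨k, hk⟩ := (Γ.div f hf.1.1 hf.1.2).resolve_left hf.2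
      exact ⟨-k, fun g e => by have := hk g; omega⟩) fun a ha m hm f hf =>
      ⟨u2 a ha m hm f hf.1, u3 a ha m hm f hf.2⟩
  set ψ : G → D := fun f => (η1 f + η2 f) * J f⁻¹ with hψ
  have p1 : ∀ m ∈ μ, ∀ f, ψ (f * m) = ψ f := R.cancel Γ.le (η := fun f => η1 f + η2 f)
    fun m hm f => by rw [a1 m hm, b1 m hm, add_mul]
  have p2 : Sm μ (Function.support ψ) := (a2.union b2).mono fun f hf =>
    Function.support_add η1 η2 (left_ne_zero_of_mul hf)
  refine ⟨U 0 1 + ts μ ψ, fun a ha i g => ?_⟩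
  have e : φ a = fun f => (μ : Set G).indicator (φ a) f + (ψ (a * f) * J a - ψ f) := by
    funext f
    simp only [hψ, mul_assoc, jj a (Γ.le ha), ← sub_mul]
    by_cases c : f ∈ μ
    · rw [Set.indicator_of_mem c, a3 f fun z => z.1.2 c, b3 f fun z => z.1.2 c,
        a3 _ fun z => z.1.2 (μ.mul_mem ha c), b3 _ fun z => z.1.2 (μ.mul_mem ha c), sub_self,
        zero_mul, add_zero]
    rw [Set.indicator_of_notMem c, zero_add]
    by_cases c' : f ∈ F
    swap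
    · simp only [hφ, R.nz c', mul_zero]
    simp only [hφ]
    congr 1
    by_cases u : Up f
    · rw [b3 f fun z => z.2 u, b3 _ fun z => z.2 (mul_one (a * f) ▸ u1 a ha 1 μ.one_mem f u),
        add_zero, add_zero, a4 a ha f ⟨⟨c', c⟩, u⟩]
    · rw [a3 f fun z => u z.2, a3 _ fun z => (mul_one (a * f) ▸ u3 a ha 1 μ.one_mem f u) z.2,
        zero_add, zero_add, b4 a ha f ⟨⟨c', c⟩, u⟩]
  have z := f5 a (Γ.le ha)
  rw [e, ts_add ((f2 a).mono fun f hf => by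
      simpa using (Set.indicator_apply_ne_zero.1 hf).2) (((tr _ p1 p2 a (J a)).1.union p2).mono
      (Function.support_sub _ _)), ts_sub (tr _ p1 p2 a _).1 p2, (tr _ p1 p2 a _).2,
    ts_one (fun m hm f => ?_) fun f hf => Set.mem_of_indicator_ne_zero hf,
    Set.indicator_of_mem μ.one_mem] at z
  · simp only [hφ, mul_one, inv_one, R.one] at z
    rw [Subsingleton.elim i 0]
    change U 0 (g * a) - (U 0 1 + ts μ ψ) = (U 0 g - (U 0 1 + ts μ ψ)) * J a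
    rw [hU a ha, sub_mul, add_mul, ← sub_eq_zero, ← z]
    abel
  · by_cases c : f ∈ μ
    · rw [Set.indicator_of_mem c, Set.indicator_of_mem (μ.mul_mem c hm), f1 a m hm]
    · rw [Set.indicator_of_notMem c, Set.indicator_of_notMem
        fun y => c ((μ.mul_mem_cancel_right hm).1 y)]

theorem Geo.conn' (Γ : Geo s F μ h τ) (k : ℕ) : ∃ k' : ℕ, ∀ g ∈ strip h (-k) k,
    ∀ g' ∈ strip h (-k) k, Conn s (strip h (-k') k') g g' := by
  obtain ⟨C, hC⟩ := Γ.conn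
  exact ⟨k + C, fun g hg g' hg' => (hC _ _ g hg g' hg').mono fun x hx => by
    simp only [mem_strip] at *; omega⟩

theorem Eqv.congr {ι : Type} {θ θ' : G → V →+ V} {v : ι → G → V} (e : Eqv μ θ v)
    (c : ∀ a ∈ μ, θ a = θ' a) : Eqv μ θ' v := fun a ha i g => c a ha ▸ e a ha i g

theorem LF.comb {ι σ : Type} [Fintype ι] [Fintype σ] (c : σ → D) {v : σ → ι → G → D}
    (e : ∀ l, LF h μ (spt (v l))) : LF h μ (spt (∑ l, c l • v l)) := fun k =>
  (Sm.biUnion Set.finite_univ fun l _ => e l k).mono fun g hg => by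
    obtain ⟨l, -, hl⟩ := Set.mem_iUnion₂.1 (spt_sum _ _ hg.1)
    exact Set.mem_biUnion (Set.mem_univ l) ⟨spt_smul _ _ hl, hg.2⟩

theorem Ab.comb {ι σ : Type} [Fintype ι] [Fintype σ] (c : σ → D) {v : σ → ι → G → D}
    (e : ∀ l, ∃ k, Ab h k (v l)) : ∃ k, Ab h k (∑ l, c l • v l) := by
  choose k hk using e
  obtain ⟨b, hb⟩ := (Set.finite_range k).bddBelow
  refine ⟨b, fun g hg => ?_⟩
  obtain ⟨l, -, hl⟩ := Set.mem_iUnion₂.1 (spt_sum _ _ hg)
  exact (hb ⟨l, rfl⟩).trans (hk l g (spt_smul _ _ hl))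

theorem mu_rel (hs : Subgroup.closure (Set.range s) = ⊤)
    (Γ : Geo s F μ h τ) {P : Res s} (T : Dual P) (t1 : TL P h) (t2 : TL P fun g => -h g)
    (R : Rp F J) (fr : Fr μ J) {a0 : G} (ha0 : a0 ∈ μ)
    (inj : Function.Injective fun n : ℕ => a0 ^ n) {L : Type} [Fintype L]
    (a : L → G) (ha : ∀ l, a l ∈ μ) (p : L → Fin d → ZG G)
    (hp : ∀ l, (D1 s)ᴴ *ᵥ p l = fun _ => og (a l) - og 1) :
    ∃ σ : L → Option (Fin d) → D, ∀ c : L → D, (∀ k, ∑ l, c l * σ l k = 0) → ∃ y,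
      Ind μ ((μ : Set G).indicator J) y ∧
      ∑ l, c l • vs (p l) ((μ : Set G).indicator J) = act P.D2ᴴ y := by
  have R' := R.sub Γ.le
  set J' := (μ : Set G).indicator J
  have l : Lip h := Γ.lip
  obtain ⟨Z1, tb1⟩ := tube hs Γ P t1 R'
  obtain ⟨Z2, tb2⟩ := tube hs Γ.neg P t2 R'
  choose W1 a1 a2 a3 a4 using fun l => tb1 _ (ha l) _ (hp l)
  choose W2 b1 b2 b3 b4 using fun l => tb2 _ (ha l) _ (hp l)
  have b2' : ∀ l, LF h μ (spt (W2 l)) := fun l k => (b2 l k).mono fun g hg => ⟨hg.1, by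
    have := hg.2
    simp only [mem_strip] at *
    omega⟩
  have w1 : ∀ j, LF h μ (spt (op P.w T.ρ2 (W1 j - W2 j))) := fun j =>
    ((((a2 j).union (b2' j)).mono (spt_sub _ _)).nb l _).mono (spt_op _ _ _)
  refine ⟨fun l o => o.elim (J' (a l)⁻¹ - 1)
    fun i => ts μ fun f => op P.w T.ρ2 (W1 l - W2 l) i f * tJ P.w J f⁻¹, fun c hc => ?_⟩
  set z := ∑ l, c l • vs (p l) J' with hz
  have bd : ∀ (W : _ → Fin P.m → G → D) (Z : Fin d → G → D),
      (∀ l, act P.D2ᴴ (W l) = vs (p l) J' + (J' (a l)⁻¹ - 1) • Z) →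
      act P.D2ᴴ (∑ l, c l • W l) = z := fun W Z e => by
    simp only [act_comb, e, smul_add, Finset.sum_add_distrib, smul_smul, ← Finset.sum_smul]
    rw [show ∑ l, c l * (J' (a l)⁻¹ - 1) = 0 from hc none, zero_smul, add_zero]
  set X1 := ∑ l, c l • W1 l with hX1
  set X2 := ∑ l, c l • W2 l with hX2
  have x1 : act P.D2ᴴ X1 = z := bd _ _ a4
  have x2 : act P.D2ᴴ X2 = z := bd _ _ b4
  have e1 : Eqv μ (θr (tJ P.w J')) (op P.w T.ρ2 X1) :=
    tθ_r P.w J' ▸ (Eqv.sum _ fun l => (a1 l).smul _).op _ _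
  have e2 : Eqv μ (θr (tJ P.w J')) (op P.w T.ρ2 X2) :=
    tθ_r P.w J' ▸ (Eqv.sum _ fun l => (b1 l).smul _).op _ _
  have cg : ∀ m ∈ μ, θr (tJ P.w J') m = θr (tJ P.w J) m := fun m hm => by
    simp only [θr, tJ, J', Set.indicator_of_mem hm]
  obtain ⟨U, hU⟩ := prim hs P (op P.w T.ρ2 X1 - op P.w T.ρ2 X2) (by
    rw [act_sub', ← T.r1, ← T.r1, x1, x2, sub_self])
  have hU' : act (D1 s) U = ∑ l, c l • op P.w T.ρ2 (W1 l - W2 l) := by
    simp only [hU, hX1, hX2, op_comb, op_sub', smul_sub, Finset.sum_sub_distrib]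
  have lf : LF h μ (spt (act (D1 s) U)) := by rw [hU']; exact LF.comb c w1
  obtain ⟨d0, u1⟩ := offdiag hs Γ (R.tJ P.w) (fr.tJ P.w) U (by rw [hU]; exact (e1.sub e2).congr cg) lf
    (fun i => by
      have sp : ∀ j, Sm μ (Function.support fun f =>
          op P.w T.ρ2 (W1 j - W2 j) i f * tJ P.w J f⁻¹) := fun j => (w1 j 0).mono fun f hf =>
        ⟨⟨i, left_ne_zero_of_mul hf⟩, by
          rw [mem_strip, Γ.hF f (by simpa using (R.tJ P.w).sp _ (right_ne_zero_of_mul hf))]; simp⟩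
      rw [← hc (some i)]
      simp only [hU', comb_apply, Finset.sum_mul, mul_assoc]
      rw [ts_sum _ _ fun j _ => (sp j).mono fun f hf => right_ne_zero_of_mul hf]
      exact Finset.sum_congr rfl fun j _ => ts_map (AddMonoidHom.mulLeft (c j)) (sp j)) ha0 inj
  set u := U - fun _ _ => d0
  have hu : act (D1 s) u = act (D1 s) U := by rw [act_sub', act_const, sub_zero]
  have u2 := u1.congr fun m hm => (cg m hm).symm
  have u3 : LF h μ (spt u) := comp Γ.hμ l (oe_of T l t1 t2 Γ.conn') Γ.conn'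
    ((Set.infinite_range_of_injective inj).mono (by
      rintro _ ⟨n, rfl⟩
      rw [mem_strip, Γ.hF _ (Γ.le (μ.pow_mem ha0 n))]
      simp)) ha0 (fun e => by simpa [e] using inj (a₁ := 0) (a₂ := 1)) (fr.sub.tJ P.w).free u u2
    (hu ▸ lf)
  set y := op P.w T.ρ2 X1 - act (D1 s) (cut {g | 0 ≤ h g} u) with hy
  have hy' : y = op P.w T.ρ2 X2 + act (D1 s) (cut {g | 0 ≤ h g}ᶜ u) := by
    rw [hy, sub_eq_iff_eq_add, add_assoc, ← act_add', add_comm (cut _ u), cut_add_cut, hu, hU,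
      add_sub_cancel]
  obtain ⟨k1, q1⟩ := Ab.comb c a3
  obtain ⟨k2, q2⟩ := Ab.comb c b3
  obtain ⟨C1, o1⟩ := l.op P.w T.ρ2
  obtain ⟨C2, o2⟩ := l.neg.op P.w T.ρ2
  obtain ⟨C3, o3⟩ := l.act (D1 s)
  obtain ⟨C4, o4⟩ := l.neg.act (D1 s)
  have y1 : Ab h (min (k1 - C1) (0 - C3)) y := ((o1 _ _ _ q1).mono (min_le_left _ _)).sub
    ((o3 _ _ _ fun g hg => (spt_cut _ _ hg).1).mono (min_le_right _ _))
  have y2 : Ab (fun g => -h g) (min (k2 - C2) (0 - C4)) y := by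
    rw [hy']
    refine ((o2 _ _ _ q2).mono (min_le_left _ _)).add
      ((o4 _ _ _ fun g hg => ?_).mono (min_le_right _ _))
    have : ¬0 ≤ h g := (spt_cut _ _ hg).1
    beta_reduce
    omega
  have y3 : Ind μ (tJ P.w J') y := ⟨e1.sub ((u2.cut fun a ha g => by
      simp only [Set.mem_ofPred_eq, Γ.hμ a ha]).act _),
    (((((LF.comb c a2).nb l _).mono (spt_op _ _ _)).union (((u3.mono ((spt_cut _ _).trans
      Set.inter_subset_right)).nb l _).mono (spt_act _ _))).mono (spt_sub _ _)).sm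
      (k := min (k1 - C1) (0 - C3)) (l := -min (k2 - C2) (0 - C4)) fun g hg =>
        ⟨y1 g hg, le_neg.1 (y2 g hg)⟩⟩
  have z1 : Ind μ J' z := Ind.sum _ fun l => (R'.ind _).smul _
  refine ⟨op P.w T.κ2 y + act T.H1 z, Ind.add ?_ (z1.act _), ?_⟩
  · simpa only [tJ_tJ] using y3.op P.w T.κ2
  · have := T.id1 z
    rw [act_add', ← T.k1, hy, act_sub', d2d1, sub_zero, ← T.r1, x1]
    nth_rw 4 [← x1] at this
    rwa [d1d2', act_zero', add_zero] at this

theorem fg_of (B : Finset G) (e : ∀ a ∈ μ, ∃ q, (D1 s)ᴴ *ᵥ q = (fun _ => og a - og 1) ∧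
    ∀ g ∈ spt (co q), ∃ b ∈ B, b⁻¹ * g ∈ μ) : μ.FG := by
  classical
  obtain ⟨m, m0, m1, m2⟩ := exists_m μ
  set S := (Finset.univ ×ˢ B).image fun x : Fin d × G => m ((s x.1)⁻¹ * x.2) * (m x.2)⁻¹
  refine ⟨S, le_antisymm ((Subgroup.closure_le _).2 fun x hx => ?_) fun a ha => ?_⟩
  · obtain ⟨x, -, rfl⟩ := Finset.mem_image.1 hx
    exact μ.mul_mem (m1 _) (μ.inv_mem (m1 _))
  obtain ⟨q, q1, q2⟩ := e a ha
  have := pair_d1 (ind {g | m g ∈ Subgroup.closure (S : Set G)}) q1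
  rw [pair_zero'] at this
  · by_contra c
    have ma : m a = a := by simpa [m0] using m2 a ha 1
    simp [ind, Set.indicator, ma, m0, c] at this
  · rintro g hg ⟨i, hi⟩
    refine hi ?_
    obtain ⟨b, b1, b2⟩ := q2 g hg
    have k : m ((s i)⁻¹ * b) * (m b)⁻¹ ∈ Subgroup.closure (S : Set G) := Subgroup.subset_closure
      (Finset.mem_image.2 ⟨(i, b), by simpa using b1, rfl⟩)
    have e1 := m2 _ b2 b
    have e2 := m2 _ b2 ((s i)⁻¹ * b)
    rw [mul_inv_cancel_left] at e1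
    rw [mul_assoc, mul_inv_cancel_left] at e2
    have e3 : m ((s i)⁻¹ * g) = m ((s i)⁻¹ * b) * (m b)⁻¹ * m g := by rw [e1, e2]; group
    rw [act_D1, sub_eq_zero]
    simp only [ind, Set.indicator, Set.mem_ofPred_eq, e3, Subgroup.mul_mem_cancel_left _ k,
      Pi.one_apply]

theorem Rp.inj [Nontrivial D] (R : Rp F J) (reg : Reg J) {a : G} (ha : a ∈ F) (ne : a ≠ 1) :
    Function.Injective fun n : ℕ => a ^ n := by
  classical
  rw [injective_pow_iff_not_isOfFinOrder, isOfFinOrder_iff_pow_eq_one]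
  rintro ⟨n, hn, e⟩
  have z := (R.fr reg).free a ha ne (∑ j ∈ Finset.range n, J (a ^ j)) (by
    change _ * J a = _
    have := (Finset.sum_range_succ (fun j => J (a ^ j)) n).symm.trans
      (Finset.sum_range_succ' _ n)
    rw [e, pow_zero, add_left_inj] at this
    rw [Finset.sum_mul]
    simp only [← R.mul a ha, ← pow_succ]
    exact this.symm)
  refine one_ne_zero (reg (∑ j ∈ Finset.range n, og (a ^ j)⁻¹) 1 ?_ 1 ?_)
  · have : (∑ j ∈ Finset.range n, og (a ^ j)⁻¹ : ZG G).coeff 1 =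
        ∑ j ∈ Finset.range n, (og (a ^ j)⁻¹ : ZG G).coeff 1 :=
      map_sum (AddMonoidHom.mk' (fun z : ZG G => z.coeff 1) fun _ _ => rfl) _ _
    rw [this]
    refine (Finset.sum_pos' (fun j _ => ?_) ⟨0, by simpa using hn, ?_⟩).ne'
    · rw [coeff_og]; split_ifs <;> simp
    · rw [coeff_og]; simp
  · rw [one_mul, sm_sum, Finset.sum_apply, ← z]
    simp [sm_og]

theorem fg_sm (Γ : Geo s F μ h τ) (e : Sm μ (F : Set G)) : μ.FG := by
  obtain ⟨B, hB⟩ := e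
  exact fg_of (s := s) B fun a ha => (Γ.gen a (Γ.le ha)).path.imp fun q e =>
    ⟨e.1, fun g hg => hB g (e.2 hg)⟩

theorem main [StrongRankCondition D] (hs : Subgroup.closure (Set.range s) = ⊤) (P : Res s)
    (Γ : Geo s F μ h τ) (wall : Wall F h) (R : Rp F J) (reg : Reg J) : μ.FG := by
  have := nontrivial_of_invariantBasisNumber D
  obtain ⟨T⟩ := exists_dual hs P
  rcases μ.bot_or_exists_ne_one with rfl | ⟨a0, ha0, ne⟩
  · exact ⟨∅, by simp⟩
  by_cases inf : Sm μ (F : Set G)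
  · exact fg_sm Γ inf
  have fp : FP2 P F := fp2 hs T R reg Γ.gen (fun z => by
    obtain ⟨C, hC⟩ := Γ.sm z
    have := hC (τ ^ (C + 1 : ℤ)) trivial
    rw [Γ.hz1] at this
    omega) (Γ.le ha0) ne
  have t1 := tl_up Γ P (fp.fph Γ) wall
  have t2 := tl_down Γ P (fp.fph Γ) wall
  obtain ⟨r, r1, r2, r3⟩ := proj1 hs Γ T t1 t2 inf
  choose p hp _ using fun a => (conn_univ hs 1 a).path
  have R' := R.sub Γ.le
  obtain ⟨B, hB⟩ := pf R' (reg.sub μ) (fun a : μ => pair (p a) r) _ fun f => by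
    obtain ⟨σ, hσ⟩ := mu_rel hs Γ T t1 t2 R ((R.fr reg).mono Γ.le) ha0 (R.inj reg (Γ.le ha0) ne)
      (fun l => f l) (fun l => (f l).2) (fun l => p (f l)) fun l => hp _
    obtain ⟨c, c0, hc⟩ := exists_dep _ σ
    obtain ⟨y, y1, y2⟩ := hσ c hc
    exact ⟨c, c0, by rw [← xt_comb R' r1, y2, xt_kill R' r1 _ r3 y1]⟩
  exact fg_of (s := s) B fun a ha => ⟨pair (p a) r, (r2 _).trans (hp a), fun g hg =>
    hB g (Set.mem_iUnion.2 ⟨⟨a, ha⟩, hg⟩)⟩

end

end Pool.Agent.Lib.MP_4269b5_al.Ag
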