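import Pool.Agent.Lib.MP_4269b5_al.AgFun

/-! Duality data on the Cayley complex. -/

set_option linter.unusedSectionVars false
set_option linter.unusedVariables false

namespace Pool.Agent.Lib.MP_4269b5_al.Ag

open Matrix CategoryTheory

noncomputable section

section Step

variable {R : Type} [Ring R]

/-- an endomorphism factors through a projective module -/
def FP {M : Type} [AddCommGroup M] [Module R M] (f : M →ₗ[R] M) : Prop :=
  ∃ (T : Type) (_ : AddCommGroup T) (_ : Module R T) (_ : Module.Projective R T)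
    (u : M →ₗ[R] T) (v : T →ₗ[R] M), f = v ∘ₗ u

variable {M M' C C' K K' : Type} [AddCommGroup M] [AddCommGroup M'] [AddCommGroup C]
  [AddCommGroup C'] [AddCommGroup K] [AddCommGroup K'] [Module R M] [Module R M'] [Module R C]
  [Module R C'] [Module R K] [Module R K']

/-- a short exact sequence -/
structure SES (i : K →ₗ[R] C) (p : C →ₗ[R] M) : Prop where
  inj : Function.Injective i
  surj : Function.Surjective p
  ex : ∀ x, p x = 0 ↔ ∃ k, i k = x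

theorem SES.fac {i : K →ₗ[R] C} {p : C →ₗ[R] M} (h : SES i p) {N : Type} [AddCommGroup N]
    [Module R N] (f : N →ₗ[R] C) (hf : ∀ x, p (f x) = 0) : ∃ g : N →ₗ[R] K, ∀ x, i (g x) = f x := by
  choose g hg using fun x => (h.ex _).1 (hf x)
  exact ⟨⟨⟨g, fun x y => h.inj (by rw [map_add, hg, hg, hg, map_add])⟩,
    fun r x => h.inj (by simp [hg])⟩, hg⟩

theorem step_half {i : K →ₗ[R] C} {p : C →ₗ[R] M} (h : SES i p) {i' : K' →ₗ[R] C'}
    {p' : C' →ₗ[R] M'} (h' : SES i' p') {a : M →ₗ[R] M'} {b : M' →ₗ[R] M}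
    (f : FP (LinearMap.id - b ∘ₗ a)) {a1 : C →ₗ[R] C'} {b1 : C' →ₗ[R] C}
    (ha : ∀ x, p' (a1 x) = a (p x)) (hb : ∀ x, p (b1 x) = b (p' x)) {a2 : K →ₗ[R] K'}
    {b2 : K' →ₗ[R] K} (ha2 : ∀ x, i' (a2 x) = a1 (i x)) (hb2 : ∀ x, i (b2 x) = b1 (i' x)) :
    ∃ k : C →ₗ[R] K, ∀ x, x = b2 (a2 x) + k (i x) := by
  obtain ⟨T, _, _, _, u, v, e⟩ := f
  obtain ⟨v', hv⟩ := Module.projective_lifting_property p v h.surj
  obtain ⟨k, hk⟩ := h.fac (LinearMap.id - b1 ∘ₗ a1 - v' ∘ₗ u ∘ₗ p) fun x => by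
    have e1 := DFunLike.congr_fun e (p x)
    have e2 := DFunLike.congr_fun hv (u (p x))
    simp only [LinearMap.sub_apply, LinearMap.comp_apply, LinearMap.id_apply, map_sub] at e1 e2 ⊢
    rw [hb, ha, e1, e2, sub_self]
  refine ⟨k, fun x => h.inj ?_⟩
  have z : p (i x) = 0 := (h.ex _).2 ⟨x, rfl⟩
  rw [map_add, hk, hb2, ha2]
  simp [z]

/-- comparison of two kernels -/
def Cmp (i : K →ₗ[R] C) (i' : K' →ₗ[R] C') : Prop :=
  ∃ (a1 : C →ₗ[R] C') (b1 : C' →ₗ[R] C) (a2 : K →ₗ[R] K') (b2 : K' →ₗ[R] K) (k : C →ₗ[R] K)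
    (k' : C' →ₗ[R] K'), (∀ x, i' (a2 x) = a1 (i x)) ∧ (∀ x, i (b2 x) = b1 (i' x)) ∧
    (∀ x, x = b2 (a2 x) + k (i x)) ∧ ∀ x, x = a2 (b2 x) + k' (i' x)

/-- stable equivalence -/
def SE (R M M' : Type) [Ring R] [AddCommGroup M] [AddCommGroup M'] [Module R M] [Module R M'] :
    Prop :=
  ∃ (a : M →ₗ[R] M') (b : M' →ₗ[R] M), FP (LinearMap.id - b ∘ₗ a) ∧ FP (LinearMap.id - a ∘ₗ b)

theorem step [Module.Projective R C] [Module.Projective R C'] {i : K →ₗ[R] C} {p : C →ₗ[R] M}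
    (h : SES i p) {i' : K' →ₗ[R] C'} {p' : C' →ₗ[R] M'} (h' : SES i' p') (e : SE R M M') :
    Cmp i i' := by
  obtain ⟨a, b, f, f'⟩ := e
  obtain ⟨a1, ha⟩ := Module.projective_lifting_property p' (a ∘ₗ p) h'.surj
  obtain ⟨b1, hb⟩ := Module.projective_lifting_property p (b ∘ₗ p') h.surj
  have ha := fun x => DFunLike.congr_fun ha x
  have hb := fun x => DFunLike.congr_fun hb x
  obtain ⟨a2, ha2⟩ := h'.fac (a1 ∘ₗ i) fun x =>
    (ha _).trans (by rw [LinearMap.comp_apply, (h.ex _).2 ⟨x, rfl⟩, map_zero])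
  obtain ⟨b2, hb2⟩ := h.fac (b1 ∘ₗ i') fun x =>
    (hb _).trans (by rw [LinearMap.comp_apply, (h'.ex _).2 ⟨x, rfl⟩, map_zero])
  obtain ⟨k, hk⟩ := step_half h h' f ha hb ha2 hb2
  obtain ⟨k', hk'⟩ := step_half h' h f' hb ha hb2 ha2
  exact ⟨a1, b1, a2, b2, k, k', ha2, hb2, hk, hk'⟩

variable {i : K →ₗ[R] C} {i' : K' →ₗ[R] C'}

theorem Cmp.se [Module.Projective R C] [Module.Projective R C'] (h : Cmp i i') : SE R K K' := by
  obtain ⟨a1, b1, a2, b2, k, k', -, -, h1, h2⟩ := h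
  exact ⟨a2, b2, ⟨C, _, _, inferInstance, i, k, LinearMap.ext fun x => sub_eq_of_eq_add' (h1 x)⟩,
    ⟨C', _, _, inferInstance, i', k', LinearMap.ext fun x => sub_eq_of_eq_add' (h2 x)⟩⟩

theorem Cmp.fin [Module.Finite R C] [Module.Finite R K'] (h : Cmp i i') : Module.Finite R K := by
  obtain ⟨a1, b1, a2, b2, k, k', -, -, h1, h2⟩ := h
  exact Module.Finite.of_surjective (b2.coprod k) fun x => ⟨(a2 x, i x), (h1 x).symm⟩

theorem Cmp.proj [Module.Projective R C] [Module.Projective R K'] (h : Cmp i i') :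
    Module.Projective R K := by
  obtain ⟨a1, b1, a2, b2, k, k', -, -, h1, h2⟩ := h
  exact Module.Projective.of_split (a2.prod i) (b2.coprod k) (LinearMap.ext fun x => (h1 x).symm)

theorem Cmp.ext (h : Cmp i i') (e : ∀ c : K' →ₗ[R] R, ∃ c' : C' →ₗ[R] R, c' ∘ₗ i' = c)
    (c : K →ₗ[R] R) : ∃ c' : C →ₗ[R] R, c' ∘ₗ i = c := by
  obtain ⟨a1, b1, a2, b2, k, k', ha, hb, h1, h2⟩ := h
  obtain ⟨c', hc⟩ := e (c ∘ₗ b2)
  refine ⟨c' ∘ₗ a1 + c ∘ₗ k, LinearMap.ext fun x => ?_⟩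
  have := DFunLike.congr_fun hc (a2 x)
  simp only [LinearMap.comp_apply, LinearMap.add_apply] at this ⊢
  rw [← ha, this, ← map_add, ← h1]

theorem Cmp.top (h : Cmp i i') (v : (K' →ₗ[R] R) →+ ℤ) (v1 : ∃ c, v c = 1)
    (v2 : ∀ c, v c = 0 ↔ ∃ c', c' ∘ₗ i' = c) :
    ∃ u : (K →ₗ[R] R) →+ ℤ, (∃ c, u c = 1) ∧ ∀ c, u c = 0 ↔ ∃ c', c' ∘ₗ i = c := by
  obtain ⟨a1, b1, a2, b2, k, k', ha, hb, h1, h2⟩ := h
  refine ⟨AddMonoidHom.mk' (fun c => v (c ∘ₗ b2)) fun c c' => by rw [LinearMap.add_comp, map_add],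
    ?_, fun c => (v2 _).trans ⟨fun ⟨c', hc⟩ => ?_, fun ⟨c', hc⟩ => ?_⟩⟩
  · obtain ⟨c, hc⟩ := v1
    refine ⟨c ∘ₗ a2, ?_⟩
    have z := (v2 ((c ∘ₗ k') ∘ₗ i')).2 ⟨_, rfl⟩
    have e : c = (c ∘ₗ a2) ∘ₗ b2 + (c ∘ₗ k') ∘ₗ i' := LinearMap.ext fun x => by
      simp only [LinearMap.comp_apply, LinearMap.add_apply]
      rw [← map_add, ← h2]
    rw [e, map_add, z, add_zero] at hc
    exact hc
  · refine ⟨c' ∘ₗ a1 + c ∘ₗ k, LinearMap.ext fun x => ?_⟩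
    have := DFunLike.congr_fun hc (a2 x)
    simp only [LinearMap.comp_apply, LinearMap.add_apply] at this ⊢
    rw [← ha, this, ← map_add, ← h1]
  · exact ⟨c' ∘ₗ b1, LinearMap.ext fun x => by
      rw [← hc]; simp only [LinearMap.comp_apply, hb]⟩

theorem ses_range {Q0 Q1 Q2 : Type} [AddCommGroup Q0] [AddCommGroup Q1] [AddCommGroup Q2]
    [Module R Q0] [Module R Q1] [Module R Q2] (d0 : Q1 →ₗ[R] Q0) (d1 : Q2 →ₗ[R] Q1)
    (dd : ∀ y, d0 (d1 y) = 0) (ex : ∀ x, d0 x = 0 → ∃ y, d1 y = x) :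
    SES (LinearMap.range d1).subtype d0.rangeRestrict :=
  ⟨Subtype.val_injective, d0.surjective_rangeRestrict, fun x =>
    ⟨fun h => ⟨⟨x, ex x (congrArg Subtype.val h)⟩, rfl⟩, by
      rintro ⟨⟨_, y, rfl⟩, rfl⟩
      exact Subtype.ext (dd y)⟩⟩

theorem ext_range {Q0 Q1 Q2 : Type} [AddCommGroup Q0] [AddCommGroup Q1] [AddCommGroup Q2]
    [Module R Q0] [Module R Q1] [Module R Q2] (d0 : Q1 →ₗ[R] Q0) (d1 : Q2 →ₗ[R] Q1)
    (dd : ∀ y, d0 (d1 y) = 0)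
    (coh : ∀ c : Q1 →ₗ[R] R, c ∘ₗ d1 = 0 → ∃ c', c' ∘ₗ d0 = c) (c : LinearMap.range d0 →ₗ[R] R) :
    ∃ c' : Q0 →ₗ[R] R, c' ∘ₗ (LinearMap.range d0).subtype = c := by
  obtain ⟨c', hc⟩ := coh (c ∘ₗ d0.rangeRestrict) (LinearMap.ext fun y => by
    have : d0.rangeRestrict (d1 y) = 0 := Subtype.ext (dd y)
    simp [this])
  refine ⟨c', LinearMap.ext ?_⟩
  rintro ⟨_, y, rfl⟩
  exact DFunLike.congr_fun hc y

end Step

variable {G : Type} [Group G]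

/-- module form of the duality hypothesis -/
def ModData (G : Type) [Group G] : Prop :=
  ∃ (Q : ℕ → Type) (_ : ∀ i, AddCommGroup (Q i)) (_ : ∀ i, Module (ZG G) (Q i))
    (_ : ∀ i, Module.Finite (ZG G) (Q i)) (_ : ∀ i, Module.Projective (ZG G) (Q i))
    (d : ∀ i, Q (i + 1) →ₗ[ZG G] Q i) (π : Q 0 →+ ℤ)
    (v : (LinearMap.range (d 2) →ₗ[ZG G] ZG G) →+ ℤ),
    (∀ i y, d i (d (i + 1) y) = 0) ∧ (∀ i x, d i x = 0 → ∃ y, d (i + 1) y = x) ∧
    Module.Projective (ZG G) (LinearMap.range (d 2)) ∧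
    (∀ i, i ≠ 2 → ∀ c : Q (i + 1) →ₗ[ZG G] ZG G, c ∘ₗ d (i + 1) = 0 → ∃ c', c' ∘ₗ d i = c) ∧
    (∀ (g : G) x, π (og g • x) = π x) ∧ (∃ x, π x = 1) ∧ (∀ y, π (d 0 y) = 0) ∧
    (∀ x, π x = 0 → ∃ y, d 0 y = x) ∧ (∃ c, v c = 1) ∧
    ∀ c, v c = 0 ↔ ∃ c', c' ∘ₗ (LinearMap.range (d 2)).subtype = c

theorem many' (Q : ℕ → Type) [∀ i, AddCommGroup (Q i)] [∀ i, Module (ZG G) (Q i)]
    [∀ i, Module.Finite (ZG G) (Q i)] [∀ i, Module.Projective (ZG G) (Q i)]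
    (d : ∀ i, Q (i + 1) →ₗ[ZG G] Q i) (dd : ∀ i y, d i (d (i + 1) y) = 0)
    (ex : ∀ i x, d i x = 0 → ∃ y, d (i + 1) y = x) (N : ℕ) (hN : ∀ i, N < i → Subsingleton (Q i))
    (coh : ∀ i, i ≠ 2 → ∀ c : Q (i + 1) →ₗ[ZG G] ZG G, c ∘ₗ d (i + 1) = 0 →
      ∃ c', c' ∘ₗ d i = c)
    (π : Q 0 →+ ℤ) (π1 : ∀ (g : G) x, π (og g • x) = π x)
    (π2 : ∃ x, π x = 1) (π3 : ∀ y, π (d 0 y) = 0) (ex0 : ∀ x, π x = 0 → ∃ y, d 0 y = x)
    (v : (Q 3 →ₗ[ZG G] ZG G) → ℤ)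
    (v0 : ∀ c c', c ∘ₗ d 3 = 0 → c' ∘ₗ d 3 = 0 → v (c + c') = v c + v c')
    (v1 : ∃ c, c ∘ₗ d 3 = 0 ∧ v c = 1)
    (v2 : ∀ c, c ∘ₗ d 3 = 0 → (v c = 0 ↔ ∃ c', c' ∘ₗ d 2 = c)) : ModData G := by
  have := range_projective Q d dd ex N hN (fun i hi => coh i (by omega)) 2 le_rfl
  have z : ∀ c : LinearMap.range (d 2) →ₗ[ZG G] ZG G, (c ∘ₗ (d 2).rangeRestrict) ∘ₗ d 3 = 0 :=
    fun c => LinearMap.ext fun y => by
      have : (d 2).rangeRestrict (d 3 y) = 0 := Subtype.ext (dd 2 y)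
      simp [this]
  refine ⟨Q, _, _, inferInstance, inferInstance, d, π,
    (AddMonoidHom.mk' (fun c => v (c ∘ₗ (d 2).rangeRestrict)) fun c c' => ?_), dd, ex, this, coh,
    π1, π2, π3, ex0, ?_, fun c => ?_⟩
  · rw [LinearMap.add_comp, v0 _ _ (z c) (z c')]
  · obtain ⟨c, h1, h2⟩ := v1
    have le : LinearMap.ker (d 2) ≤ LinearMap.ker c := fun x hx => by
      obtain ⟨y, rfl⟩ := ex 2 x hx
      exact DFunLike.congr_fun h1 y
    refine ⟨((LinearMap.ker (d 2)).liftQ c le) ∘ₗ (d 2).quotKerEquivRange.symm.toLinearMap, ?_⟩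
    rw [← h2]
    refine congrArg v (LinearMap.ext fun y => ?_)
    have := (d 2).quotKerEquivRange_symm_apply_image y ⟨y, rfl⟩
    exact congrArg ((LinearMap.ker (d 2)).liftQ c le) this
  · refine (v2 _ (z c)).trans (exists_congr fun c' => ⟨fun h => ?_, fun h => ?_⟩)
    · ext ⟨_, y, rfl⟩
      exact congrArg (fun a : ZG G => a.coeff _) (DFunLike.congr_fun h y)
    · rw [← h]; rfl

theorem modData (P : ProjectiveResolution (Rep.trivial ℤ G ℤ))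
    (hN : ∃ N : ℕ, ∀ i, N < i → Limits.IsZero (P.complex.X i))
    (fin : ∀ i, Module.Finite (ZG G) (Md (P.complex.X i)))
    (h0 : ∀ i : ℕ, i ≠ 3 → Subsingleton (groupCohomology (Rep.ofMulAction ℤ G G) i))
    (h3 : Nonempty (groupCohomology (Rep.ofMulAction ℤ G G) 3 ≃+ ℤ)) : ModData G := by
  obtain ⟨N, hN⟩ := hN
  obtain ⟨e⟩ := h3
  have proj : ∀ i, Module.Projective (ZG G) (Md (P.complex.X i)) := fun i =>
    (IsProjective.iff_projective _).2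
      ((Rep.equivalenceModuleMonoidAlgebra.map_projective_iff (P.complex.X i)).2 inferInstance)
  set K := P.complex.linearYonedaObj ℤ (Rep.ofMulAction ℤ G G)
  have iso := fun i => groupCohomologyIso (Rep.ofMulAction ℤ G G) i P
  have cz : ∀ i (f : P.complex.X (i + 1) ⟶ Rep.ofMulAction ℤ G G),
      (K.d (i + 1) (i + 2)).hom f = 0 ↔ toF f ∘ₗ toL (P.complex.d (i + 2) (i + 1)) = 0 :=
    fun i f => ⟨fun h => congrArg toF h, fun h => toF_inj h⟩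
  have cb : ∀ i (f : P.complex.X (i + 1) ⟶ Rep.ofMulAction ℤ G G),
      (∃ f', (K.d i (i + 1)).hom f' = f) ↔ ∃ c', c' ∘ₗ toL (P.complex.d (i + 1) i) = toF f :=
    fun i f => ⟨fun ⟨f', h⟩ => ⟨toF f', congrArg toF h⟩, fun ⟨c', h⟩ => by
      obtain ⟨f', rfl⟩ := toF_surj c'
      exact ⟨f', toF_inj h⟩⟩
  choose ofF hF using fun c => toF_surj (A := P.complex.X 3) c
  set S := K.sc' 2 3 4
  set φ : S.moduleCatLeftHomologyData.H ≅ groupCohomology (Rep.ofMulAction ℤ G G) 3 :=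
    S.moduleCatHomologyIso.symm ≪≫ (K.homologyIsoSc' 2 3 4 (by simp) (by simp)).symm ≪≫
      (iso 3).symm
  set ψ : LinearMap.ker S.g.hom →+ ℤ := e.toAddMonoidHom.comp
    (φ.hom.hom ∘ₗ (LinearMap.range S.moduleCatToCycles).mkQ).toAddMonoidHom
  have ψ1 : Function.Surjective ψ :=
    e.surjective.comp (φ.toLinearEquiv.surjective.comp (Submodule.mkQ_surjective _))
  have ψ2 : ∀ x, ψ x = 0 ↔ ∃ y, S.f.hom y = x.1 := fun x => by
    have : ψ x = e (φ.toLinearEquiv ((LinearMap.range S.moduleCatToCycles).mkQ x)) := rfl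
    rw [this, map_eq_zero_iff _ e.injective, map_eq_zero_iff _ φ.toLinearEquiv.injective]
    refine (Submodule.Quotient.mk_eq_zero _).trans (exists_congr fun y => Subtype.ext_iff)
  classical
  refine many' (fun i => Md (P.complex.X i)) (fun i => toL (P.complex.d (i + 1) i))
    (fun i y => ?_) (fun i x hx => exact_apply _ (P.exact_succ i) x hx) N (fun i hi => ?_)
    (fun i hi c hc => ?_) (toL (P.π.f 0)).toAddMonoidHom (fun g x => ?_) ?_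
    (fun y => ?_) (fun x hx => exact_apply _ P.exact₀ x hx)
    (fun c => if h : c ∘ₗ toL (P.complex.d 4 3) = 0 then
      ψ ⟨ofF c, (cz 2 _).2 (by rwa [hF])⟩ else 0) (fun c c' a b => ?_) ?_ fun c a => ?_
  · exact congrArg (fun f => toL f y) (P.complex.d_comp_d (i + 2) (i + 1) i)
  · exact ModuleCat.isZero_iff_subsingleton.1
      (Rep.toModuleMonoidAlgebra.map_isZero (hN i hi))
  · obtain ⟨f, rfl⟩ := toF_surj c
    have z : Limits.IsZero (K.homology (i + 1)) :=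
      (ModuleCat.isZero_iff_subsingleton.2 (h0 (i + 1) (by omega))).of_iso (iso _).symm
    have ex := (K.exactAt_iff' i (i + 1) (i + 2) (by simp) (by simp)).1
      ((K.exactAt_iff_isZero_homology _).2 z)
    exact (cb i f).1 ((ShortComplex.moduleCat_exact_iff _).1 ex f ((cz i f).2 hc))
  · rw [og_smul]
    exact Rep.hom_comm_apply (P.π.f 0) g x
  · exact (ModuleCat.epi_iff_surjective (Rep.toModuleMonoidAlgebra.map (P.π.f 0))).1
      inferInstance (1 : ℤ)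
  · exact congrArg (fun f => toL f y) P.complex_d_comp_π_f_zero
  · have ab : (c + c') ∘ₗ toL (P.complex.d 4 3) = 0 := by rw [LinearMap.add_comp, a, b, add_zero]
    rw [dif_pos a, dif_pos b, dif_pos ab, ← map_add]
    refine congrArg ψ (Subtype.ext (toF_inj ?_))
    rw [hF]
    conv_lhs => rw [← hF c, ← hF c']
    rfl
  · obtain ⟨x, hx⟩ := ψ1 1
    have a := (cz 2 x.1).1 x.2
    refine ⟨toF x.1, a, ?_⟩
    rw [dif_pos a, ← hx]
    exact congrArg ψ (Subtype.ext (toF_inj (hF _)))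
  · rw [dif_pos a, ψ2]
    refine (cb 2 _).trans ?_
    rw [hF]

end

end Pool.Agent.Lib.MP_4269b5_al.Ag
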