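import Pool.Agent.Lib.MP_4269b5_al.AgPD

/-! Duality data on the Cayley complex in matrix form. -/

set_option linter.unusedSectionVars false
set_option linter.unusedVariables false

namespace Pool.Agent.Lib.MP_4269b5_al.Ag

open Matrix

noncomputable section

variable {G : Type} [Group G] {d : ℕ}

/-- coboundary of the Cayley graph -/
def D1 (s : Fin d → G) : Matrix (Fin d) (Fin 1) (ZG G) := fun i _ => og (s i) - 1

/-- resolution with its dual -/
structure Res (s : Fin d → G) where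
  m : ℕ
  n : ℕ
  w : G →* ℤˣ
  D2 : Matrix (Fin m) (Fin d) (ZG G)
  D3 : Matrix (Fin n) (Fin m) (ZG G)
  e : Matrix (Fin n) (Fin n) (ZG G)
  v : (Fin n → ZG G) →+ ℤ
  d21 : D2 * D1 s = 0
  d32 : D3 * D2 = 0
  e3 : e * D3 = D3
  ex1 : ∀ y, (D1 s)ᴴ *ᵥ y = 0 → ∃ x, D2ᴴ *ᵥ x = y
  ex2 : ∀ y, D2ᴴ *ᵥ y = 0 → ∃ x, D3ᴴ *ᵥ x = y
  co1 : ∀ y, D2 *ᵥ y = 0 → ∃ x, D1 s *ᵥ x = y
  co2 : ∀ y, D3 *ᵥ y = 0 → ∃ x, D2 *ᵥ x = y
  v0 : ∀ x g, v (rt g x) = w g * v x
  v1 : ∃ q, e *ᵥ q = q ∧ v q = 1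
  v2 : ∀ x, v x = 0 ↔ ∃ z, D3 *ᵥ z = e *ᵥ x
  ee : e * e = e

theorem SES.desc {R : Type} [Ring R] {M C K : Type} [AddCommGroup M] [AddCommGroup C]
    [AddCommGroup K] [Module R M] [Module R C] [Module R K] {i : K →ₗ[R] C} {p : C →ₗ[R] M}
    (h : SES i p) (c : C →ₗ[R] R) (hc : ∀ k, c (i k) = 0) : ∃ c' : M →ₗ[R] R, c' ∘ₗ p = c := by
  have le : LinearMap.ker p ≤ LinearMap.ker c := fun x hx => by
    obtain ⟨k, rfl⟩ := (h.ex x).1 hx
    exact hc k
  refine ⟨((LinearMap.ker p).liftQ c le) ∘ₗ (p.quotKerEquivOfSurjective h.surj).symm.toLinearMap,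
    LinearMap.ext fun y => ?_⟩
  have := p.quotKerEquivOfSurjective_symm_apply h.surj y
  exact congrArg ((LinearMap.ker p).liftQ c le) this

theorem ses_ker {R : Type} [Ring R] {M C : Type} [AddCommGroup M] [AddCommGroup C]
    [Module R M] [Module R C] (p : C →ₗ[R] M) (h : Function.Surjective p) :
    SES (LinearMap.ker p).subtype p :=
  ⟨Subtype.val_injective, h, fun x => ⟨fun e => ⟨⟨x, e⟩, rfl⟩, by rintro ⟨k, rfl⟩; exact k.2⟩⟩

theorem ε_og (g : G) : εw (1 : G →* ℤˣ) (og g) = 1 := by rw [εw_og]; rfl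

theorem row_ex0 {s : Fin d → G} (hs : Subgroup.closure (Set.range s) = ⊤) (x : Fin 1 → ZG G) :
    ∃ y, y ᵥ* D1 s = x - fun _ => ((εw 1 (x 0) : ℤ) : ZG G) := by
  suffices h : ∀ a : ZG G, ∃ y, y ᵥ* D1 s = fun _ => a - ((εw 1 a : ℤ) : ZG G) by
    obtain ⟨y, hy⟩ := h (x 0)
    exact ⟨y, hy.trans (funext fun j => by rw [Subsingleton.elim j 0]; rfl)⟩
  intro a
  induction a using ind' with
  | h0 => exact ⟨0, by ext1; simp⟩
  | ha x y hx hy =>
    obtain ⟨a, ha⟩ := hx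
    obtain ⟨b, hb⟩ := hy
    refine ⟨a + b, ?_⟩
    rw [add_vecMul, ha, hb]
    ext1
    simp only [Pi.add_apply, map_add, Int.cast_add]
    abel
  | hn x hx =>
    obtain ⟨a, ha⟩ := hx
    refine ⟨-a, ?_⟩
    rw [neg_vecMul, ha]
    ext1
    simp only [Pi.neg_apply, map_neg, Int.cast_neg]
    abel
  | hs g =>
    obtain ⟨W, -, hW⟩ := fox 1 s g (hs ▸ Subgroup.mem_top g)
    refine ⟨W, funext fun j => ?_⟩
    rw [εw_og, hW]
    simp [vecMul, dotProduct, D1]

theorem ε_row (s : Fin d → G) (y : Fin d → ZG G) : εw 1 ((y ᵥ* D1 s) 0) = 0 := by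
  simp [vecMul, dotProduct, D1, ε_og]

theorem exists_res {s : Fin d → G} (hs : Subgroup.closure (Set.range s) = ⊤) (h : ModData G) :
    Nonempty (Res s) := by
  obtain ⟨Q, _, _, _, _, dq, π, v, dd, ex, pr, coh, π1, ⟨x0, π2⟩, π3, ex0, v1, v2⟩ := h
  set δ1 : (Fin d → ZG G) →ₗ[ZG G] (Fin 1 → ZG G) := Matrix.toLinearMapRight' (D1 s) with hδ
  have δ1e : ∀ y, δ1 y = y ᵥ* D1 s := fun y => Matrix.toLinearMapRight'_apply _ _
  have md : mat δ1 = D1 s := LinearMap.toMatrixRight'.apply_symm_apply _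
  set I := LinearMap.range δ1
  have S0 : SES I.subtype I.mkQ := ⟨Subtype.val_injective, I.mkQ_surjective, fun x =>
    (Submodule.Quotient.mk_eq_zero I).trans ⟨fun h => ⟨⟨x, h⟩, rfl⟩, by
      rintro ⟨k, rfl⟩; exact k.2⟩⟩
  have mk : ∀ x : Fin 1 → ZG G, I.mkQ x = I.mkQ fun _ => ((εw 1 (x 0) : ℤ) : ZG G) := fun x => by
    obtain ⟨y, hy⟩ := row_ex0 hs x
    exact (Submodule.Quotient.eq I).2 ⟨y, (δ1e y).trans hy⟩
  have πs : ∀ (a : ZG G) x, π (a • x) = εw 1 a * π x := fun a x => by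
    induction a using ind' with
    | h0 => simp
    | ha a b ha hb => rw [add_smul, map_add, ha, hb, map_add, add_mul]
    | hn a ha => rw [neg_smul, map_neg, ha, map_neg, neg_mul]
    | hs g => rw [π1, ε_og, one_mul]
  set p0 : Q 0 →ₗ[ZG G] (Fin 1 → ZG G) ⧸ I :=
    { toFun := fun x => I.mkQ fun _ => ((π x : ℤ) : ZG G)
      map_add' := fun x y => by
        rw [← map_add]; congr 1; ext1; simp
      map_smul' := fun a x => by
        rw [RingHom.id_apply, ← map_smul, mk (a • _), πs]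
        congr 1
        ext1
        simp } with hp0
  have S0' : SES (LinearMap.range (dq 0)).subtype p0 := ⟨Subtype.val_injective, fun y => by
    obtain ⟨x, rfl⟩ := I.mkQ_surjective y
    refine ⟨εw 1 (x 0) • x0, ?_⟩
    rw [mk x]
    change I.mkQ _ = _
    rw [map_zsmul, π2, smul_eq_mul, mul_one], fun x => ⟨fun h => by
      obtain ⟨y, hy⟩ := (Submodule.Quotient.mk_eq_zero I).1 h
      have := ε_row s y
      rw [← δ1e, hy] at this
      exact ⟨⟨x, ex0 x (by simpa using this)⟩, rfl⟩, by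
      rintro ⟨⟨_, y, rfl⟩, rfl⟩
      change I.mkQ (fun _ => ((π (dq 0 y) : ℤ) : ZG G)) = 0
      rw [π3, Int.cast_zero]
      exact map_zero _⟩⟩
  have C1 := step S0 S0' ⟨LinearMap.id, LinearMap.id, ⟨ZG G, _, _, inferInstance, 0, 0, by simp⟩,
    ⟨ZG G, _, _, inferInstance, 0, 0, by simp⟩⟩
  have S1 := ses_ker δ1.rangeRestrict δ1.surjective_rangeRestrict
  have C2 := step S1 (ses_range (dq 0) (dq 1) (dd 0) (ex 0)) C1.se
  have := C2.fin
  obtain ⟨m, δ2, h2⟩ := Module.Finite.exists_fin' (ZG G) (LinearMap.ker δ1.rangeRestrict)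
  have S2 := ses_ker δ2 h2
  have C3 := step S2 (ses_range (dq 1) (dq 2) (dd 1) (ex 1)) C2.se
  have := C3.fin
  have := C3.proj
  obtain ⟨n, s3, p3, h3⟩ := exists_retract (R := ZG G) (LinearMap.ker δ2)
  obtain ⟨u, ⟨c0, hc0⟩, u2⟩ := C3.top v v1 v2
  have X1 := C1.ext (ext_range (dq 0) (dq 1) (dd 0) (coh 0 (by norm_num)))
  have X2 := C2.ext (ext_range (dq 1) (dq 2) (dd 1) (coh 1 (by norm_num)))
  have vm : ∀ (a : ZG G) c, u (MulOpposite.op a • c) = u c * u (MulOpposite.op a • c0) :=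
    fun a c => by
      obtain ⟨c', hc'⟩ := (u2 (c - u c • c0)).1 (by rw [map_sub, map_zsmul, hc0]; simp)
      have := (u2 (MulOpposite.op a • (c - u c • c0))).2
        ⟨MulOpposite.op a • c', by rw [← hc']; rfl⟩
      rwa [smul_sub, smul_comm _ (u c), map_sub, map_zsmul, sub_eq_zero] at this
  set ω : G →* ℤ :=
    { toFun := fun g => u (MulOpposite.op (og g) • c0)
      map_one' := by simp [hc0]
      map_mul' := fun g k => by
        rw [← vm, smul_smul, ← MulOpposite.op_mul, ← map_mul] }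
  have ct : ∀ {a b : ℕ} (f : (Fin a → ZG G) →ₗ[ZG G] (Fin b → ZG G)) (y : Fin a → ZG G),
      (mat f)ᴴ *ᵥ y = star (f (star y)) := fun f y => by
    rw [← vecMul_mat, star_vecMul, star_star]
  refine ⟨⟨m, n, ω.toHomUnits, mat ((LinearMap.ker δ1.rangeRestrict).subtype ∘ₗ δ2),
    mat ((LinearMap.ker δ2).subtype ∘ₗ p3), mat (s3 ∘ₗ p3),
    AddMonoidHom.mk' (fun x => u (col x ∘ₗ s3)) fun x y => ?_, ?_, ?_, ?_, fun y hy => ?_,
    fun y hy => ?_, fun y hy => ?_, fun y hy => ?_, fun x g => ?_, ?_, fun x => ?_, ?_⟩⟩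
  · rw [← map_add]
    congr 1
    exact LinearMap.ext fun y => by simp [col]
  · rw [← md, mat_mul, ← mat_zero]
    congr 1
    exact LinearMap.ext fun y => congrArg Subtype.val (δ2 y).2
  · rw [mat_mul, ← mat_zero]
    congr 1
    exact LinearMap.ext fun y => congrArg Subtype.val (p3 y).2
  · rw [mat_mul]; congr 1; exact LinearMap.ext fun y => by simp [h3]
  · rw [← md, ct, star_eq_zero] at hy
    obtain ⟨x, hx⟩ := h2 ⟨star y, Subtype.ext hy⟩
    refine ⟨star x, ?_⟩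
    rw [ct, star_star, LinearMap.comp_apply, hx]
    exact star_star y
  · rw [ct, star_eq_zero] at hy
    refine ⟨star (s3 ⟨star y, Subtype.ext hy⟩), ?_⟩
    rw [ct, star_star, LinearMap.comp_apply, h3]
    exact star_star y
  · have hy' := congrArg col hy
    rw [col_mat] at hy'
    obtain ⟨c, hc⟩ := S1.desc (col y) fun k => by
      obtain ⟨x, rfl⟩ := h2 k
      simpa [col] using DFunLike.congr_fun hy' x
    obtain ⟨c', hc'⟩ := X1 c
    obtain ⟨z, rfl⟩ := col_surj c'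
    refine ⟨z, col_inj ?_⟩
    rw [← md, col_mat, ← hc, ← hc']
    rfl
  · have hy' := congrArg col hy
    rw [col_mat] at hy'
    obtain ⟨c, hc⟩ := S2.desc (col y) fun k => by
      simpa [col, h3] using DFunLike.congr_fun hy' (s3 k)
    obtain ⟨c', hc'⟩ := X2 c
    obtain ⟨z, rfl⟩ := col_surj c'
    refine ⟨z, col_inj ?_⟩
    rw [col_mat, ← hc, ← hc']
    rfl
  · have : col (rt g x) ∘ₗ s3 = MulOpposite.op (og g) • (col x ∘ₗ s3) :=
      LinearMap.ext fun y => by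
        simp [col, dotProduct, rt_apply, Finset.sum_mul, mul_assoc]
    change u _ = _ * u _
    rw [this, vm, mul_comm]
    rfl
  · obtain ⟨y, hy⟩ := col_surj (c0 ∘ₗ p3)
    refine ⟨y, col_inj ?_, ?_⟩
    · rw [col_mat, hy]; exact LinearMap.ext fun y => by simp [h3]
    · change u _ = 1
      rw [hy, ← hc0]; congr 1; exact LinearMap.ext fun y => by simp [h3]
  · refine (u2 _).trans ⟨fun ⟨c', hc'⟩ => ?_, fun ⟨z, hz⟩ => ⟨col z, ?_⟩⟩
    · obtain ⟨z, rfl⟩ := col_surj c'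
      refine ⟨z, col_inj ?_⟩
      rw [col_mat, col_mat, ← LinearMap.comp_assoc, hc', LinearMap.comp_assoc]
    · have := congrArg col hz
      rw [col_mat, col_mat] at this
      exact LinearMap.ext fun y => by simpa [h3] using DFunLike.congr_fun this (s3 y)
  · rw [mat_mul]; congr 1; exact LinearMap.ext fun y => by simp [h3]

end

end Pool.Agent.Lib.MP_4269b5_al.Ag
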