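import Pool.Agent.Lib.MP_4269b5_al.AgPD2

/-! Duality maps between chains and cochains. -/

set_option linter.unusedSectionVars false
set_option linter.unusedVariables false

namespace Pool.Agent.Lib.MP_4269b5_al.Ag

open Matrix

noncomputable section

variable {G : Type} [Group G] {d : ℕ} {s : Fin d → G}

theorem exists_fac {R : Type} [Ring R] {a b c : ℕ} (X : Matrix (Fin a) (Fin b) R)
    (Y : Matrix (Fin a) (Fin c) R) (h : ∀ x, ∃ y, X *ᵥ y = Y *ᵥ x) :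
    ∃ Z : Matrix (Fin b) (Fin c) R, X * Z = Y := by
  choose y hy using fun j => h (Pi.single j 1)
  refine ⟨Matrix.of fun i j => y j i, ?_⟩
  ext1 i j
  have := congrFun (hy j) i
  rw [mulVec_single_one] at this
  exact this

theorem ε_star (a : ZG G) : εw 1 (star a) = εw 1 a := by
  induction a using ind' with
  | h0 => simp
  | ha a b ha hb => rw [star_add, map_add, map_add, ha, hb]
  | hn a ha => rw [star_neg, map_neg, map_neg, ha]
  | hs g => rw [star_og, ε_og, ε_og]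

theorem ε_α (w : G →* ℤˣ) (a : ZG G) : εw 1 (αw w a) = εw w a := by
  induction a using ind' with
  | h0 => simp
  | ha a b ha hb => rw [map_add, map_add, map_add, ha, hb]
  | hn a ha => rw [map_neg, map_neg, map_neg, ha]
  | hs g => rw [αw_og, map_zsmul, ε_og, εw_og]; simp

theorem col_ex0 (hs : Subgroup.closure (Set.range s) = ⊤) (x : Fin 1 → ZG G)
    (h : εw 1 (x 0) = 0) : ∃ y, (D1 s)ᴴ *ᵥ y = x := by
  obtain ⟨y, hy⟩ := row_ex0 hs (star x)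
  refine ⟨star y, ?_⟩
  rw [← star_vecMul, hy, Pi.star_apply, ε_star, h]
  ext1
  simp

theorem ε_col (y : Fin d → ZG G) : εw 1 (((D1 s)ᴴ *ᵥ y) 0) = 0 := by
  rw [← star_star y, ← star_vecMul, Pi.star_apply, ε_star, ε_row]

theorem map_vec (w : G →* ℤˣ) {a b : ℕ} (X : Matrix (Fin a) (Fin b) (ZG G)) (y : Fin b → ZG G) :
    X.map (αw w) *ᵥ y = αw w ∘ (X *ᵥ (αw w ∘ y)) := funext fun i => by
  rw [Function.comp_apply, RingHom.map_mulVec]
  congr 1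
  exact funext fun j => (αw_αw w _).symm

theorem map_map (w : G →* ℤˣ) {a b : ℕ} (X : Matrix (Fin a) (Fin b) (ZG G)) :
    (X.map (αw w)).map (αw w) = X := by
  ext1; exact αw_αw w _

theorem comp_comp (w : G →* ℤˣ) {a : ℕ} (x : Fin a → ZG G) : αw w ∘ αw w ∘ x = x :=
  funext fun _ => αw_αw w _

/-- comparison maps and homotopies -/
structure Dual (P : Res s) where
  ρ0 : Matrix (Fin P.n) (Fin 1) (ZG G)
  ρ1 : Matrix (Fin P.m) (Fin d) (ZG G)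
  ρ2 : Matrix (Fin d) (Fin P.m) (ZG G)
  κ0 : Matrix (Fin 1) (Fin P.n) (ZG G)
  κ1 : Matrix (Fin d) (Fin P.m) (ZG G)
  κ2 : Matrix (Fin P.m) (Fin d) (ZG G)
  h0 : Matrix (Fin P.m) (Fin P.n) (ZG G)
  h1 : Matrix (Fin d) (Fin P.m) (ZG G)
  H0 : Matrix (Fin d) (Fin 1) (ZG G)
  H1 : Matrix (Fin P.m) (Fin d) (ZG G)
  i1 : ρ0 * (D1 s)ᴴ.map (αw P.w) = P.D3 * ρ1
  i2 : ρ1 * P.D2ᴴ.map (αw P.w) = P.D2 * ρ2
  i3 : P.e = ρ0 * κ0.map (αw P.w) + P.D3 * h0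
  i4 : κ1 * P.D2.map (αw P.w) = P.D2ᴴ * κ2
  i5 : 1 = κ1 * ρ1.map (αw P.w) + P.D2ᴴ * H1 + H0 * (D1 s)ᴴ
  i6 : P.D2 = ρ1 * κ1.map (αw P.w) * P.D2 + P.D2 * (h1 * P.D2)

theorem Res.d12 (P : Res s) : (D1 s)ᴴ * P.D2ᴴ = 0 := by
  rw [← conjTranspose_mul, P.d21, conjTranspose_zero]

theorem Res.d23 (P : Res s) : P.D2ᴴ * P.D3ᴴ = 0 := by
  rw [← conjTranspose_mul, P.d32, conjTranspose_zero]

theorem exists_dual (hs : Subgroup.closure (Set.range s) = ⊤) (P : Res s) : Nonempty (Dual P) := by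
  set E1 := (D1 s)ᴴ.map (αw P.w) with hE1
  set E2 := P.D2ᴴ.map (αw P.w) with hE2
  have E12 : E1 * E2 = 0 := by rw [← Matrix.map_mul, P.d12]; ext1; simp
  have x0 : ∀ x : Fin 1 → ZG G, εw P.w (x 0) = 0 → ∃ y, E1 *ᵥ y = x := fun x h => by
    obtain ⟨y, hy⟩ := col_ex0 hs (αw P.w ∘ x) ((ε_α _ _).trans h)
    exact ⟨αw P.w ∘ y, by rw [map_vec, comp_comp, hy, comp_comp]⟩
  have x1 : ∀ y, E1 *ᵥ y = 0 → ∃ x, E2 *ᵥ x = y := fun y h => by
    rw [map_vec] at h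
    obtain ⟨x, hx⟩ := P.ex1 (αw P.w ∘ y) (by
      rw [← comp_comp P.w (_ *ᵥ _), h]; ext1; simp)
    exact ⟨αw P.w ∘ x, by rw [map_vec, comp_comp, hx, comp_comp]⟩
  have εE : ∀ y, εw P.w ((E1 *ᵥ y) 0) = 0 := fun y => by
    rw [map_vec, ← ε_α, Function.comp_apply, αw_αw, ε_col]
  have vr : ∀ (x : Fin P.n → ZG G) (a : ZG G), P.v (fun i => x i * a) = εw P.w a * P.v x :=
    fun x a => by
    induction a using ind' with
    | h0 => simp only [mul_zero, map_zero, zero_mul]; exact P.v.map_zero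
    | ha a b ha hb =>
      rw [map_add, add_mul, ← ha, ← hb, ← map_add]; congr 1; ext1; simp [mul_add]
    | hn a ha => rw [map_neg, neg_mul, ← ha, ← map_neg]; congr 1; ext1; simp
    | hs g => rw [εw_og]; exact P.v0 x g
  obtain ⟨q, q1, q2⟩ := P.v1
  set ρ0 : Matrix (Fin P.n) (Fin 1) (ZG G) := fun i _ => q i
  set κ0 : Matrix (Fin 1) (Fin P.n) (ZG G) := fun _ j => (P.v (Pi.single j 1) : ℤ)
  have vρ : ∀ x, P.v (ρ0 *ᵥ x) = εw P.w (x 0) := fun x => by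
    have : ρ0 *ᵥ x = fun i => q i * x 0 := funext fun i => by simp [ρ0, mulVec, dotProduct]
    rw [this, vr, q2, mul_one]
  have eρ : P.e * ρ0 = ρ0 := by
    ext1 i j; exact congrFun q1 i
  have vκ : ∀ x, εw P.w ((κ0 *ᵥ x) 0) = P.v x := fun x => by
    conv_rhs => rw [← Finset.univ_sum_single x, map_sum]
    simp only [κ0, mulVec, dotProduct, map_sum, map_mul, map_intCast, Int.cast_id]
    refine Finset.sum_congr rfl fun j _ => ?_
    rw [mul_comm, ← vr]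
    congr 1
    ext1 i
    by_cases h : i = j
    · subst h; simp
    · simp [Pi.single_eq_of_ne h]
  have ve : ∀ x, P.v (P.e *ᵥ x) = P.v x := fun x => by
    rw [← sub_eq_zero, ← map_sub, P.v2]
    exact ⟨0, by rw [mulVec_sub, mulVec_mulVec, P.ee, sub_self, mulVec_zero]⟩
  have vD : ∀ x, P.v (P.D3 *ᵥ x) = 0 := fun x =>
    (P.v2 _).2 ⟨x, by rw [mulVec_mulVec, P.e3]⟩
  obtain ⟨ρ1, i1⟩ := exists_fac P.D3 (ρ0 * E1) fun x => by
    obtain ⟨z, hz⟩ := (P.v2 ((ρ0 * E1) *ᵥ x)).1 (by rw [← mulVec_mulVec, vρ, εE])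
    exact ⟨z, by rw [hz, mulVec_mulVec, ← Matrix.mul_assoc, eρ]⟩
  obtain ⟨ρ2, i2⟩ := exists_fac P.D2 (ρ1 * E2) fun x => P.co2 _ (by
    rw [mulVec_mulVec, ← Matrix.mul_assoc, i1, Matrix.mul_assoc, E12, Matrix.mul_zero, zero_mulVec])
  obtain ⟨h0, i3⟩ := exists_fac P.D3 (P.e - ρ0 * κ0) fun x => by
    obtain ⟨z, hz⟩ := (P.v2 ((P.e - ρ0 * κ0) *ᵥ x)).1 (by
      rw [sub_mulVec, map_sub, ve, ← mulVec_mulVec, vρ, vκ, sub_self])
    exact ⟨z, by rw [hz, mulVec_mulVec, Matrix.mul_sub, P.ee, ← Matrix.mul_assoc, eρ]⟩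
  obtain ⟨κ1, j1⟩ := exists_fac E1 (κ0 * P.D3) fun x => x0 _ (by rw [← mulVec_mulVec, vκ, vD])
  obtain ⟨κ2, i4⟩ := exists_fac E2 (κ1 * P.D2) fun x => x1 _ (by
    rw [mulVec_mulVec, ← Matrix.mul_assoc, j1, Matrix.mul_assoc, P.d32, Matrix.mul_zero,
      zero_mulVec])
  obtain ⟨H0, j2⟩ := exists_fac E1 (1 - κ0 * ρ0) fun x => x0 _ (by
    rw [sub_mulVec, one_mulVec, Pi.sub_apply, map_sub, ← mulVec_mulVec, vκ, vρ, sub_self])
  obtain ⟨H1, i5⟩ := exists_fac E2 (1 - κ1 * ρ1 - H0 * E1) fun x => x1 _ (by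
    rw [mulVec_mulVec, Matrix.mul_sub, Matrix.mul_sub, ← Matrix.mul_assoc, ← Matrix.mul_assoc, j1,
      j2, Matrix.mul_assoc, i1, Matrix.sub_mul, Matrix.mul_assoc, Matrix.mul_one, Matrix.one_mul,
      sub_self, zero_mulVec])
  obtain ⟨h1, i6⟩ := exists_fac P.D2 (1 - ρ1 * κ1 - h0 * P.D3) fun x => P.co2 _ (by
    rw [mulVec_mulVec, Matrix.mul_sub, Matrix.mul_sub, ← Matrix.mul_assoc, ← Matrix.mul_assoc, i1,
      i3, Matrix.mul_assoc, j1, Matrix.sub_mul, P.e3, Matrix.mul_assoc, Matrix.mul_one,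
      sub_self, zero_mulVec])
  refine ⟨⟨ρ0, ρ1, ρ2, κ0.map (αw P.w), κ1.map (αw P.w), κ2.map (αw P.w), h0, h1,
    H0.map (αw P.w), H1.map (αw P.w), i1.symm, i2.symm, ?_, ?_, ?_, ?_⟩⟩
  · rw [map_map, i3, add_sub_cancel]
  · rw [← Matrix.map_mul, ← i4, Matrix.map_mul, map_map]
  · rw [← map_map P.w P.D2ᴴ, ← map_map P.w (D1 s)ᴴ, ← Matrix.map_mul, ← Matrix.map_mul,
      ← Matrix.map_mul, i5, ← Matrix.map_add _ (map_add _), ← Matrix.map_add _ (map_add _)]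
    have : κ1 * ρ1 + (1 - κ1 * ρ1 - H0 * E1) + H0 * E1 = 1 := by abel
    rw [this, Matrix.map_one _ (map_zero _) (map_one _)]
  · rw [map_map, ← Matrix.mul_assoc, i6, Matrix.sub_mul, Matrix.sub_mul, Matrix.mul_assoc h0,
      P.d32, Matrix.one_mul, Matrix.mul_zero]
    abel

variable {V : Type} [AddCommGroup V] {P : Res s} (T : Dual P)

theorem Dual.r0 (y : Fin d → G → V) :
    op P.w T.ρ0 (act (D1 s)ᴴ y) = act P.D3 (op P.w T.ρ1 y) := by rw [op_act, act_op, T.i1]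

theorem Dual.r1 (y : Fin P.m → G → V) :
    op P.w T.ρ1 (act P.D2ᴴ y) = act P.D2 (op P.w T.ρ2 y) := by rw [op_act, act_op, T.i2]

theorem Dual.top (v : Fin P.n → G → V) :
    act P.e v = op P.w T.ρ0 (op P.w T.κ0 v) + act P.D3 (act T.h0 v) := by
  rw [op_op, ← act_mul, ← act_add, ← T.i3]

theorem Dual.k1 (y : Fin d → G → V) :
    op P.w T.κ1 (act P.D2 y) = act P.D2ᴴ (op P.w T.κ2 y) := by rw [op_act, act_op, T.i4]

theorem Dual.id1 (z : Fin d → G → V) :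
    z = op P.w T.κ1 (op P.w T.ρ1 z) + act P.D2ᴴ (act T.H1 z) + act T.H0 (act (D1 s)ᴴ z) := by
  rw [op_op, ← act_mul, ← act_mul, ← act_add, ← act_add, ← T.i5, act_one]

theorem Dual.id2 (x : Fin d → G → V) :
    act P.D2 x = op P.w T.ρ1 (op P.w T.κ1 (act P.D2 x)) + act P.D2 (act T.h1 (act P.D2 x)) := by
  rw [op_op, ← act_mul, ← act_mul, ← act_mul, ← act_add, Matrix.mul_assoc P.D2, ← T.i6]

theorem act_D1 (u : Fin 1 → G → V) (i : Fin d) (g : G) :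
    act (D1 s) u i g = u 0 ((s i)⁻¹ * g) - u 0 g := by
  rw [act_apply, Fin.sum_univ_one, D1, sm_sub, sm_one, Pi.sub_apply, sm_og]

theorem act_d1 (y : Fin d → G → V) (j : Fin 1) (g : G) :
    act (D1 s)ᴴ y j g = ∑ i, (y i (s i * g) - y i g) := by
  rw [act_apply]
  refine Finset.sum_congr rfl fun i _ => ?_
  rw [conjTranspose_apply, D1, star_sub, star_one, star_og, sm_sub, sm_one, Pi.sub_apply, sm_og,
    inv_inv]

theorem d1_single (i : Fin d) (g : G) :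
    (D1 s)ᴴ *ᵥ Pi.single i (og g) = fun _ => og ((s i)⁻¹ * g) - og g := funext fun j => by
  rw [mulVec_single, Pi.smul_apply, Matrix.col_apply, conjTranspose_apply, D1, star_sub, star_one,
    star_og, MulOpposite.smul_eq_mul_unop, MulOpposite.unop_op, sub_mul, one_mul, map_mul]

end

end Pool.Agent.Lib.MP_4269b5_al.Ag
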