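import Pool.Agent.Lib.MP_4269b5_al.AgHat

/-! Extension of linear maps, finiteness from bounded rank. -/

set_option linter.unusedSectionVars false
set_option linter.unusedVariables false

namespace Pool.Agent.Lib.MP_4269b5_al.Ag

open Matrix

noncomputable section

variable {G : Type} [Group G] {V : Type} [AddCommGroup V] {A : Subgroup G}
  {D : Type} [Ring D] {J : G → D} {ι κ ν : Type} [Fintype ι] [Fintype κ] [Fintype ν]

theorem pair_map {W : Type} [AddCommGroup W] (φ : V →+ W) (y : ι → ZG G) (c : ι → G → V) :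
    pair y (fun i g => φ (c i g)) = φ (pair y c) := by
  have := pair_rt φ 1 y c (fun i g => φ (c i g)) fun i g => by rw [mul_one]
  rwa [rt_one] at this

/-- evaluation of the image of a chain -/
def vsH (J : G → V) (j : κ) (g : G) : (κ → ZG G) →+ V :=
  AddMonoidHom.mk' (fun x => vs x J j g) fun x y => by rw [vs_add]; rfl

/-- right translation as an action on coefficients -/
def θt : G → (κ → ZG G) →+ (κ → ZG G) := fun a => rt a

/-- extension of a linear map to the induced module -/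
def xt (A : Subgroup G) (J : G → D) (r : ι → G → κ → ZG G) (v : ι → G → D) : κ → G → D :=
  fun j g => bp A v fun i x => vsH J j g (r i x)

theorem xt_eqv (R : Rp A J) {r : ι → G → κ → ZG G} (hr : Eqv A θt r) (j : κ) (g : G) :
    Eqv A (θl J) fun i x => vsH J j g (r i x) := fun a ha i x => by
  beta_reduce
  rw [hr a ha]
  exact congrFun (congrFun (R.rt ha _) j) g

theorem xt_comb (R : Rp A J) {r : ι → G → κ → ZG G} (hr : Eqv A θt r) {σ : Type} [Fintype σ]
    (c : σ → D) (y : σ → ι → ZG G) :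
    xt A J r (∑ l, c l • vs (y l) J) = ∑ l, c l • vs (pair (y l) r) J := by
  funext j g
  rw [xt, bp_comb c fun l => (R.ind (y l)).2, Finset.sum_apply, Finset.sum_apply]
  refine Finset.sum_congr rfl fun l _ => ?_
  rw [bp_vs R _ (xt_eqv R hr j g), pair_map]
  rfl

theorem xt_add {v v' : ι → G → D} (h : Sm A (spt v)) (h' : Sm A (spt v'))
    (r : ι → G → κ → ZG G) : xt A J r (v + v') = xt A J r v + xt A J r v' :=
  funext fun _ => funext fun _ => bp_add h h' _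

theorem xt_kill (R : Rp A J) {r : ι → G → κ → ZG G} (hr : Eqv A θt r) (X : Matrix ι ν (ZG G))
    (hX : ∀ x, pair (X *ᵥ x) r = 0) {v : ν → G → D} (hv : Ind A J v) :
    xt A J r (act X v) = 0 := by
  classical
  funext j g
  rw [xt, bp_act R hv (xt_eqv R hr j g)]
  have : act Xᴴ (fun i x => vsH J j g (r i x)) = 0 := by
    funext l x
    rw [← pair_single l x (act _ _), pair_act, conjTranspose_conjTranspose, pair_map, hX, map_zero]
    rfl
  rw [this, bp]
  simp only [Pi.zero_apply, mul_zero, Finset.sum_const_zero, ts_zero]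

theorem pf (R : Rp A J) (reg : Reg J) {σ : Type} (p : σ → ι → ZG G) (N : ℕ)
    (dep : ∀ f : Fin N → σ, ∃ c : Fin N → D, c ≠ 0 ∧ ∑ l, c l • vs (p (f l)) J = 0) :
    Sm A (⋃ y, spt (co (p y))) := by
  by_contra inf
  have key : ∀ n, ∃ f : Fin n → σ, ∀ c : Fin n → D, ∑ l, c l • vs (p (f l)) J = 0 → c = 0 :=
    fun n => by
    induction n with
    | zero => exact ⟨Fin.elim0, fun c _ => Subsingleton.elim _ _⟩
    | succ n ih =>
      obtain ⟨f, hf⟩ := ih
      have sm : Sm A (⋃ l ∈ Set.univ, spt (vs (p (f l)) J)) :=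
        Sm.biUnion Set.finite_univ fun l _ => (R.ind _).2
      obtain ⟨g, hg, e⟩ := Set.not_subset.1 fun z => inf (sm.mono z)
      obtain ⟨y, i, hy⟩ := Set.mem_iUnion.1 hg
      refine ⟨Fin.cons y f, fun c hc => ?_⟩
      rw [Fin.sum_univ_succ] at hc
      simp only [Fin.cons_zero, Fin.cons_succ] at hc
      have c0 : c 0 = 0 := by
        refine reg (p y i) g hy _ ?_
        have := congrFun (congrFun hc i) g
        rw [Pi.add_apply, Pi.add_apply, Finset.sum_apply, Finset.sum_apply,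
          Finset.sum_eq_zero, add_zero] at this
        · exact this
        · intro l _
          change c l.succ * vs _ J i g = 0
          rw [spt_zero fun z => e (Set.mem_biUnion (Set.mem_univ l) z), mul_zero]
      rw [c0, zero_smul, zero_add] at hc
      exact funext fun l => Fin.cases c0 (fun l => congrFun (hf _ hc) l) l
  obtain ⟨f, hf⟩ := key N
  obtain ⟨c, h1, h2⟩ := dep f
  exact h1 (hf c h2)

theorem exists_dep [StrongRankCondition D] (K : Type) [Fintype K]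
    (σ : Fin (Fintype.card K + 1) → K → D) :
    ∃ c : Fin (Fintype.card K + 1) → D, c ≠ 0 ∧ ∀ k, ∑ l, c l * σ l k = 0 := by
  by_contra e
  have := card_le_of_injective D (Fintype.linearCombination D σ) ((injective_iff_map_eq_zero _).2
    fun c hc => by_contra fun z => e ⟨c, z, fun k => by
      simpa [Fintype.linearCombination_apply] using congrFun hc k⟩)
  simp at this

theorem act_comb {σ : Type} [Fintype σ] (X : Matrix ι κ (ZG G)) (c : σ → D) (v : σ → κ → G → D) :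
    act X (∑ l, c l • v l) = ∑ l, c l • act X (v l) := by
  simp only [act_sum', act_smul]

theorem op_comb {σ : Type} [Fintype σ] (w : G →* ℤˣ) (X : Matrix ι κ (ZG G)) (c : σ → D)
    (v : σ → κ → G → D) : op w X (∑ l, c l • v l) = ∑ l, c l • op w X (v l) :=
  (map_sum (opH (V := D) w X) _ _).trans (Finset.sum_congr rfl fun _ _ => op_smul _ _ _ _)

theorem comb_apply {σ : Type} [Fintype σ] (c : σ → D) (v : σ → κ → G → D) (i : κ) (g : G) :
    (∑ l, c l • v l) i g = ∑ l, c l * v l i g := by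
  simp only [Finset.sum_apply, Pi.smul_apply, smul_eq_mul]

variable {d : ℕ} {s : Fin d → G}

/-- the translation defect of a primitive is constant -/
theorem defect (hs : Subgroup.closure (Set.range s) = ⊤) {θ : G → V →+ V} (U : Fin 1 → G → V)
    (h : Eqv A θ (act (D1 s) U)) {a : G} (ha : a ∈ A) (g : G) :
    U 0 (g * a) - θ a (U 0 g) = U 0 a - θ a (U 0 1) := by
  have := (conn_univ hs g 1).const (fun x => U 0 (x * a) - θ a (U 0 x)) fun i x _ _ => by
    have := h a ha i x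
    rw [act_D1, act_D1, map_sub, ← mul_assoc] at this
    rw [sub_eq_sub_iff_sub_eq_sub, this]
  simpa using this

/-- coefficients in a submodule of chains -/
theorem restrict (K : AddSubgroup (κ → ZG G)) (hK : ∀ a x, x ∈ K → rt a x ∈ K) :
    ∃ θ : G → K →+ K, ∀ a x, (θ a x : κ → ZG G) = rt a x :=
  ⟨fun a => ((rt a).comp K.subtype).codRestrict K fun x => hK a x x.2, fun _ _ => rfl⟩

/-- basis chains -/
def bas [DecidableEq ι] : ι → G → ι → ZG G := fun i g => Pi.single i (og g)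

theorem pair_id [DecidableEq ι] (y : ι → ZG G) : pair y bas = y :=
  vec_ext (φ := pairH _) (ψ := AddMonoidHom.id _) (fun i g => pair_single i g _) y

theorem pair_sub' (y : ι → ZG G) (c c' : ι → G → V) : pair y (c - c') = pair y c - pair y c' := by
  rw [pair_eq, pair_eq, pair_eq, act_sub']; rfl

theorem fun_ext [DecidableEq ι] {c c' : ι → G → V} (h : ∀ y, pair y c = pair y c') : c = c' :=
  funext fun i => funext fun g => by rw [← pair_single i g c, h, pair_single]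

/-- a matrix as an additive map -/
def mvH (X : Matrix ι κ (ZG G)) : (κ → ZG G) →+ (ι → ZG G) :=
  AddMonoidHom.mk' (X *ᵥ ·) (mulVec_add X)

theorem mv_pair (X : Matrix ι κ (ZG G)) (y : ν → ZG G) (r : ν → G → κ → ZG G) :
    X *ᵥ pair y r = pair y fun i g => X *ᵥ r i g := (pair_map (mvH X) y r).symm

theorem eqv_single [DecidableEq ι] :
    Eqv A θt (bas (ι := ι)) := fun a _ i g => (rt_single a i g).symm

theorem proj_of [DecidableEq ι] [DecidableEq κ] (X : Matrix ν ι (ZG G)) (Y : Matrix ι κ (ZG G))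
    (XY : X * Y = 0) (H : ∀ (V : Type) [AddCommGroup V] (θ : G → V →+ V) (x : κ → G → V),
      Eqv A θ x → (∀ y, Y *ᵥ y = 0 → pair y x = 0) → ∃ r, Eqv A θ r ∧ act Yᴴ r = x) :
    ∃ r, Eqv A θt r ∧ (∀ y, X *ᵥ pair y r = X *ᵥ y) ∧ ∀ y, pair (Y *ᵥ y) r = 0 := by
  obtain ⟨θ, hθ⟩ := restrict (mvH X).ker fun a x hx => by
    change X *ᵥ _ = 0 at hx ⊢
    rw [mulVec_rt, hx, map_zero]
  set x : κ → G → (mvH X).ker := fun j g => ⟨Y *ᵥ Pi.single j (og g), by
    change X *ᵥ _ = 0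
    rw [mulVec_mulVec, XY, zero_mulVec]⟩
  have px : ∀ y, ((pair y x : (mvH X).ker) : ι → ZG G) = Y *ᵥ y := fun y => by
    refine (pair_map (mvH X).ker.subtype y x).symm.trans ?_
    conv_rhs => rw [← pair_id y, mv_pair]
    rfl
  obtain ⟨r, r1, r2⟩ := H _ θ x (fun a ha j g => Subtype.ext (by
    rw [hθ, ← mulVec_rt, rt_single])) fun y hy => Subtype.ext ((px y).trans hy)
  have pr : ∀ y, pair y (bas - fun i g => (r i g : ι → ZG G)) =
      y - (pair y r : (mvH X).ker) := fun y => by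
    rw [pair_sub', pair_id]
    exact congrArg _ (pair_map (mvH X).ker.subtype y r)
  refine ⟨bas - fun i g => (r i g : ι → ZG G),
    eqv_single.sub fun a ha i g => ?_, fun y => ?_, fun y => ?_⟩
  · beta_reduce
    rw [r1 a ha, hθ]
    rfl
  · have : X *ᵥ ((pair y r : (mvH X).ker) : ι → ZG G) = 0 := (pair y r).2
    rw [pr, mulVec_sub, this, sub_zero]
  · have := pair_act Yᴴ y r
    rw [conjTranspose_conjTranspose, r2] at this
    rw [pr, ← this, px, sub_self]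

theorem top_fill {P : Res s} (T : Dual P) {θ : G → V →+ V} {Y Y' : Set G}
    (hY : ∀ a ∈ A, ∀ g ∈ Y, g * a ∈ Y) (hY' : ∀ a ∈ A, ∀ g ∈ Y', g * a ∈ Y') (sub : Y ⊆ Y')
    (conn : ∀ g ∈ Y, ∀ g' ∈ Y, Conn s Y' g g') (inf : ¬Sm A Y) (v : Fin P.n → G → V)
    (hv : Eqv A θ v) (e : act P.e v = v) (sp : spt (op P.w T.κ0 v) ⊆ Y) :
    ∃ y, spt y ⊆ Y' ∧ Eqv A θ (op P.w T.ρ1 y + act T.h0 v) ∧
      act P.D3 (op P.w T.ρ1 y + act T.h0 v) = v := by
  obtain ⟨y, y1, y2, y3⟩ := lemS hY hY' sub conn inf _ (hv.op P.w T.κ0) sp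
  refine ⟨y, y2, Eqv.add ?_ (hv.act _), ?_⟩
  · simpa only [tθ_tθ] using y1.op P.w T.ρ1
  · rw [act_add', ← T.r0, y3, ← T.top, e]

theorem proj2 (hs : Subgroup.closure (Set.range s) = ⊤) {P : Res s} (T : Dual P)
    (inf : ¬Sm A Set.univ) : ∃ r, Eqv A θt r ∧ (∀ y, P.D2ᴴ *ᵥ pair y r = P.D2ᴴ *ᵥ y) ∧
      ∀ y, P.D2ᴴ *ᵥ y = 0 → pair y r = 0 := by
  obtain ⟨r, r1, r2, r3⟩ := proj_of (A := A) P.D2ᴴ P.D3ᴴ P.d23 fun V _ θ x hx e => by
    obtain ⟨y, -, y2, y3⟩ := top_fill T (Y := Set.univ) (Y' := Set.univ) (by simp) (by simp)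
      le_rfl (fun g _ g' _ => conn_univ hs g g') inf x hx (fun_ext fun y => by
        rw [pair_act, ← sub_eq_zero, ← pair_sub]
        refine e _ ?_
        rw [mulVec_sub, mulVec_mulVec, ← conjTranspose_mul, P.e3, sub_self]) (by simp)
    exact ⟨_, y2, by rwa [conjTranspose_conjTranspose]⟩
  refine ⟨r, r1, r2, fun y hy => ?_⟩
  obtain ⟨x, rfl⟩ := P.ex2 y hy
  exact r3 x

theorem exists_m (A : Subgroup G) :
    ∃ m : G → G, m 1 = 1 ∧ (∀ g, m g ∈ A) ∧ ∀ a ∈ A, ∀ g, m (g * a) = m g * a := by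
  have : ∀ g : G, (g : G ⧸ A).out⁻¹ * g ∈ A := fun g => QuotientGroup.eq.1 (Quotient.out_eq' _)
  refine ⟨fun g => (((1 : G) : G ⧸ A).out⁻¹ * 1)⁻¹ * ((g : G ⧸ A).out⁻¹ * g), inv_mul_cancel _,
    fun g => A.mul_mem (A.inv_mem (this 1)) (this g), fun a ha g => ?_⟩
  beta_reduce
  rw [QuotientGroup.mk_mul_of_mem g ha]
  simp only [mul_assoc]

theorem eqv_choose (p : ι → G → (κ → ZG G) → Prop)
    (hp : ∀ a ∈ A, ∀ i g v, p i g v → p i (g * a) (rt a v)) (ex : ∀ i g, ∃ v, p i g v) :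
    ∃ r, Eqv A θt r ∧ ∀ i g, p i g (r i g) := by
  obtain ⟨m, -, m1, m2⟩ := exists_m A
  choose f hf using ex
  refine ⟨fun i g => rt (m g) (f i (g * (m g)⁻¹)), fun a ha i g => ?_, fun i g => ?_⟩
  · change rt _ _ = rt a _
    rw [rt_rt, m2 a ha]
    simp [mul_assoc]
  · simpa using hp _ (m1 g) i _ _ (hf i (g * (m g)⁻¹))

theorem spt_pair (y : ι → ZG G) (r : ι → G → κ → ZG G) {x : G} (h : x ∈ spt (co (pair y r))) :
    ∃ i g, x ∈ spt (co (r i g)) := by
  obtain ⟨j, hj⟩ := h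
  by_contra e
  refine hj ?_
  have := pair_map (AddMonoidHom.mk' (fun z : κ → ZG G => co z j x) fun _ _ => rfl) y r
  refine this.symm.trans (pair_zero' _ _ fun g _ ⟨i, hi⟩ => e ⟨i, g, j, hi⟩)

theorem rt_const (a g g' : G) :
    rt a (fun _ : Fin 1 => og g' - og g) = fun _ => og (g' * a) - og (g * a) := funext fun _ => by
  rw [rt_apply, sub_mul, map_mul, map_mul]

variable {F μ : Subgroup G} {h : G → ℤ} {τ : G}

theorem ext_cob (hs : Subgroup.closure (Set.range s) = ⊤) (Γ : Geo s F μ h τ) (P : Res s)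
    (tl : TL P fun g => -h g) {θ : G → V →+ V} (x : Fin P.m → G → V) (hx : Eqv μ θ x)
    (cx : act P.D3 x = 0) {k : ℤ} (ab : Ab h k x) : ∃ r, Eqv μ θ r ∧ act P.D2 r = x := by
  obtain ⟨c, hc⟩ := tl
  obtain ⟨m, -, m1, m2⟩ := exists_m μ
  set L : ℤ := k - c - 1
  obtain ⟨Φ, Φ1, Φ2⟩ := eqv_choose (A := μ) (fun (i : Fin d) g v => (D1 s)ᴴ *ᵥ v =
      (fun _ => og (τ ^ L * m ((s i)⁻¹ * g)) - og (τ ^ L * m g)) ∧ ∀ x ∈ spt (co v), h x = L)
    (fun a ha i g v ⟨e1, e2⟩ => ⟨by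
      rw [mulVec_rt, e1, rt_const, ← mul_assoc, m2 a ha, m2 a ha]
      simp only [mul_assoc], fun x hx => by
      rw [← e2 _ (spt_rt.1 hx), Γ.hμ _ (μ.inv_mem ha)]⟩) fun i g => by
      obtain ⟨p, p1, p2⟩ := Γ.path (μ.mul_mem (m1 ((s i)⁻¹ * g)) (μ.inv_mem (m1 g))) L
      refine ⟨rt (m g) p, ?_, fun x hx => ?_⟩
      · rw [mulVec_rt, p1, rt_const]
        simp only [mul_assoc, inv_mul_cancel, mul_one]
      · rw [← (p2 _ (spt_rt.1 hx)).1, Γ.hμ _ (μ.inv_mem (m1 g))]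
  obtain ⟨H, H1, H2⟩ := eqv_choose (A := μ) (fun (_ : Fin 1) g v => (D1 s)ᴴ *ᵥ v =
      fun _ => og g - og (τ ^ L * m g))
    (fun a ha i g v e => by rw [mulVec_rt, e, rt_const, m2 a ha, mul_assoc]) fun i g =>
      (conn_univ hs _ _).path.imp fun _ e => e.1
  set Θ := bas - act (D1 s) H - Φ with hΘ
  have Θ1 : Eqv μ θt Θ := (eqv_single.sub (H1.act _)).sub Φ1
  obtain ⟨Y, Y1, Y2⟩ := eqv_choose (A := μ) (fun i g v => P.D2ᴴ *ᵥ v = Θ i g)
    (fun a ha i g v e => by rw [mulVec_rt, e, Θ1 a ha]; rfl) fun i g => P.ex1 _ (by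
      simp only [hΘ, Pi.sub_apply, act_D1, mulVec_sub, H2, (Φ2 i g).1, bas, d1_single]
      funext
      simp only [Pi.sub_apply, Pi.zero_apply]
      abel)
  refine ⟨fun i g => pairH x (Y i g), fun a ha i g => ?_, fun_ext fun y => ?_⟩
  · beta_reduce
    rw [Y1 a ha]
    exact pair_rt (θ a) a _ x x (hx a ha)
  · have e1 : P.D2ᴴ *ᵥ pair (P.D2ᴴ *ᵥ y) Y = P.D2ᴴ *ᵥ y - pair (P.D2ᴴ *ᵥ y) Φ := by
      rw [mv_pair]
      simp only [Y2]
      change pair _ Θ = _
      rw [hΘ, pair_sub', pair_sub', pair_id, pair_act, d1d2, pair_zero, sub_zero]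
    obtain ⟨y', e2, e3⟩ := hc (-L) (pair (P.D2ᴴ *ᵥ y) Φ) (by
      have := congrArg ((D1 s)ᴴ *ᵥ ·) e1
      simp only [mulVec_sub, d1d2] at this
      simpa using this) fun g hg => by
        obtain ⟨i, g', e⟩ := spt_pair _ _ hg
        exact (neg_inj.2 ((Φ2 i g').2 g e)).ge
    obtain ⟨y'', e4⟩ := P.ex2 (pair (P.D2ᴴ *ᵥ y) Y - y + y') (by
      rw [mulVec_add, mulVec_sub, e1, e2]; abel)
    have e5 := pair_act P.D3 y'' x
    rw [cx, e4, pair_add, pair_sub, pair_zero' y' x fun g hg z => by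
      have : -L - c ≤ -h g := e3 g hg
      have := ab g z
      omega, pair_zero' _ _ fun _ _ ⟨_, e⟩ => e rfl, add_zero] at e5
    rw [pair_act, pair_map]
    exact sub_eq_zero.1 e5.symm

theorem proj1 (hs : Subgroup.closure (Set.range s) = ⊤) (Γ : Geo s F μ h τ) {P : Res s}
    (T : Dual P) (t1 : TL P h) (t2 : TL P fun g => -h g) (inf : ¬Sm μ (F : Set G)) :
    ∃ r, Eqv μ θt r ∧ (∀ y, (D1 s)ᴴ *ᵥ pair y r = (D1 s)ᴴ *ᵥ y) ∧
      ∀ y, pair (P.D2ᴴ *ᵥ y) r = 0 := by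
  refine proj_of (D1 s)ᴴ P.D2ᴴ P.d12 fun V _ θ x hx e => ?_
  rw [conjTranspose_conjTranspose]
  have cx : act P.D3 x = 0 := fun_ext fun y => by
    rw [pair_act, e _ (by rw [mulVec_mulVec, P.d23, zero_mulVec]),
      pair_zero' _ _ fun _ _ ⟨_, e⟩ => e rfl]
  have l : Lip h := Γ.lip
  obtain ⟨C, conn⟩ := Γ.conn
  obtain ⟨C1, a1⟩ := l.act P.D3
  obtain ⟨C2, a2⟩ := l.neg.act P.D3
  obtain ⟨C3, a3⟩ := l.op P.w T.κ0
  obtain ⟨C4, a4⟩ := l.neg.op P.w T.κ0
  obtain ⟨C5, a5⟩ := l.op P.w T.ρ1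
  obtain ⟨C6, a6⟩ := l.neg.op P.w T.ρ1
  obtain ⟨C7, a7⟩ := l.act T.h0
  obtain ⟨C8, a8⟩ := l.neg.act T.h0
  have iv : ∀ a ∈ μ, ∀ g, g * a ∈ {g | 0 ≤ h g} ↔ g ∈ {g | 0 ≤ h g} := fun a ha g => by
    simp only [Set.mem_ofPred_eq, Γ.hμ a ha]
  have x1 := hx.cut iv
  have x2 := hx.cut (Y := {g | 0 ≤ h g}ᶜ) fun a ha g => not_congr (iv a ha g)
  have b1 : Ab h 0 (cut {g | 0 ≤ h g} x) := fun g hg => (spt_cut _ _ hg).1
  have b2 : Ab (fun g => -h g) 0 (cut {g | 0 ≤ h g}ᶜ x) := fun g hg => by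
    have : ¬0 ≤ h g := (spt_cut _ _ hg).1
    beta_reduce
    omega
  have cc : act P.D3 (cut {g | 0 ≤ h g}ᶜ x) = -act P.D3 (cut {g | 0 ≤ h g} x) := by
    rw [eq_neg_iff_add_eq_zero, add_comm, ← act_add', cut_add_cut, cx]
  have v1 := a1 _ _ _ b1
  have v2 := (a2 _ _ _ b2).neg
  rw [cc, neg_neg] at v2
  have si : ∀ a b, ∀ m ∈ μ, ∀ g ∈ strip h a b, g * m ∈ strip h a b := fun a b m hm g hg => by
    rwa [mem_strip, Γ.hμ m hm]
  obtain ⟨y, y1, y2, y3⟩ := top_fill T (si _ _) (si _ _) (fun g hg => by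
      simp only [mem_strip] at *; omega) (conn (0 - C1 - C3) (C2 + C4))
    (fun z => inf (z.mono fun f hf => by rw [mem_strip, Γ.hF f hf]; omega)) _ (x1.act P.D3)
    (by rw [← act_mul, P.e3]) fun g hg => ⟨a3 _ _ _ v1 g hg, by
      have := a4 _ _ _ v2 g hg
      beta_reduce at this
      omega⟩
  have z1 : Ab h (0 - C1 - C3 - C) y := fun g hg => (y1 hg).1
  have z2 : Ab (fun g => -h g) (-(C2 + C4 + C)) y := fun g hg => neg_le_neg (y1 hg).2
  obtain ⟨r1, p1, q1⟩ := ext_cob hs Γ P t2 _ (x1.sub y2) (by rw [act_sub', y3, sub_self])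
    (k := -(C1 + C3 + C + C5 + C7)) ((b1.mono (by omega)).sub (((a5 _ _ _ z1).mono (by omega)).add
      ((a7 _ _ _ v1).mono (by omega))))
  obtain ⟨r2, p2, q2⟩ := ext_cob hs Γ.neg P (by simpa using t1) _ (x2.add y2)
    (by rw [act_add', y3, cc, neg_add_cancel])
    (k := -(C2 + C4 + C + C6 + C8)) ((b2.mono (by omega)).add (((a6 _ _ _ z2).mono (by omega)).add
      ((a8 _ _ _ v2).mono (by omega))))
  exact ⟨r1 + r2, p1.add p2, by rw [act_add', q1, q2, sub_add_add_cancel, cut_add_cut]⟩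

end

end Pool.Agent.Lib.MP_4269b5_al.Ag
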