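import Pool.Agent.Lib.MP_4269b5_al.AgComp

/-! Controlled fillings in half spaces. -/

set_option linter.unusedSectionVars false
set_option linter.unusedVariables false

namespace Pool.Agent.Lib.MP_4269b5_al.Ag

open Matrix

noncomputable section

variable {G : Type} [Group G] {d : ℕ} {s : Fin d → G} {V : Type} [AddCommGroup V]

/-- cycles in a half space bound in a slightly larger one -/
def TL (P : Res s) (h : G → ℤ) : Prop :=
  ∃ c : ℕ, ∀ (k : ℤ) (z : Fin d → ZG G), (D1 s)ᴴ *ᵥ z = 0 → (∀ g ∈ spt (co z), k ≤ h g) →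
    ∃ y, P.D2ᴴ *ᵥ y = z ∧ ∀ g ∈ spt (co y), k - c ≤ h g

/-- cycles near the subgroup bound near the subgroup -/
def FP2 (P : Res s) (F : Subgroup G) : Prop :=
  ∀ Y, Sm F Y → ∃ Y', Sm F Y' ∧ ∀ z : Fin d → ZG G, (D1 s)ᴴ *ᵥ z = 0 → spt (co z) ⊆ Y →
    ∃ y, P.D2ᴴ *ᵥ y = z ∧ spt (co y) ⊆ Y'

variable {F μ : Subgroup G} {h : G → ℤ} {τ : G}

theorem Geo.sm (Γ : Geo s F μ h τ) {Y : Set G} (hY : Sm F Y) :
    ∃ C : ℕ, ∀ g ∈ Y, -C ≤ h g ∧ h g ≤ C := by
  obtain ⟨B, hB⟩ := hY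
  obtain ⟨C, hC⟩ := Γ.fin B.finite_toSet
  refine ⟨C, fun g hg => ?_⟩
  obtain ⟨b, hb, e⟩ := hB g hg
  simpa using hC b hb _ e

theorem exists_cut {ι : Type} [Fintype ι] (Y : Set G) (y : ι → ZG G) :
    ∃ x, co x = cut Y (co y) :=
  exists_co _ ((spt_co_fin y).subset ((spt_cut _ _).trans Set.inter_subset_right))

theorem d1d2 (P : Res s) (y : Fin P.m → ZG G) : (D1 s)ᴴ *ᵥ P.D2ᴴ *ᵥ y = 0 := by
  rw [mulVec_mulVec, P.d12, zero_mulVec]

/-- cycles near the subgroup bound at bounded height -/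
def FPh (P : Res s) (F : Subgroup G) (h : G → ℤ) : Prop :=
  ∀ Y, Sm F Y → ∃ (Y' : Set G) (C : ℕ), (∀ g ∈ Y', -C ≤ h g ∧ h g ≤ C) ∧
    ∀ z : Fin d → ZG G, (D1 s)ᴴ *ᵥ z = 0 → spt (co z) ⊆ Y → ∃ y, P.D2ᴴ *ᵥ y = z ∧ spt (co y) ⊆ Y'

theorem FP2.fph {P : Res s} (fp : FP2 P F) (Γ : Geo s F μ h τ) : FPh P F h := fun Y hY => by
  obtain ⟨Y', hY', fill⟩ := fp Y hY
  obtain ⟨C, hC⟩ := Γ.sm hY'
  exact ⟨Y', C, hC, fill⟩

theorem FPh.neg {P : Res s} (fp : FPh P F h) : FPh P F fun g => -h g := fun Y hY => by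
  obtain ⟨Y', C, hC, fill⟩ := fp Y hY
  exact ⟨Y', C, fun g hg => by have := hC g hg; beta_reduce; omega, fill⟩

theorem tl_of (Γ : Geo s F μ h τ) (P : Res s) (fp : FPh P F h) (j : ℤ)
    (wall : ∀ k, Sm F {g | ¬(j ≤ h g ↔ j ≤ h (k * g))}) : TL P h := by
  obtain ⟨Y', C, hC, fill⟩ := fp _ (Sm.biUnion (ms P.D2ᴴ).finite_toSet fun b _ => wall b⁻¹)
  have key : ∀ z : Fin d → ZG G, (D1 s)ᴴ *ᵥ z = 0 → (∀ g ∈ spt (co z), j ≤ h g) →
      ∃ y, P.D2ᴴ *ᵥ y = z ∧ ∀ g ∈ spt (co y), j - (C + j.natAbs : ℕ) ≤ h g := fun z hz hs => by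
    obtain ⟨y, rfl⟩ := P.ex1 z hz
    obtain ⟨x, hx⟩ := exists_cut {g | j ≤ h g} y
    have e : co (y - x) = cut {g | j ≤ h g}ᶜ (co y) := by
      rw [co_sub, hx, sub_eq_iff_eq_add', cut_add_cut]
    obtain ⟨y', h1, h2⟩ := fill (P.D2ᴴ *ᵥ (y - x)) (d1d2 P _) fun g hg => by
      have a := hg
      rw [← act_co] at a
      obtain ⟨b, hb, a⟩ := spt_act _ _ a
      rw [e] at a
      have a : ¬j ≤ h (b⁻¹ * g) := (spt_cut _ _ a).1
      by_cases c : j ≤ h g
      · exact Set.mem_biUnion hb fun z => a (z.1 c)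
      · rw [mulVec_sub, co_sub] at hg
        rcases spt_sub _ _ hg with hg | hg
        · exact absurd (hs g hg) c
        · rw [← act_co, hx] at hg
          obtain ⟨b', hb', a'⟩ := spt_act _ _ hg
          exact Set.mem_biUnion hb' fun z => c (z.2 (spt_cut _ _ a').1)
    refine ⟨x + y', by rw [mulVec_add, h1, mulVec_sub, add_sub_cancel], fun g hg => ?_⟩
    rw [co_add] at hg
    rcases spt_add _ _ hg with hg | hg
    · rw [hx] at hg
      have : j ≤ h g := (spt_cut _ _ hg).1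
      omega
    · have := hC g (h2 hg)
      omega
  refine ⟨C + j.natAbs, fun k z hz hs => ?_⟩
  obtain ⟨y, h1, h2⟩ := key (rt (τ ^ (j - k)) z) (by rw [mulVec_rt, hz, map_zero]) fun g hg => by
    have := hs _ (spt_rt.1 hg)
    rw [← _root_.zpow_neg, Γ.hz] at this
    omega
  refine ⟨rt (τ ^ (j - k))⁻¹ y, by rw [mulVec_rt, h1, rt_rt, mul_inv_cancel, rt_one],
    fun g hg => ?_⟩
  have := h2 _ (spt_rt.1 hg)
  rw [inv_inv, Γ.hz] at this
  omega

theorem tl_up (Γ : Geo s F μ h τ) (P : Res s) (fp : FPh P F h) (wall : Wall F h) : TL P h :=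
  tl_of Γ P fp 1 fun k => (wall k).mono fun g hg => by
    simp only [Set.mem_ofPred_eq] at *
    omega

theorem tl_down (Γ : Geo s F μ h τ) (P : Res s) (fp : FPh P F h) (wall : Wall F h) :
    TL P fun g => -h g :=
  tl_of Γ.neg P fp.neg 0 fun k => (wall k).mono fun g hg => by
    simp only [Set.mem_ofPred_eq] at *
    omega

theorem fin_act {ι κ : Type} [Fintype ι] [Fintype κ] (X : Matrix ι κ (ZG G)) {v : κ → G → V}
    (e : (spt v).Finite) : (spt (act X v)).Finite :=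
  sm_bot.1 (((sm_bot.2 e).nb _).mono (spt_act _ _))

theorem fin_op {ι κ : Type} [Fintype ι] [Fintype κ] (w : G →* ℤˣ) (X : Matrix ι κ (ZG G))
    {v : κ → G → V} (e : (spt v).Finite) : (spt (op w X v)).Finite :=
  sm_bot.1 (((sm_bot.2 e).nb _).mono (spt_op _ _ _))

theorem d1d2' (P : Res s) (u : Fin P.m → G → V) : act (D1 s)ᴴ (act P.D2ᴴ u) = 0 := by
  rw [← act_mul, P.d12, act_zero]

/-- lower bound for the height on the support -/
def Ab {ι : Type} (h : G → ℤ) (k : ℤ) (v : ι → G → V) : Prop := ∀ g ∈ spt v, k ≤ h g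

section Ab

variable {ι κ : Type} [Fintype ι] [Fintype κ]

theorem Ab.mono {k l : ℤ} {v : ι → G → V} (a : Ab h k v) (e : l ≤ k) : Ab h l v :=
  fun g hg => e.trans (a g hg)

theorem Ab.add {k : ℤ} {v v' : ι → G → V} (a : Ab h k v) (b : Ab h k v') : Ab h k (v + v') :=
  fun g hg => (spt_add _ _ hg).elim (a g) (b g)

theorem Ab.sub {k : ℤ} {v v' : ι → G → V} (a : Ab h k v) (b : Ab h k v') : Ab h k (v - v') :=
  fun g hg => (spt_sub _ _ hg).elim (a g) (b g)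

theorem Ab.neg {k : ℤ} {v : ι → G → V} (a : Ab h k v) : Ab h k (-v) := by
  rwa [Ab, spt_neg]

theorem Lip.act (l : Lip h) (X : Matrix ι κ (ZG G)) :
    ∃ C : ℕ, ∀ (V : Type) [AddCommGroup V] (k : ℤ) (v : κ → G → V),
      Ab h k v → Ab h (k - C) (act X v) := by
  obtain ⟨C, hC⟩ := l.nb (ms X)
  refine ⟨C, fun V _ k v a g hg => ?_⟩
  obtain ⟨x, hx, e⟩ := hC _ g (spt_act _ _ hg)
  have := a x hx
  omega

theorem Lip.op (l : Lip h) (w : G →* ℤˣ) (X : Matrix ι κ (ZG G)) :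
    ∃ C : ℕ, ∀ (V : Type) [AddCommGroup V] (k : ℤ) (v : κ → G → V),
      Ab h k v → Ab h (k - C) (op w X v) :=
  (l.act X).imp fun C hC V _ k v a => hC V k _ (by rwa [Ab, spt_tw])

theorem Lip.neg (l : Lip h) : Lip fun g => -h g := fun k => (l k).imp fun C hC g => by
  have := abs_le.1 (hC g)
  rw [abs_le]
  beta_reduce
  omega

end Ab

theorem tlq {P : Res s} (T : Dual P) (l : Lip h) (tl : TL P h) :
    ∃ c : ℕ, ∀ (k : ℤ) (x : Fin d → G → ℤ), (spt (act P.D2 x)).Finite → Ab h k (act P.D2 x) →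
      ∃ x', (spt x').Finite ∧ Ab h (k - c) x' ∧ act P.D2 x' = act P.D2 x := by
  obtain ⟨c, hc⟩ := tl
  obtain ⟨C1, h1⟩ := l.op P.w T.κ1
  obtain ⟨C2, h2⟩ := l.op P.w T.ρ2
  obtain ⟨C3, h3⟩ := l.act T.h1
  refine ⟨C1 + c + C2 + C3, fun k x f a => ?_⟩
  obtain ⟨z, hz⟩ := exists_co _ (fin_op P.w T.κ1 f)
  obtain ⟨y, e1, e2⟩ := hc (k - C1) z (co_inj (by rw [← act_co, hz, T.k1, d1d2', co_zero]))
    (by rw [hz]; exact h1 _ _ _ a)
  refine ⟨op P.w T.ρ2 (co y) + act T.h1 (act P.D2 x), ((fin_op _ _ (spt_co_fin y)).union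
    (fin_act _ f)).subset (spt_add _ _), ((h2 _ _ _ e2).mono ?_).add ((h3 _ _ _ a).mono ?_), ?_⟩
  · push_cast; omega
  · push_cast; omega
  · rw [act_add', ← T.r1, act_co, e1, hz, ← T.id2]

theorem oe_of {P : Res s} (T : Dual P) (l : Lip h) (t1 : TL P h) (t2 : TL P fun g => -h g)
    (conn : ∀ k : ℕ, ∃ k' : ℕ, ∀ g ∈ strip h (-k) k, ∀ g' ∈ strip h (-k) k,
      Conn s (strip h (-k') k') g g') : OE s h := fun Q hQ => by
  obtain ⟨c1, h1⟩ := tlq T l t1
  obtain ⟨c2, h2⟩ := tlq T l.neg t2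
  obtain ⟨C1, a1⟩ := l.act P.D2
  obtain ⟨C2, a2⟩ := l.neg.act P.D2
  set c := act (D1 s) (ind Q) with hc
  have lc : ∀ Y, LF h ⊥ (spt (act P.D2 (cut Y c))) := fun Y =>
    ((hQ.mono ((spt_cut Y c).trans Set.inter_subset_right)).nb l _).mono (spt_act _ _)
  have cc : ∀ Y, act P.D2 (cut Yᶜ c) = -act P.D2 (cut Y c) := fun Y => by
    rw [eq_neg_iff_add_eq_zero, add_comm, ← act_add', cut_add_cut, d2d1]
  have key : ∀ k : ℕ, (Q ∩ strip h (-k) k).Finite ∨ (Qᶜ ∩ strip h (-k) k).Finite := fun k => by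
    obtain ⟨k', hk⟩ := conn k
    set b : ℤ := k' + 1 + C1 + c1
    set a : ℤ := k' + 1 + C2 + c2
    have u1 : Ab h (b - C1) (act P.D2 (cut {g | b ≤ h g} c)) :=
      a1 _ _ _ fun g hg => (spt_cut _ _ hg).1
    have u2 : Ab (fun g => -h g) (-b - C2) (act P.D2 (cut {g | b ≤ h g} c)) := by
      have := (a2 _ (-b) (cut {g | b ≤ h g}ᶜ c) fun g hg => by
        have : ¬b ≤ h g := (spt_cut _ _ hg).1
        beta_reduce
        omega).neg
      rwa [cc, neg_neg] at this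
    have v1 : Ab (fun g => -h g) (a - C2) (act P.D2 (cut {g | a ≤ -h g} c)) :=
      a2 _ _ _ fun g hg => (spt_cut _ _ hg).1
    have v2 : Ab h (-a - C1) (act P.D2 (cut {g | a ≤ -h g} c)) := by
      have := (a1 _ (-a) (cut {g | a ≤ -h g}ᶜ c) fun g hg => by
        have : ¬a ≤ -h g := (spt_cut _ _ hg).1
        omega).neg
      rwa [cc, neg_neg] at this
    obtain ⟨x, x1, x2, x3⟩ := h1 _ _ (sm_bot.1 ((lc _).sm (k := b - C1) (l := b + C2) fun g hg =>
      ⟨u1 g hg, by have := u2 g hg; beta_reduce at this; omega⟩)) u1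
    obtain ⟨y, y1, y2, y3⟩ := h2 _ _ (sm_bot.1 ((lc _).sm (k := -a - C1) (l := C2 - a) fun g hg =>
      ⟨v2 g hg, by have := v1 g hg; beta_reduce at this; omega⟩)) v1
    have f0 : (spt (c - cut {g | b ≤ h g} c - cut {g | a ≤ -h g} c)).Finite := by
      refine (sm_bot.1 (hQ (a.natAbs + b.natAbs))).subset ?_
      rintro g ⟨i, hi⟩
      simp only [Pi.sub_apply] at hi
      by_cases e1 : b ≤ h g
      · rw [cut_mem c i (show g ∈ {g | b ≤ h g} from e1),
          cut_not c i (show g ∉ {g | a ≤ -h g} from fun z : a ≤ -h g => by omega)] at hi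
        simp at hi
      by_cases e2 : a ≤ -h g
      · rw [cut_not c i (show g ∉ {g | b ≤ h g} from e1),
          cut_mem c i (show g ∈ {g | a ≤ -h g} from e2)] at hi
        simp at hi
      rw [cut_not c i (show g ∉ {g | b ≤ h g} from e1),
        cut_not c i (show g ∉ {g | a ≤ -h g} from e2)] at hi
      exact ⟨⟨i, by simpa using hi⟩, by rw [mem_strip]; omega⟩
    obtain ⟨z, hz⟩ := exists_co (c - cut {g | b ≤ h g} c - cut {g | a ≤ -h g} c + x + y)
      (((f0.union x1).union y1).subset ((spt_add _ _).trans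
        (Set.union_subset_union_left _ (spt_add _ _))))
    obtain ⟨u, hu⟩ := P.co1 z (co_inj (by
      rw [← act_co, hz, act_add', act_add', act_sub', act_sub', x3, y3, d2d1, co_zero]; abel))
    refine ind_cst (u := u) fun g hg g' hg' => (hk g hg g' hg').cst _ fun p hp ⟨i, hi⟩ => hi ?_
    rw [act_sub', act_co, hu, hz]
    have := hp.1
    have := hp.2
    simp only [Pi.sub_apply, Pi.add_apply]
    rw [cut_not c i (show p ∉ {g | b ≤ h g} from fun z : b ≤ h p => by omega),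
      cut_not c i (show p ∉ {g | a ≤ -h g} from fun z : a ≤ -h p => by omega),
      spt_zero (v := x) fun z => by have := x2 p z; omega,
      spt_zero (v := y) fun z => by have := y2 p z; beta_reduce at this; omega]
    simp [hc]
  by_cases e : LF h ⊥ Q
  · exact Or.inl e
  · refine Or.inr fun k => sm_bot.2 ?_
    obtain ⟨k0, hk0⟩ := not_forall.1 e
    rcases key (k + k0) with f | f
    · refine absurd (sm_bot.2 (f.subset fun g hg => ⟨hg.1, ?_⟩)) hk0
      have := hg.2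
      simp only [mem_strip] at *
      omega
    · refine f.subset fun g hg => ⟨hg.1, ?_⟩
      have := hg.2
      simp only [mem_strip] at *
      omega

end

end Pool.Agent.Lib.MP_4269b5_al.Ag
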