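import Pool.Agent.Lib.MP_4269b5_al.AgFP

/-! Tubes along the axis. -/

set_option linter.unusedSectionVars false
set_option linter.unusedVariables false

namespace Pool.Agent.Lib.MP_4269b5_al.Ag

open Matrix

noncomputable section

variable {G : Type} [Group G] {V : Type} [AddCommGroup V] {F μ : Subgroup G}
  {D : Type} [Ring D] {J : G → D} {d : ℕ} {s : Fin d → G} {h : G → ℤ} {τ : G}
  {ι κ : Type} [Fintype ι] [Fintype κ]

/-- locally finite sum -/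
def lsum (v : ℕ → ι → G → V) : ι → G → V := fun i g => ∑ᶠ k, v k i g

theorem lsum_eq {v : ℕ → ι → G → V} {c : ℤ} (hv : ∀ k : ℕ, Ab h (k - c) (v k)) {g : G} {K : ℕ}
    (e : h g + c < K) (i : ι) : lsum v i g = (∑ k ∈ Finset.range K, v k) i g := by
  rw [Finset.sum_apply, Finset.sum_apply]
  refine finsum_eq_sum_of_support_subset _ fun k hk => ?_
  have := hv k g ⟨i, hk⟩
  simp only [Finset.coe_range, Set.mem_Iio]
  omega

theorem lsum_spt {v : ℕ → ι → G → V} {g : G} (e : g ∈ spt (lsum v)) : ∃ k, g ∈ spt (v k) := by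
  obtain ⟨i, hi⟩ := e
  by_contra z
  exact hi (finsum_eq_zero_of_forall_eq_zero fun k => spt_zero (fun y => z ⟨k, y⟩) i)

theorem Rp.ab (R : Rp μ J) (hμ : ∀ m ∈ μ, ∀ g, h (g * m) = h g) {x : ι → ZG G} {k : ℤ}
    (e : Ab h k (co x)) : Ab h k (vs x J) := fun g hg => by
  obtain ⟨b, b1, b2⟩ := R.spt x hg
  have := hμ _ b2 b
  rw [mul_inv_cancel_left] at this
  rw [this]
  exact e b b1

theorem fin_ab (h : G → ℤ) (x : ι → ZG G) : ∃ c : ℕ, Ab h (-c) (co x) := by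
  obtain ⟨k, hk⟩ := ((spt_co_fin x).image h).bddBelow
  exact ⟨k.natAbs, fun g hg => by have := hk ⟨g, hg, rfl⟩; omega⟩

theorem tube (hs : Subgroup.closure (Set.range s) = ⊤) (Γ : Geo s F μ h τ) (P : Res s)
    (tl : TL P h) (R : Rp μ J) : ∃ Z : Fin d → G → D, ∀ a ∈ μ, ∀ p : Fin d → ZG G,
      (D1 s)ᴴ *ᵥ p = (fun _ => og a - og 1) → ∃ W : Fin P.m → G → D, Eqv μ (θr J) W ∧
        LF h μ (spt W) ∧ (∃ k, Ab h k W) ∧ act P.D2ᴴ W = vs p J + (J a⁻¹ - 1) • Z := by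
  obtain ⟨c, hc⟩ := tl
  obtain ⟨γ, hγ, -⟩ := (conn_univ hs 1 τ).path
  obtain ⟨c0, h0⟩ := fin_ab h γ
  have g1 : ∀ k : ℕ, Ab h (k - c0) (co (rt (τ ^ (k : ℤ)) γ)) := fun k g hg => by
    have := h0 _ (spt_rt.1 hg)
    rw [← _root_.zpow_neg, Γ.hz] at this
    omega
  refine ⟨lsum fun k => vs (rt (τ ^ (k : ℤ)) γ) J, fun a ha p hp => ?_⟩
  choose q q1 q2 using fun k : ℕ => Γ.path ha k
  have q3 : ∀ k : ℕ, Ab h k (co (q k)) := fun k g hg => (q2 k g hg).1.ge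
  choose y y1 y2 using fun k : ℕ => hc (k - c0)
    (q k + rt a (rt (τ ^ (k : ℤ)) γ) - q (k + 1) - rt (τ ^ (k : ℤ)) γ) (by
      simp only [mulVec_sub, mulVec_add, mulVec_rt, q1, hγ, rt_const, Nat.cast_succ, one_mul,
        add_comm (k : ℤ) 1, _root_.zpow_one_add]
      funext
      simp only [Pi.sub_apply, Pi.add_apply, Pi.zero_apply]
      abel) (by
      rw [co_sub, co_sub, co_add]
      refine ((((q3 k).mono (by omega)).add fun g hg => ?_).sub ((q3 _).mono (by omega))).sub (g1 k)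
      have := g1 k _ (spt_rt.1 hg)
      rwa [Γ.hμ _ (μ.inv_mem ha)] at this)
  obtain ⟨y', hy'⟩ := P.ex1 (p - q 0) (by rw [mulVec_sub, hp, q1]; simp)
  obtain ⟨c1, h1⟩ := fin_ab h y'
  have y3 : ∀ k : ℕ, Ab h (k - (c0 + c)) (vs (y k) J) := fun k =>
    R.ab Γ.hμ (Ab.mono (y2 k) (by omega))
  refine ⟨vs y' J + lsum fun k => vs (y k) J, (R.ind _).1.add fun m hm i g => ?_,
    (((R.ind y').2.lf).union fun k => ?_).mono (spt_add _ _), ⟨-(c1 + c0 + c),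
      ((R.ab Γ.hμ h1).mono (by omega)).add fun g hg => ?_⟩, ?_⟩
  · rw [lsum_eq y3 (K := (h g + (c0 + c)).toNat + 1) (by rw [Γ.hμ m hm]; omega),
      lsum_eq y3 (K := (h g + (c0 + c)).toNat + 1) (by omega)]
    exact Eqv.sum _ (fun k => (R.ind _).1) m hm i g
  · refine (Sm.biUnion (Set.finite_Iic (k + c0 + c)) fun j _ => (R.ind (y j)).2).mono ?_
    rintro g ⟨a1, a2⟩
    obtain ⟨j, hj⟩ := lsum_spt a1
    have := y3 j g hj
    have := a2.2
    exact Set.mem_biUnion (show j ≤ k + c0 + c by omega) hj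
  · obtain ⟨j, hj⟩ := lsum_spt hg
    have := y3 j g hj
    omega
  · funext i g
    obtain ⟨C, hC⟩ := lip_fin Γ.lip ((ms P.D2ᴴ).finite_toSet.image fun b => b⁻¹)
    set K := (h g + C + c0 + c).toNat + 1
    have e1 : act P.D2ᴴ (lsum fun k => vs (y k) J) i g =
        act P.D2ᴴ (∑ k ∈ Finset.range K, vs (y k) J) i g := act_loc _ _ _ _ (fun b hb j =>
      lsum_eq y3 (by have := hC b⁻¹ ⟨b, hb, rfl⟩ g; omega) j) i
    have e2 := lsum_eq (fun k => R.ab Γ.hμ (g1 k)) (g := g) (K := K) (by omega) i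
    have e3 : ∀ K, act P.D2ᴴ (∑ k ∈ Finset.range K, vs (y k) J) = vs (q 0) J - vs (q K) J +
        (J a⁻¹ - 1) • ∑ k ∈ Finset.range K, vs (rt (τ ^ (k : ℤ)) γ) J := fun K => by
      induction K with
      | zero => simp [act_zero']
      | succ n ih =>
        rw [Finset.sum_range_succ, Finset.sum_range_succ, act_add', ih, act_vs, y1, vs_sub, vs_sub,
          vs_add, R.rt ha, smul_add, sub_smul _ _ (vs _ J), one_smul]
        abel
    have e4 : vs (q K) J i g = 0 := spt_zero (fun z => by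
      have := R.ab Γ.hμ (q3 K) g z
      omega) i
    rw [act_add', act_vs, hy', vs_sub]
    simp only [Pi.add_apply, Pi.sub_apply, Pi.smul_apply, e1, e2, e3, e4]
    abel

theorem sm_diff (hs : Subgroup.closure (Set.range s) = ⊤) (Γ : Geo s F μ h τ) (U : Fin 1 → G → V)
    (lf : LF h μ (spt (act (D1 s) U))) (k : G) : Sm μ {f | f ∈ F ∧ U 0 (k * f) ≠ U 0 f} := by
  obtain ⟨K, K1, K2⟩ := (conn_univ hs k 1).fin
  obtain ⟨C, hC⟩ := Γ.fin K1
  refine (Sm.biUnion K1 fun x _ => (lf C).left x).mono fun f ⟨f1, f2⟩ => ?_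
  by_contra z
  refine f2 ?_
  have := (K2.map (Y' := {x | x * f⁻¹ ∈ K}) f fun x hx => by simpa using hx).cst U fun x hx e =>
    z (Set.mem_biUnion hx ⟨by simpa using e, hC _ hx f f1⟩)
  rwa [one_mul] at this

theorem far (Γ : Geo s F μ h τ) (U : Fin 1 → G → V) (lf : LF h μ (spt (act (D1 s) U))) {f : G}
    (hf : f ∈ F) (up : ∃ k, ∀ g, k ≤ h g → h (g * f) < k) :
    ∃ k, ∀ g g', k ≤ h g → k ≤ h g' → U 0 (g * f) = U 0 (g' * f) := by
  obtain ⟨k, hk⟩ := up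
  obtain ⟨B, hB⟩ := lf k.natAbs
  obtain ⟨C', hC⟩ := Γ.fin B.finite_toSet
  obtain ⟨C, conn⟩ := Γ.conn
  refine ⟨k.natAbs + 1 + C' + C, fun g g' e e' => ?_⟩
  refine ((conn _ (max (h g) (h g')) g ⟨e, le_max_left _ _⟩ g' ⟨e', le_max_right _ _⟩).map
    (Y' := {x | k.natAbs + 1 + C' ≤ h (x * f⁻¹)}) f fun x hx => ?_).cst U fun x hx z => ?_
  · have := hx.1
    simp only [Set.mem_ofPred_eq, mul_inv_cancel_right]
    omega
  · have hx : k.natAbs + 1 + C' ≤ h (x * f⁻¹) := hx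
    have a1 := hk (x * f⁻¹) (by omega)
    have a2 := Γ.inv1 f hf (x * f⁻¹) (by omega)
    rw [inv_mul_cancel_right] at a1 a2
    obtain ⟨b, b1, b2⟩ := hB x ⟨z, by omega, by omega⟩
    have := hC b b1 _ (F.mul_mem (Γ.le b2) (F.inv_mem hf))
    rw [← mul_assoc, mul_inv_cancel_left] at this
    omega

theorem eta (hs : Subgroup.closure (Set.range s) = ⊤) (Γ : Geo s F μ h τ) (R : Rp F J)
    (fr : Fr μ J) (U : Fin 1 → G → D) (lf : LF h μ (spt (act (D1 s) U))) (b : G → D)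
    (hU : ∀ m ∈ μ, ∀ g, U 0 (g * m) = U 0 g * J m + b m) {a0 : G} (ha0 : a0 ∈ μ)
    (inj : Function.Injective fun n : ℕ => a0 ^ n) (Z : Set G) (ZF : ∀ f ∈ Z, f ∈ F)
    (up : ∀ f ∈ Z, ∃ k, ∀ g, k ≤ h g → h (g * f) < k)
    (Zi : ∀ a ∈ μ, ∀ m ∈ μ, ∀ f ∈ Z, a * f * m ∈ Z) :
    ∃ η : G → D, (∀ m ∈ μ, ∀ f, η (f * m) = η f * J m) ∧ Sm μ (Function.support η) ∧
      (∀ f, f ∉ Z → η f = 0) ∧ ∀ a ∈ μ, ∀ f ∈ Z, η (a * f) - η f = U 0 (a * f) - U 0 f := by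
  classical
  choose! K hK using fun f hf => far Γ U lf (ZF f hf) (up f hf)
  set β : G → D := fun f => U 0 (τ ^ K f * f) with hβ
  have b1 : ∀ f ∈ Z, ∀ a ∈ μ, ∀ m ∈ μ, ∀ g, K f ≤ h g →
      U 0 (g * (a * f * m)) = β f * J m + b m := fun f hf a ha m hm g e => by
    rw [← mul_assoc, ← mul_assoc, hU m hm, hK f hf _ (τ ^ K f) (by rwa [Γ.hμ a ha]) (Γ.hz1 _).ge]
  have b0 : b 1 = 0 := by simpa [R.one] using hU 1 μ.one_mem 1
  have b2 : ∀ f ∈ Z, ∀ a ∈ μ, ∀ m ∈ μ, β (a * f * m) = β f * J m + b m := fun f hf a ha m hm => by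
    rw [← b1 f hf a ha m hm (τ ^ max (K f) (K (a * f * m))) (by rw [Γ.hz1]; exact le_max_left _ _)]
    exact hK _ (Zi a ha m hm f hf) _ _ (Γ.hz1 _).ge (by rw [Γ.hz1]; exact le_max_right _ _)
  set η : G → D := fun f => if f ∈ Z then U 0 f - β f else 0 with hη
  have n1 : ∀ m ∈ μ, ∀ f, η (f * m) = η f * J m := fun m hm f => by
    by_cases e : f ∈ Z
    · have := b2 f e 1 μ.one_mem m hm
      rw [one_mul] at this
      simp only [hη, if_pos e, if_pos (one_mul f ▸ Zi 1 μ.one_mem m hm f e), this, hU m hm, sub_mul]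
      abel
    · simp only [hη, if_neg e, zero_mul]
      exact if_neg fun z => e (by simpa using Zi 1 μ.one_mem _ (μ.inv_mem hm) _ z)
  have n2 : ∀ a ∈ μ, ∀ f ∈ Z, η (a * f) - η f = U 0 (a * f) - U 0 f := fun a ha f hf => by
    have := b2 f hf a ha 1 μ.one_mem
    rw [mul_one, R.one, mul_one, b0, add_zero] at this
    simp only [hη, if_pos hf, if_pos (mul_one (a * f) ▸ Zi a ha 1 μ.one_mem f hf), this]
    abel
  have n3 : ∀ f ∈ Z, ∀ a ∈ μ, ∀ m ∈ μ, η (a * f * m) ≠ 0 →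
      a * f * m ∈ {x | x ∈ F ∧ U 0 (τ ^ K f * x) ≠ U 0 x} := fun f hf a ha m hm e =>
    ⟨ZF _ (Zi a ha m hm f hf), fun z => e (by
      simp only [hη, if_pos (Zi a ha m hm f hf)]
      rw [← z, b1 f hf a ha m hm _ (Γ.hz1 _).ge, b2 f hf a ha m hm, sub_self])⟩
  refine ⟨η, n1, ?_, fun f hf => if_neg hf, n2⟩
  obtain ⟨B, hB⟩ := sm_diff hs Γ U lf a0
  refine (Sm.biUnion B.finite_toSet fun x _ => sm_diff hs Γ U lf (τ ^ K x)).mono fun f hf => ?_
  have fZ : f ∈ Z := by_contra fun z => hf (if_neg z)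
  have pZ : ∀ n : ℕ, a0 ^ n * f ∈ Z := fun n =>
    mul_one (a0 ^ n * f) ▸ Zi _ (μ.pow_mem ha0 n) 1 μ.one_mem f fZ
  obtain ⟨n, hn⟩ : ∃ n : ℕ, U 0 (a0 * (a0 ^ n * f)) ≠ U 0 (a0 ^ n * f) := by
    by_contra z
    push Not at z
    have e : ∀ n : ℕ, η (a0 ^ n * f) = η f := fun n => by
      induction n with
      | zero => simp
      | succ n ih =>
        rw [pow_succ', mul_assoc, ← ih, ← sub_eq_zero, n2 a0 ha0 _ (pZ n), z, sub_self]
    obtain ⟨B', hB'⟩ := sm_diff hs Γ U lf (τ ^ K f)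
    choose x x1 x2 using fun n : ℕ => hB' _ (n3 f fZ _ (μ.pow_mem ha0 n) 1 μ.one_mem (by
      rw [mul_one, e]; exact hf))
    obtain ⟨n, n', ne, e'⟩ := Finite.exists_ne_map_eq_of_infinite fun n => (⟨x n, x1 n⟩ : B')
    have e' : x n = x n' := congrArg Subtype.val e'
    have hm := μ.mul_mem (μ.inv_mem (x2 n)) (x2 n')
    rw [e'] at hm
    have := n1 _ hm (a0 ^ n * f)
    rw [show a0 ^ n * f * (((x n')⁻¹ * (a0 ^ n * f * 1))⁻¹ * ((x n')⁻¹ * (a0 ^ n' * f * 1))) =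
      a0 ^ n' * f by group, e, e] at this
    refine hf (fr.free _ hm (fun z => ne (inj ?_)) _ this.symm)
    simpa using eq_of_inv_mul_eq_one z
  obtain ⟨x, x1, x2⟩ := hB _ ⟨ZF _ (pZ n), hn⟩
  have xZ : x ∈ Z := by simpa [mul_assoc] using Zi 1 μ.one_mem _ (μ.inv_mem x2) _ (pZ n)
  have := n3 x xZ _ (μ.inv_mem (μ.pow_mem ha0 n)) _ x2
  rw [show (a0 ^ n)⁻¹ * x * (x⁻¹ * (a0 ^ n * f)) = f by group] at this
  exact Set.mem_biUnion x1 (this hf)

end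

end Pool.Agent.Lib.MP_4269b5_al.Ag
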