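import Mathlib

/-! Matrix form of the low degree part of a projective resolution, twisted derivations. -/

namespace Pool.Agent.Lib.MP_4269b5_al

open Matrix

noncomputable section

/-- the integral group ring -/
abbrev ZG (G : Type) [Group G] : Type := MonoidAlgebra ℤ G

variable {G : Type} [Group G]

/-- group elements in the group ring -/
def og : G →* ZG G := MonoidAlgebra.of ℤ G

theorem ZG.ind {p : ZG G → Prop} (h0 : p 0) (ha : ∀ x y, p x → p y → p (x + y))
    (hs : ∀ (r : ℤ) (g : G), p (r • og g)) (x : ZG G) : p x :=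
  MonoidAlgebra.induction_linear x h0 ha fun g r => by
    rw [← MonoidAlgebra.smul_of]; exact hs r g

/-- the twisted augmentation -/
def εw (w : G →* ℤˣ) : ZG G →+* ℤ :=
  (MonoidAlgebra.lift ℤ ℤ G ((Units.coeHom ℤ).comp w)).toRingHom

theorem εw_og (w : G →* ℤˣ) (g : G) : εw w (og g) = w g := MonoidAlgebra.lift_of _ _

/-- additive extension of a function on the group -/
def dext {M : Type} [AddCommGroup M] (Z : G → M) : ZG G →ₗ[ℤ] M :=
  Finsupp.linearCombination ℤ Z ∘ₗ (MonoidAlgebra.coeffLinearEquiv ℤ).toLinearMap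

theorem dext_og {M : Type} [AddCommGroup M] (Z : G → M) (g : G) : dext Z (og g) = Z g := by
  have : dext Z (og g) = Finsupp.linearCombination ℤ Z (Finsupp.single g 1) := rfl
  rw [this, Finsupp.linearCombination_single, one_smul]

section Der

variable {B : Type} [Ring B] {M : Type} [AddCommGroup M] [Module B M]

/-- twisted derivations -/
def IsDer (ι : ZG G →+* B) (w : G →* ℤˣ) (Z : G → M) : Prop :=
  ∀ g k, Z (g * k) = ι (og g) • Z k + (w k : ℤ) • Z g

variable {ι : ZG G →+* B} {w : G →* ℤˣ} {Z : G → M}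

theorem IsDer.one (h : IsDer ι w Z) : Z 1 = 0 := by
  have := h 1 1
  simpa using this

theorem IsDer.mul (h : IsDer ι w Z) (a x : ZG G) :
    dext Z (a * x) = ι a • dext Z x + εw w x • dext Z a := by
  refine ZG.ind (p := fun a => dext Z (a * x) = ι a • dext Z x + εw w x • dext Z a) (by simp)
    (fun a b ha hb => ?_) (fun r g => ?_) a
  · rw [add_mul, map_add, ha, hb, map_add, map_add, add_smul, smul_add]; abel
  refine ZG.ind (p := fun x => dext Z (r • og g * x) =
    ι (r • og g) • dext Z x + εw w x • dext Z (r • og g)) (by simp)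
    (fun a b ha hb => ?_) (fun s k => ?_) x
  · rw [mul_add, map_add, ha, hb, map_add, map_add, add_smul, smul_add]; abel
  · rw [smul_mul_assoc, mul_smul_comm, ← map_mul]
    simp only [map_zsmul, dext_og, εw_og, h g k, smul_add, smul_assoc, smul_comm (ι (og g)) s,
      smul_comm r s, smul_comm r (w k : ℤ)]

theorem IsDer.sub_w (h : IsDer ι w Z) (g : G) : dext Z (og g - ((w g : ℤ) : ZG G)) = Z g := by
  have : ((w g : ℤ) : ZG G) = (w g : ℤ) • og 1 := by simp
  rw [map_sub, this, map_zsmul, dext_og, dext_og, h.one, smul_zero, sub_zero]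

theorem IsDer.closure (h : IsDer ι w Z) (s : Set G) (hs : ∀ g ∈ s, Z g = 0) :
    ∀ g ∈ Subgroup.closure s, Z g = 0 := fun g hg => by
  induction hg using Subgroup.closure_induction with
  | mem x hx => exact hs x hx
  | one => exact h.one
  | mul x y _ _ a b => rw [h, a, b, smul_zero, smul_zero, add_zero]
  | inv x _ a =>
    have := h x⁻¹ x
    rw [inv_mul_cancel, h.one, a, smul_zero, zero_add] at this
    have h2 : ((w x)⁻¹ : ℤˣ).1 • (w x : ℤ) • Z x⁻¹ = 0 := by rw [← this, smul_zero]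
    rwa [smul_smul, Units.inv_mul, one_smul] at h2

theorem mat_kill {n : Type} [Fintype n] [DecidableEq n] (J P : Matrix n n B) (h : J * P = 1)
    (m : n → M) (hm : ∀ k, ∑ j, P k j • m j = 0) (i : n) : m i = 0 := by
  have : ∑ k, J i k • ∑ j, P k j • m j = ∑ j, (J * P) i j • m j := by
    simp only [Finset.smul_sum, mul_apply, Finset.sum_smul, smul_smul]
    exact Finset.sum_comm
  simp only [hm, smul_zero, Finset.sum_const_zero, h, one_apply, ite_smul, one_smul, zero_smul,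
    Finset.sum_ite_eq, Finset.mem_univ, if_true] at this
  exact this.symm

end Der

theorem fox {r : Type} [Fintype r] (w : G →* ℤˣ) (h : r → G) (x : G)
    (hx : x ∈ Subgroup.closure (Set.range h)) :
    ∃ W : r → ZG G, (∀ j, W j ∈ Subring.closure (og '' (Subgroup.closure (Set.range h) : Set G))) ∧
      og x - ((w x : ℤ) : ZG G) = ∑ j, W j * (og (h j) - ((w (h j) : ℤ) : ZG G)) := by
  set S := Subring.closure (og '' (Subgroup.closure (Set.range h) : Set G))
  have mem : ∀ y ∈ Subgroup.closure (Set.range h), og y ∈ S := fun y hy =>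
    Subring.subset_closure ⟨y, hy, rfl⟩
  have : og x - ((w x : ℤ) : ZG G) ∈
      Submodule.span S (Set.range fun j => og (h j) - ((w (h j) : ℤ) : ZG G)) := by
    induction hx using Subgroup.closure_induction with
    | mem y hy =>
      obtain ⟨j, rfl⟩ := hy
      exact Submodule.subset_span ⟨j, rfl⟩
    | one => simp
    | mul y z hy _ a b =>
      have e : og (y * z) - ((w (y * z) : ℤ) : ZG G) =
          (⟨og y, mem y hy⟩ : S) • (og z - ((w z : ℤ) : ZG G)) +
            (w z : ℤ) • (og y - ((w y : ℤ) : ZG G)) := by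
        rw [Subring.smul_def, smul_eq_mul, zsmul_eq_mul, map_mul, map_mul, Units.val_mul,
          Int.cast_mul, mul_sub, mul_sub, (Int.cast_commute _ (og y)).eq,
          (Int.cast_commute _ ((w y : ℤ) : ZG G)).eq]
        abel
      rw [e]
      exact add_mem (Submodule.smul_mem _ _ b) (zsmul_mem a _)
    | inv y hy a =>
      have e : og y⁻¹ - ((w y⁻¹ : ℤ) : ZG G) =
          (-(w y⁻¹ : ℤ)) • (⟨og y⁻¹, mem _ (inv_mem hy)⟩ : S) • (og y - ((w y : ℤ) : ZG G)) := by
        rw [Subring.smul_def, smul_eq_mul, mul_sub, ← map_mul, inv_mul_cancel, map_one,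
          ← (Int.cast_commute _ (og y⁻¹)).eq, ← zsmul_eq_mul, smul_sub, smul_smul, neg_mul,
          ← Units.val_mul, ← map_mul, inv_mul_cancel, map_one]
        simp [sub_eq_add_neg, add_comm]
      rw [e]
      exact zsmul_mem (Submodule.smul_mem _ _ a) _
  obtain ⟨c, hc⟩ := (Submodule.mem_span_range_iff_exists_fun S).1 this
  exact ⟨fun j => c j, fun j => (c j).2, hc.symm⟩

variable {n0 n1 n2 : Type} [Fintype n0] [Fintype n1] [Fintype n2]

/-- the degree at most one part of a projective resolution of the twisted integers -/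
structure IsHalf (w : G →* ℤˣ) (e0 : Matrix n0 n0 (ZG G)) (e1 : Matrix n1 n1 (ZG G))
    (D1 : Matrix n1 n0 (ZG G)) (D2 : Matrix n2 n1 (ZG G)) (aug : (n0 → ZG G) →+ ℤ) : Prop where
  i0 : e0 * e0 = e0
  i1 : e1 * e1 = e1
  De0 : D1 * e0 = D1
  eD1 : e1 * D1 = D1
  DD : D2 * D1 = 0
  aug_smul : ∀ g x, aug (og g • x) = w g * aug x
  aug_surj : ∃ p, p ᵥ* e0 = p ∧ aug p = 1
  aug_D : ∀ y, aug (y ᵥ* D1) = 0
  ex0 : ∀ x, x ᵥ* e0 = x → aug x = 0 → ∃ y, y ᵥ* D1 = x
  ex1 : ∀ x, x ᵥ* e1 = x → x ᵥ* D1 = 0 → ∃ y, y ᵥ* D2 = x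

variable {w : G →* ℤˣ} {e0 : Matrix n0 n0 (ZG G)} {e1 : Matrix n1 n1 (ZG G)}
  {D1 : Matrix n1 n0 (ZG G)} {D2 : Matrix n2 n1 (ZG G)} {aug : (n0 → ZG G) →+ ℤ}

theorem IsHalf.aug_smul' (h : IsHalf w e0 e1 D1 D2 aug) (a : ZG G) (x : n0 → ZG G) :
    aug (a • x) = εw w a * aug x :=
  ZG.ind (p := fun a => aug (a • x) = εw w a * aug x) (by simp)
    (fun a b ha hb => by rw [add_smul, map_add, ha, hb, map_add, add_mul])
    (fun r g => by rw [smul_assoc, map_zsmul, h.aug_smul, map_zsmul, εw_og, smul_mul_assoc]) a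

theorem row_vecMul {R m n k : Type} [Ring R] [Fintype n] (X : Matrix m n R) (Y : Matrix n k R)
    (i : m) : X i ᵥ* Y = (X * Y) i := rfl

theorem IsHalf.data (h : IsHalf w e0 e1 D1 D2 aug) :
    ∃ (α p : n0 → ZG G) (h0 : Matrix n0 n1 (ZG G)) (y : G → n1 → ZG G),
      e0 = vecMulVec α p + h0 * D1 ∧ h0 * e1 = h0 ∧
      (∀ g, y g ᵥ* D1 = (og g - ((w g : ℤ) : ZG G)) • p) ∧ (∀ g, y g ᵥ* e1 = y g) ∧
      (∀ k, εw w ((D1 *ᵥ α) k) = 0) ∧ εw w (p ⬝ᵥ α) = 1 := by
  obtain ⟨p, p0, p1⟩ := h.aug_surj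
  have c0 : ∀ j, ∃ z, z ᵥ* D1 = e0 j - ((aug (e0 j) : ℤ) : ZG G) • p := fun j =>
    h.ex0 _ (by rw [sub_vecMul, smul_vecMul, p0, row_vecMul, h.i0])
      (by rw [map_sub, h.aug_smul', p1]; simp)
  have c1 : ∀ g, ∃ z, z ᵥ* D1 = (og g - ((w g : ℤ) : ZG G)) • p := fun g =>
    h.ex0 _ (by rw [smul_vecMul, p0]) (by rw [h.aug_smul', map_sub, εw_og]; simp)
  choose z hz using c0
  choose y hy using c1
  have E : e0 = vecMulVec (fun j => ((aug (e0 j) : ℤ) : ZG G)) p + (Matrix.of z * e1) * D1 := by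
    rw [Matrix.mul_assoc, h.eD1]
    ext1 j k
    have := congrFun (hz j) k
    rw [Matrix.add_apply, ← row_vecMul]
    change _ = _ + (z j ᵥ* D1) k
    rw [this]
    simp [vecMulVec_apply]
  have F : ∀ x : n0 → ZG G, x ᵥ* e0 = x →
      aug x = εw w (x ⬝ᵥ fun j => ((aug (e0 j) : ℤ) : ZG G)) := fun x hx => by
    conv_lhs => rw [← hx, E]
    rw [vecMul_add, vecMul_vecMulVec, ← vecMul_vecMul, map_add, h.aug_D, add_zero,
      h.aug_smul', p1, mul_one]
  refine ⟨_, p, _, fun g => y g ᵥ* e1, E, by rw [Matrix.mul_assoc, h.i1], fun g => by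
    rw [vecMul_vecMul, h.eD1, hy], fun g => by rw [vecMul_vecMul, h.i1], fun k => ?_, ?_⟩
  · have := F (D1 k) (by rw [row_vecMul, h.De0])
    have h2 : D1 k = e1 k ᵥ* D1 := by rw [row_vecMul, h.eD1]
    rw [h2, h.aug_D, ← h2] at this
    exact this.symm
  · rw [← F p p0, p1]

variable {B : Type} [Ring B] (ι : ZG G →+* B)

theorem map_vecMul' {m n : Type} [Fintype m] (x : m → ZG G) (X : Matrix m n (ZG G)) :
    (ι ∘ x) ᵥ* X.map ι = ι ∘ (x ᵥ* X) := by
  ext k
  exact (RingHom.map_vecMul ι X x k).symm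

theorem map_smul_vec {m : Type} (a : ZG G) (x : m → ZG G) : ι ∘ (a • x) = ι a • (ι ∘ x) := by
  ext k
  simp

theorem IsHalf.L0 (h : IsHalf w e0 e1 D1 D2 aug) (t : G) (v : B)
    (hv : v * (ι (og t) - ((w t : ℤ) : B)) = 1) :
    ∃ S : Matrix n0 n1 B, e0.map ι = S * D1.map ι := by
  obtain ⟨α, p, h0, y, E, -, hy, -, -, -⟩ := h.data
  refine ⟨vecMulVec (ι ∘ α) (v • (ι ∘ y t)) + h0.map ι, ?_⟩
  rw [Matrix.add_mul, vecMulVec_mul, smul_vecMul, map_vecMul', hy, map_smul_vec, smul_smul,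
    map_sub, map_intCast, hv, one_smul, ← Matrix.map_mul, E]
  ext j k
  simp only [map_apply, Matrix.add_apply, vecMulVec_apply, map_add, map_mul, Function.comp]

theorem IsHalf.L1 (h : IsHalf w e0 e1 D1 D2 aug) (t : G) (v : B)
    (hv' : (ι (og t) - ((w t : ℤ) : B)) * v = 1)
    (good : ∀ (M : Type) [AddCommGroup M] [Module B M] (Z : G → M), IsDer ι w Z → Z t = 0 →
      ∀ g, Z g = 0) :
    ∃ (S : Matrix n0 n1 B) (S' : Matrix n1 n2 B), e1.map ι = D1.map ι * S + S' * D2.map ι := by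
  obtain ⟨α, p, h0, y, E, he, hy, ye, hβ, -⟩ := h.data
  set N : Submodule B (n1 → B) := LinearMap.range (D2.map ι).vecMulLinear
  have memN : ∀ x : n1 → ZG G, x ᵥ* e1 = x → x ᵥ* D1 = 0 → ι ∘ x ∈ N := fun x h1 h2 => by
    obtain ⟨z, hz⟩ := h.ex1 x h1 h2
    exact ⟨ι ∘ z, by rw [vecMulLinear_apply, map_vecMul', hz]⟩
  set Z : G → (n1 → B) ⧸ N := fun g =>
    N.mkQ (ι ∘ y g - ((ι (og g) - ((w g : ℤ) : B)) * v) • (ι ∘ y t)) with hZ
  have der : IsDer ι w Z := fun g k => by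
    have h1 := memN (y (g * k) - og g • y k - (w k : ℤ) • y g)
      (by simp only [sub_vecMul, smul_vecMul, ye])
      (by
        simp only [sub_vecMul, smul_vecMul, hy, smul_smul, ← smul_assoc, ← sub_smul]
        have : og (g * k) - ((w (g * k) : ℤ) : ZG G) - og g * (og k - ((w k : ℤ) : ZG G)) -
            (w k : ℤ) • (og g - ((w g : ℤ) : ZG G)) = 0 := by
          rw [zsmul_eq_mul, map_mul, map_mul, Units.val_mul, Int.cast_mul, mul_sub, mul_sub,
            (Int.cast_commute _ (og g)).eq, (Int.cast_commute _ ((w g : ℤ) : ZG G)).eq]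
          abel
        rw [this, zero_smul])
    simp only [hZ, ← map_smul, ← map_zsmul, ← map_add]
    rw [Submodule.mkQ_apply, Submodule.mkQ_apply, Submodule.Quotient.eq]
    convert h1 using 1
    ext j
    simp only [Pi.sub_apply, Pi.add_apply, Pi.smul_apply, Function.comp]
    simp only [smul_eq_mul, map_sub, map_mul, zsmul_eq_mul, Units.val_mul, Int.cast_mul, map_intCast, mul_sub, sub_mul,
      ← mul_assoc, (Int.cast_commute (w k : ℤ) (ι (og g))).eq,
      (Int.cast_commute (w k : ℤ) ((w g : ℤ) : B)).eq]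
    abel
  have Z0 := good _ Z der (by simp only [hZ, hv', one_smul, sub_self, map_zero])
  have ext : ∀ a : ZG G, (dext y a ᵥ* D1 = (a - ((εw w a : ℤ) : ZG G)) • p ∧
      dext y a ᵥ* e1 = dext y a) ∧
      ι ∘ dext y a - ((ι a - ((εw w a : ℤ) : B)) * v) • (ι ∘ y t) ∈ N := fun a => by
    refine ZG.ind (p := fun a => (dext y a ᵥ* D1 = (a - ((εw w a : ℤ) : ZG G)) • p ∧
      dext y a ᵥ* e1 = dext y a) ∧
      ι ∘ dext y a - ((ι a - ((εw w a : ℤ) : B)) * v) • (ι ∘ y t) ∈ N) ?_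
      (fun a b ha hb => ⟨⟨?_, ?_⟩, ?_⟩) (fun r g => ⟨⟨?_, ?_⟩, ?_⟩) a
    · have : ι ∘ (0 : n1 → ZG G) = 0 := by ext; simp
      simp [this]
    · rw [map_add, add_vecMul, ha.1.1, hb.1.1, ← add_smul, map_add, Int.cast_add]
      congr 1; abel
    · rw [map_add, add_vecMul, ha.1.2, hb.1.2]
    · convert add_mem ha.2 hb.2 using 1
      ext j
      simp only [Pi.sub_apply, Pi.add_apply, Pi.smul_apply, Function.comp, smul_eq_mul, map_add,
        Int.cast_add, sub_mul, add_mul]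
      abel
    · rw [map_zsmul, dext_og, smul_vecMul, hy, map_zsmul, εw_og, ← smul_assoc, smul_sub]
      simp
    · rw [map_zsmul, dext_og, smul_vecMul, ye]
    · have := zsmul_mem ((Submodule.Quotient.mk_eq_zero N).1 (Z0 g)) r
      convert this using 1
      ext j
      simp only [Pi.sub_apply, Pi.smul_apply, Function.comp, map_zsmul, dext_og, εw_og]
      simp only [smul_eq_mul, zsmul_eq_mul, Int.cast_mul, mul_sub, sub_mul, mul_assoc]
  have row : ∀ k, ∃ z : n2 → B, z ᵥ* D2.map ι = (e1.map ι) k -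
      (D1.map ι * (vecMulVec (ι ∘ α) (v • (ι ∘ y t)) + h0.map ι)) k := fun k => by
    obtain ⟨⟨a1, a2⟩, a3⟩ := ext ((D1 *ᵥ α) k)
    rw [hβ, Int.cast_zero, sub_zero] at a1 a3
    have h1 := memN (e1 k - dext y ((D1 *ᵥ α) k) - (D1 * h0) k)
      (by rw [sub_vecMul, sub_vecMul, a2, row_vecMul, row_vecMul, h.i1, Matrix.mul_assoc, he])
      (by
        rw [sub_vecMul, sub_vecMul, a1, row_vecMul, row_vecMul, h.eD1]
        have : D1 = vecMulVec (D1 *ᵥ α) p + D1 * h0 * D1 := by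
          conv_lhs => rw [← h.De0, E]
          rw [Matrix.mul_add, mul_vecMulVec, Matrix.mul_assoc]
        ext1 j
        have := congrFun (congrFun this k) j
        simp only [Pi.sub_apply, Pi.smul_apply, smul_eq_mul, Pi.zero_apply]
        rw [this, Matrix.add_apply, vecMulVec_apply]
        abel)
    obtain ⟨z, hz⟩ := add_mem h1 a3
    refine ⟨z, hz.trans ?_⟩
    rw [Matrix.mul_add, mul_vecMulVec, ← Matrix.map_mul]
    ext j
    simp only [Pi.sub_apply, Pi.add_apply, Pi.smul_apply, Function.comp, smul_eq_mul, map_sub,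
      map_apply, Matrix.add_apply, vecMulVec_apply, RingHom.map_mulVec, mul_assoc]
    abel
  choose z hz using row
  refine ⟨vecMulVec (ι ∘ α) (v • (ι ∘ y t)) + h0.map ι, Matrix.of z, ?_⟩
  ext1 k j
  have := congrFun (hz k) j
  rw [Matrix.add_apply, ← row_vecMul (Matrix.of z)]
  change _ = _ + (z k ᵥ* D2.map ι) j
  rw [this]
  simp

theorem IsHalf.F0 (h : IsHalf 1 e0 e1 D1 D2 aug) (S : Matrix n0 n1 B) (S' : Matrix n1 n2 B)
    (hS : e1.map ι = D1.map ι * S + S' * D2.map ι) {M : Type} [AddCommGroup M] [Module B M]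
    (Z : G → M) (hZ : IsDer ι 1 Z) : ∃ m : M, ∀ g, Z g = (ι (og g) - 1) • m := by
  obtain ⟨α, p, h0, y, -, -, hy, ye, hβ, hπ⟩ := h.data
  set Φ : (n1 → B) →ₗ[B] M := Fintype.linearCombination B fun k => dext Z ((D1 *ᵥ α) k)
  have Φι : ∀ x : n1 → ZG G, Φ (ι ∘ x) = dext Z ((x ᵥ* D1) ⬝ᵥ α) := fun x => by
    rw [← dotProduct_mulVec, dotProduct, map_sum, Fintype.linearCombination_apply]
    exact Finset.sum_congr rfl fun k _ => by rw [hZ.mul, hβ, zero_smul, add_zero]; rfl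
  have Φ2 : ∀ z : n2 → B, Φ (z ᵥ* D2.map ι) = 0 := fun z => by
    rw [vecMul_eq_sum, map_sum]
    refine Finset.sum_eq_zero fun i _ => ?_
    have : D2.map ι i = ι ∘ D2 i := rfl
    have h0 : (0 : Matrix n2 n0 (ZG G)) i = 0 := rfl
    rw [map_smul, this, Φι, row_vecMul, h.DD, h0, zero_dotProduct, map_zero, smul_zero]
  refine ⟨Φ ((ι ∘ p) ᵥ* S) - dext Z (p ⬝ᵥ α), fun g => ?_⟩
  have h1 : Φ (ι ∘ y g) = (ι (og g) - 1) • Φ ((ι ∘ p) ᵥ* S) := by
    conv_lhs => rw [← ye, ← map_vecMul', hS]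
    rw [vecMul_add, ← vecMul_vecMul, ← vecMul_vecMul, map_add, Φ2, add_zero, map_vecMul', hy,
      map_smul_vec, smul_vecMul, map_smul]
    simp
  have h2 := hZ.sub_w g
  rw [Φι, hy, smul_dotProduct, smul_eq_mul, hZ.mul, hπ, one_smul, h2] at h1
  rw [smul_sub, ← h1]
  simp

end

end Pool.Agent.Lib.MP_4269b5_al
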