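import Pool.Agent.Lib.MP_4269b5_al.Mat

/-! From a projective resolution in the category of representations to modules. -/

namespace Pool.Agent.Lib.MP_4269b5_al

open CategoryTheory

noncomputable section

variable {G : Type} [Group G]

/-- the module over the group ring given by a representation -/
abbrev Md (A : Rep ℤ G) : ModuleCat (ZG G) := Rep.toModuleMonoidAlgebra.obj A

/-- a morphism of representations as a map of modules over the group ring -/
def toL {A B : Rep ℤ G} (f : A ⟶ B) : Md A →ₗ[ZG G] Md B :=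
  (Rep.toModuleMonoidAlgebra.map f).hom

theorem og_smul (A : Rep ℤ G) (g : G) (x : Md A) : og g • x = A.ρ g x :=
  DFunLike.congr_fun (@Representation.asAlgebraHom_of ℤ G A.V _ _ _ A.hV2 A.ρ g) x

/-- the regular representation as a module -/
def regE : Md (Rep.ofMulAction ℤ G G) ≃ₗ[ZG G] ZG G :=
  Representation.ofMulActionSelfAsModuleEquiv (k := ℤ) (G := G)

/-- morphisms to the regular representation as functionals -/
def toF {A : Rep ℤ G} (f : A ⟶ Rep.ofMulAction ℤ G G) : Md A →ₗ[ZG G] ZG G :=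
  regE.toLinearMap ∘ₗ toL f

theorem toF_inj {A : Rep ℤ G} {f g : A ⟶ Rep.ofMulAction ℤ G G} (h : toF f = toF g) : f = g :=
  Rep.toModuleMonoidAlgebra.map_injective (ModuleCat.hom_ext (LinearMap.ext fun x =>
    regE.injective (DFunLike.congr_fun h x)))

theorem toF_surj {A : Rep ℤ G} (c : Md A →ₗ[ZG G] ZG G) : ∃ f, toF f = c := by
  obtain ⟨f, hf⟩ := (Rep.toModuleMonoidAlgebra (k := ℤ) (G := G)).map_surjective
    (X := A) (Y := Rep.ofMulAction ℤ G G) (ModuleCat.ofHom (regE.symm.toLinearMap ∘ₗ c))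
  refine ⟨f, ?_⟩
  rw [toF, toL, hf]
  ext1 x
  exact regE.apply_symm_apply _

theorem exact_apply (S : ShortComplex (Rep ℤ G)) (h : S.Exact) (x : S.X₂.V)
    (hx : S.g.hom x = 0) : ∃ y, S.f.hom y = x :=
  (ShortComplex.moduleCat_exact_iff _).1 (h.map Rep.toModuleMonoidAlgebra) x hx

theorem matData (P : ProjectiveResolution (Rep.trivial ℤ G ℤ))
    (hN : ∃ N : ℕ, ∀ i, N < i → Limits.IsZero (P.complex.X i))
    (fin : ∀ i, Module.Finite (ZG G) (Md (P.complex.X i)))
    (h0 : ∀ i : ℕ, i ≠ 3 → Subsingleton (groupCohomology (Rep.ofMulAction ℤ G G) i))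
    (h3 : Nonempty (groupCohomology (Rep.ofMulAction ℤ G G) 3 ≃+ ℤ)) : MatData G := by
  obtain ⟨N, hN⟩ := hN
  obtain ⟨e⟩ := h3
  have proj : ∀ i, Module.Projective (ZG G) (Md (P.complex.X i)) := fun i =>
    (IsProjective.iff_projective _).2
      ((Rep.equivalenceModuleMonoidAlgebra.map_projective_iff (P.complex.X i)).2 inferInstance)
  set K := P.complex.linearYonedaObj ℤ (Rep.ofMulAction ℤ G G)
  have iso := fun i => groupCohomologyIso (Rep.ofMulAction ℤ G G) i P
  have cz : ∀ i (f : P.complex.X (i + 1) ⟶ Rep.ofMulAction ℤ G G),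
      (K.d (i + 1) (i + 2)).hom f = 0 ↔ toF f ∘ₗ toL (P.complex.d (i + 2) (i + 1)) = 0 :=
    fun i f => ⟨fun h => congrArg toF h, fun h => toF_inj h⟩
  have cb : ∀ i (f : P.complex.X (i + 1) ⟶ Rep.ofMulAction ℤ G G),
      (∃ f', (K.d i (i + 1)).hom f' = f) ↔ ∃ c', c' ∘ₗ toL (P.complex.d (i + 1) i) = toF f :=
    fun i f => ⟨fun ⟨f', h⟩ => ⟨toF f', congrArg toF h⟩, fun ⟨c', h⟩ => by
      obtain ⟨f', rfl⟩ := toF_surj c'
      exact ⟨f', toF_inj h⟩⟩
  choose ofF hF using fun c => toF_surj (A := P.complex.X 3) c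
  set S := K.sc' 2 3 4
  set φ : S.moduleCatLeftHomologyData.H ≅ groupCohomology (Rep.ofMulAction ℤ G G) 3 :=
    S.moduleCatHomologyIso.symm ≪≫ (K.homologyIsoSc' 2 3 4 (by simp) (by simp)).symm ≪≫
      (iso 3).symm
  set ψ : LinearMap.ker S.g.hom →+ ℤ := e.toAddMonoidHom.comp
    (φ.hom.hom ∘ₗ (LinearMap.range S.moduleCatToCycles).mkQ).toAddMonoidHom
  have ψ1 : Function.Surjective ψ :=
    e.surjective.comp (φ.toLinearEquiv.surjective.comp (Submodule.mkQ_surjective _))
  have ψ2 : ∀ x, ψ x = 0 ↔ ∃ y, S.f.hom y = x.1 := fun x => by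
    have : ψ x = e (φ.toLinearEquiv ((LinearMap.range S.moduleCatToCycles).mkQ x)) := rfl
    rw [this, map_eq_zero_iff _ e.injective, map_eq_zero_iff _ φ.toLinearEquiv.injective]
    refine (Submodule.Quotient.mk_eq_zero _).trans (exists_congr fun y => Subtype.ext_iff)
  classical
  refine many (fun i => Md (P.complex.X i)) (fun i => toL (P.complex.d (i + 1) i))
    (fun i y => ?_) (fun i x hx => exact_apply _ (P.exact_succ i) x hx) N (fun i hi => ?_)
    (fun i hi c hc => ?_) (toL (P.π.f 0)).toAddMonoidHom (fun g x => ?_) ?_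
    (fun y => ?_) (fun x hx => exact_apply _ P.exact₀ x hx)
    (fun c => if h : c ∘ₗ toL (P.complex.d 4 3) = 0 then
      ψ ⟨ofF c, (cz 2 _).2 (by rwa [hF])⟩ else 0) (fun c c' a b => ?_) ?_ fun c a => ?_
  · exact congrArg (fun f => toL f y) (P.complex.d_comp_d (i + 2) (i + 1) i)
  · exact ModuleCat.isZero_iff_subsingleton.1
      (Rep.toModuleMonoidAlgebra.map_isZero (hN i hi))
  · obtain ⟨f, rfl⟩ := toF_surj c
    have z : Limits.IsZero (K.homology (i + 1)) :=
      (ModuleCat.isZero_iff_subsingleton.2 (h0 (i + 1) (by omega))).of_iso (iso _).symm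
    have ex := (K.exactAt_iff' i (i + 1) (i + 2) (by simp) (by simp)).1
      ((K.exactAt_iff_isZero_homology _).2 z)
    exact (cb i f).1 ((ShortComplex.moduleCat_exact_iff _).1 ex f ((cz i f).2 hc))
  · rw [og_smul]
    exact Rep.hom_comm_apply (P.π.f 0) g x
  · exact (ModuleCat.epi_iff_surjective (Rep.toModuleMonoidAlgebra.map (P.π.f 0))).1
      inferInstance (1 : ℤ)
  · exact congrArg (fun f => toL f y) P.complex_d_comp_π_f_zero
  · have ab : (c + c') ∘ₗ toL (P.complex.d 4 3) = 0 := by rw [LinearMap.add_comp, a, b, add_zero]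
    rw [dif_pos a, dif_pos b, dif_pos ab, ← map_add]
    refine congrArg ψ (Subtype.ext (toF_inj ?_))
    rw [hF]
    conv_lhs => rw [← hF c, ← hF c']
    rfl
  · obtain ⟨x, hx⟩ := ψ1 1
    have a := (cz 2 x.1).1 x.2
    refine ⟨toF x.1, a, ?_⟩
    rw [dif_pos a, ← hx]
    exact congrArg ψ (Subtype.ext (toF_inj (hF _)))
  · rw [dif_pos a, ψ2]
    refine (cb 2 _).trans ?_
    rw [hF]

end

end Pool.Agent.Lib.MP_4269b5_al
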