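import Pool.Agent.Lib.MP_4269b5_al.Kap
import Pool.Agent.Lib.MP_4269b5_al.Alg

/-! The main argument in matrix form. -/

namespace Pool.Agent.Lib.MP_4269b5_al

open Matrix

noncomputable section

variable {G : Type} [Group G]

/-- the involution of the group ring as a ring map to the opposite ring -/
def barHom : ZG G →+* (ZG G)ᵐᵒᵖ :=
  (MonoidAlgebra.lift ℤ (ZG G)ᵐᵒᵖ G
    { toFun := fun g => MulOpposite.op (og g⁻¹)
      map_one' := by simp
      map_mul' := fun g k => by simp }).toRingHom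

theorem barHom_og (g : G) : barHom (og g) = MulOpposite.op (og g⁻¹) := MonoidAlgebra.lift_of _ _

instance : StarRing (ZG G) where
  star a := (barHom a).unop
  star_involutive a :=
    ZG.ind (p := fun a => (barHom (barHom a).unop).unop = a) (by simp)
      (fun a b ha hb => by simp only [map_add, MulOpposite.unop_add, ha, hb])
      (fun r g => by simp only [map_zsmul, MulOpposite.unop_smul, barHom_og, MulOpposite.unop_op,
        inv_inv]) a
  star_mul a b := by simp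
  star_add a b := by simp

theorem star_og (g : G) : star (og g) = og g⁻¹ := congrArg MulOpposite.unop (barHom_og g)

/-- weighted embedding of the group ring in the Banach algebra -/
def ικ (κ : G →* ℝ) : ZG G →+* BB G :=
  (MonoidAlgebra.lift ℤ (BB G) G
    { toFun := fun g => κ g • δ g
      map_one' := by simp
      map_mul' := fun g k => by simp [smul_smul, mul_comm] }).toRingHom

theorem ικ_og (κ : G →* ℝ) (g : G) : ικ κ (og g) = κ g • δ g := MonoidAlgebra.lift_of _ _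

theorem star_ικ {κ κ' : G →* ℝ} (h : ∀ g, κ' g = κ g⁻¹) (a : ZG G) :
    star (ικ κ' a) = ικ κ (star a) :=
  ZG.ind (p := fun a => star (ικ κ' a) = ικ κ (star a)) (by simp)
    (fun a b ha hb => by rw [map_add, star_add, star_add, map_add, ha, hb])
    (fun r g => by
      rw [map_zsmul, star_zsmul, star_zsmul, map_zsmul, star_og, ικ_og, ικ_og, BB.star_smul,
        star_δ, h]) a

theorem map_ικ_ct {κ κ' : G →* ℝ} (h : ∀ g, κ' g = κ g⁻¹) {m n : Type} (X : Matrix m n (ZG G)) :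
    (X.map (ικ κ'))ᴴ = Xᴴ.map (ικ κ) := by
  ext i j
  exact star_ικ h _

open Classical in
theorem τ_ικ (κ κ' : G →* ℝ) (a : ZG G) : τ (ικ κ a) = τ (ικ κ' a) :=
  ZG.ind (p := fun a => τ (ικ κ a) = τ (ικ κ' a)) (by simp)
    (fun a b ha hb => by simp only [map_add, ha, hb])
    (fun r g => by
      simp only [map_zsmul, ικ_og, map_smul, τ, BB.co_δ]
      split_ifs with h
      · simp [h]
      · simp) a

theorem Tr_ικ (κ κ' : G →* ℝ) {n : Type} [Fintype n] (X : Matrix n n (ZG G)) :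
    Tr (X.map (ικ κ)) = Tr (X.map (ικ κ')) := by
  simp only [Tr, trace, diag, map_apply, map_sum, τ_ικ κ κ']

theorem Tr_ct {n : Type} [Fintype n] (X : Matrix n n (BB G)) : Tr Xᴴ = Tr X := by
  rw [Tr, trace_conjTranspose, τ_star, Tr]

theorem euler {n0 n1 n2 n3 : Type} [Fintype n0] [Fintype n1] [Fintype n2] [Fintype n3]
    [DecidableEq n2]
    (e0 : Matrix n0 n0 (BB G)) (e1 : Matrix n1 n1 (BB G)) (e2 : Matrix n2 n2 (BB G))
    (e3 : Matrix n3 n3 (BB G)) (D1 : Matrix n1 n0 (BB G)) (D2 : Matrix n2 n1 (BB G))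
    (D3 : Matrix n3 n2 (BB G)) (i1 : e1 * e1 = e1) (i2 : e2 * e2 = e2)
    (a1 : D1 * e0 = D1) (b1 : e1 * D1 = D1) (a2 : D2 * e1 = D2) (b2 : e2 * D2 = D2)
    (a3 : D3 * e2 = D3) (b3 : e3 * D3 = D3) (c2 : D2 * D1 = 0) (c3 : D3 * D2 = 0)
    (S0 : Matrix n0 n1 (BB G)) (h0 : e0 = S0 * D1) (S0' : Matrix n0 n1 (BB G))
    (S1 : Matrix n1 n2 (BB G)) (h1 : e1 = D1 * S0' + S1 * D2) (S2 : Matrix n2 n3 (BB G))
    (h3 : e3 = D3 * S2) :
    0 ≤ Tr e0 - Tr e1 + Tr e2 - Tr e3 ∧ (Tr e0 - Tr e1 + Tr e2 - Tr e3 = 0 →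
      ∃ (U : Matrix n1 n2 (BB G)) (V : Matrix n2 n3 (BB G)), e2 = D2 * U + V * D3) := by
  set a := D1 * (S0 * e1) with ha
  have ta : Tr a = Tr e0 := by rw [ha, Tr_comm, Matrix.mul_assoc, b1, ← h0]
  have aD : (e1 - a) * D1 = 0 := by
    rw [Matrix.sub_mul, b1, ha, Matrix.mul_assoc, Matrix.mul_assoc, b1, ← h0, a1, sub_self]
  have ae : (e1 - a) * e1 = e1 - a := by
    rw [Matrix.sub_mul, i1, ha, Matrix.mul_assoc, Matrix.mul_assoc, i1]
  have Da : D2 * (e1 - a) = D2 := by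
    rw [Matrix.mul_sub, a2, ha, ← Matrix.mul_assoc, c2, Matrix.zero_mul, sub_zero]
  set U := (e1 - a) * S1 * e2 with hU
  have UD : U * D2 = e1 - a := by
    rw [hU, Matrix.mul_assoc, b2]
    conv_rhs => rw [← ae]; rhs; rw [h1]
    rw [Matrix.mul_add, ← Matrix.mul_assoc (e1 - a) D1, aD, Matrix.zero_mul, zero_add,
      Matrix.mul_assoc]
  have Ue : U * e2 = U := by rw [hU, Matrix.mul_assoc, i2]
  set b := D2 * U with hb
  have tb : Tr b = Tr e1 - Tr e0 := by rw [hb, Tr_comm, UD, Tr_sub, ta]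
  have bb : b * b = b := by
    rw [hb, Matrix.mul_assoc, ← Matrix.mul_assoc U, UD, ← Matrix.mul_assoc, Da]
  have be : b * e2 = b := by rw [hb, Matrix.mul_assoc, Ue]
  have eb : e2 * b = b := by rw [hb, ← Matrix.mul_assoc, b2]
  have Db : D3 * b = 0 := by rw [hb, ← Matrix.mul_assoc, c3, Matrix.zero_mul]
  have Df : D3 * (e2 - b) = D3 := by rw [Matrix.mul_sub, a3, Db, sub_zero]
  set c := (e2 - b) * S2 * D3 with hc
  have tc : Tr c = Tr e3 := by rw [hc, Tr_comm, ← Matrix.mul_assoc, Df, ← h3]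
  have cc : c * c = c := by
    rw [hc, Matrix.mul_assoc, ← Matrix.mul_assoc D3, ← Matrix.mul_assoc D3, Df, ← h3, b3]
  have ce : c * e2 = c := by rw [hc, Matrix.mul_assoc, a3]
  have ec : e2 * c = c := by
    rw [hc, ← Matrix.mul_assoc, ← Matrix.mul_assoc, Matrix.mul_sub, i2, eb]
  have cb : c * b = 0 := by rw [hc, Matrix.mul_assoc, Db, Matrix.mul_zero]
  have bc : b * c = 0 := by
    rw [hc, ← Matrix.mul_assoc, ← Matrix.mul_assoc, Matrix.mul_sub, be, bb, sub_self,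
      Matrix.zero_mul, Matrix.zero_mul]
  have qq : (e2 - b - c) * (e2 - b - c) = e2 - b - c := by
    simp only [mul_sub, sub_mul, i2, bb, cc, be, eb, ce, ec, cb, bc]
    abel
  obtain ⟨k1, k2⟩ := kaplansky _ qq
  rw [Tr_sub, Tr_sub, tb, tc] at k1 k2
  refine ⟨by linarith, fun h => ⟨U, (e2 - b) * S2, ?_⟩⟩
  have := k2 (by linarith)
  rw [sub_sub, sub_eq_zero] at this
  exact this

open scoped Matrix.Norms.Operator in
theorem small_unit {n : Type} [Fintype n] [DecidableEq n] (X : Matrix n n (BB G)) :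
    ∃ ε0 : ℝ, 0 < ε0 ∧ ∀ ε : ℝ, 0 < ε → ε ≤ ε0 → IsUnit (1 - ε • X) := by
  have : @CompleteSpace (Matrix n n (BB G))
      (Matrix.linftyOpNormedRing.toMetricSpace.toPseudoMetricSpace.toUniformSpace) :=
    (inferInstance : CompleteSpace (Matrix n n (BB G)))
  refine ⟨1 / (‖X‖ + 1), by positivity, fun ε h0 h1 => isUnit_one_sub_of_norm_lt_one ?_⟩
  refine (norm_smul_le ε X).trans_lt ?_
  rw [Real.norm_eq_abs, abs_of_pos h0]
  rw [le_div_iff₀ (by positivity)] at h1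
  nlinarith

theorem unit_small (ε : ℝ) (h0 : 0 < ε) (h1 : ε < 1) (g : G) (c : ℤˣ) :
    IsUnit (ε • (δ g : BB G) - ((c : ℤ) : BB G)) := by
  have n : ‖ε • (δ g : BB G)‖ < 1 := by rwa [norm_smul, norm_δ, mul_one, Real.norm_of_nonneg h0.le]
  rcases Int.units_eq_one_or c with rfl | rfl
  · simpa using (isUnit_one_sub_of_norm_lt_one n).neg
  · simpa [add_comm] using isUnit_one_sub_of_norm_lt_one (x := -(ε • (δ g : BB G))) (by rwa [norm_neg])

theorem unit_large (ε : ℝ) (h0 : 0 < ε) (h1 : ε < 1) (g : G) (c : ℤˣ) :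
    IsUnit (ε⁻¹ • (δ g : BB G) - ((c : ℤ) : BB G)) := by
  have u : IsUnit (ε⁻¹ • (δ g : BB G)) :=
    IsUnit.smul (Units.mk0 ε⁻¹ (inv_ne_zero h0.ne')) ((Group.isUnit g).map δ)
  have := u.mul (unit_small ε h0 h1 g⁻¹ c)
  rw [mul_sub, smul_mul_smul_comm, ← map_mul, mul_inv_cancel, map_one, inv_mul_cancel₀ h0.ne',
    one_smul] at this
  rcases Int.units_eq_one_or c with rfl | rfl
  · simpa using this.neg
  · simpa [add_comm] using this

theorem good_small {r : Type} [Fintype r] (w : G →* ℤˣ) (h : r → G) (t : G)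
    (ht : ∀ j, t * h j * t⁻¹ ∈ Subgroup.closure (Set.range h))
    (hgen : Subgroup.closure (insert t (Set.range h)) = ⊤) :
    ∃ ε0 : ℝ, 0 < ε0 ∧ ∀ ε : ℝ, 0 < ε → ε ≤ ε0 → ∀ κ : G →* ℝ, κ t = ε⁻¹ →
      (∀ x ∈ Subgroup.closure (Set.range h), κ x = 1) →
      ∀ (M : Type) [AddCommGroup M] [Module (BB G) M] (Z : G → M), IsDer (ικ κ) w Z → Z t = 0 →
        ∀ g, Z g = 0 := by
  classical
  choose W hW1 hW2 using fun i => fox w h _ (ht i)
  obtain ⟨ε0, p0, hu⟩ := small_unit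
    (Matrix.of fun i j => (w t : ℤ) • ((δ t⁻¹ : BB G) * ικ 1 (W i j)))
  refine ⟨ε0, p0, fun ε q0 q1 κ kt kH M _ _ Z hZ Zt g => ?_⟩
  have eq : ∀ i j, ικ κ (W i j) = ικ 1 (W i j) := fun i j =>
    RingHom.eqOn_set_closure (f := ικ κ) (g := ικ 1) (by
      rintro _ ⟨x, hx, rfl⟩
      rw [ικ_og, ικ_og, kH x hx, MonoidHom.one_apply]) (hW1 i j)
  obtain ⟨J, hJ⟩ := (hu ε q0 q1).exists_left_inv
  have key := mat_kill J _ hJ (fun j => Z (h j)) fun k => by
    have a1 : Z (t * h k * t⁻¹) = ∑ j, ικ 1 (W k j) • Z (h j) := by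
      rw [← hZ.sub_w, hW2, map_sum]
      refine Finset.sum_congr rfl fun j _ => ?_
      rw [hZ.mul, hZ.sub_w, map_sub, εw_og, map_intCast, Int.cast_id, sub_self, zero_smul,
        add_zero, eq]
    have a2 := hZ (t * h k * t⁻¹) t
    rw [inv_mul_cancel_right, hZ, Zt, smul_zero, smul_zero, add_zero, zero_add, a1, ικ_og,
      kt] at a2
    have a3 := congrArg (fun m => (ε • (δ t⁻¹ : BB G)) • m) a2
    simp only [smul_smul] at a3
    rw [smul_mul_smul_comm, ← map_mul, inv_mul_cancel, map_one, mul_inv_cancel₀ q0.ne', one_smul,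
      one_smul] at a3
    simp only [Matrix.sub_apply, sub_smul, Finset.sum_sub_distrib, one_apply, ite_smul, one_smul,
      zero_smul, Finset.sum_ite_eq, Finset.mem_univ, if_true, Matrix.smul_apply, of_apply]
    rw [sub_eq_zero, a3, Finset.smul_sum, Finset.smul_sum]
    refine Finset.sum_congr rfl fun j _ => ?_
    rw [smul_comm _ (w t : ℤ), smul_smul, smul_comm ε (w t : ℤ), smul_assoc, smul_mul_assoc]
  refine hZ.closure (insert t (Set.range h)) ?_ g (hgen ▸ Subgroup.mem_top g)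
  rintro _ (rfl | ⟨j, rfl⟩)
  · exact Zt
  · exact key j

/-- additive functionals on the algebra -/
def Dl (G : Type) [Group G] : Type := BB G →+ ℝ

instance : AddCommGroup (Dl G) := inferInstanceAs (AddCommGroup (BB G →+ ℝ))

/-- evaluation -/
def Dl.ev (l : Dl G) : BB G →+ ℝ := l

instance : Module (BB G) (Dl G) where
  smul b l := l.ev.comp (AddMonoidHom.mulRight b)
  one_smul l := AddMonoidHom.ext fun x => congrArg l.ev (mul_one x)
  mul_smul a b l := AddMonoidHom.ext fun x => congrArg l.ev (mul_assoc x a b).symm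
  smul_zero _ := rfl
  smul_add _ _ _ := rfl
  add_smul a b l := AddMonoidHom.ext fun x =>
    (congrArg l.ev (mul_add x a b)).trans (map_add l.ev _ _)
  zero_smul l := AddMonoidHom.ext fun x => (congrArg l.ev (mul_zero x)).trans (map_zero l.ev)

theorem Dl.ev_smul (b : BB G) (l : Dl G) (x : BB G) : (b • l).ev x = l.ev (x * b) := rfl

theorem final (H : Subgroup G) (t : G) (χ : G →* Multiplicative ℤ)
    (χt : χ t = Multiplicative.ofAdd 1) (χH : ∀ x ∈ H, χ x = 1) (ε : ℝ) (h0 : 0 < ε) (h1 : ε < 1)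
    (κ : G →* ℝ) (kt : κ t = ε) (kH : ∀ x ∈ H, κ x = 1)
    (hder : ∀ (M : Type) [AddCommGroup M] (ρ : G →* AddMonoid.End M) (l : M),
      (∀ x ∈ H, ρ (t * x * t⁻¹) l = l) →
      ∃ Z : G → M, (∀ g k, Z (g * k) = ρ g (Z k) + Z g) ∧ Z t = l ∧ ∀ x ∈ H, Z x = 0)
    (inner : ∀ Z : G → Dl G, IsDer (ικ κ) 1 Z → ∃ m, ∀ g, Z g = (ικ κ (og g) - 1) • m) :
    ∀ x ∈ H, t⁻¹ * x * t ∈ H := by
  classical
  intro x hx
  by_contra hc
  set c : BB G →L[ℝ] ℝ := BB.ext (fun g => if t⁻¹ * g ∈ H then 1 else 0)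
    fun g => by split_ifs <;> simp
  have cδ : ∀ g, c (δ g) = if t⁻¹ * g ∈ H then 1 else 0 := BB.ext_δ _ _
  have cb : ∀ b, ‖c b‖ ≤ 1 * ‖b‖ := BB.bound c 1 fun g => by rw [cδ]; split_ifs <;> simp
  have cH : ∀ y ∈ H, ∀ b, c (b * δ y) = c b := fun y hy b => by
    have : c.comp ((ContinuousLinearMap.mul ℝ (BB G)).flip (δ y)) = c := BB.hom_ext fun g => by
      change c (δ g * δ y) = _
      rw [← map_mul, cδ, cδ, ← mul_assoc, if_congr (H.mul_mem_cancel_right hy) rfl rfl]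
    exact DFunLike.congr_fun this b
  set l : Dl G := (c : BB G →+ ℝ).comp (AddMonoidHom.mulRight (ε • δ t))
  have lev : ∀ b, l.ev b = c (b * ε • δ t) := fun _ => rfl
  have ιt : ικ κ (og t) = ε • δ t := by rw [ικ_og, kt]
  have ιH : ∀ y ∈ H, ικ κ (og y) = δ y := fun y hy => by rw [ικ_og, kH y hy, one_smul]
  obtain ⟨Z, z1, z2, z3⟩ := hder (Dl G)
    ((DistribMulAction.toAddMonoidEnd (BB G) (Dl G)).comp ((ικ κ).toMonoidHom.comp og)) l
    fun y hy => AddMonoidHom.ext fun b => by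
      change l.ev (b * ικ κ (og (t * y * t⁻¹))) = l.ev b
      rw [lev, lev, ← ιt, mul_assoc b, ← map_mul, ← map_mul, inv_mul_cancel_right, map_mul og,
        map_mul (ικ κ), ιH y hy, ← mul_assoc, cH y hy]
  obtain ⟨m, hm⟩ := inner Z fun g k => by rw [z1]; simp; rfl
  obtain ⟨u, hu⟩ := unit_small ε h0 h1 t 1
  rw [Units.val_one, Int.cast_one] at hu
  set v : BB G := ↑u⁻¹
  have vu : v * (ε • δ t - 1) = 1 := hu ▸ u.inv_mul
  have uv : (ε • δ t - 1) * v = 1 := hu ▸ u.mul_inv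
  have hv : v = ε • (δ t * v) - 1 := by
    rw [sub_mul, one_mul, smul_mul_assoc] at uv
    rw [← uv]; abel
  have mv : m = v • l := by rw [← z2, hm, ιt, smul_smul, vu, one_smul]
  have far : ∀ k : ℕ, ∀ g, 2 ≤ (χ g).toAdd → ‖c (δ g * v)‖ ≤ ε ^ k * ‖v‖ := by
    intro k
    induction k with
    | zero =>
      intro g _
      refine (cb _).trans ?_
      simpa [norm_δ] using norm_mul_le (δ g : BB G) v
    | succ k ih =>
      intro g hg
      have e1 : c (δ g) = 0 := by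
        rw [cδ, if_neg]
        intro h
        have := congrArg Multiplicative.toAdd (χH _ h)
        simp [χt] at this
        omega
      have e2 : c (δ g * v) = ε • c (δ (g * t) * v) := by
        conv_lhs => rw [hv]
        rw [mul_sub, mul_one, map_sub, e1, sub_zero, mul_smul_comm, map_smul, map_mul δ,
          mul_assoc]
      rw [e2, norm_smul, Real.norm_of_nonneg h0.le, pow_succ', mul_assoc]
      exact mul_le_mul_of_nonneg_left (ih _ (by simp [χt]; omega)) h0.le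
  have far0 : ∀ g, 2 ≤ (χ g).toAdd → c (δ g * v) = 0 := fun g hg => by
    have lim : Filter.Tendsto (fun k : ℕ => ε ^ k * ‖v‖) Filter.atTop (nhds (0 * ‖v‖)) :=
      (tendsto_pow_atTop_nhds_zero_of_lt_one h0.le h1).mul_const _
    rw [zero_mul] at lim
    exact norm_le_zero_iff.1 (ge_of_tendsto' lim fun k => far k g hg)
  have e3 : v * ε • δ t = ε • (ε • (δ (t * t) * v) - δ t) := by
    have a1 : v * ε • δ t = 1 + v := by
      rw [mul_sub, mul_one] at vu
      rw [← vu]; abel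
    have a2 : 1 + v = ε • (δ t * v) := by
      conv_lhs => rw [hv]
      abel
    rw [a1, a2]
    conv_lhs => rw [hv]
    rw [mul_sub, mul_one, mul_smul_comm, map_mul δ, mul_assoc]
  have e4 : ∀ y ∈ H, c (δ y * (v * ε • δ t)) = -(ε * c (δ (y * t))) := fun y hy => by
    rw [e3, mul_smul_comm, mul_sub, mul_smul_comm, ← mul_assoc, ← map_mul, ← map_mul, map_smul,
      map_sub, map_smul, far0 _ (by simp [χt, χH y hy])]
    simp
  have e5 : (Z x).ev 1 = 0 := by rw [z3 x hx]; rfl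
  rw [hm, mv, Dl.ev_smul, Dl.ev_smul, lev, ιH x hx, one_mul, mul_assoc, sub_mul, map_sub,
    e4 x hx, ← map_one δ, e4 1 H.one_mem, cδ, cδ, ← mul_assoc, if_neg hc, if_pos (by simp)] at e5
  simp at e5
  exact h0.ne' e5

theorem core {n0 n1 n2 n3 r : Type} [Fintype n0] [Fintype n1] [Fintype n2] [Fintype n3]
    [Fintype r] {w : G →* ℤˣ} {e0 : Matrix n0 n0 (ZG G)} {e1 : Matrix n1 n1 (ZG G)}
    {e2 : Matrix n2 n2 (ZG G)} {e3 : Matrix n3 n3 (ZG G)} {D1 : Matrix n1 n0 (ZG G)}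
    {D2 : Matrix n2 n1 (ZG G)} {D3 : Matrix n3 n2 (ZG G)} {aug : (n0 → ZG G) →+ ℤ}
    {aug' : (n3 → ZG G) →+ ℤ} (X : IsHalf 1 e0 e1 D1 D2 aug)
    (X' : IsHalf w e3ᴴ e2ᴴ D3ᴴ D2ᴴ aug') (a2 : D2 * e1 = D2) (b2 : e2 * D2 = D2)
    (h : r → G) (t : G) (χ : G →* Multiplicative ℤ) (χt : χ t = Multiplicative.ofAdd 1)
    (χH : ∀ x ∈ Subgroup.closure (Set.range h), χ x = 1)
    (ht : ∀ j, t * h j * t⁻¹ ∈ Subgroup.closure (Set.range h))
    (hgen : Subgroup.closure (insert t (Set.range h)) = ⊤)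
    (hder : ∀ (M : Type) [AddCommGroup M] (ρ : G →* AddMonoid.End M) (l : M),
      (∀ x ∈ Subgroup.closure (Set.range h), ρ (t * x * t⁻¹) l = l) →
      ∃ Z : G → M, (∀ g k, Z (g * k) = ρ g (Z k) + Z g) ∧ Z t = l ∧
        ∀ x ∈ Subgroup.closure (Set.range h), Z x = 0) :
    ∀ x ∈ Subgroup.closure (Set.range h), t⁻¹ * x * t ∈ Subgroup.closure (Set.range h) := by
  classical
  obtain ⟨ε1, p1, g1⟩ := good_small 1 h t ht hgen
  obtain ⟨ε2, p2, g2⟩ := good_small w h t ht hgen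
  set ε := min (1 / 2) (min ε1 ε2)
  have h0 : 0 < ε := lt_min (by norm_num) (lt_min p1 p2)
  have h1 : ε < 1 := (min_le_left _ _).trans_lt (by norm_num)
  set κ : G →* ℝ := ((Units.coeHom ℝ).comp (zpowersHom ℝˣ (Units.mk0 ε h0.ne'))).comp χ
  set κ' : G →* ℝ := ((Units.coeHom ℝ).comp (zpowersHom ℝˣ (Units.mk0 ε h0.ne')⁻¹)).comp χ
  have kk : ∀ g, κ' g = κ g⁻¹ := fun g => by simp [κ, κ']
  have kk' : ∀ g, κ g = κ' g⁻¹ := fun g => by rw [kk, inv_inv]
  have kt : κ t = ε := by simp [κ, χt]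
  have kt' : κ' t = ε⁻¹ := by simp [κ', χt]
  have kH : ∀ x ∈ Subgroup.closure (Set.range h), κ x = 1 := fun x hx => by simp [κ, χH x hx]
  have kH' : ∀ x ∈ Subgroup.closure (Set.range h), κ' x = 1 := fun x hx => by simp [κ', χH x hx]
  have G1 := g1 ε h0 ((min_le_right _ _).trans (min_le_left _ _)) κ' kt' kH'
  have G2 := g2 ε h0 ((min_le_right _ _).trans (min_le_right _ _)) κ' kt' kH'
  have us : ∀ c : ℤˣ, IsUnit (ικ κ (og t) - ((c : ℤ) : BB G)) := fun c => by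
    rw [ικ_og, kt]; exact unit_small ε h0 h1 t c
  have ul : ∀ c : ℤˣ, IsUnit (ικ κ' (og t) - ((c : ℤ) : BB G)) := fun c => by
    rw [ικ_og, kt']; exact unit_large ε h0 h1 t c
  obtain ⟨A0, hA0⟩ := X.L0 (ικ κ') t _ (ul _).val_inv_mul
  obtain ⟨A1, A2, hA1⟩ := X.L1 (ικ κ') t _ (ul _).mul_val_inv G1
  obtain ⟨A3, hA3⟩ := X'.L0 (ικ κ) t _ (us _).val_inv_mul
  obtain ⟨B0, hB0⟩ := X'.L0 (ικ κ') t _ (ul _).val_inv_mul
  obtain ⟨B1, B2, hB1⟩ := X'.L1 (ικ κ') t _ (ul _).mul_val_inv G2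
  obtain ⟨B3, hB3⟩ := X.L0 (ικ κ) t _ (us _).val_inv_mul
  have ct : ∀ {a b c : Type} [Fintype b] {P : Matrix a b (ZG G)} {Q : Matrix b c (ZG G)}
      {R : Matrix a c (ZG G)}, P * Q = R → Qᴴ * Pᴴ = Rᴴ := fun e => by
    rw [← conjTranspose_mul, e]
  have mp : ∀ {a b c : Type} [Fintype b] {P : Matrix a b (ZG G)} {Q : Matrix b c (ZG G)}
      {R : Matrix a c (ZG G)}, P * Q = R → P.map (ικ κ') * Q.map (ικ κ') = R.map (ικ κ') :=
    fun e => by rw [← Matrix.map_mul, e]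
  have mz : ∀ {a b c : Type} [Fintype b] {P : Matrix a b (ZG G)} {Q : Matrix b c (ZG G)},
      P * Q = 0 → P.map (ικ κ') * Q.map (ικ κ') = 0 :=
    fun e => by rw [mp e, Matrix.map_zero _ (map_zero _)]
  have E1 := (euler _ _ (e2.map (ικ κ')) (e3.map (ικ κ')) _ _ (D3.map (ικ κ')) (mp X.i1)
    (mp (by simpa using ct X'.i1)) (mp X.De0) (mp X.eD1) (mp a2) (mp b2)
    (mp (by simpa using ct X'.eD1)) (mp (by simpa using ct X'.De0)) (mz X.DD)
    (mz (by simpa using ct X'.DD)) A0 hA0 A1 A2 hA1 A3ᴴ (by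
      have := congrArg conjTranspose hA3
      rwa [conjTranspose_mul, map_ικ_ct kk', map_ικ_ct kk', conjTranspose_conjTranspose,
        conjTranspose_conjTranspose] at this)).1
  have E2 := euler _ _ (e1ᴴ.map (ικ κ')) (e0ᴴ.map (ικ κ')) _ _ (D1ᴴ.map (ικ κ'))
    (mp X'.i1) (mp (ct X.i1)) (mp X'.De0) (mp X'.eD1) (mp (ct b2)) (mp (ct a2))
    (mp (ct X.eD1)) (mp (ct X.De0)) (mz X'.DD)
    (mz (by simpa using ct X.DD)) B0 hB0 B1 B2 hB1 B3ᴴ (by
      have := congrArg conjTranspose hB3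
      rwa [conjTranspose_mul, map_ικ_ct kk', map_ικ_ct kk'] at this)
  have tr : ∀ {a : Type} [Fintype a] (P : Matrix a a (ZG G)),
      Tr (Pᴴ.map (ικ κ')) = Tr (P.map (ικ κ')) := fun P => by
    rw [← map_ικ_ct kk', Tr_ct, Tr_ικ κ κ']
  simp only [tr] at E2
  obtain ⟨U, V, hUV⟩ := E2.2 (by linarith [E2.1])
  have E3 := congrArg conjTranspose hUV
  rw [conjTranspose_add, conjTranspose_mul, conjTranspose_mul, map_ικ_ct kk, map_ικ_ct kk,
    map_ικ_ct kk, conjTranspose_conjTranspose, conjTranspose_conjTranspose,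
    conjTranspose_conjTranspose, add_comm] at E3
  exact final _ t χ χt χH ε h0 h1 κ kt kH hder fun Z hZ => X.F0 (ικ κ) _ _ E3 Z hZ

end

end Pool.Agent.Lib.MP_4269b5_al
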