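import Pool.Agent.Lib.MP_4269b5_al.Conv

/-! Application to ascending HNN extensions. -/

namespace Pool.Agent.Lib.MP_4269b5_al

open HNNExtension

variable {H : Type} [Group H] {A B : Subgroup H} {φ : A ≃* B}

theorem end_mul {G M : Type} [Group G] [AddCommGroup M] (ρ : G →* AddMonoid.End M) (g k : G)
    (m : M) : ρ g (ρ k m) = ρ (g * k) m := by rw [map_mul]; rfl

theorem end_one {G M : Type} [Group G] [AddCommGroup M] (ρ : G →* AddMonoid.End M) (m : M) :
    ρ 1 m = m := by rw [map_one]; rfl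

theorem hnn_der (M : Type) [AddCommGroup M] (ρ : HNNExtension H A B φ →* AddMonoid.End M) (l : M)
    (hl : ∀ a : A, ρ (of (φ a : H)) l = l) :
    ∃ Z : HNNExtension H A B φ → M, (∀ g k, Z (g * k) = ρ g (Z k) + Z g) ∧ Z t = l ∧
      ∀ x : H, Z (of x) = 0 := by
  set P : HNNExtension H A B φ →* Equiv.Perm M :=
    MonoidHom.toHomPerm ((⟨⟨fun f => (f : M → M), rfl⟩, fun _ _ => rfl⟩ :
      AddMonoid.End M →* Function.End M).comp ρ)
  have hP : ∀ g m, P g m = ρ g m := fun _ _ => rfl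
  set Θ : HNNExtension H A B φ →* Equiv.Perm M :=
    lift (P.comp of) (Equiv.addRight l * P t) fun a => Equiv.ext fun m => by
      change ρ t (ρ (of (a : H)) m) + l = ρ (of (φ a : H)) (ρ t m + l)
      rw [map_add, hl, end_mul, end_mul, t_mul_of]
  have Θt : ∀ m, Θ t m = ρ t m + l := fun m => by simp only [Θ, lift_t]; rfl
  have Θo : ∀ x m, Θ (of x) m = ρ (of x) m := fun x m => by simp only [Θ, lift_of]; rfl
  have key : ∀ g m, Θ g m = ρ g m + Θ g 0 := fun g => by
    induction g using HNNExtension.induction_on with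
    | of x => intro m; rw [Θo, Θo, map_zero, add_zero]
    | t => intro m; rw [Θt, Θt, map_zero, zero_add]
    | mul x y a b =>
      intro m
      rw [map_mul, Equiv.Perm.mul_apply, Equiv.Perm.mul_apply, b, a, a (Θ y 0), map_add, end_mul,
        add_assoc]
    | inv x a =>
      intro m
      apply (Θ x).injective
      have e : ∀ m, Θ x (Θ x⁻¹ m) = m := fun m => by
        rw [← Equiv.Perm.mul_apply, ← map_mul, mul_inv_cancel, map_one, Equiv.Perm.one_apply]
      rw [e, a, map_add, add_assoc, ← a, e, end_mul, mul_inv_cancel, end_one, add_zero]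
  refine ⟨fun g => Θ g 0, fun g k => ?_, ?_, fun x => ?_⟩ <;> beta_reduce
  · rw [map_mul, Equiv.Perm.mul_apply, key]
  · rw [Θt, map_zero, zero_add]
  · rw [Θo, map_zero]

theorem hnn_both (hM : MatData (HNNExtension H A B φ)) (hH : Group.FG H) (h : A = ⊤ ∨ B = ⊤) :
    A = ⊤ ∧ B = ⊤ := by
  obtain ⟨n0, n1, n2, n3, w, e0, e1, e2, e3, D1, D2, D3, aug, aug', X, X', a2, b2⟩ := hM
  obtain ⟨S, hS⟩ := hH.out
  set h : S → HNNExtension H A B φ := fun s => of s.1
  have hr : Subgroup.closure (Set.range h) = (of : H →* HNNExtension H A B φ).range := by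
    rw [MonoidHom.range_eq_map, ← hS, MonoidHom.map_closure]
    congr 1
    ext x
    simp [h]
  have gen : ∀ s : HNNExtension H A B φ, (s = t ∨ s = t⁻¹) →
      Subgroup.closure (insert s (Set.range h)) = ⊤ := fun s hs => eq_top_iff.2 fun g _ => by
    induction g using HNNExtension.induction_on with
    | of x => exact Subgroup.closure_mono (Set.subset_insert _ _) (hr ▸ ⟨x, rfl⟩)
    | t =>
      rcases hs with rfl | rfl
      · exact Subgroup.subset_closure (Set.mem_insert _ _)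
      · exact (inv_mem_iff).1 (Subgroup.subset_closure (Set.mem_insert _ _))
    | mul x y a b => exact mul_mem (a trivial) (b trivial)
    | inv x a => exact inv_mem (a trivial)
  rcases ‹_ ∨ _› with hA | hB
  · refine ⟨hA, eq_top_iff.2 fun x _ => ?_⟩
    have mem : ∀ y : H, y ∈ A := fun y => hA ▸ Subgroup.mem_top y
    have := core X X' a2 b2 h t (lift 1 (Multiplicative.ofAdd (1 : ℤ)) fun _ => by simp)
      (lift_t _ _ _) (by rw [hr]; rintro _ ⟨y, rfl⟩; simp)
      (fun j => hr ▸ ⟨_, equiv_eq_conj ⟨j.1, mem _⟩⟩) (gen _ (Or.inl rfl)) (fun M _ ρ l hl => by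
        obtain ⟨Z, z1, z2, z3⟩ := hnn_der M ρ l fun a => by
          rw [equiv_eq_conj]; exact hl _ (hr ▸ ⟨_, rfl⟩)
        exact ⟨Z, z1, z2, by rw [hr]; rintro _ ⟨y, rfl⟩; exact z3 y⟩) (of x) (hr ▸ ⟨x, rfl⟩)
    rw [hr] at this
    obtain ⟨y, hy⟩ := this
    have e : (of (φ ⟨y, mem y⟩ : H) : HNNExtension H A B φ) = of x := by
      rw [equiv_eq_conj, hy]; group
    exact of_injective φ e ▸ (φ ⟨y, mem y⟩).2
  · refine ⟨eq_top_iff.2 fun x _ => ?_, hB⟩
    have mem : ∀ y : H, y ∈ B := fun y => hB ▸ Subgroup.mem_top y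
    have := core X X' a2 b2 h t⁻¹ (lift 1 (Multiplicative.ofAdd (-1 : ℤ)) fun _ => by simp)
      (by simp) (by rw [hr]; rintro _ ⟨y, rfl⟩; simp)
      (fun j => hr ▸ ⟨_, by rw [inv_inv]; exact equiv_symm_eq_conj ⟨j.1, mem _⟩⟩)
      (gen _ (Or.inr rfl)) (fun M _ ρ l hl => by
        obtain ⟨Z, z1, z2, z3⟩ := hnn_der M ρ (-ρ t l) fun a => by
          have := hl (of (φ a : H)) (hr ▸ ⟨_, rfl⟩)
          rw [inv_inv, ← equiv_symm_eq_conj, φ.symm_apply_apply] at this
          rw [map_neg, end_mul, ← t_mul_of, ← end_mul, this]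
        refine ⟨Z, z1, ?_, by rw [hr]; rintro _ ⟨y, rfl⟩; exact z3 y⟩
        have := z1 t⁻¹ t
        rw [inv_mul_cancel, ← map_one of, z3, z2, map_neg, end_mul,
          inv_mul_cancel, end_one, eq_comm, neg_add_eq_zero] at this
        exact this.symm) (of x) (hr ▸ ⟨x, rfl⟩)
    rw [hr] at this
    obtain ⟨y, hy⟩ := this
    have e : (of (φ.symm ⟨y, mem y⟩ : H) : HNNExtension H A B φ) = of x := by
      rw [equiv_symm_eq_conj, hy]; group
    exact of_injective φ e ▸ (φ.symm ⟨y, mem y⟩).2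

theorem core_eq (hA : A = ⊤) (hB : B = ⊤) :
    ⨅ k : ℤ, (A.map (of : H →* HNNExtension H A B φ)).map (MulAut.conj (t ^ k)).toMonoidHom =
      (of : H →* HNNExtension H A B φ).range := by
  have r : A.map (of : H →* HNNExtension H A B φ) = of.range := by
    rw [MonoidHom.range_eq_map]
    exact congrArg (Subgroup.map _) hA
  have ht : (t : HNNExtension H A B φ) ∈ Subgroup.normalizer
      ((of : H →* HNNExtension H A B φ).range : Set (HNNExtension H A B φ)) := by
    rw [Subgroup.mem_normalizer_iff]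
    intro g
    constructor
    · rintro ⟨x, rfl⟩
      exact ⟨_, equiv_eq_conj ⟨x, hA ▸ Subgroup.mem_top x⟩⟩
    · rintro ⟨x, hx⟩
      exact ⟨_, by rw [equiv_symm_eq_conj ⟨x, hB ▸ Subgroup.mem_top x⟩, hx]; group⟩
  rw [r]
  refine (iInf_congr fun k => ?_).trans iInf_const
  have hk := Subgroup.mem_normalizer_iff.1 (zpow_mem ht k)
  ext g
  constructor
  · rintro ⟨x, hx, rfl⟩
    exact (hk x).1 hx
  · intro hg
    refine ⟨(t ^ k)⁻¹ * g * t ^ k, (hk _).2 ?_, ?_⟩
    · simpa [mul_assoc] using hg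
    · change t ^ k * ((t ^ k)⁻¹ * g * t ^ k) * (t ^ k)⁻¹ = g
      group

end Pool.Agent.Lib.MP_4269b5_al
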