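import Pool.Agent.Lib.MP_4269b5_al.L1

/-! Kaplansky positivity of the trace of idempotent matrices over the summable group algebra. -/

namespace Pool.Agent.Lib.MP_4269b5_al

open Matrix

theorem form_cs {M : Type} [AddCommGroup M] [Module ℝ M] (β : M →ₗ[ℝ] M →ₗ[ℝ] ℝ)
    (hs : ∀ x y, β x y = β y x) (hp : ∀ x, 0 ≤ β x x) (x y : M) :
    β x y ^ 2 ≤ β x x * β y y := by
  have := discrim_le_zero (a := β x x) (b := 2 * β x y) (c := β y y) fun l => by
    have := hp (l • x + y)
    simp only [map_add, map_smul, LinearMap.add_apply, LinearMap.smul_apply, smul_eq_mul,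
      hs y x] at this
    nlinarith
  rw [discrim] at this
  nlinarith

theorem form_add {M : Type} [AddCommGroup M] [Module ℝ M] (β : M →ₗ[ℝ] M →ₗ[ℝ] ℝ)
    (hp : ∀ x, 0 ≤ β x x) (x y : M) : β (x + y) (x + y) ≤ 2 * β x x + 2 * β y y := by
  have := hp (x - y)
  simp only [map_add, map_sub, LinearMap.add_apply, LinearMap.sub_apply] at this ⊢
  linarith

theorem kap_abstract {M : Type} [Ring M] [Algebra ℝ M] (β : M →ₗ[ℝ] M →ₗ[ℝ] ℝ)
    (hs : ∀ x y, β x y = β y x) (hp : ∀ x, 0 ≤ β x x) (e e' : M) (he : e * e = e)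
    (hadj : ∀ x y, β (x * e) y = β x (y * e')) (C : ℝ) (hC : 0 < C)
    (h1 : ∀ x, β (x * e) (x * e) ≤ C * β x x) (h2 : ∀ x, β (x * e') (x * e') ≤ C * β x x)
    (htr : ∀ x, β (x * e) 1 = β (e * x) 1) : β e e ≤ 2 * C * β e 1 := by
  set d := ⨅ x : M, β (e * x - 1) (e * x - 1) with hd
  have bdd : BddBelow (Set.range fun x : M => β (e * x - 1) (e * x - 1)) :=
    ⟨0, by rintro _ ⟨x, rfl⟩; exact hp _⟩
  have dle : ∀ x, d ≤ β (e * x - 1) (e * x - 1) := fun x => ciInf_le bdd x
  have d1 : d ≤ β 1 1 := by simpa using dle 0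
  set o := β 1 1 with ho
  have o0 : 0 ≤ o := hp 1
  have key : ∀ s : ℝ, 0 < s → s ≤ 1 →
      β e e ≤ 2 * C * β e 1 + s * (2 * C * ((C * o + 1) + (4 * o + 3)) + 2 * C) := by
    intro s s0 s1
    obtain ⟨x, hx⟩ := exists_lt_of_ciInf_lt (lt_add_of_pos_right d (mul_pos s0 s0))
    set u := e * x - 1 with hu
    have near : ∀ y, β (e * y) u ^ 2 ≤ s * s * β (e * y) (e * y) := fun y => by
      have := discrim_le_zero (a := β (e * y) (e * y)) (b := 2 * β (e * y) u) (c := s * s)
        fun l => by
          have h := dle (x + l • y)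
          have e1 : e * (x + l • y) - 1 = l • (e * y) + u := by
            rw [mul_add, mul_smul_comm, hu]; abel
          rw [e1] at h
          simp only [map_add, map_smul, LinearMap.add_apply, LinearMap.smul_apply, smul_eq_mul,
            hs u (e * y)] at h
          nlinarith
      rw [discrim] at this
      nlinarith
    have ue : u * e = e * (x * e - 1) := by rw [hu]; noncomm_ring
    have q1 : β (u * e) (u * e) ≤ s * s * C := by
      have a1 : β (u * e) (u * e) = β (e * ((x * e - 1) * e')) u := by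
        rw [hadj, hs, ← mul_assoc, ← ue]
      have a2 := near ((x * e - 1) * e')
      rw [← a1, ← mul_assoc, ← ue] at a2
      have a3 := h2 (u * e)
      have a4 := hp (u * e)
      by_contra hc
      push Not at hc
      have : 0 < s * s * C := by positivity
      have a5 : s * s * β (u * e * e') (u * e * e') ≤ s * s * (C * β (u * e) (u * e)) :=
        mul_le_mul_of_nonneg_left a3 (by positivity)
      nlinarith
    have xe : e * x = u + 1 := by rw [hu]; abel
    have t1 : β (e * x) 1 = β e 1 + β (u * e) 1 := by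
      have : β (e * x) 1 = β (e * x * e) 1 := by rw [htr, ← mul_assoc, he]
      rw [this, xe, add_mul, one_mul, map_add, LinearMap.add_apply, add_comm]
    have t2 : β (u * e) 1 ≤ s * (C * o + 1) := by
      have := form_cs β hs hp (u * e) 1
      have a1 : β (u * e) (u * e) * o ≤ s * s * C * o := mul_le_mul_of_nonneg_right q1 o0
      refine abs_le_of_sq_le_sq' ?_ (by positivity) |>.2
      have : 0 ≤ C * o := by positivity
      have a2 : C * o ≤ (C * o + 1) ^ 2 := by nlinarith
      have a3 : s * s * (C * o) ≤ s * s * (C * o + 1) ^ 2 :=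
        mul_le_mul_of_nonneg_left a2 (by positivity)
      nlinarith
    have b1 : β (e * x) (e * x) ≤ 4 * o + 2 := by
      have := form_add β hp u 1
      rw [← xe] at this
      nlinarith
    have b2 : β (e * x) u ≤ s * (4 * o + 3) := by
      have := near x
      refine abs_le_of_sq_le_sq' ?_ (by positivity) |>.2
      have a2 : β (e * x) (e * x) ≤ (4 * o + 3) ^ 2 := by nlinarith
      have a3 : s * s * β (e * x) (e * x) ≤ s * s * (4 * o + 3) ^ 2 :=
        mul_le_mul_of_nonneg_left a2 (by positivity)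
      nlinarith
    have b3 : β (e * x) (e * x) = β (e * x) u + β (e * x) 1 := by
      rw [← map_add, ← xe]
    have c1 : β e e ≤ 2 * β (e * x * e) (e * x * e) + 2 * β (u * e) (u * e) := by
      have := form_add β hp (e * x * e) (-(u * e))
      have e2 : e * x * e + -(u * e) = e := by rw [xe]; noncomm_ring
      rw [e2] at this
      simpa using this
    have c2 := h1 (e * x)
    have c3 : s * s * C ≤ s * C := by nlinarith [mul_pos s0 hC]
    have c4 : C * β (e * x) (e * x) ≤ C * (β e 1 + s * (C * o + 1) + s * (4 * o + 3)) :=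
      mul_le_mul_of_nonneg_left (by linarith) hC.le
    nlinarith
  set K := 2 * C * ((C * o + 1) + (4 * o + 3)) + 2 * C
  have K0 : 0 < K := by positivity
  refine le_of_forall_pos_le_add fun η hη => ?_
  have := key (min 1 (η / K)) (lt_min one_pos (div_pos hη K0)) (min_le_left _ _)
  have a : min 1 (η / K) * K ≤ η := by
    rw [← le_div_iff₀ K0]; exact min_le_right _ _
  linarith

variable {G : Type} [Group G]

/-- the square-sum form on the algebra -/
noncomputable def bf : BB G →ₗ[ℝ] BB G →ₗ[ℝ] ℝ :=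
  LinearMap.mk₂ ℝ (fun x y => τ (x * star y)) (fun x y z => by rw [add_mul, map_add])
    (fun r x y => by rw [smul_mul_assoc, map_smul])
    (fun x y z => by rw [star_add, mul_add, map_add])
    (fun r x y => by rw [BB.star_smul, mul_smul_comm, map_smul])

theorem bf_apply (x y : BB G) : bf x y = τ (x * star y) := rfl

theorem bf_symm (x y : BB G) : bf x y = bf y x := by
  rw [bf_apply, bf_apply, ← τ_star, star_mul, star_star]

theorem bf_pos (x : BB G) : 0 ≤ bf x x := τ_pos x

theorem bf_δ (x : BB G) (g : G) : bf (x * δ g) (x * δ g) = bf x x := by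
  rw [bf_apply, star_mul, star_δ, mul_assoc, ← mul_assoc (δ g), ← map_mul, mul_inv_cancel, map_one,
    one_mul, bf_apply]

theorem bf_def (x : BB G) (h : bf x x = 0) : x = 0 :=
  BB.sep x fun g => by
    have := form_cs bf bf_symm bf_pos x (δ g)
    rw [h, zero_mul, bf_apply, τ_mul_δ] at this
    exact pow_eq_zero_iff two_ne_zero |>.1 (le_antisymm this (sq_nonneg _))

theorem bf_mul (x a : BB G) : bf (x * a) (x * a) ≤ ‖a‖ ^ 2 * bf x x := by
  set y := x * a with hy
  have h := BB.bound (τ.comp (((ContinuousLinearMap.mul ℝ (BB G)).flip (star y)).comp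
    (ContinuousLinearMap.mul ℝ (BB G) x))) (√(bf x x * bf y y)) (fun g => by
      have := form_cs bf bf_symm bf_pos (x * δ g) y
      rw [bf_δ] at this
      exact Real.abs_le_sqrt this) a
  have h' : |bf y y| ≤ √(bf x x * bf y y) * ‖a‖ := h
  have px := bf_pos x
  have py := bf_pos y
  rw [abs_of_nonneg py] at h'
  have h2 : bf y y ^ 2 ≤ bf x x * bf y y * ‖a‖ ^ 2 := by
    have := pow_le_pow_left₀ py h' 2
    rwa [mul_pow, Real.sq_sqrt (mul_nonneg px py)] at this
  rcases py.eq_or_lt with h0 | h0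
  · rw [← h0]; positivity
  · nlinarith

theorem bf_sum {ι : Type} (s : Finset ι) (y : ι → BB G) :
    bf (∑ j ∈ s, y j) (∑ j ∈ s, y j) ≤ 2 ^ s.card * ∑ j ∈ s, bf (y j) (y j) := by
  classical
  induction s using Finset.induction_on with
  | empty => simp
  | insert a s ha ih =>
    rw [Finset.sum_insert ha, Finset.sum_insert ha, Finset.card_insert_of_notMem ha, pow_succ]
    have h1 := form_add bf bf_pos (y a) (∑ j ∈ s, y j)
    have h2 : (1 : ℝ) ≤ 2 ^ s.card := one_le_pow₀ one_le_two
    have h3 := bf_pos (y a)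
    nlinarith

variable {n : Type} [Fintype n] [DecidableEq n]

/-- trace of a square matrix -/
noncomputable def Tr (X : Matrix n n (BB G)) : ℝ := τ X.trace

omit [DecidableEq n] in
theorem Tr_comm {m : Type} [Fintype m] (X : Matrix n m (BB G)) (Y : Matrix m n (BB G)) :
    Tr (X * Y) = Tr (Y * X) := by
  simp only [Tr, trace, diag, mul_apply, map_sum]
  rw [Finset.sum_comm]
  exact Finset.sum_congr rfl fun i _ => Finset.sum_congr rfl fun j _ => τ_comm _ _

omit [DecidableEq n] in
theorem Tr_sub (X Y : Matrix n n (BB G)) : Tr (X - Y) = Tr X - Tr Y := by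
  rw [Tr, trace_sub, map_sub, Tr, Tr]

/-- the square-sum form on matrices -/
noncomputable def mf : Matrix n n (BB G) →ₗ[ℝ] Matrix n n (BB G) →ₗ[ℝ] ℝ :=
  LinearMap.mk₂ ℝ (fun X Y => ∑ i, ∑ j, bf (X i j) (Y i j))
    (fun X Y Z => by simp [Finset.sum_add_distrib]) (fun r X Y => by simp [Finset.mul_sum])
    (fun X Y Z => by simp [Finset.sum_add_distrib]) (fun r X Y => by simp [Finset.mul_sum])

omit [DecidableEq n] in
theorem mf_apply (X Y : Matrix n n (BB G)) : mf X Y = ∑ i, ∑ j, bf (X i j) (Y i j) := rfl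

omit [DecidableEq n] in
theorem mf_eq (X Y : Matrix n n (BB G)) : mf X Y = Tr (X * Yᴴ) := by
  simp only [mf_apply, Tr, trace, diag, mul_apply, map_sum, conjTranspose_apply, bf_apply]

omit [DecidableEq n] in
theorem mf_bound (E : Matrix n n (BB G)) :
    ∃ C : ℝ, 0 < C ∧ ∀ X : Matrix n n (BB G), mf (X * E) (X * E) ≤ C * mf X X := by
  set K : ℝ := ∑ j, ∑ k, ‖E j k‖ ^ 2 with hK
  have K0 : 0 ≤ K := by positivity
  refine ⟨2 ^ Fintype.card n * K + 1, by positivity, fun X => ?_⟩
  simp only [mf_apply]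
  rw [Finset.mul_sum]
  refine Finset.sum_le_sum fun i _ => ?_
  have p : 0 ≤ ∑ j, bf (X i j) (X i j) := Finset.sum_nonneg fun j _ => bf_pos _
  have h1 : ∑ k, bf ((X * E) i k) ((X * E) i k) ≤
      ∑ k, 2 ^ Fintype.card n * ∑ j, ‖E j k‖ ^ 2 * ∑ l, bf (X i l) (X i l) := by
    refine Finset.sum_le_sum fun k _ => (bf_sum _ _).trans ?_
    refine mul_le_mul_of_nonneg_left (Finset.sum_le_sum fun j _ => (bf_mul _ _).trans ?_)
      (by positivity)
    exact mul_le_mul_of_nonneg_left (Finset.single_le_sum (f := fun l => bf (X i l) (X i l))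
      (fun l _ => bf_pos _) (Finset.mem_univ j)) (by positivity)
  refine h1.trans ?_
  rw [← Finset.mul_sum, Finset.sum_comm]
  simp only [← Finset.sum_mul]
  rw [← hK]
  nlinarith

theorem kaplansky (E : Matrix n n (BB G)) (hE : E * E = E) : 0 ≤ Tr E ∧ (Tr E = 0 → E = 0) := by
  obtain ⟨C1, p1, h1⟩ := mf_bound E
  obtain ⟨C2, p2, h2⟩ := mf_bound Eᴴ
  have hp : ∀ X : Matrix n n (BB G), 0 ≤ mf X X := fun X =>
    Finset.sum_nonneg fun i _ => Finset.sum_nonneg fun j _ => bf_pos _
  have := kap_abstract (mf (G := G) (n := n))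
    (fun X Y => by simp only [mf_apply, bf_symm (X _ _)]) hp E Eᴴ hE
    (fun X Y => by rw [mf_eq, mf_eq, conjTranspose_mul, conjTranspose_conjTranspose, Matrix.mul_assoc])
    (C1 + C2) (by positivity) (fun X => by nlinarith [h1 X, hp X])
    (fun X => by nlinarith [h2 X, hp X])
    (fun X => by rw [mf_eq, mf_eq, conjTranspose_one, Matrix.mul_one, Matrix.mul_one, Tr_comm])
  rw [mf_eq E 1, conjTranspose_one, Matrix.mul_one] at this
  have h0 := hp E
  refine ⟨by nlinarith, fun h => ?_⟩
  rw [h, mul_zero] at this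
  have h3 : ∑ i, ∑ j, bf (E i j) (E i j) = 0 := le_antisymm this h0
  rw [Finset.sum_eq_zero_iff_of_nonneg fun i _ => Finset.sum_nonneg fun j _ => bf_pos _] at h3
  ext i j
  have h4 := h3 i (Finset.mem_univ i)
  rw [Finset.sum_eq_zero_iff_of_nonneg fun j _ => bf_pos _] at h4
  exact bf_def _ (h4 j (Finset.mem_univ j))

end Pool.Agent.Lib.MP_4269b5_al
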