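import Mathlib

/-! The Banach algebra of summable real functions on a discrete group, as a completion. -/

namespace Pool.Agent.Lib.MP_4269b5_al

open UniformSpace

noncomputable section

/-- the real group algebra, to be given the sum norm -/
def L1 (G : Type) [Group G] : Type := MonoidAlgebra ℝ G

variable {G : Type} [Group G]

instance : Ring (L1 G) := inferInstanceAs (Ring (MonoidAlgebra ℝ G))
instance : Algebra ℝ (L1 G) := inferInstanceAs (Algebra ℝ (MonoidAlgebra ℝ G))

/-- coefficients -/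
def L1.co (a : L1 G) : G →₀ ℝ := MonoidAlgebra.coeff a

/-- basis elements -/
def L1.sg (g : G) (r : ℝ) : L1 G := MonoidAlgebra.single g r

theorem L1.co_add (a b : L1 G) : (a + b).co = a.co + b.co := rfl
theorem L1.co_zero : (0 : L1 G).co = 0 := rfl
theorem L1.co_neg (a : L1 G) : (-a).co = -a.co := rfl
theorem L1.co_smul (r : ℝ) (a : L1 G) : (r • a).co = r • a.co := rfl
theorem L1.co_sg (g : G) (r : ℝ) : (L1.sg g r).co = Finsupp.single g r := rfl
theorem L1.sg_mul (g h : G) (r s : ℝ) : L1.sg g r * L1.sg h s = L1.sg (g * h) (r * s) :=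
  MonoidAlgebra.single_mul_single g h r s
theorem L1.smul_sg (g : G) (r s : ℝ) : r • L1.sg g s = L1.sg g (r * s) :=
  MonoidAlgebra.smul_single' r g s
theorem L1.sum_sg (a : L1 G) : ∑ g ∈ a.co.support, L1.sg g (a.co g) = a :=
  MonoidAlgebra.sum_coeff_single a

/-- the sum norm -/
def L1.nrm (a : L1 G) : ℝ := ∑ g ∈ a.co.support, |a.co g|

theorem L1.nrm_eq (a : L1 G) (s : Finset G) (h : a.co.support ⊆ s) :
    a.nrm = ∑ g ∈ s, |a.co g| :=
  Finset.sum_subset h fun g _ hg => by
    rw [Finsupp.notMem_support_iff.1 hg, abs_zero]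

theorem L1.sum_le_nrm (a : L1 G) (s : Finset G) : ∑ g ∈ s, |a.co g| ≤ a.nrm := by
  classical
  rw [a.nrm_eq (a.co.support ∪ s) Finset.subset_union_left]
  exact Finset.sum_le_sum_of_subset_of_nonneg Finset.subset_union_right
    fun _ _ _ => abs_nonneg _

theorem L1.nrm_add (a b : L1 G) : (a + b).nrm ≤ a.nrm + b.nrm := by
  refine le_trans ?_ (add_le_add (a.sum_le_nrm (a + b).co.support)
    (b.sum_le_nrm (a + b).co.support))
  rw [← Finset.sum_add_distrib]
  exact Finset.sum_le_sum fun g _ => abs_add_le _ _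

theorem L1.nrm_sg (g : G) (r : ℝ) : (L1.sg g r).nrm = |r| := by
  rw [L1.nrm_eq (L1.sg g r) {g} Finsupp.support_single_subset, Finset.sum_singleton, L1.co_sg,
    Finsupp.single_eq_same]

instance : SeminormedAddCommGroup (L1 G) :=
  AddGroupSeminorm.toSeminormedAddCommGroup
    { toFun := L1.nrm
      map_zero' := by simp [L1.nrm, L1.co_zero]
      add_le' := L1.nrm_add
      neg' := fun a => by simp [L1.nrm, L1.co_neg] }

theorem L1.norm_def (a : L1 G) : ‖a‖ = a.nrm := rfl

instance : NormedSpace ℝ (L1 G) where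
  norm_smul_le r a := by
    rw [L1.norm_def, L1.norm_def, L1.nrm_eq (r • a) a.co.support Finsupp.support_smul,
      L1.nrm,
      Finset.mul_sum]
    exact Finset.sum_le_sum fun g _ => by
      rw [L1.co_smul, Finsupp.smul_apply, smul_eq_mul, abs_mul, Real.norm_eq_abs]

theorem L1.bound {E : Type} [SeminormedAddCommGroup E] [NormedSpace ℝ E] (φ : L1 G →ₗ[ℝ] E)
    (K : ℝ) (h : ∀ g, ‖φ (L1.sg g 1)‖ ≤ K) (a : L1 G) : ‖φ a‖ ≤ K * ‖a‖ := by
  conv_lhs => rw [← a.sum_sg, map_sum]
  refine (norm_sum_le _ _).trans ?_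
  rw [L1.norm_def, L1.nrm, Finset.mul_sum]
  refine Finset.sum_le_sum fun g _ => ?_
  have : L1.sg g (a.co g) = a.co g • L1.sg g 1 := by rw [L1.smul_sg, mul_one]
  rw [this, map_smul, norm_smul, Real.norm_eq_abs, mul_comm]
  exact mul_le_mul_of_nonneg_right (h g) (abs_nonneg _)

instance : SeminormedRing (L1 G) where
  dist_eq := SeminormedAddCommGroup.dist_eq
  norm_mul_le a b := by
    have h1 : ∀ g : G, ‖L1.sg g 1 * b‖ ≤ 1 * ‖b‖ := fun g =>
      L1.bound (LinearMap.mulLeft ℝ (L1.sg g 1)) 1 (fun k => by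
        rw [LinearMap.mulLeft_apply, L1.sg_mul, L1.norm_def, L1.nrm_sg]; simp) b
    have := L1.bound (LinearMap.mulRight ℝ b) (1 * ‖b‖) h1 a
    rwa [LinearMap.mulRight_apply, one_mul, mul_comm ‖b‖] at this

/-- the Banach algebra -/
abbrev BB (G : Type) [Group G] : Type := Completion (L1 G)

/-- point masses -/
def δ : G →* BB G :=
  (Completion.coeRingHom : L1 G →+* BB G).toMonoidHom.comp (MonoidAlgebra.of ℝ G)

theorem δ_def (g : G) : δ g = ((L1.sg g 1 : L1 G) : BB G) := rfl

theorem norm_δ (g : G) : ‖(δ g : BB G)‖ = 1 := by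
  rw [δ_def, Completion.norm_coe, L1.norm_def, L1.nrm_sg, abs_one]

theorem coe_sg (g : G) (r : ℝ) : ((L1.sg g r : L1 G) : BB G) = r • δ g := by
  rw [δ_def, ← Completion.coe_smul, L1.smul_sg, mul_one]

theorem coe_eq_sum (a : L1 G) : (a : BB G) = ∑ g ∈ a.co.support, a.co g • δ g := by
  conv_lhs => rw [← a.sum_sg]
  exact (map_sum (Completion.coeRingHom : L1 G →+* BB G) _ _).trans
    (Finset.sum_congr rfl fun g _ => coe_sg g _)

theorem BB.ind {p : BB G → Prop} (hc : IsClosed {x | p x}) (h0 : p 0)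
    (ha : ∀ x y, p x → p y → p (x + y)) (hs : ∀ (r : ℝ) (g : G), p (r • δ g)) (x : BB G) :
    p x := by
  refine Completion.induction_on x hc fun a => ?_
  rw [coe_eq_sum]
  exact Finset.sum_induction _ p ha h0 fun g _ => hs _ g

section
variable {E : Type} [NormedAddCommGroup E] [NormedSpace ℝ E]

theorem BB.hom_ext {φ ψ : BB G →L[ℝ] E} (h : ∀ g, φ (δ g) = ψ (δ g)) : φ = ψ := by
  ext x
  refine BB.ind (p := fun x => φ x = ψ x) (isClosed_eq φ.continuous ψ.continuous) (by simp)
    (fun x y a b => by rw [map_add, map_add, a, b]) (fun r g => by rw [map_smul, map_smul, h]) x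

theorem BB.bound (φ : BB G →L[ℝ] E) (K : ℝ) (h : ∀ g, ‖φ (δ g)‖ ≤ K) (x : BB G) :
    ‖φ x‖ ≤ K * ‖x‖ := by
  refine Completion.induction_on x (isClosed_le (by fun_prop) (by fun_prop)) fun a => ?_
  rw [Completion.norm_coe]
  exact L1.bound ((φ : BB G →ₗ[ℝ] E) ∘ₗ (Completion.toComplL : L1 G →L[ℝ] BB G)) K h a

/-- linear extension of a function -/
def L1.lin (f : G → E) : L1 G →ₗ[ℝ] E :=
  Finsupp.linearCombination ℝ f ∘ₗ (MonoidAlgebra.coeffLinearEquiv ℝ).toLinearMap

theorem L1.lin_sg (f : G → E) (g : G) : L1.lin f (L1.sg g 1) = f g := by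
  have : L1.lin f (L1.sg g 1) = Finsupp.linearCombination ℝ f (Finsupp.single g 1) := rfl
  rw [this, Finsupp.linearCombination_single, one_smul]

variable [CompleteSpace E]

/-- continuous linear extension of a bounded function -/
def BB.ext (f : G → E) (h : ∀ g, ‖f g‖ ≤ 1) : BB G →L[ℝ] E :=
  ((L1.lin f).mkContinuous 1 (L1.bound _ 1 fun g => by rw [L1.lin_sg]; exact h g)).extend
    (Completion.toComplL : L1 G →L[ℝ] BB G)

theorem BB.ext_δ (f : G → E) (h : ∀ g, ‖f g‖ ≤ 1) (g : G) : BB.ext f h (δ g) = f g := by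
  have : δ g = (Completion.toComplL : L1 G →L[ℝ] BB G) (L1.sg g 1) := rfl
  rw [this, BB.ext, ContinuousLinearMap.extend_eq _ Completion.denseRange_coe
    (Completion.isUniformInducing_coe _), LinearMap.mkContinuous_apply, L1.lin_sg]

end

open Classical in
/-- the coefficient functionals -/
def BB.co (g : G) : BB G →L[ℝ] ℝ :=
  BB.ext (fun k => if k = g then 1 else 0) fun k => by split_ifs <;> simp

open Classical in
theorem BB.co_δ (g k : G) : BB.co g (δ k) = if k = g then 1 else 0 := BB.ext_δ _ _ _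

theorem BB.co_coe (g : G) (a : L1 G) : BB.co g (a : BB G) = a.co g := by
  classical
  rw [coe_eq_sum, map_sum]
  simp only [map_smul, BB.co_δ, smul_eq_mul, mul_ite, mul_one, mul_zero, Finset.sum_ite_eq']
  split_ifs with h
  · rfl
  · exact (Finsupp.notMem_support_iff.1 h).symm

theorem BB.sum_co_le (s : Finset G) (x : BB G) : ∑ g ∈ s, |BB.co g x| ≤ ‖x‖ := by
  refine Completion.induction_on x (isClosed_le (by fun_prop) (by fun_prop)) fun a => ?_
  simp only [BB.co_coe, Completion.norm_coe]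
  exact a.sum_le_nrm s

theorem BB.sep (x : BB G) (h : ∀ g, BB.co g x = 0) : x = 0 := by
  have : ∀ y : BB G, ‖y‖ ≤ ‖y - x‖ := fun y => by
    refine Completion.induction_on y (isClosed_le (by fun_prop) (by fun_prop)) fun a => ?_
    refine le_trans (le_of_eq ?_) (BB.sum_co_le a.co.support _)
    simp only [map_sub, h, sub_zero, BB.co_coe, Completion.norm_coe]
    rfl
  simpa using this x

/-- the involution -/
def BB.st : BB G →L[ℝ] BB G := BB.ext (fun g => δ g⁻¹) fun _ => (norm_δ _).le

theorem BB.st_δ (g : G) : BB.st (δ g) = δ g⁻¹ := BB.ext_δ _ _ _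

theorem BB.st_mul (x y : BB G) : BB.st (x * y) = BB.st y * BB.st x := by
  refine BB.ind (p := fun x => BB.st (x * y) = BB.st y * BB.st x)
    (isClosed_eq (by fun_prop) (by fun_prop)) (by simp)
    (fun a b ha hb => by rw [add_mul, map_add, map_add, mul_add, ha, hb]) (fun r g => ?_) x
  refine BB.ind (p := fun y => BB.st (r • δ g * y) = BB.st y * BB.st (r • δ g))
    (isClosed_eq (by fun_prop) (by fun_prop)) (by simp)
    (fun a b ha hb => by rw [mul_add, map_add, ha, hb, map_add, add_mul]) (fun s k => ?_) y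
  simp only [smul_mul_assoc, mul_smul_comm, map_smul, ← map_mul, BB.st_δ, mul_inv_rev]
  exact smul_comm _ _ _

theorem BB.st_st (x : BB G) : BB.st (BB.st x) = x := by
  have : BB.st.comp BB.st = ContinuousLinearMap.id ℝ (BB G) :=
    BB.hom_ext fun g => by simp [BB.st_δ]
  exact DFunLike.congr_fun this x

instance : StarRing (BB G) where
  star := BB.st
  star_involutive := BB.st_st
  star_mul := BB.st_mul
  star_add := map_add BB.st

theorem BB.star_def (x : BB G) : star x = BB.st x := rfl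

theorem star_δ (g : G) : star (δ g : BB G) = δ g⁻¹ := BB.st_δ g

theorem BB.star_smul (r : ℝ) (x : BB G) : star (r • x) = r • star x := map_smul BB.st r x

instance : ContinuousStar (BB G) := ⟨BB.st.continuous⟩

/-- the trace -/
def τ : BB G →L[ℝ] ℝ := BB.co 1

open Classical in
theorem τ_comm (x y : BB G) : τ (x * y) = τ (y * x) := by
  refine BB.ind (p := fun x => τ (x * y) = τ (y * x))
    (isClosed_eq (by fun_prop) (by fun_prop)) (by simp)
    (fun a b ha hb => by rw [add_mul, map_add, mul_add, map_add, ha, hb]) (fun r g => ?_) x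
  refine BB.ind (p := fun y => τ (r • δ g * y) = τ (y * r • δ g))
    (isClosed_eq (by fun_prop) (by fun_prop)) (by simp)
    (fun a b ha hb => by rw [mul_add, map_add, ha, hb, add_mul, map_add]) (fun s k => ?_) y
  simp only [smul_mul_assoc, mul_smul_comm, map_smul, ← map_mul, τ, BB.co_δ, smul_eq_mul]
  rw [if_congr (mul_eq_one_comm (a := g) (b := k)) rfl rfl]
  ring

open Classical in
theorem τ_star (x : BB G) : τ (star x) = τ x := by
  have : (τ : BB G →L[ℝ] ℝ).comp BB.st = τ :=
    BB.hom_ext fun g => by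
      rw [ContinuousLinearMap.comp_apply, BB.st_δ, τ, BB.co_δ, BB.co_δ,
        if_congr inv_eq_one rfl rfl]
  exact DFunLike.congr_fun this x

open Classical in
theorem τ_mul_δ (x : BB G) (g : G) : τ (x * star (δ g)) = BB.co g x := by
  refine BB.ind (p := fun x => τ (x * star (δ g)) = BB.co g x)
    (isClosed_eq (by fun_prop) (by fun_prop)) (by simp)
    (fun a b ha hb => by rw [add_mul, map_add, map_add, ha, hb]) (fun r k => ?_) x
  simp only [star_δ, smul_mul_assoc, map_smul, ← map_mul, τ, BB.co_δ]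
  rw [if_congr mul_inv_eq_one rfl rfl]

theorem τ_pos (x : BB G) : 0 ≤ τ (x * star x) := by
  refine Completion.induction_on x (isClosed_le (by fun_prop) (by fun_prop)) fun a => ?_
  have : star (a : BB G) = ∑ g ∈ a.co.support, a.co g • star (δ g) := by
    conv_lhs => rw [coe_eq_sum, star_sum]
    simp only [BB.star_smul]
  rw [this, Finset.mul_sum, map_sum]
  refine Finset.sum_nonneg fun g _ => ?_
  rw [mul_smul_comm, map_smul, τ_mul_δ, BB.co_coe]
  exact mul_self_nonneg _

end

end Pool.Agent.Lib.MP_4269b5_al
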