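import Pool.Agent.Lib.MP_4269b5_al.Core

/-! From modules to matrices. -/

namespace Pool.Agent.Lib.MP_4269b5_al

open Matrix

noncomputable section

section
variable {R : Type} [Ring R]

/-- the matrix of a linear map between free left modules -/
def mat {m n : ℕ} (f : (Fin m → R) →ₗ[R] (Fin n → R)) : Matrix (Fin m) (Fin n) R :=
  LinearMap.toMatrixRight' f

theorem vecMul_mat {m n : ℕ} (f : (Fin m → R) →ₗ[R] (Fin n → R)) (x : Fin m → R) :
    x ᵥ* mat f = f x := by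
  rw [← Matrix.toLinearMapRight'_apply]
  exact DFunLike.congr_fun (LinearMap.toMatrixRight'.symm_apply_apply f) x

theorem mat_mul {m n k : ℕ} (f : (Fin m → R) →ₗ[R] (Fin n → R))
    (g : (Fin n → R) →ₗ[R] (Fin k → R)) : mat f * mat g = mat (g ∘ₗ f) := by
  ext1 i j
  rw [← row_vecMul, vecMul_mat]
  rfl

theorem mat_zero {m n : ℕ} : mat (0 : (Fin m → R) →ₗ[R] (Fin n → R)) = 0 := rfl

/-- the functional given by a column -/
def col {n : ℕ} (y : Fin n → R) : (Fin n → R) →ₗ[R] R where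
  toFun x := x ⬝ᵥ y
  map_add' a b := add_dotProduct a b y
  map_smul' r a := smul_dotProduct r a y

theorem col_mat {m n : ℕ} (f : (Fin m → R) →ₗ[R] (Fin n → R)) (y : Fin n → R) :
    col (mat f *ᵥ y) = col y ∘ₗ f :=
  LinearMap.ext fun x => by
    change x ⬝ᵥ (mat f *ᵥ y) = f x ⬝ᵥ y
    rw [dotProduct_mulVec, vecMul_mat]

theorem col_inj {n : ℕ} {y z : Fin n → R} (h : col y = col z) : y = z := funext fun j => by
  have : Pi.single j 1 ⬝ᵥ y = Pi.single j 1 ⬝ᵥ z := DFunLike.congr_fun h (Pi.single j 1)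
  simpa using this

theorem col_surj {n : ℕ} (φ : (Fin n → R) →ₗ[R] R) : ∃ y, col y = φ :=
  ⟨fun j => φ (Pi.single j 1), LinearMap.pi_ext' fun j => LinearMap.ext_ring (by
    change Pi.single j 1 ⬝ᵥ _ = _
    simp)⟩

theorem exists_retract (Q : Type) [AddCommGroup Q] [Module R Q] [Module.Finite R Q]
    [Module.Projective R Q] : ∃ (n : ℕ) (s : Q →ₗ[R] (Fin n → R)) (p : (Fin n → R) →ₗ[R] Q),
      ∀ x, p (s x) = x := by
  obtain ⟨n, p, hp⟩ := Module.Finite.exists_fin' R Q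
  obtain ⟨s, hs⟩ := Module.projective_lifting_property p LinearMap.id hp
  exact ⟨n, s, p, DFunLike.congr_fun hs⟩

theorem range_projective (Q : ℕ → Type) [∀ i, AddCommGroup (Q i)] [∀ i, Module R (Q i)]
    [∀ i, Module.Finite R (Q i)] [∀ i, Module.Projective R (Q i)]
    (d : ∀ i, Q (i + 1) →ₗ[R] Q i) (dd : ∀ i y, d i (d (i + 1) y) = 0)
    (ex : ∀ i x, d i x = 0 → ∃ y, d (i + 1) y = x) (N : ℕ) (hN : ∀ i, N < i → Subsingleton (Q i))
    (coh : ∀ i, 3 ≤ i → ∀ c : Q (i + 1) →ₗ[R] R, c ∘ₗ d (i + 1) = 0 → ∃ c', c' ∘ₗ d i = c)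
    (i : ℕ) (hi : 2 ≤ i) : Module.Projective R (LinearMap.range (d i)) := by
  suffices H : ∀ k i, 2 ≤ i → N ≤ i + k → Module.Projective R (LinearMap.range (d i)) from
    H N i hi (by omega)
  intro k
  induction k with
  | zero =>
    intro i _ h
    have := hN (i + 1) (by omega)
    have : Subsingleton (LinearMap.range (d i)) :=
      (d i).surjective_rangeRestrict.subsingleton
    infer_instance
  | succ k ih =>
    intro i hi h
    have := ih (i + 1) (by omega) (by omega)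
    obtain ⟨n, s, p, hp⟩ := exists_retract (R := R) (LinearMap.range (d (i + 1)))
    have c : ∀ j : Fin n, ∃ c' : Q (i + 1) →ₗ[R] R,
        c' ∘ₗ d (i + 1) = LinearMap.proj j ∘ₗ s ∘ₗ (d (i + 1)).rangeRestrict := fun j =>
      coh (i + 1) (by omega) _ (LinearMap.ext fun y => by
        have : (d (i + 1)).rangeRestrict (d (i + 1 + 1) y) = 0 := Subtype.ext (dd _ y)
        simp [this])
    choose c hc using c
    set r : Q (i + 1) →ₗ[R] Q (i + 1) := (LinearMap.range (d (i + 1))).subtype ∘ₗ p ∘ₗ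
      LinearMap.pi c
    have hr : ∀ y, r (d (i + 1) y) = d (i + 1) y := fun y => by
      have : LinearMap.pi c (d (i + 1) y) = s ((d (i + 1)).rangeRestrict y) :=
        funext fun j => DFunLike.congr_fun (hc j) y
      simp [r, this, hp]
    have hr' : ∀ x, d i (r x) = 0 := fun x => by
      obtain ⟨y, hy⟩ := (p (LinearMap.pi c x)).2
      change d i (p (LinearMap.pi c x) : Q (i + 1)) = 0
      rw [← hy, dd]
    refine Module.Projective.of_split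
      (((LinearMap.ker (d i)).liftQ (LinearMap.id - r) fun x hx => ?_) ∘ₗ
        (d i).quotKerEquivRange.symm.toLinearMap) (d i).rangeRestrict ?_
    · obtain ⟨y, rfl⟩ := ex i x hx
      simp [hr]
    · ext ⟨_, x, rfl⟩
      simp [LinearMap.quotKerEquivRange_symm_apply_image, hr']

end

variable {G : Type} [Group G]

/-- the data used by the main argument -/
def MatData (G : Type) [Group G] : Prop :=
  ∃ (n0 n1 n2 n3 : ℕ) (w : G →* ℤˣ) (e0 : Matrix (Fin n0) (Fin n0) (ZG G))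
    (e1 : Matrix (Fin n1) (Fin n1) (ZG G)) (e2 : Matrix (Fin n2) (Fin n2) (ZG G))
    (e3 : Matrix (Fin n3) (Fin n3) (ZG G)) (D1 : Matrix (Fin n1) (Fin n0) (ZG G))
    (D2 : Matrix (Fin n2) (Fin n1) (ZG G)) (D3 : Matrix (Fin n3) (Fin n2) (ZG G))
    (aug : (Fin n0 → ZG G) →+ ℤ) (aug' : (Fin n3 → ZG G) →+ ℤ),
    IsHalf 1 e0 e1 D1 D2 aug ∧ IsHalf w e3ᴴ e2ᴴ D3ᴴ D2ᴴ aug' ∧ D2 * e1 = D2 ∧ e2 * D2 = D2

theorem four {Q0 Q1 Q2 Q3 : Type} [AddCommGroup Q0] [AddCommGroup Q1] [AddCommGroup Q2]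
    [AddCommGroup Q3] [Module (ZG G) Q0] [Module (ZG G) Q1] [Module (ZG G) Q2] [Module (ZG G) Q3]
    [Module.Finite (ZG G) Q0] [Module.Finite (ZG G) Q1] [Module.Finite (ZG G) Q2]
    [Module.Finite (ZG G) Q3] [Module.Projective (ZG G) Q0] [Module.Projective (ZG G) Q1]
    [Module.Projective (ZG G) Q2] [Module.Projective (ZG G) Q3]
    (d1 : Q1 →ₗ[ZG G] Q0) (d2 : Q2 →ₗ[ZG G] Q1) (d3 : Q3 →ₗ[ZG G] Q2) (π : Q0 →+ ℤ)
    (d21 : ∀ x, d1 (d2 x) = 0) (d32 : ∀ x, d2 (d3 x) = 0) (π1 : ∀ (g : G) x, π (og g • x) = π x)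
    (π2 : ∃ x, π x = 1) (π3 : ∀ y, π (d1 y) = 0) (ex0 : ∀ x, π x = 0 → ∃ y, d1 y = x)
    (ex1 : ∀ x, d1 x = 0 → ∃ y, d2 y = x)
    (co2 : ∀ c : Q2 →ₗ[ZG G] ZG G, c ∘ₗ d3 = 0 → ∃ c', c' ∘ₗ d2 = c)
    (v : (Q3 →ₗ[ZG G] ZG G) →+ ℤ) (v1 : ∃ c, v c = 1) (v2 : ∀ c, v c = 0 ↔ ∃ c', c' ∘ₗ d3 = c) :
    MatData G := by
  obtain ⟨n0, s0, p0, h0⟩ := exists_retract (R := ZG G) Q0
  obtain ⟨n1, s1, p1, h1⟩ := exists_retract (R := ZG G) Q1
  obtain ⟨n2, s2, p2, h2⟩ := exists_retract (R := ZG G) Q2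
  obtain ⟨n3, s3, p3, h3⟩ := exists_retract (R := ZG G) Q3
  obtain ⟨c0, hc0⟩ := v1
  have vm : ∀ (a : ZG G) c, v (MulOpposite.op a • c) = v c * v (MulOpposite.op a • c0) :=
    fun a c => by
      obtain ⟨c', hc'⟩ := (v2 (c - v c • c0)).1 (by rw [map_sub, map_zsmul, hc0]; simp)
      have := (v2 (MulOpposite.op a • (c - v c • c0))).2
        ⟨MulOpposite.op a • c', by rw [← hc']; rfl⟩
      rwa [smul_sub, smul_comm _ (v c), map_sub, map_zsmul, sub_eq_zero] at this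
  set ω : G →* ℤ :=
    { toFun := fun g => v (MulOpposite.op (og g⁻¹) • c0)
      map_one' := by simp [hc0]
      map_mul' := fun g k => by
        rw [mul_comm, ← vm, smul_smul, ← MulOpposite.op_mul, ← map_mul, _root_.mul_inv_rev] }
  set A' : (Fin n3 → ZG G) →+ ℤ :=
    { toFun := fun x => v (col (star x) ∘ₗ s3)
      map_zero' := by
        have : col (star (0 : Fin n3 → ZG G)) ∘ₗ s3 = 0 :=
          LinearMap.ext fun y => by simp [col]
        rw [this, map_zero]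
      map_add' := fun x y => by
        rw [← map_add]
        congr 1
        exact LinearMap.ext fun y => by simp [col] }
  have hA : ∀ x, A' x = v (col (star x) ∘ₗ s3) := fun _ => rfl
  have ct : ∀ {a b : ℕ} (x : Fin a → ZG G) (M : Matrix (Fin b) (Fin a) (ZG G)),
      star (x ᵥ* Mᴴ) = M *ᵥ star x := fun x M => by rw [vecMul_conjTranspose, star_star]
  have ct' : ∀ {a b : ℕ} (x : Fin a → ZG G) (M : Matrix (Fin b) (Fin a) (ZG G)) (y : Fin b → ZG G),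
      col (M *ᵥ x) = col (star y) → star x ᵥ* Mᴴ = y := fun x M y h => by
    rw [← star_mulVec, col_inj h, star_star]
  refine ⟨n0, n1, n2, n3, ω.toHomUnits, mat (s0 ∘ₗ p0), mat (s1 ∘ₗ p1), mat (s2 ∘ₗ p2),
    mat (s3 ∘ₗ p3), mat (s0 ∘ₗ d1 ∘ₗ p1), mat (s1 ∘ₗ d2 ∘ₗ p2), mat (s2 ∘ₗ d3 ∘ₗ p3),
    π.comp p0.toAddMonoidHom, A', ⟨?_, ?_, ?_, ?_, ?_, ?_, ?_, ?_, ?_, ?_⟩,
    ⟨?_, ?_, ?_, ?_, ?_, ?_, ?_, ?_, ?_, ?_⟩, ?_, ?_⟩
  · rw [mat_mul]; congr 1; ext1; simp [LinearMap.ext_iff, h0]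
  · rw [mat_mul]; congr 1; ext1; simp [LinearMap.ext_iff, h1]
  · rw [mat_mul]; congr 1; ext1; simp [LinearMap.ext_iff, h0]
  · rw [mat_mul]; congr 1; ext1; simp [LinearMap.ext_iff, h1]
  · rw [mat_mul, ← mat_zero]; congr 1; ext1; simp [LinearMap.ext_iff, h1, d21]
  · intro g x; simp [π1]
  · obtain ⟨x, hx⟩ := π2
    exact ⟨s0 x, by simp [vecMul_mat, h0], by simp [h0, hx]⟩
  · intro y; simp [vecMul_mat, h0, π3]
  · intro x hx hx'
    obtain ⟨y, hy⟩ := ex0 (p0 x) hx'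
    rw [vecMul_mat] at hx
    exact ⟨s1 y, by rw [vecMul_mat, ← hx]; simp [h1, hy]⟩
  · intro x hx hx'
    rw [vecMul_mat] at hx hx'
    obtain ⟨y, hy⟩ := ex1 (p1 x) (by simpa [h0] using congrArg p0 hx')
    exact ⟨s2 y, by rw [vecMul_mat, ← hx]; simp [h2, hy]⟩
  · rw [← conjTranspose_mul, mat_mul]; congr 2; ext1; simp [LinearMap.ext_iff, h3]
  · rw [← conjTranspose_mul, mat_mul]; congr 2; ext1; simp [LinearMap.ext_iff, h2]
  · rw [← conjTranspose_mul, mat_mul]; congr 2; ext1; simp [LinearMap.ext_iff, h3]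
  · rw [← conjTranspose_mul, mat_mul]; congr 2; ext1; simp [LinearMap.ext_iff, h2]
  · rw [← conjTranspose_mul, mat_mul, conjTranspose_eq_zero, ← mat_zero]
    congr 1; ext1; simp [LinearMap.ext_iff, h2, d32]
  · intro g x
    have : col (star (og g • x)) ∘ₗ s3 = MulOpposite.op (og g⁻¹) • (col (star x) ∘ₗ s3) :=
      LinearMap.ext fun y => by
        simp [col, dotProduct, star_og, Finset.sum_mul, mul_assoc]
    rw [hA, hA, this, vm, mul_comm]
    rfl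
  · obtain ⟨y, hy⟩ := col_surj (c0 ∘ₗ p3)
    refine ⟨star y, ct' _ _ _ ?_, ?_⟩
    · rw [col_mat, star_star, hy]; ext1; simp [LinearMap.ext_iff, h3]
    · rw [hA, star_star, hy, ← hc0]; congr 1; ext1; simp [h3]
  · intro y
    rw [hA, ct, col_mat, v2]
    exact ⟨col (star y) ∘ₗ s2, by ext1; simp [h3]⟩
  · intro x hx hx'
    obtain ⟨c', hc'⟩ := (v2 _).1 hx'
    obtain ⟨z, hz⟩ := col_surj (c' ∘ₗ p2)
    refine ⟨star z, ct' _ _ _ ?_⟩
    rw [← hx, ct, col_mat, col_mat, hz, ← LinearMap.comp_assoc p3 s3, ← hc']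
    ext1; simp [LinearMap.ext_iff, h2]
  · intro x hx hx'
    have h4 := congrArg (fun y => col (star y) ∘ₗ s3) hx'
    simp only [ct, col_mat] at h4
    obtain ⟨c', hc'⟩ := co2 (col (star x) ∘ₗ s2) (by
      ext1 y
      simpa [h3, col] using DFunLike.congr_fun h4 y)
    obtain ⟨z, hz⟩ := col_surj (c' ∘ₗ p1)
    refine ⟨star z, ct' _ _ _ ?_⟩
    rw [← hx, ct, col_mat, col_mat, hz, ← LinearMap.comp_assoc p2 s2, ← hc']
    ext1; simp [LinearMap.ext_iff, h1]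
  · rw [mat_mul]; congr 1; ext1; simp [LinearMap.ext_iff, h1]
  · rw [mat_mul]; congr 1; ext1; simp [LinearMap.ext_iff, h2]

theorem many (Q : ℕ → Type) [∀ i, AddCommGroup (Q i)] [∀ i, Module (ZG G) (Q i)]
    [∀ i, Module.Finite (ZG G) (Q i)] [∀ i, Module.Projective (ZG G) (Q i)]
    (d : ∀ i, Q (i + 1) →ₗ[ZG G] Q i) (dd : ∀ i y, d i (d (i + 1) y) = 0)
    (ex : ∀ i x, d i x = 0 → ∃ y, d (i + 1) y = x) (N : ℕ) (hN : ∀ i, N < i → Subsingleton (Q i))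
    (coh : ∀ i, i ≠ 2 → ∀ c : Q (i + 1) →ₗ[ZG G] ZG G, c ∘ₗ d (i + 1) = 0 →
      ∃ c', c' ∘ₗ d i = c)
    (π : Q 0 →+ ℤ) (π1 : ∀ (g : G) x, π (og g • x) = π x)
    (π2 : ∃ x, π x = 1) (π3 : ∀ y, π (d 0 y) = 0) (ex0 : ∀ x, π x = 0 → ∃ y, d 0 y = x)
    (v : (Q 3 →ₗ[ZG G] ZG G) → ℤ)
    (v0 : ∀ c c', c ∘ₗ d 3 = 0 → c' ∘ₗ d 3 = 0 → v (c + c') = v c + v c')
    (v1 : ∃ c, c ∘ₗ d 3 = 0 ∧ v c = 1)
    (v2 : ∀ c, c ∘ₗ d 3 = 0 → (v c = 0 ↔ ∃ c', c' ∘ₗ d 2 = c)) : MatData G := by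
  have := range_projective Q d dd ex N hN (fun i hi => coh i (by omega)) 2 le_rfl
  have z : ∀ c : LinearMap.range (d 2) →ₗ[ZG G] ZG G, (c ∘ₗ (d 2).rangeRestrict) ∘ₗ d 3 = 0 :=
    fun c => LinearMap.ext fun y => by
      have : (d 2).rangeRestrict (d 3 y) = 0 := Subtype.ext (dd 2 y)
      simp [this]
  refine four (d 0) (d 1) (LinearMap.range (d 2)).subtype π (dd 0) ?_ π1 π2 π3 ex0 (ex 0)
    (fun c hc => coh 1 (by norm_num) c ?_)
    (AddMonoidHom.mk' (fun c => v (c ∘ₗ (d 2).rangeRestrict)) fun c c' => ?_) ?_ fun c => ?_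
  · rintro ⟨_, y, rfl⟩
    exact dd 1 y
  · exact LinearMap.ext fun y => DFunLike.congr_fun hc ((d 2).rangeRestrict y)
  · rw [LinearMap.add_comp, v0 _ _ (z c) (z c')]
  · obtain ⟨c, h1, h2⟩ := v1
    have le : LinearMap.ker (d 2) ≤ LinearMap.ker c := fun x hx => by
      obtain ⟨y, rfl⟩ := ex 2 x hx
      exact DFunLike.congr_fun h1 y
    refine ⟨((LinearMap.ker (d 2)).liftQ c le) ∘ₗ (d 2).quotKerEquivRange.symm.toLinearMap, ?_⟩
    rw [← h2]
    refine congrArg v (LinearMap.ext fun y => ?_)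
    have := (d 2).quotKerEquivRange_symm_apply_image y ⟨y, rfl⟩
    exact congrArg ((LinearMap.ker (d 2)).liftQ c le) this
  · refine (v2 _ (z c)).trans (exists_congr fun c' => ⟨fun h => ?_, fun h => ?_⟩)
    · ext ⟨_, y, rfl⟩
      exact congrArg (fun a : ZG G => a.coeff _) (DFunLike.congr_fun h y)
    · rw [← h]; rfl

end

end Pool.Agent.Lib.MP_4269b5_al
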