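import Mathlib

/-! The group von Neumann algebra and its trace. -/

set_option linter.unusedSectionVars false
set_option linter.unusedVariables false

namespace Pool.Agent.Lib.MP_4269b5_al.Nv

open Filter Topology ContinuousLinearMap

noncomputable section

open Classical

/-- square summable functions -/
abbrev L2 (X : Type) := lp (fun _ : X => ℂ) 2

/-- basis vector -/
def dl {X : Type} (x : X) : L2 X := lp.single 2 x 1

variable {X Y : Type}

theorem inner_dl (x : X) (f : L2 X) : inner ℂ (dl x) f = f x := by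
  simp [dl, lp.inner_single_left]

theorem dl_apply (x y : X) : dl x y = if y = x then 1 else 0 := by
  simp [dl, lp.single_apply, Pi.single_apply]

theorem ext_dl {E : Type} [NormedAddCommGroup E] [NormedSpace ℂ E] {f g : L2 X →L[ℂ] E}
    (h : ∀ x, f (dl x) = g (dl x)) : f = g :=
  lp.ext_continuousLinearMap (by simp) fun i => ContinuousLinearMap.ext_ring (h i)

theorem on_dl (σ : X → Y) (h : Function.Injective σ) : Orthonormal ℂ fun x => dl (σ x) :=
  orthonormal_iff_ite.2 fun x y => by rw [inner_dl, dl_apply]; simp only [h.eq_iff]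

/-- isometry given by an injection -/
def pm (σ : X → Y) (h : Function.Injective σ) : L2 X →L[ℂ] L2 Y :=
  (on_dl σ h).orthogonalFamily.linearIsometry.toContinuousLinearMap

theorem pm_dl (σ : X → Y) (h : Function.Injective σ) (x : X) : pm σ h (dl x) = dl (σ x) := by
  simp [pm, dl]

theorem adj_dl (T : L2 X →L[ℂ] L2 Y) (x : X) (y : Y) :
    adjoint T (dl y) x = (starRingEnd ℂ) (T (dl x) y) := by
  rw [← inner_dl, adjoint_inner_right, ← inner_conj_symm, inner_dl]

theorem ext_dl' {f g : L2 X →L[ℂ] L2 Y} (h : ∀ x y, f (dl x) y = g (dl x) y) : f = g :=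
  ext_dl fun x => lp.ext (funext (h x))

theorem adj_pm (σ : X → Y) (h : Function.Injective σ) (y : Y) (x : X) :
    adjoint (pm σ h) (dl y) x = if y = σ x then 1 else 0 := by
  rw [adj_dl, pm_dl, dl_apply]; split_ifs <;> simp

theorem comp_dl (T : L2 X →L[ℂ] L2 Y) (v : L2 X) (y : Y) :
    HasSum (fun x => v x * T (dl x) y) (T v y) := by
  have := (lp.hasSum_single (p := 2) (by simp) v).mapL (innerSL ℂ (dl y) ∘L T)
  simp only [ContinuousLinearMap.comp_apply, innerSL_apply_apply, inner_dl] at this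
  refine this.congr_fun fun x => ?_
  have : lp.single 2 x (v x) = v x • dl x := by
    rw [dl, ← lp.single_smul, smul_eq_mul, mul_one]
  rw [this, map_smul]
  rfl

section Erg

variable {E F : Type} [NormedAddCommGroup E] [InnerProductSpace ℂ E] [CompleteSpace E]
  [NormedAddCommGroup F] [InnerProductSpace ℂ F] [CompleteSpace F]

/-- projection onto the kernel -/
def kp (A : E →L[ℂ] F) : E →L[ℂ] E := A.ker.starProjection

theorem erg (A : E →L[ℂ] F) (t : ℝ) (t0 : 0 < t) (t1 : t * ‖A‖ ^ 2 ≤ 1) (x : E) :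
    Tendsto (fun N : ℕ => (N : ℂ)⁻¹ • ∑ n ∈ Finset.range N,
      ((1 - (t : ℂ) • (adjoint A ∘L A)) ^ n) x) atTop (𝓝 (kp A x)) := by
  set C : E →L[ℂ] E := 1 - (t : ℂ) • (adjoint A ∘L A) with hC
  have i1 : ∀ y, inner ℂ y (adjoint A (A y)) = ((‖A y‖ ^ 2 : ℝ) : ℂ) := fun y => by
    rw [adjoint_inner_right, inner_self_eq_norm_sq_to_K]; simp
  have n1 : ‖C‖ ≤ 1 := opNorm_le_bound _ zero_le_one fun y => by
    rw [one_mul]
    refine (pow_le_pow_iff_left₀ (norm_nonneg _) (norm_nonneg _) two_ne_zero).1 ?_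
    have e : C y = y - (t : ℂ) • adjoint A (A y) := rfl
    have b : ‖adjoint A (A y)‖ ≤ ‖A‖ * ‖A y‖ := by
      simpa using (adjoint A).le_opNorm (A y)
    have b2 := pow_le_pow_left₀ (norm_nonneg _) b 2
    rw [e, @norm_sub_sq ℂ, inner_smul_right, i1, norm_smul, Complex.norm_real, Real.norm_eq_abs,
      abs_of_pos t0, ← Complex.ofReal_mul]
    simp only [RCLike.re_to_complex, Complex.ofReal_re]
    have : 0 ≤ t * ‖A y‖ ^ 2 := by positivity
    have b3 := mul_le_mul_of_nonneg_left b2 (sq_nonneg t)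
    have b4 := mul_le_mul_of_nonneg_left t1 this
    nlinarith
  have e : C.eqLocus (1 : E →L[ℂ] E) = A.ker := by
    ext y
    change C y = y ↔ A y = 0
    have e : C y = y - (t : ℂ) • adjoint A (A y) := rfl
    rw [e, sub_eq_self, smul_eq_zero_iff_right (by exact_mod_cast t0.ne')]
    refine ⟨fun h => ?_, fun h => by rw [h, map_zero]⟩
    have := i1 y
    rw [h, inner_zero_right] at this
    have : ‖A y‖ ^ 2 = 0 := by exact_mod_cast this.symm
    simpa using this
  have := C.tendsto_birkhoffAverage_orthogonalProjection n1 x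
  have e2 : ((C.eqLocus (1 : E →L[ℂ] E)).orthogonalProjectionOnto x : E) = kp A x := by
    rw [← Submodule.starProjection_apply]
    simp only [e]
    rfl
  rw [e2] at this
  simpa only [birkhoffAverage, birkhoffSum, id, ContinuousLinearMap.coe_pow'] using this

theorem kp_mem (A : E →L[ℂ] F) (x : E) : A (kp A x) = 0 := A.ker.starProjection_apply_mem x

theorem kp_self (A : E →L[ℂ] F) {x : E} (h : A x = 0) : kp A x = x :=
  Submodule.starProjection_eq_self_iff.2 h

theorem kp_adj (A : E →L[ℂ] F) : adjoint (kp A) = kp A := isSelfAdjoint_starProjection _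

end Erg

variable {G : Type} [Group G] {κ ν ι : Type} [Fintype κ] [Fintype ν] [Fintype ι]

/-- right translation -/
def Rt (κ : Type) (g : G) : L2 (κ × G) →L[ℂ] L2 (κ × G) :=
  pm (fun p => (p.1, p.2 * g)) fun p q h =>
    Prod.ext (Prod.mk.inj h).1 (mul_right_cancel (Prod.mk.inj h).2)

theorem Rt_dl (g : G) (i : κ) (x : G) : Rt κ g (dl (i, x)) = dl (i, x * g) := pm_dl _ _ _

theorem Rt_adj (g : G) : adjoint (Rt κ g) = Rt κ g⁻¹ := ext_dl' fun ⟨i, x⟩ ⟨j, y⟩ => by
  rw [Rt, adj_pm, Rt_dl, dl_apply]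
  simp only [Prod.mk.injEq, eq_mul_inv_iff_mul_eq, eq_comm]

theorem Rt_apply (g : G) (v : L2 (κ × G)) (i : κ) (x : G) : Rt κ g v (i, x) = v (i, x * g⁻¹) := by
  rw [← inner_dl, ← adjoint_inner_left, Rt_adj, Rt_dl, inner_dl]

/-- commutes with right translations -/
def Cm (T : L2 (κ × G) →L[ℂ] L2 (ν × G)) : Prop := ∀ g v, T (Rt κ g v) = Rt ν g (T v)

variable {T T' : L2 (κ × G) →L[ℂ] L2 (ν × G)}

theorem Cm.comp {U : L2 (ν × G) →L[ℂ] L2 (ι × G)} (hU : Cm U) (h : Cm T) : Cm (U ∘L T) :=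
  fun g v => (congrArg U (h g v)).trans (hU g _)

theorem Cm.add (h : Cm T) (h' : Cm T') : Cm (T + T') := fun g v => by
  simp only [add_apply, h g, h' g, map_add]

theorem Cm.sub (h : Cm T) (h' : Cm T') : Cm (T - T') := fun g v => by
  simp only [sub_apply, h g, h' g, map_sub]

theorem Cm.smul (h : Cm T) (c : ℂ) : Cm (c • T) := fun g v => by
  simp only [smul_apply, h g, map_smul]

theorem cm_one : Cm (1 : L2 (κ × G) →L[ℂ] L2 (κ × G)) := fun _ _ => rfl

theorem cm_zero : Cm (0 : L2 (κ × G) →L[ℂ] L2 (ν × G)) := fun _ _ => by simp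

theorem Cm.sum {σ : Type} (t : Finset σ) {f : σ → L2 (κ × G) →L[ℂ] L2 (ν × G)}
    (h : ∀ l, Cm (f l)) : Cm (∑ l ∈ t, f l) := fun g v => by
  simp only [sum_apply, h _ g, map_sum]

theorem Cm.pow {T : L2 (κ × G) →L[ℂ] L2 (κ × G)} (h : Cm T) (n : ℕ) : Cm (T ^ n) := by
  induction n with
  | zero => exact cm_one
  | succ n ih => rw [pow_succ]; exact ih.comp h

theorem Cm.adj (h : Cm T) : Cm (adjoint T) := fun g v => ext_inner_left ℂ fun u => by
  rw [adjoint_inner_right, ← adjoint_inner_left, Rt_adj, ← h, ← adjoint_inner_right, ← Rt_adj,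
    adjoint_inner_left]

theorem cm_proj (K : Submodule ℂ (L2 (κ × G))) [K.HasOrthogonalProjection]
    (h : ∀ g, ∀ v ∈ K, Rt κ g v ∈ K) : Cm K.starProjection := fun g v =>
  Submodule.eq_starProjection_of_mem_orthogonal (h g _ (K.starProjection_apply_mem v))
    fun u hu => by
      rw [← map_sub, ← adjoint_inner_left, Rt_adj]
      exact K.sub_starProjection_mem_orthogonal v _ (h _ u hu)

theorem Cm.ker (h : Cm T) (g : G) (v : L2 (κ × G)) (e : T v = 0) : T (Rt κ g v) = 0 := by
  rw [h, e, map_zero]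

theorem Cm.kp (h : Cm T) : Cm (kp T) := cm_proj _ h.ker

theorem Cm.zero (h : Cm T) (e : ∀ i, T (dl (i, 1)) = 0) : T = 0 := ext_dl fun ⟨i, g⟩ => by
  have := h g (dl (i, 1))
  rw [Rt_dl, one_mul, e, map_zero] at this
  exact this

/-- the trace -/
def tr (T : L2 (κ × G) →L[ℂ] L2 (κ × G)) : ℂ := ∑ i, T (dl (i, 1)) (i, 1)

theorem tr_sub (T T' : L2 (κ × G) →L[ℂ] L2 (κ × G)) : tr (T - T') = tr T - tr T' := by
  simp [tr]

theorem tr_add (T T' : L2 (κ × G) →L[ℂ] L2 (κ × G)) : tr (T + T') = tr T + tr T' := by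
  simp [tr, Finset.sum_add_distrib]

theorem tr_smul (c : ℂ) (T : L2 (κ × G) →L[ℂ] L2 (κ × G)) : tr (c • T) = c * tr T := by
  simp [tr, Finset.mul_sum]

theorem tr_one : tr (1 : L2 (κ × G) →L[ℂ] L2 (κ × G)) = Fintype.card κ := by
  simp [tr, dl_apply]

theorem tr_eq {U : L2 (ν × G) →L[ℂ] L2 (κ × G)} (hU : Cm U) (T : L2 (κ × G) →L[ℂ] L2 (ν × G)) :
    tr (U ∘L T) = ∑ i, ∑ j, ∑' g, T (dl (i, 1)) (j, g) * U (dl (j, 1)) (i, g⁻¹) :=
  Finset.sum_congr rfl fun i _ => by
    have := comp_dl U (T (dl (i, 1))) (i, 1)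
    rw [comp_apply, ← this.tsum_eq, this.summable.tsum_prod, tsum_fintype]
    refine Finset.sum_congr rfl fun j _ => tsum_congr fun g => ?_
    have := hU g (dl (j, 1))
    rw [Rt_dl, one_mul] at this
    rw [this, Rt_apply, one_mul]

theorem tr_comm {U : L2 (ν × G) →L[ℂ] L2 (κ × G)} (hU : Cm U) (h : Cm T) :
    tr (U ∘L T) = tr (T ∘L U) := by
  rw [tr_eq hU, tr_eq h, Finset.sum_comm]
  refine Finset.sum_congr rfl fun j _ => Finset.sum_congr rfl fun i _ => ?_
  rw [← (Equiv.inv G).tsum_eq]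
  simp only [Equiv.inv_apply, inv_inv, mul_comm]

theorem tr_kp (T : L2 (κ × G) →L[ℂ] L2 (ν × G)) :
    tr (kp T) = ((∑ i, ‖kp T (dl (i, 1))‖ ^ 2 : ℝ) : ℂ) := by
  rw [tr, Complex.ofReal_sum]
  refine Finset.sum_congr rfl fun i _ => ?_
  rw [← inner_dl, ← kp_self T (kp_mem T (dl (i, 1))), ← adjoint_inner_left, kp_adj,
    inner_self_eq_norm_sq_to_K, kp_self T (kp_mem T (dl (i, 1)))]
  simp

theorem tr_lim (T : L2 (κ × G) →L[ℂ] L2 (ν × G)) (t : ℝ) (t0 : 0 < t) (t1 : t * ‖T‖ ^ 2 ≤ 1) :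
    Tendsto (fun N : ℕ => (N : ℂ)⁻¹ * ∑ n ∈ Finset.range N,
      tr ((1 - (t : ℂ) • (adjoint T ∘L T)) ^ n)) atTop (𝓝 (tr (kp T))) := by
  have := tendsto_finsetSum Finset.univ fun i _ =>
    ((innerSL ℂ (dl (i, (1 : G)))).continuous.tendsto _).comp (erg T t t0 t1 (dl (i, 1)))
  simp only [Function.comp_def, innerSL_apply_apply, inner_smul_right, inner_sum, inner_dl] at this
  refine this.congr fun N => ?_
  rw [← Finset.mul_sum, Finset.sum_comm]
  rfl

theorem rank_null (h : Cm T) :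
    Fintype.card κ - tr (kp T) = Fintype.card ν - tr (kp (adjoint T)) := by
  set t : ℝ := (‖T‖ ^ 2 + 1)⁻¹
  have t0 : 0 < t := by positivity
  have t1 : t * ‖T‖ ^ 2 ≤ 1 := by
    rw [inv_mul_le_iff₀ (by positivity)]; linarith
  have l1 := tr_lim T t t0 t1
  have l2 := tr_lim (adjoint T) t t0 (by rwa [LinearIsometryEquiv.norm_map])
  rw [adjoint_adjoint] at l2
  set C := 1 - (t : ℂ) • (adjoint T ∘L T) with hC
  set D := 1 - (t : ℂ) • (T ∘L adjoint T) with hD
  have cC : Cm C := cm_one.sub ((h.adj.comp h).smul _)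
  have e1 : ∀ n : ℕ, T ∘L C ^ n = (D ^ n) ∘L T := fun n => by
    induction n with
    | zero => rfl
    | succ n ih =>
      rw [pow_succ, pow_succ, mul_def, ← comp_assoc, ih, mul_def, comp_assoc, comp_assoc]
      congr 1
      ext1 v
      change T (v - (t : ℂ) • adjoint T (T v)) = T v - (t : ℂ) • T (adjoint T (T v))
      rw [map_sub, map_smul]
  have e2 : ∀ n : ℕ, tr (C ^ n) - tr (D ^ n) = Fintype.card κ - Fintype.card ν := fun n => by
    induction n with
    | zero => rw [pow_zero, pow_zero, tr_one, tr_one]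
    | succ n ih =>
      have := tr_comm (((cC.pow n).comp h.adj)) h
      rw [← comp_assoc, e1, comp_assoc, comp_assoc] at this
      rw [pow_succ, pow_succ, ← ih]
      nth_rw 2 [hC, hD]
      rw [mul_sub, mul_sub, mul_one, mul_one, mul_smul_comm, mul_smul_comm, tr_sub, tr_sub,
        tr_smul, tr_smul, mul_def, mul_def, this]
      ring
  have l3 : Tendsto (fun N : ℕ => (Fintype.card κ - Fintype.card ν : ℂ)) atTop
      (𝓝 (tr (kp T) - tr (kp (adjoint T)))) := (l1.sub l2).congr' (by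
    filter_upwards [eventually_ne_atTop 0] with N hN
    rw [← mul_sub, ← Finset.sum_sub_distrib]
    simp only [e2, Finset.sum_const, Finset.card_range, nsmul_eq_mul]
    rw [inv_mul_cancel_left₀ (by exact_mod_cast hN)])
  linear_combination tendsto_nhds_unique tendsto_const_nhds l3

theorem kap_op {E : L2 (κ × G) →L[ℂ] L2 (κ × G)} (h : Cm E) (e : E ∘L E = E) :
    ∃ r : ℝ, 0 ≤ r ∧ tr E = r ∧ (r = 0 → E = 0) ∧ ∀ (ν : Type) [Fintype ν]
      (T : L2 (ν × G) →L[ℂ] L2 (κ × G)), Cm T → (∀ c : L2 (κ × G) →L[ℂ] L2 (κ × G), Cm c →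
        c ∘L E = c → c ∘L T = 0 → c = 0) → r ≤ Fintype.card ν := by
  set q := kp (1 - adjoint E) with hq
  have cq : Cm q := (cm_one.sub h.adj).kp
  have aq : adjoint q = q := kp_adj _
  have q1 : adjoint E ∘L q = q := by
    ext1 v
    exact (sub_eq_zero.1 (kp_mem (1 - adjoint E) v)).symm
  have q2 : q ∘L adjoint E = adjoint E := by
    ext1 v
    refine kp_self _ (sub_eq_zero.2 ?_)
    change adjoint E v = (adjoint E ∘L adjoint E) v
    rw [← adjoint_comp, e]
  have q3 : q ∘L E = q := by simpa [aq] using congrArg adjoint q1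
  have q4 : E ∘L q = E := by simpa [aq] using congrArg adjoint q2
  have t1 : tr E = tr q := by rw [← q4, tr_comm h cq, q3]
  refine ⟨_, Finset.sum_nonneg fun i _ => sq_nonneg _, t1.trans (tr_kp _), fun z => ?_,
    fun ν _ T hT inj => ?_⟩
  · rw [← q4, cq.zero fun i => ?_, comp_zero]
    simpa using (Finset.sum_eq_zero_iff_of_nonneg fun i _ => sq_nonneg _).1 z i (Finset.mem_univ i)
  set N := (1 - adjoint E).ker ⊓ (adjoint T).ker
  have : CompleteSpace N :=
    ((1 - adjoint E).isClosed_ker.inter (adjoint T).isClosed_ker).completeSpace_coe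
  have ap : adjoint N.starProjection = N.starProjection := isSelfAdjoint_starProjection _
  have p0 := inj N.starProjection (cm_proj N fun g v hv =>
    ⟨(cm_one.sub h.adj).ker g v hv.1, hT.adj.ker g v hv.2⟩) (by
      have : adjoint E ∘L N.starProjection = N.starProjection := by
        ext1 v
        exact (sub_eq_zero.1 (N.starProjection_apply_mem v).1).symm
      simpa [ap] using congrArg adjoint this) (by
      have : adjoint T ∘L N.starProjection = 0 := by
        ext1 v
        exact (N.starProjection_apply_mem v).2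
      simpa [ap] using congrArg adjoint this)
  have qq : ∀ v, q (q v) = q v := fun v => kp_self _ (kp_mem _ v)
  have k1 : kp (adjoint T ∘L q) = 1 - q := by
    ext1 v
    refine Submodule.eq_starProjection_of_mem_orthogonal ?_ fun u hu => ?_
    · change adjoint T (q (v - q v)) = 0
      rw [map_sub, qq, sub_self, map_zero]
    · have : N.starProjection (q u) = q u :=
        Submodule.starProjection_eq_self_iff.2 ⟨kp_mem _ u, hu⟩
      rw [p0, zero_apply] at this
      change inner ℂ u (v - (v - q v)) = 0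
      rw [sub_sub_cancel, ← adjoint_inner_left, aq, ← this, inner_zero_left]
  have := rank_null (hT.adj.comp cq)
  rw [k1, tr_sub, tr_one, sub_sub_cancel, tr_kp, tr_kp] at this
  have := congrArg Complex.re this
  simp only [Complex.ofReal_re, Complex.sub_re, Complex.natCast_re] at this
  rw [this]
  exact sub_le_self _ (Finset.sum_nonneg fun i _ => sq_nonneg _)

/-- the group von Neumann algebra -/
def NG (G : Type) [Group G] : Subalgebra ℂ (L2 (Unit × G) →L[ℂ] L2 (Unit × G)) where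
  carrier := {T | Cm T}
  mul_mem' a b := Cm.comp a b
  add_mem' a b := Cm.add a b
  algebraMap_mem' c := by
    rw [Algebra.algebraMap_eq_smul_one]; exact cm_one.smul c

/-- inclusion of a coordinate -/
def inc (G : Type) (i : κ) : L2 (Unit × G) →L[ℂ] L2 (κ × G) :=
  pm (fun p => (i, p.2)) fun p q h => Prod.ext rfl (Prod.mk.inj h).2

theorem inc_dl (i : κ) (u : Unit) (g : G) : inc G i (dl (u, g)) = dl (i, g) := pm_dl _ _ _

theorem cm_of (h : ∀ g x, T (Rt κ g (dl x)) = Rt ν g (T (dl x))) : Cm T := fun g v =>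
  DFunLike.congr_fun (ext_dl (f := T ∘L Rt κ g) (g := Rt ν g ∘L T) (h g)) v

theorem cm_inc (i : κ) : Cm (inc G i) := cm_of fun g ⟨_, x⟩ => by simp only [Rt_dl, inc_dl]

theorem adj_inc (i j : κ) (g : G) :
    adjoint (inc G i) (dl (j, g)) = if j = i then dl ((), g) else 0 := lp.ext (funext fun ⟨_, x⟩ => by
  rw [inc, adj_pm]
  split_ifs with h1 h2 h2
  · rw [dl_apply, if_pos (by rw [(Prod.mk.inj h1).2])]
  · exact absurd (Prod.mk.inj h1).1 h2
  · rw [dl_apply, if_neg fun z => h1 (by rw [h2, (Prod.mk.inj z).2])]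
  · rfl)

theorem adj_inc_apply (i : κ) (v : L2 (κ × G)) (g : G) : adjoint (inc G i) v ((), g) = v (i, g) := by
  rw [← inner_dl, adjoint_inner_right, inc_dl, inner_dl]

/-- operator of a matrix -/
def op (a : Matrix κ ν (NG G)) : L2 (ν × G) →L[ℂ] L2 (κ × G) :=
  ∑ i, ∑ j, inc G i ∘L (a i j).1 ∘L adjoint (inc G j)

theorem cm_op (a : Matrix κ ν (NG G)) : Cm (op a) :=
  Cm.sum _ fun i => Cm.sum _ fun j => (cm_inc i).comp (Cm.comp (a i j).2 (cm_inc j).adj)

theorem op_inc (a : Matrix κ ν (NG G)) (j : ν) : op a ∘L inc G j = ∑ i, inc G i ∘L (a i j).1 :=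
  ext_dl fun ⟨_, g⟩ => by
    simp [op, inc_dl, adj_inc, apply_ite]

theorem ext_inc (h : ∀ j, T ∘L inc G j = T' ∘L inc G j) : T = T' := ext_dl fun ⟨j, g⟩ => by
  simpa [inc_dl] using DFunLike.congr_fun (h j) (dl ((), g))

theorem op_mul (a : Matrix κ ν (NG G)) (b : Matrix ν ι (NG G)) : op (a * b) = op a ∘L op b :=
  ext_inc fun j => by
    simp only [comp_assoc, op_inc, comp_finsetSum]
    simp only [← comp_assoc, op_inc, finsetSum_comp, Matrix.mul_apply,
      AddSubmonoidClass.coe_finsetSum, comp_finsetSum, MulMemClass.coe_mul, mul_def]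
    exact Finset.sum_comm

theorem adj_inc_inc (i j : κ) : adjoint (inc G i) ∘L inc G j = if j = i then 1 else 0 :=
  ext_dl fun ⟨_, g⟩ => by
    rw [comp_apply, inc_dl, adj_inc]
    split_ifs <;> rfl

theorem op_entry (a : Matrix κ ν (NG G)) (i : κ) (j : ν) :
    adjoint (inc G i) ∘L op a ∘L inc G j = (a i j).1 := by
  simp only [op_inc, comp_finsetSum, ← comp_assoc, adj_inc_inc]
  rw [Finset.sum_eq_single i, if_pos rfl]
  · rfl
  · intro k _ h; rw [if_neg h, zero_comp]
  · simp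

/-- the trace on the algebra -/
def τN (G : Type) [Group G] : NG G →ₗ[ℂ] ℂ where
  toFun a := tr a.1
  map_add' a b := tr_add _ _
  map_smul' c a := tr_smul _ _

theorem τN_comm (a b : NG G) : τN G (a * b) = τN G (b * a) := tr_comm a.2 b.2

theorem tr_op (a : Matrix κ κ (NG G)) : tr (op a) = ∑ i, τN G (a i i) :=
  Finset.sum_congr rfl fun i _ => by
    change _ = tr (a i i).1
    rw [← op_entry, tr, Finset.univ_unique, Finset.sum_singleton, comp_apply, comp_apply,
      adj_inc_apply, inc_dl]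

theorem kap (e : Matrix κ κ (NG G)) (ee : e * e = e) :
    ∃ r : ℝ, 0 ≤ r ∧ ∑ i, τN G (e i i) = r ∧ (r = 0 → e = 0) ∧ ∀ (ν : Type) [Fintype ν]
      (σ : Matrix κ ν (NG G)), (∀ c, Matrix.vecMul c e = c → Matrix.vecMul c σ = 0 → c = 0) →
        r ≤ Fintype.card ν := by
  obtain ⟨r, r0, r1, r2, r3⟩ := kap_op (cm_op e) (by rw [← op_mul, ee])
  refine ⟨r, r0, (tr_op e).symm.trans r1, fun z => ?_, fun ν _ σ h => r3 ν _ (cm_op σ) ?_⟩
  · ext1 i j
    apply Subtype.ext
    rw [← op_entry, r2 z]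
    simp
  intro c hc c1 c2
  have key : ∀ i, adjoint (inc G i) ∘L c = 0 := fun i => by
    set v : κ → NG G := fun j => ⟨(adjoint (inc G i) ∘L c) ∘L inc G j,
      ((cm_inc i).adj.comp hc).comp (cm_inc j)⟩
    have : ∀ (ν : Type) [Fintype ν] (a : Matrix κ ν (NG G)) j, (Matrix.vecMul v a j).1 =
        adjoint (inc G i) ∘L (c ∘L op a) ∘L inc G j := fun ν _ a j => by
      simp only [Matrix.vecMul, dotProduct, AddSubmonoidClass.coe_finsetSum, MulMemClass.coe_mul,
        mul_def, comp_assoc, op_inc, comp_finsetSum, v]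
    have z := h v (funext fun j => Subtype.ext (by rw [this, c1]; rfl))
      (funext fun j => Subtype.ext (by rw [this, c2]; simp))
    exact ext_inc fun j => congrArg Subtype.val (congrFun z j)
  refine ext_dl' fun x ⟨i, g⟩ => ?_
  rw [← adj_inc_apply, ← comp_apply, key]
  rfl

/-- left translation -/
def Lt (g : G) : NG G :=
  ⟨pm (fun p => (p.1, g * p.2)) fun p q h => Prod.ext rfl (mul_left_cancel (Prod.mk.inj h).2),
    cm_of fun k ⟨_, x⟩ => by simp only [Rt_dl, pm_dl, mul_assoc]⟩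

theorem Lt_dl (g x : G) (u : Unit) : (Lt g).1 (dl (u, x)) = dl (u, g * x) := by
  simp only [Lt, pm_dl]

theorem Lt_one : Lt (1 : G) = 1 := Subtype.ext (ext_dl fun ⟨_, x⟩ => by rw [Lt_dl, one_mul]; rfl)

theorem Lt_mul (g k : G) : Lt (g * k) = Lt g * Lt k := Subtype.ext (ext_dl fun ⟨_, x⟩ => by
  change _ = (Lt g).1 ((Lt k).1 _)
  rw [Lt_dl, Lt_dl, Lt_dl, mul_assoc])

theorem τN_Lt (g : G) : τN G (Lt g) = if g = 1 then 1 else 0 := by
  change tr (Lt g).1 = _
  simp [tr, Lt_dl, dl_apply, eq_comm]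

theorem Lt_free {g : G} (h : Function.Injective fun n : ℕ => g ^ n) (v : NG G)
    (e : v * Lt g = v) : v = 0 := by
  refine Subtype.ext (ext_dl' fun ⟨_, x⟩ y => ?_)
  have e1 : ∀ n : ℕ, v.1 (dl ((), g ^ n * x)) = v.1 (dl ((), x)) := fun n => by
    induction n with
    | zero => simp
    | succ n ih =>
      rw [pow_succ', mul_assoc, ← Lt_dl, ← ih]
      exact DFunLike.congr_fun (congrArg Subtype.val e) _
  have s := (on_dl (fun n : ℕ => (((), g ^ n * x) : Unit × G)) fun a b z =>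
    h (mul_right_cancel (Prod.mk.inj z).2)).inner_products_summable (adjoint v.1 (dl y))
  simp only [inner_dl, adj_dl, e1, summable_const_iff] at s
  simpa using s

end

end Pool.Agent.Lib.MP_4269b5_al.Nv
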