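import Mathlib

/-! Submodules of free modules over a principal ideal domain are projective. -/

namespace Pool.Agent.Lib.MP_4269b5_al.Nv

theorem proj_sub {W : Type} [AddCommGroup W] [Module.Free ℤ W] (M : Submodule ℤ W) :
    Module.Projective ℤ M := by
  classical
  set α := Module.Free.ChooseBasisIndex ℤ W
  set b := Module.Free.chooseBasis ℤ W
  obtain ⟨_, wf⟩ := exists_wellOrder α
  set I : α → Ideal ℤ := fun a =>
    (M ⊓ ⨅ (c) (_ : a < c), LinearMap.ker (b.coord c)).map (b.coord a)
  have ex : ∀ a, ∃ v : M, (∀ c, a < c → b.repr v c = 0) ∧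
      ∀ x ∈ M, (∀ c, a < c → b.repr x c = 0) → b.repr v a ∣ b.repr x a := fun a => by
    obtain ⟨v, ⟨h1, h2⟩, h3⟩ := Submodule.IsPrincipal.generator_mem (I a)
    refine ⟨⟨v, h1⟩, by simpa using h2, fun x hx e => ?_⟩
    change b.coord a v ∣ _
    rw [h3, ← Submodule.IsPrincipal.mem_iff_generator_dvd]
    exact ⟨x, ⟨hx, by simpa using e⟩, rfl⟩
  choose v v1 v2 using ex
  set w : {a // b.repr (v a) a ≠ 0} → M := fun a => v a
  have li : LinearIndependent ℤ w := by
    rw [linearIndependent_iff']
    intro s g hg
    by_contra c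
    push Not at c
    obtain ⟨i, hi, hm⟩ := (s.filter fun i => g i ≠ 0).exists_max_image (fun i => i.1)
      (c.imp fun i h => Finset.mem_filter.2 h)
    rw [Finset.mem_filter] at hi
    have := congrArg (fun x : M => b.repr x i.1) hg
    simp only [Submodule.coe_sum, Submodule.coe_smul, map_sum, map_smul, Finsupp.finsetSum_apply,
      Finsupp.smul_apply, smul_eq_mul, Submodule.coe_zero, map_zero, Finsupp.zero_apply] at this
    rw [Finset.sum_eq_single_of_mem i hi.1] at this
    · exact mul_ne_zero hi.2 i.2 this
    · intro j hj ne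
      by_cases z : g j = 0
      · rw [z, zero_mul]
      · rw [v1 j i (lt_of_le_of_ne (hm j (Finset.mem_filter.2 ⟨hj, z⟩))
          fun e => ne (Subtype.ext e)), mul_zero]
  have key : ∀ a, ∀ x : M, (∀ c, a < c → b.repr x c = 0) → x ∈ Submodule.span ℤ (Set.range w) :=
    fun a => by
    induction a using wf.induction with
    | _ a ih =>
      intro x hx
      obtain ⟨k, hk⟩ := v2 a x x.2 hx
      have h1 : ∀ y : M, (∀ c, a ≤ c → b.repr y c = 0) → y ∈ Submodule.span ℤ (Set.range w) :=
        fun y hy => by
        rcases (b.repr y).support.eq_empty_or_nonempty with e | e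
        · rw [show y = 0 from Subtype.ext (by simpa using e)]
          exact zero_mem _
        · obtain ⟨c, hc, hm⟩ := Finset.exists_max_image _ id e
          exact ih c (lt_of_not_ge fun z => Finsupp.mem_support_iff.1 hc (hy c z)) y fun c' h =>
            Finsupp.notMem_support_iff.1 fun z => (hm c' z).not_gt h
      by_cases z : b.repr (v a) a = 0
      · exact h1 x fun c h => h.eq_or_lt.elim (fun e => by rw [← e, hk, z, zero_mul]) (hx c)
      · rw [← sub_add_cancel x (k • v a)]
        refine add_mem (h1 _ fun c h => ?_)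
          (Submodule.smul_mem _ _ (Submodule.subset_span ⟨⟨a, z⟩, rfl⟩))
        rcases h.eq_or_lt with rfl | e
        · simp [hk, mul_comm]
        · simp [hx c e, v1 a c e]
  refine Module.Projective.of_basis (Module.Basis.mk li fun x _ => ?_)
  rcases (b.repr x).support.eq_empty_or_nonempty with e | e
  · rw [show x = 0 from Subtype.ext (by simpa using e)]
    exact zero_mem _
  · obtain ⟨c, hc, hm⟩ := Finset.exists_max_image _ id e
    exact key c x fun c' h => Finsupp.notMem_support_iff.1 fun z => (hm c' z).not_gt h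

end Pool.Agent.Lib.MP_4269b5_al.Nv
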